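import Pool.Agent.H5.SW.L3

/-!
ROW L3b (transfer of the two conditions).  PROOF.  Let `T : Tw p m n K L M F`. `noNew_pair` gives `NoNewPositive M F`, `NoNewUnramified M F`. Let `x ∈ L`, `x ≠ 0`, with even valuations and `N_{L/K} x` a square in `K`.
The image `x'` in `F` has even valuations: for `W` a prime of `F`, `w = W ∩ 𝓞 L`, `W(x') = w(x)^e` (ramification index; Mathlib `valuation_liesOver`/`HeightOneSpectrum.valuation_comap`, or see Pool/Agent/H10 for
how valuations in extensions are compared), and `N_{F/M} x'` is the image of `N_{L/K} x` (`norm_compat`), a square.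
(a) `x` totally positive ⇒ `x'` totally positive (restrict embeddings of `F` to `L`) ⇒ `x'` square in `F` ⇒ `x` square in `L` (`sq_descent`).
(b) at `W ∣ 2`, take `t, m` for `w = W ∩ 𝓞 L ∋ 2`: `W(m) = w(m)^e = 1`, `W(x t^2 - m^2) = w(..)^e ≤ w(4)^e = W(4)`.
-/

set_option autoImplicit false

namespace H5SW

open NumberField IsDedekindDomain Pool.Agent.H10

/-- the prime below and the valuations -/
private lemma exists_val_below {L F : Type} [Field L] [NumberField L] [Field F] [NumberField F]
    [Algebra L F] (W : HeightOneSpectrum (𝓞 F)) :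
    ∃ (w : HeightOneSpectrum (𝓞 L)) (e : ℕ), w.asIdeal = W.asIdeal.under (𝓞 L) ∧
      ∀ x : L, w.valuation L x ^ e = W.valuation F (algebraMap L F x) := by
  let w : HeightOneSpectrum (𝓞 L) := ⟨W.asIdeal.under (𝓞 L), inferInstance,
    Ideal.IsIntegral.comap_ne_bot _ W.ne_bot⟩
  haveI : W.asIdeal.LiesOver w.asIdeal := ⟨rfl⟩
  exact ⟨w, _, rfl, fun x => HeightOneSpectrum.valuation_liesOver F w W x⟩

/-- evenness of the valuations upstairs -/
private lemma even_up {L F : Type} [Field L] [NumberField L] [Field F] [NumberField F]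
    [Algebra L F] {x : L}
    (hev : ∀ w : HeightOneSpectrum (𝓞 L), Even (WithZero.log (w.valuation L x)))
    (W : HeightOneSpectrum (𝓞 F)) :
    Even (WithZero.log (W.valuation F (algebraMap L F x))) := by
  obtain ⟨w, e, _, hw⟩ := exists_val_below (L := L) W
  rw [← hw x, WithZero.log_pow]
  exact (hev w).nsmul_right e

theorem noNew_of_tower {p k0 m n : ℕ} [Fact p.Prime] (hp2 : p ≠ 2) (hS : NV p k0) (hm : k0 ≤ m + 1) {K L M F : Type}
    [Field K] [NumberField K] [Field L] [NumberField L] [Field M]
    [NumberField M] [Field F] [NumberField F] [Algebra K L] [Algebra M F] [Algebra K M] [Algebra L F]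
    (T : Tw p m n K L M F) : NoNewPositive K L ∧ NoNewUnramified K L := by
  obtain ⟨h1, h2⟩ := noNew_pair hp2 hS hm T.rp
  have hsq : ∀ x : L, IsSquare (Algebra.norm K x) →
      IsSquare (Algebra.norm M (algebraMap L F x)) := by
    intro x hx
    rw [← T.norm_compat x]
    exact hx.map (algebraMap K M)
  refine ⟨fun x hx hev hn hpos => ?_, fun x hx hev hn h4 => ?_⟩
  · refine sq_descent hp2 T.rp.rL hx (fun w _ => hev w) ?_
    refine h1 (algebraMap L F x) (by rwa [Ne, map_eq_zero]) (even_up hev) (hsq x hn) fun φ => ?_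
    exact hpos (φ.comp (algebraMap L F))
  · refine sq_descent hp2 T.rp.rL hx (fun w _ => hev w) ?_
    refine h2 (algebraMap L F x) (by rwa [Ne, map_eq_zero]) (even_up hev) (hsq x hn)
      fun W hW => ?_
    obtain ⟨w, e, hwW, hval⟩ := exists_val_below (L := L) W
    have h2w : (2 : 𝓞 L) ∈ w.asIdeal := by
      rw [hwW]
      change algebraMap (𝓞 L) (𝓞 F) 2 ∈ W.asIdeal
      rwa [map_ofNat]
    obtain ⟨t, m', ht, hm1, hle⟩ := h4 w h2w
    refine ⟨algebraMap L F t, algebraMap L F m', by rwa [Ne, map_eq_zero], ?_, ?_⟩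
    · rw [← hval, hm1, one_pow]
    · have e1 : algebraMap L F x * algebraMap L F t ^ 2 - algebraMap L F m' ^ 2 =
          algebraMap L F (x * t ^ 2 - m' ^ 2) := by
        rw [map_sub, map_mul, map_pow, map_pow]
      have e2 : (4 : F) = algebraMap L F 4 := (map_ofNat (algebraMap L F) 4).symm
      rw [e1, e2, ← hval, ← hval]
      exact pow_le_pow_left' hle e

end H5SW
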