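import Pool.Agent.H5.SW.Ap

/-!
ROW Gn (Galois theory of a pair).  PROOF.  `P = p^(n-m)`.
(1) `K = ℚ(rK.c 1)`: the conjugates `rK.c u`, `u ∈ (ℤ/p^(m+1))^*/±1`, are distinct (`c_inj`) and their number is the degree (`K/ℚ` Galois with group
    `(ℤ/p^(m+1))^*/±1` by `surj`, `ker`). So `g ∈ Gal(L/ℚ)` is the identity on the image of `K` iff it fixes `algebraMap (rK.c 1) = rL.c P`
    (`compat` with `a = 1`). For `g = rL.σ u`: `g (rL.c P) = rL.c (u P)`, equal to `rL.c P` iff `u P = ± P` in `ZMod (p^(n+1))` (`c_inj`) iff `u ≡ ± 1 mod p^(m+1)`.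
    An automorphism of `L` over `ℚ` which is the identity on `K` is `h.restrictScalars ℚ` for an `h : L ≃ₐ[K] L`. Replace `u` by `-u` if necessary (`RC.σ_neg`).
(2) `L/ℚ` Galois, so `L/K` Galois: use `IsGalois.tower_top_of_isGalois ℚ K L` (needs `IsScalarTower ℚ K L`, automatic for `ℚ`).
(3) `[L:K] = |Gal(L/K)| = #{u : u ≡ 1 mod p^(m+1)} = p^(n-m)` (two such `u` give the same automorphism iff they are equal up to sign, and `-u ≢ 1`); or
    `[L:ℚ] = φ(p^(n+1))/2`, `[K:ℚ] = φ(p^(m+1))/2`.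
(4) `norm_d`: `algebraMap (N (2 - rL.c u)) = ∏_{h ∈ Gal(L/K)} h (2 - rL.c u) = ∏_{j<P} (2 - rL.c (u (1 + p^(m+1) j)))`, apply `rL.φ`: `2 - 2 cos(θ + 2πj'/P)`
    `= |1 - ξ|^2` products: `∏_{j<P} (1 - ζ_P^j Y) = 1 - Y^P`, so it is `2 - 2 cos (P θ)`, i.e. `rL.c (P u)`; `= algebraMap (2 - rK.c ū)` by `compat`.
    State it through `RC.d`: for `g = rL.σ u`.
-/

set_option autoImplicit false

namespace H5SW

open NumberField

variable {p m n : ℕ} {K L : Type} [Field K] [NumberField K] [Field L] [NumberField L] [Algebra K L]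

/-! auxiliary lemmas -/

private lemma Gn_normSq (x : ℝ) :
    Complex.normSq (1 - Complex.exp ((x : ℂ) * Complex.I)) = 2 - 2 * Real.cos x := by
  rw [Complex.normSq_apply]
  have h1 : (1 - Complex.exp ((x : ℂ) * Complex.I)).re = 1 - Real.cos x := by
    rw [Complex.sub_re, Complex.one_re, Complex.exp_ofReal_mul_I_re]
  have h2 : (1 - Complex.exp ((x : ℂ) * Complex.I)).im = - Real.sin x := by
    rw [Complex.sub_im, Complex.one_im, Complex.exp_ofReal_mul_I_im]; ring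
  rw [h1, h2]
  nlinarith [Real.sin_sq_add_cos_sq x]

private lemma Gn_prod (P : ℕ) (hP : 0 < P) (θ : ℝ) :
    ∏ j ∈ Finset.range P, (2 - 2 * Real.cos (θ + 2 * Real.pi * (j : ℝ) / P)) =
      2 - 2 * Real.cos ((P : ℝ) * θ) := by
  have hP0 : (P : ℂ) ≠ 0 := by exact_mod_cast hP.ne'
  have hζ : IsPrimitiveRoot (Complex.exp (2 * Real.pi * Complex.I / P)) P :=
    Complex.isPrimitiveRoot_exp P hP.ne'
  have h1 := X_pow_sub_C_eq_prod hζ hP
    (rfl : (Complex.exp ((θ : ℂ) * Complex.I)) ^ P = (Complex.exp ((θ : ℂ) * Complex.I)) ^ P)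
  have h2 := congrArg (fun q : Polynomial ℂ => Complex.normSq (q.eval 1)) h1
  simp only [Polynomial.eval_sub, Polynomial.eval_pow, Polynomial.eval_X, one_pow, Polynomial.eval_C,
    Polynomial.eval_prod, map_prod] at h2
  have h3 : (Complex.exp ((θ : ℂ) * Complex.I)) ^ P = Complex.exp ((((P : ℝ) * θ : ℝ) : ℂ) * Complex.I) := by
    rw [← Complex.exp_nat_mul]
    push_cast
    ring_nf
  rw [h3, Gn_normSq] at h2
  rw [h2]
  refine Finset.prod_congr rfl fun j _ => ?_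
  rw [← Complex.exp_nat_mul, ← Complex.exp_add]
  have h4 : (j : ℂ) * (2 * Real.pi * Complex.I / P) + (θ : ℂ) * Complex.I =
      ((θ + 2 * Real.pi * (j : ℝ) / P : ℝ) : ℂ) * Complex.I := by
    push_cast
    ring
  rw [h4, Gn_normSq]

private lemma Gn_two_lt [Fact p.Prime] (hp2 : p ≠ 2) (k : ℕ) : 2 < p ^ (k + 1) := by
  have h1 : 2 < p := lt_of_le_of_ne (Fact.out : p.Prime).two_le (Ne.symm hp2)
  calc 2 < p := h1
    _ ≤ p ^ (k + 1) := Nat.le_self_pow (Nat.succ_ne_zero k) p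

private lemma Gn_card {f : ℕ} {L : Type} [Field L] [NumberField L] (r : RC f L) :
    2 * Module.finrank ℚ L = f.totient := by
  have := r.gal
  have := r.neZero
  have : Fact (2 < f) := ⟨r.two_lt⟩
  rw [← IsGalois.card_aut_eq_finrank, ← ZMod.card_units_eq_totient, ← Nat.card_eq_fintype_card]
  have h1 := r.σ.ker.card_mul_index
  rw [Subgroup.index_ker] at h1
  have h2 : Nat.card r.σ.range = Nat.card (L ≃ₐ[ℚ] L) := by
    rw [MonoidHom.range_eq_top.mpr r.surj]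
    exact Nat.card_congr Subgroup.topEquiv.toEquiv
  rw [h2] at h1
  have h3 : Nat.card r.σ.ker = 2 := by
    have h4 : (r.σ.ker : Set (ZMod f)ˣ) = {1, -1} := by
      ext u
      simp only [SetLike.mem_coe, MonoidHom.mem_ker, Set.mem_insert_iff, Set.mem_singleton_iff]
      exact r.ker u
    have h5 : (1 : (ZMod f)ˣ) ≠ -1 := by
      intro h
      have h6 := congrArg (fun u : (ZMod f)ˣ => (u : ZMod f)) h
      simp only [Units.val_one, Units.val_neg] at h6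
      exact ZMod.neg_one_ne_one h6.symm
    change Nat.card (r.σ.ker : Set (ZMod f)ˣ) = 2
    rw [h4, Nat.card_coe_set_eq, Set.ncard_pair h5]
  rw [h3] at h1
  exact h1

/-- an automorphism fixing `c 1` is trivial -/
private lemma Gn_fix {f : ℕ} {L : Type} [Field L] [NumberField L] (r : RC f L) (g : L ≃ₐ[ℚ] L)
    (h : g (r.c 1 : L) = (r.c 1 : L)) : g = 1 := by
  rw [r.apply_c, mul_one] at h
  have h1 : r.c (r.u g) = r.c 1 := RingOfIntegers.coe_injective h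
  rw [← r.σ_u g, r.ker]
  rcases r.c_inj h1 with h2 | h2
  · left; exact Units.ext h2
  · right; exact Units.ext (by rw [h2, Units.val_neg, Units.val_one])

private lemma Gn_adjoin {f : ℕ} {L : Type} [Field L] [NumberField L] (r : RC f L) :
    IntermediateField.adjoin ℚ {(r.c 1 : L)} = ⊤ := by
  have := r.gal
  have h1 : IntermediateField.fixingSubgroup (IntermediateField.adjoin ℚ {(r.c 1 : L)}) = ⊥ := by
    rw [eq_bot_iff]
    intro g hg
    rw [Subgroup.mem_bot]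
    apply Gn_fix r
    exact (IntermediateField.mem_fixingSubgroup_iff _ _).mp hg _
      (IntermediateField.mem_adjoin_simple_self ℚ (r.c 1 : L))
  have h2 := IsGalois.fixedField_fixingSubgroup (IntermediateField.adjoin ℚ {(r.c 1 : L)})
  rw [← h2, h1]
  exact IntermediateField.fixedField_bot

theorem RP.isGalois (r : RP p m n K L) : IsGalois K L := by
  have := r.rL.gal
  exact IsGalois.tower_top_of_isGalois ℚ K L

private lemma Gn_cast [Fact p.Prime] (hmn : m ≤ n) (u : (ZMod (p ^ (n + 1)))ˣ) :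
    ((ZMod.unitsMap (pow_dvd_pow p (Nat.succ_le_succ hmn)) u : (ZMod (p ^ (m + 1)))ˣ) : ZMod (p ^ (m + 1))) =
      (((u : ZMod (p ^ (n + 1))).val : ℕ) : ZMod (p ^ (m + 1))) := by
  have : NeZero (p ^ (n + 1)) := ⟨pow_ne_zero _ (Fact.out : p.Prime).ne_zero⟩
  rw [ZMod.unitsMap_val, ZMod.natCast_val]

private lemma Gn_P (hmn : m ≤ n) : p ^ (n + 1) = p ^ (n - m) * p ^ (m + 1) := by
  rw [← pow_add]
  congr 1
  omega

/-- `P x = P y` in `ZMod (p ^ (n + 1))` iff `x = y` in `ZMod (p ^ (m + 1))` -/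
private lemma Gn_mulP [Fact p.Prime] (hmn : m ≤ n) (x y : ℤ) :
    (((p ^ (n - m) : ℕ) : ℤ) * x : ZMod (p ^ (n + 1))) = ((p ^ (n - m) : ℕ) : ℤ) * y ↔
      (x : ZMod (p ^ (m + 1))) = y := by
  have hP : ((p ^ (n - m) : ℕ) : ℤ) ≠ 0 := by
    exact_mod_cast pow_ne_zero _ (Fact.out : p.Prime).ne_zero
  rw [← Int.cast_mul, ← Int.cast_mul, ZMod.intCast_eq_intCast_iff, ZMod.intCast_eq_intCast_iff,
    Int.modEq_iff_dvd, Int.modEq_iff_dvd, ← mul_sub, Gn_P hmn, Nat.cast_mul]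
  exact mul_dvd_mul_iff_left hP

private lemma Gn_unit_iff [Fact p.Prime] (hmn : m ≤ n) (u v : (ZMod (p ^ (n + 1)))ˣ) :
    ((p ^ (n - m) : ℕ) : ZMod (p ^ (n + 1))) * u = ((p ^ (n - m) : ℕ) : ZMod (p ^ (n + 1))) * v ↔
      ZMod.unitsMap (pow_dvd_pow p (Nat.succ_le_succ hmn)) u =
        ZMod.unitsMap (pow_dvd_pow p (Nat.succ_le_succ hmn)) v := by
  have : NeZero (p ^ (n + 1)) := ⟨pow_ne_zero _ (Fact.out : p.Prime).ne_zero⟩
  have h := Gn_mulP (p := p) hmn ((u : ZMod (p ^ (n + 1))).val : ℤ) ((v : ZMod (p ^ (n + 1))).val : ℤ)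
  simp only [Int.cast_natCast, ZMod.natCast_zmod_val] at h
  rw [h, Units.ext_iff, Gn_cast hmn, Gn_cast hmn]

private lemma Gn_neg [Fact p.Prime] (hmn : m ≤ n) (u : (ZMod (p ^ (n + 1)))ˣ) :
    ZMod.unitsMap (pow_dvd_pow p (Nat.succ_le_succ hmn)) (-u) =
      - ZMod.unitsMap (pow_dvd_pow p (Nat.succ_le_succ hmn)) u := by
  rw [ZMod.unitsMap_def]
  ext
  simp

private lemma Gn_one_ne [Fact p.Prime] (hp2 : p ≠ 2) (k : ℕ) : (1 : (ZMod (p ^ (k + 1)))ˣ) ≠ -1 := by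
  intro h
  have h6 := congrArg (fun u : (ZMod (p ^ (k + 1)))ˣ => (u : ZMod (p ^ (k + 1)))) h
  simp only [Units.val_one, Units.val_neg] at h6
  have : Fact (2 < p ^ (k + 1)) := ⟨Gn_two_lt hp2 k⟩
  exact ZMod.neg_one_ne_one h6.symm

/-- the automorphism `σ u` with `u ≡ 1` is the identity on `K` -/
private lemma Gn_id [Fact p.Prime] (r : RP p m n K L) (u : (ZMod (p ^ (n + 1)))ˣ)
    (hu : ZMod.unitsMap (pow_dvd_pow p (Nat.succ_le_succ r.hmn)) u = 1) (x : K) :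
    r.rL.σ u (algebraMap K L x) = algebraMap K L x := by
  have h0 : r.rL.σ u (algebraMap K L (r.rK.c 1 : K)) = algebraMap K L (r.rK.c 1 : K) := by
    have h1 := r.compat 1
    rw [Nat.cast_one, mul_one] at h1
    rw [h1, r.rL.hσ]
    have h2 := (Gn_unit_iff r.hmn u 1).mpr (by rw [hu, map_one])
    rw [Units.val_one, mul_one, mul_comm] at h2
    rw [h2]
  let E : IntermediateField ℚ K :=
    IntermediateField.comap (IsScalarTower.toAlgHom ℚ K L) (IntermediateField.fixedField (Subgroup.zpowers (r.rL.σ u)))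
  have h1 : IntermediateField.adjoin ℚ {(r.rK.c 1 : K)} ≤ E := by
    rw [IntermediateField.adjoin_simple_le_iff]
    change algebraMap K L (r.rK.c 1 : K) ∈ IntermediateField.fixedField (Subgroup.zpowers (r.rL.σ u))
    rw [IntermediateField.mem_fixedField_iff]
    intro f hf
    obtain ⟨k, rfl⟩ := Subgroup.mem_zpowers_iff.mp hf
    have h2 : r.rL.σ u ∈ MulAction.stabilizer (L ≃ₐ[ℚ] L) (algebraMap K L (r.rK.c 1 : K)) := h0
    exact Subgroup.zpow_mem _ h2 k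
  rw [Gn_adjoin r.rK] at h1
  have h2 : x ∈ E := h1 trivial
  have h3 : algebraMap K L x ∈ IntermediateField.fixedField (Subgroup.zpowers (r.rL.σ u)) := h2
  rw [IntermediateField.mem_fixedField_iff] at h3
  exact h3 _ (Subgroup.mem_zpowers _)

private lemma Gn_exists [Fact p.Prime] (r : RP p m n K L) (u : (ZMod (p ^ (n + 1)))ˣ)
    (hu : ZMod.unitsMap (pow_dvd_pow p (Nat.succ_le_succ r.hmn)) u = 1) :
    ∃ h : L ≃ₐ[K] L, h.restrictScalars ℚ = r.rL.σ u := by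
  refine ⟨AlgEquiv.ofRingEquiv (f := (r.rL.σ u).toRingEquiv) (fun x => Gn_id r u hu x), ?_⟩
  ext x
  rfl

private lemma Gn_res_inj {g h : L ≃ₐ[K] L} (e : g.restrictScalars ℚ = h.restrictScalars ℚ) : g = h := by
  ext x
  exact congrArg (fun k : L ≃ₐ[ℚ] L => k x) e

private lemma Gn_uniq [Fact p.Prime] (hp2 : p ≠ 2) (r : RP p m n K L) {u v : (ZMod (p ^ (n + 1)))ˣ}
    (hu : ZMod.unitsMap (pow_dvd_pow p (Nat.succ_le_succ r.hmn)) u = 1)
    (hv : ZMod.unitsMap (pow_dvd_pow p (Nat.succ_le_succ r.hmn)) v = 1)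
    (h : r.rL.σ u = r.rL.σ v) : u = v := by
  have h1 : r.rL.σ (u * v⁻¹) = 1 := by rw [map_mul, map_inv, h, mul_inv_cancel]
  rcases (r.rL.ker _).mp h1 with h2 | h2
  · exact mul_inv_eq_one.mp h2
  · exfalso
    rw [mul_inv_eq_iff_eq_mul, neg_one_mul] at h2
    rw [h2, Gn_neg r.hmn, hv] at hu
    exact Gn_one_ne hp2 m hu.symm

theorem RP.mem_iff [Fact p.Prime] (hp2 : p ≠ 2) (r : RP p m n K L) (g : L ≃ₐ[ℚ] L) :
    (∃ h : L ≃ₐ[K] L, h.restrictScalars ℚ = g) ↔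
      ∃ u : (ZMod (p ^ (n + 1)))ˣ, ZMod.unitsMap (pow_dvd_pow p (Nat.succ_le_succ r.hmn)) u = 1 ∧
        r.rL.σ u = g := by
  constructor
  · rintro ⟨h, rfl⟩
    set g : L ≃ₐ[ℚ] L := h.restrictScalars ℚ with hg
    have h0 : g (algebraMap K L (r.rK.c 1 : K)) = algebraMap K L (r.rK.c 1 : K) := h.commutes _
    have h1 := r.compat 1
    rw [Nat.cast_one, mul_one] at h1
    rw [h1, r.rL.apply_c] at h0
    have h2 := r.rL.c_inj (RingOfIntegers.coe_injective h0)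
    rw [mul_comm] at h2
    rcases h2 with h2 | h2
    · refine ⟨r.rL.u g, ?_, r.rL.σ_u g⟩
      have h3 := (Gn_unit_iff r.hmn (r.rL.u g) 1).mp (by rw [h2, Units.val_one, mul_one])
      rw [h3, map_one]
    · refine ⟨-r.rL.u g, ?_, by rw [r.rL.σ_neg, r.rL.σ_u]⟩
      have h3 := (Gn_unit_iff r.hmn (-r.rL.u g) 1).mp (by rw [Units.val_neg, mul_neg, h2, neg_neg, Units.val_one, mul_one])
      rw [h3, map_one]
  · rintro ⟨u, hu, rfl⟩
    exact Gn_exists r u hu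

theorem RP.finrank [Fact p.Prime] (hp2 : p ≠ 2) (r : RP p m n K L) : Module.finrank K L = p ^ (n - m) := by
  have hp : p.Prime := Fact.out
  have h1 := Gn_card r.rL
  have h2 := Gn_card r.rK
  rw [Nat.totient_prime_pow hp (Nat.succ_pos _), Nat.succ_sub_one] at h1 h2
  have h3 := Module.finrank_mul_finrank ℚ K L
  have h4 : p ^ n = p ^ (n - m) * p ^ m := by
    rw [← pow_add]
    congr 1
    have := r.hmn
    omega
  have hK : 0 < Module.finrank ℚ K := Module.finrank_pos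
  have h5 : 2 * Module.finrank ℚ K * Module.finrank K L = 2 * Module.finrank ℚ K * p ^ (n - m) := by
    rw [mul_assoc, h3, h1, h2, h4]
    ring
  exact Nat.eq_of_mul_eq_mul_left (by positivity) h5

private lemma Gn_cop [Fact p.Prime] (hmn : m ≤ n) (u : (ZMod (p ^ (n + 1)))ˣ) (j : ℕ) :
    Nat.Coprime ((u : ZMod (p ^ (n + 1))).val + p ^ (m + 1) * j) (p ^ (n + 1)) := by
  have hp : p.Prime := Fact.out
  have h1 : Nat.Coprime (u : ZMod (p ^ (n + 1))).val (p ^ (n + 1)) := ZMod.val_coe_unit_coprime u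
  have h2 : Nat.Coprime (u : ZMod (p ^ (n + 1))).val p := Nat.Coprime.coprime_dvd_right (dvd_pow_self p (Nat.succ_ne_zero n)) h1
  apply Nat.Coprime.pow_right
  rw [Nat.coprime_comm, hp.coprime_iff_not_dvd] at h2 ⊢
  intro h
  apply h2
  exact (Nat.dvd_add_left (Dvd.dvd.mul_right (dvd_pow_self p (Nat.succ_ne_zero m)) j)).mp h

/-- the units congruent to `u` -/
private noncomputable def Gn_w [Fact p.Prime] (hmn : m ≤ n) (u : (ZMod (p ^ (n + 1)))ˣ) (j : ℕ) :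
    (ZMod (p ^ (n + 1)))ˣ := ZMod.unitOfCoprime _ (Gn_cop hmn u j)

private lemma Gn_w_coe [Fact p.Prime] (hmn : m ≤ n) (u : (ZMod (p ^ (n + 1)))ˣ) (j : ℕ) :
    ((Gn_w hmn u j : (ZMod (p ^ (n + 1)))ˣ) : ZMod (p ^ (n + 1))) =
      (((u : ZMod (p ^ (n + 1))).val + p ^ (m + 1) * j : ℕ) : ZMod (p ^ (n + 1))) :=
  ZMod.coe_unitOfCoprime _ _

private lemma Gn_w_map [Fact p.Prime] (hmn : m ≤ n) (u : (ZMod (p ^ (n + 1)))ˣ) (j : ℕ) :
    ZMod.unitsMap (pow_dvd_pow p (Nat.succ_le_succ hmn)) (Gn_w hmn u j * u⁻¹) = 1 := by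
  rw [map_mul, map_inv, mul_inv_eq_one]
  apply Units.ext
  have h1 : ∀ v : (ZMod (p ^ (n + 1)))ˣ, ((ZMod.unitsMap (pow_dvd_pow p (Nat.succ_le_succ hmn)) v :
      (ZMod (p ^ (m + 1)))ˣ) : ZMod (p ^ (m + 1))) =
      ZMod.castHom (pow_dvd_pow p (Nat.succ_le_succ hmn)) (ZMod (p ^ (m + 1))) (v : ZMod (p ^ (n + 1))) :=
    fun v => rfl
  rw [h1, Gn_w_coe, map_natCast, Gn_cast hmn, Nat.cast_add, Nat.cast_mul, ZMod.natCast_self, zero_mul,
    add_zero]

private lemma Gn_w_inj [Fact p.Prime] (hmn : m ≤ n) (u : (ZMod (p ^ (n + 1)))ˣ) {i j : ℕ}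
    (hi : i < p ^ (n - m)) (hj : j < p ^ (n - m)) (h : Gn_w hmn u i = Gn_w hmn u j) : i = j := by
  have hp : p.Prime := Fact.out
  have h1 := congrArg (fun v : (ZMod (p ^ (n + 1)))ˣ => (v : ZMod (p ^ (n + 1)))) h
  simp only [Gn_w_coe] at h1
  rw [ZMod.natCast_eq_natCast_iff] at h1
  have h2 := Nat.ModEq.add_left_cancel' _ h1
  rw [Gn_P hmn, mul_comm (p ^ (n - m)) (p ^ (m + 1))] at h2
  have h3 := Nat.ModEq.mul_left_cancel' (pow_ne_zero _ hp.ne_zero) h2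
  exact Nat.ModEq.eq_of_lt_of_lt h3 hi hj

private lemma Gn_w_final [Fact p.Prime] (r : RP p m n K L) (hp2 : p ≠ 2) (u : (ZMod (p ^ (n + 1)))ˣ) :
    ∏ j : Fin (p ^ (n - m)), ((2 : ℝ) - 2 * Real.cos (2 * Real.pi *
      (((u : ZMod (p ^ (n + 1))).val + p ^ (m + 1) * (j : ℕ) : ℕ) : ℝ) / ((p ^ (n + 1) : ℕ) : ℝ))) =
    2 - 2 * Real.cos (2 * Real.pi * ((p ^ (n - m) * (u : ZMod (p ^ (n + 1))).val : ℕ) : ℝ) /
      ((p ^ (n + 1) : ℕ) : ℝ)) := by
  have hp : p.Prime := Fact.out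
  have hP : 0 < p ^ (n - m) := pow_pos hp.pos _
  have h1 := Gn_prod (p ^ (n - m)) hP (2 * Real.pi * (u : ZMod (p ^ (n + 1))).val / ((p ^ (n + 1) : ℕ) : ℝ))
  have h2 : (2 : ℝ) - 2 * Real.cos (2 * Real.pi * ((p ^ (n - m) * (u : ZMod (p ^ (n + 1))).val : ℕ) : ℝ) /
      ((p ^ (n + 1) : ℕ) : ℝ)) = 2 - 2 * Real.cos (((p ^ (n - m) : ℕ) : ℝ) *
      (2 * Real.pi * (u : ZMod (p ^ (n + 1))).val / ((p ^ (n + 1) : ℕ) : ℝ))) := by
    congr 3
    push_cast
    ring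
  rw [h2, ← h1, Finset.prod_range]
  refine Finset.prod_congr rfl fun j _ => ?_
  have h3 : ((p ^ (n + 1) : ℕ) : ℝ) = ((p ^ (n - m) : ℕ) : ℝ) * ((p ^ (m + 1) : ℕ) : ℝ) := by
    exact_mod_cast Gn_P r.hmn
  have h4 : ((p ^ (n - m) : ℕ) : ℝ) ≠ 0 := by exact_mod_cast hP.ne'
  have h5 : ((p ^ (m + 1) : ℕ) : ℝ) ≠ 0 := by exact_mod_cast (pow_pos hp.pos (m + 1)).ne'
  rw [h3]
  congr 3
  push_cast at h4 h5 ⊢
  field_simp

theorem RP.norm_d [Fact p.Prime] (hp2 : p ≠ 2) (r : RP p m n K L) (u : (ZMod (p ^ (n + 1)))ˣ) :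
    Algebra.norm K (r.rL.d (r.rL.σ u)) =
      r.rK.d (r.rK.σ (ZMod.unitsMap (pow_dvd_pow p (Nat.succ_le_succ r.hmn)) u)) := by
  have hp : p.Prime := Fact.out
  have hgal : IsGalois K L := r.isGalois
  have hP : 0 < p ^ (n - m) := pow_pos hp.pos _
  apply (algebraMap K L).injective
  rw [Algebra.norm_eq_prod_automorphisms]
  have hR : algebraMap K L (r.rK.d (r.rK.σ (ZMod.unitsMap (pow_dvd_pow p (Nat.succ_le_succ r.hmn)) u))) =
      2 - (r.rL.c ((p ^ (n - m) * (u : ZMod (p ^ (n + 1))).val : ℕ) : ZMod (p ^ (n + 1))) : L) := by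
    rw [RC.d, r.rK.e_σ, Gn_cast r.hmn, map_sub, r.compat, map_ofNat]
  rw [hR]
  apply r.rL.φ.injective
  rw [map_prod, map_sub, map_ofNat, r.rL.φ_c_nat]
  let F : Fin (p ^ (n - m)) → (L ≃ₐ[K] L) := fun j =>
    (Gn_exists r (Gn_w r.hmn u j * u⁻¹) (Gn_w_map r.hmn u j)).choose
  have hF : ∀ j, (F j).restrictScalars ℚ = r.rL.σ (Gn_w r.hmn u j * u⁻¹) := fun j =>
    (Gn_exists r (Gn_w r.hmn u j * u⁻¹) (Gn_w_map r.hmn u j)).choose_spec
  have hinj : Function.Injective F := by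
    intro i j hij
    have h1 := congrArg (fun g : L ≃ₐ[K] L => g.restrictScalars ℚ) hij
    simp only [hF] at h1
    have h2 := Gn_uniq hp2 r (Gn_w_map r.hmn u i) (Gn_w_map r.hmn u j) h1
    exact Fin.ext (Gn_w_inj r.hmn u i.2 j.2 (mul_right_cancel h2))
  have hbij : Function.Bijective F := by
    rw [Fintype.bijective_iff_injective_and_card]
    refine ⟨hinj, ?_⟩
    rw [Fintype.card_fin, ← Nat.card_eq_fintype_card, IsGalois.card_aut_eq_finrank, r.finrank hp2]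
  rw [← hbij.prod_comp, ← Gn_w_final r hp2 u]
  refine Finset.prod_congr rfl fun j _ => ?_
  have h1 : (F j) (r.rL.d (r.rL.σ u)) = r.rL.σ (Gn_w r.hmn u j * u⁻¹) (r.rL.d (r.rL.σ u)) := by
    rw [← hF j]
    rfl
  rw [h1, RC.d, r.rL.e_σ, map_sub, map_ofNat, r.rL.hσ, ← Units.val_mul, inv_mul_cancel_right, Gn_w_coe,
    map_sub, map_ofNat, r.rL.φ_c_nat]

end H5SW
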