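import Pool.Agent.H5.SW.Ca
import Pool.Agent.H5.SW.Gn
import Pool.Agent.H10.RelVal

/-!
ROW L4 (one prime above each prime over `q`, pair of maximal real subfields).  PROOF.  `G = Gal(F/ℚ)` cyclic of order `p^n (p-1)/2` (image of the cyclic group `(ZMod (p^(n+1)))ˣ`), `s = rF.σ q ∈ G`.
(1) `p^(n-m) ∣ orderOf s`: LTE: `v_p(q^((p-1) l) - 1) = v_p(q^(p-1) - 1) + v_p(l) ≤ t + v_p(l)`. If `o = orderOf s` then `q^o ≡ ± 1 mod p^(n+1)`, so `p^(n+1) ∣ q^((p-1) 2 o) - 1`... (use `l = 2 o` or `q^(2o) ≡ 1`; `(p-1) ∣ `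
    not needed: `q^(2 o (p-1)) ≡ 1`), `n + 1 ≤ t + v_p(2 o) = t + v_p(o)`, so `v_p(o) ≥ n + 1 - t ≥ n - m` by `ht`.
(2) `Gal(F/M)` has order `p^(n-m)` (`RP.finrank`, `RP.isGalois`), `G` is cyclic, so `Gal(F/M) ⊆ ⟨s⟩`.
(3) `s` maps every prime `P ∋ q` into itself (`frob_above`: `x ∈ P ⇒ s x ∈ P`), hence so do all elements of `Gal(F/M)`.
(4) `Gal(F/M)` acts transitively on the primes of `F` above a prime `v` of `M` (Mathlib `Ideal.exists_smul_eq_of_comap_eq`/`IsGalois` transitivity; `Algebra.IsInvariant`), so if `P, Q` both contain `v 𝓞 F`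
    (`v ∋ q`, `v ≠ 0` maximal, so `P ∩ 𝓞 M = v = Q ∩ 𝓞 M`), `Q = g P = P`.
-/

set_option autoImplicit false

namespace H5SW

open NumberField IsDedekindDomain Pool.Agent.H10
open scoped Pointwise

/-- lifting the exponent -/
theorem L4_dvd {p n t q o : ℕ} [Fact p.Prime] (hp2 : p ≠ 2) (hq : q.Prime) (hqp : q ≠ p)
    (ht : ¬ p ^ (t + 1) ∣ q ^ (p - 1) - 1) (ho : o ≠ 0) (h : p ^ (n + 1) ∣ q ^ o - 1) :
    p ^ (n + 1 - t) ∣ o := by
  have hp := (Fact.out : p.Prime)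
  have hp1 : p - 1 ≠ 0 := by have := hp.two_le; omega
  have hpq : ¬ p ∣ q := fun h' => hqp ((Nat.prime_dvd_prime_iff_eq hp hq).mp h').symm
  have hq1 : 1 < q := hq.one_lt
  have hlt : 1 < q ^ (p - 1) := Nat.one_lt_pow hp1 hq1
  have hfer : p ∣ q ^ (p - 1) - 1 := by
    have h1 : q ^ (p - 1) ≡ 1 [MOD p] :=
      Nat.ModEq.pow_card_sub_one_eq_one hp ((Nat.coprime_primes hq hp).mpr hqp)
    exact (Nat.modEq_iff_dvd' hlt.le).mp h1.symm
  have hodd : Odd p := hp.odd_of_ne_two hp2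
  have hlte := padicValNat.pow_sub_pow (p := p) hodd hlt hfer (fun h' => hpq (hp.dvd_of_dvd_pow h')) ho
  rw [one_pow] at hlte
  have hne : (q ^ (p - 1)) ^ o - 1 ≠ 0 := by
    have := Nat.one_lt_pow ho hlt
    omega
  have hdvd : p ^ (n + 1) ∣ (q ^ (p - 1)) ^ o - 1 := by
    refine h.trans ?_
    rw [← pow_mul, mul_comm, pow_mul]
    have := Nat.sub_dvd_pow_sub_pow (q ^ o) 1 (p - 1)
    rwa [one_pow] at this
  have h1 : n + 1 ≤ padicValNat p ((q ^ (p - 1)) ^ o - 1) :=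
    (padicValNat_dvd_iff_le hne).mp hdvd
  have h2 : padicValNat p (q ^ (p - 1) - 1) ≤ t := by
    by_contra hcon
    rw [not_le] at hcon
    exact ht ((padicValNat_dvd_iff_le (by omega)).mpr hcon)
  have h3 : n + 1 - t ≤ padicValNat p o := by omega
  exact (padicValNat_dvd_iff_le ho).mpr h3

theorem L4_cyc {C : Type} [Group C] [Finite C] [IsCyclic C] {x g : C} {N : ℕ} (hx : x ^ N = 1)
    (hN : N ∣ orderOf g) : x ∈ Subgroup.zpowers g := by
  classical
  haveI := Fintype.ofFinite C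
  have ho : orderOf g ≠ 0 := (orderOf_pos g).ne'
  have hN0 : 0 < N := Nat.pos_of_dvd_of_pos hN (orderOf_pos g)
  have h1 : orderOf (g ^ (orderOf g / N)) = N := orderOf_pow_orderOf_div ho hN
  have h2 : ((Subgroup.zpowers (g ^ (orderOf g / N)) : Set C)).toFinset =
      Finset.univ.filter (fun b : C => b ^ N = 1) := by
    apply Finset.eq_of_subset_of_card_le
    · intro b hb
      rw [Set.mem_toFinset] at hb
      rw [Finset.mem_filter]
      refine ⟨Finset.mem_univ _, ?_⟩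
      obtain ⟨k, rfl⟩ := hb
      show ((g ^ (orderOf g / N)) ^ k) ^ N = 1
      have h1' : (g ^ (orderOf g / N)) ^ N = 1 := by
        have := pow_orderOf_eq_one (g ^ (orderOf g / N))
        rwa [h1] at this
      rw [← zpow_natCast, ← zpow_mul, mul_comm, zpow_mul, zpow_natCast, h1', one_zpow]
    · refine (IsCyclic.card_pow_eq_one_le hN0).trans ?_
      rw [Set.toFinset_card]
      have := Fintype.card_zpowers (x := g ^ (orderOf g / N))
      rw [h1] at this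
      exact le_of_eq this.symm
  have h3 : x ∈ ((Subgroup.zpowers (g ^ (orderOf g / N)) : Set C)).toFinset := by
    rw [h2, Finset.mem_filter]
    exact ⟨Finset.mem_univ _, hx⟩
  rw [Set.mem_toFinset] at h3
  have h4 : Subgroup.zpowers (g ^ (orderOf g / N)) ≤ Subgroup.zpowers g := by
    rw [Subgroup.zpowers_le]
    exact Subgroup.npow_mem_zpowers g _
  exact h4 h3

theorem L4_ker {p m n : ℕ} [Fact p.Prime] (hmn : m ≤ n) (u : (ZMod (p ^ (n + 1)))ˣ)
    (hu : ZMod.unitsMap (pow_dvd_pow p (Nat.succ_le_succ hmn)) u = 1) : u ^ (p ^ (n - m)) = 1 := by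
  have hp := (Fact.out : p.Prime)
  have hp0 : 0 < p - 1 := by have := hp.two_le; omega
  haveI : NeZero (p ^ (n + 1)) := ⟨(pow_pos hp.pos _).ne'⟩
  haveI : NeZero (p ^ (m + 1)) := ⟨(pow_pos hp.pos _).ne'⟩
  have hsurj := ZMod.unitsMap_surjective (pow_dvd_pow p (Nat.succ_le_succ hmn))
  have h1 := (ZMod.unitsMap (pow_dvd_pow p (Nat.succ_le_succ hmn))).ker.card_mul_index
  rw [Subgroup.index_ker, MonoidHom.range_eq_top.mpr hsurj, Subgroup.card_top, Nat.card_eq_fintype_card,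
    Nat.card_eq_fintype_card, Nat.card_eq_fintype_card, ZMod.card_units_eq_totient,
    ZMod.card_units_eq_totient, Nat.totient_prime_pow_succ hp, Nat.totient_prime_pow_succ hp,
    ← mul_assoc] at h1
  have h2 := Nat.eq_of_mul_eq_mul_right hp0 h1
  have h3 : p ^ n = p ^ (n - m) * p ^ m := by rw [← pow_add, Nat.sub_add_cancel hmn]
  rw [h3] at h2
  have h4 := Nat.eq_of_mul_eq_mul_right (pow_pos hp.pos m) h2
  rw [← Nat.card_eq_fintype_card] at h4
  have h5 : (⟨u, hu⟩ : (ZMod.unitsMap (pow_dvd_pow p (Nat.succ_le_succ hmn))).ker) ^ (p ^ (n - m)) = 1 := by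
    rw [← h4]
    exact pow_card_eq_one'
  exact congrArg Subtype.val h5

theorem L4_stab {p n : ℕ} [Fact p.Prime] (hp2 : p ≠ 2) {F : Type} [Field F] [NumberField F]
    (r : RC (p ^ (n + 1)) F) {q : ℕ} (hq : q.Prime) (hqp : q.Coprime (p ^ (n + 1))) (P : Ideal (𝓞 F))
    (hP : P.IsPrime) (hqP : (q : 𝓞 F) ∈ P) (k : ℕ) : ∀ x ∈ P, ∃ y ∈ P,
      (y : F) = (r.σ (ZMod.unitOfCoprime q hqp) ^ k) (x : F) := by
  induction k with
  | zero =>
    intro x hx
    exact ⟨x, hx, rfl⟩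
  | succ k ih =>
    intro x hx
    obtain ⟨y, hy, hyx⟩ := ih x hx
    obtain ⟨w, hw, hwy⟩ := frob_above hp2 r hq hqp P hP hqP y
    refine ⟨w, ?_, ?_⟩
    · have h1 : y ^ q ∈ P := Ideal.pow_mem_of_mem P hy q hq.pos
      have h2 := P.add_mem hwy h1
      rwa [sub_add_cancel] at h2
    · rw [hw, hyx, pow_succ' (r.σ (ZMod.unitOfCoprime q hqp)) k, AlgEquiv.mul_apply]

theorem unique_pair {p m n : ℕ} [Fact p.Prime] (hp2 : p ≠ 2) {M F : Type} [Field M] [NumberField M] [Field F]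
    [NumberField F] [Algebra M F] (r : RP p m n M F) {q t : ℕ} (hq : q.Prime) (hqp : q ≠ p)
    (ht : ¬ p ^ (t + 1) ∣ q ^ (p - 1) - 1) (htm : t ≤ m + 1) (v : HeightOneSpectrum (𝓞 M)) (hv : (q : 𝓞 M) ∈ v.asIdeal) :
    UniqueOver M F v.asIdeal := by
  have hp := (Fact.out : p.Prime)
  have hcop : q.Coprime (p ^ (n + 1)) := Nat.Coprime.pow_right _ ((Nat.coprime_primes hq hp).mpr hqp)
  haveI : NeZero (p ^ (n + 1)) := ⟨(pow_pos hp.pos _).ne'⟩
  haveI : IsCyclic (ZMod (p ^ (n + 1)))ˣ := ZMod.isCyclic_units_of_prime_pow p hp hp2 (n + 1)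
  haveI : IsGalois M F := r.isGalois
  -- every automorphism over `M` is a power of the Frobenius
  have hpow : ∀ g : F ≃ₐ[M] F, ∃ k : ℕ, ∀ x : F, g x = (r.rL.σ (ZMod.unitOfCoprime q hcop) ^ k) x := by
    intro g
    obtain ⟨u, hu, hug⟩ := (r.mem_iff hp2 (g.restrictScalars ℚ)).mp ⟨g, rfl⟩
    have h1 := L4_ker r.hmn u hu
    have h2 : p ^ (n - m) ∣ orderOf (ZMod.unitOfCoprime q hcop) := by
      have h3 : p ^ (n + 1) ∣ q ^ orderOf (ZMod.unitOfCoprime q hcop) - 1 := by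
        have h4 := congrArg Units.val (pow_orderOf_eq_one (ZMod.unitOfCoprime q hcop))
        rw [Units.val_pow_eq_pow_val, ZMod.coe_unitOfCoprime, Units.val_one, ← Nat.cast_pow] at h4
        have h5 : q ^ orderOf (ZMod.unitOfCoprime q hcop) ≡ 1 [MOD p ^ (n + 1)] := by
          rw [← ZMod.natCast_eq_natCast_iff, h4, Nat.cast_one]
        exact (Nat.modEq_iff_dvd' (Nat.one_le_pow _ _ hq.pos)).mp h5.symm
      have h6 := L4_dvd (n := n) hp2 hq hqp ht (orderOf_pos (ZMod.unitOfCoprime q hcop)).ne' h3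
      exact (pow_dvd_pow p (by omega)).trans h6
    have h7 : u ∈ Subgroup.zpowers (ZMod.unitOfCoprime q hcop) := L4_cyc h1 h2
    obtain ⟨k, hk⟩ := (isOfFinOrder_of_finite (ZMod.unitOfCoprime q hcop)).mem_powers_iff_mem_zpowers.mpr h7
    refine ⟨k, fun x => ?_⟩
    have h8 : (g.restrictScalars ℚ) x = g x := rfl
    have hk' : ZMod.unitOfCoprime q hcop ^ k = u := hk
    rw [← h8, ← hug, ← hk', map_pow]
  have hmem : ∀ P : Ideal (𝓞 F), v.asIdeal.map (algebraMap (𝓞 M) (𝓞 F)) ≤ P → (q : 𝓞 F) ∈ P := by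
    intro P hP
    have h1 := hP (Ideal.mem_map_of_mem (algebraMap (𝓞 M) (𝓞 F)) hv)
    rwa [map_natCast] at h1
  have hstab : ∀ (g : F ≃ₐ[M] F) (P : Ideal (𝓞 F)), P.IsPrime →
      v.asIdeal.map (algebraMap (𝓞 M) (𝓞 F)) ≤ P → g • P ≤ P := by
    intro g P hP hle y hy
    have hx : g⁻¹ • y ∈ P := Ideal.mem_pointwise_smul_iff_inv_smul_mem.mp hy
    obtain ⟨k, hk⟩ := hpow g
    obtain ⟨w, hw, hwx⟩ := L4_stab hp2 r.rL hq hcop P hP (hmem P hle) k _ hx
    have h1 : y = w := by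
      apply RingOfIntegers.coe_injective
      have h2 : ((g • (g⁻¹ • y) : 𝓞 F) : F) = g ((g⁻¹ • y : 𝓞 F) : F) := rfl
      rw [smul_inv_smul] at h2
      exact h2.trans ((hk _).trans hwx.symm)
    rw [h1]
    exact hw
  have hover : ∀ P : Ideal (𝓞 F), P.IsPrime → v.asIdeal.map (algebraMap (𝓞 M) (𝓞 F)) ≤ P →
      P.LiesOver v.asIdeal := by
    intro P hP hle
    refine ⟨?_⟩
    have hmax : v.asIdeal.IsMaximal := v.isMaximal
    refine hmax.eq_of_le ?_ (Ideal.le_comap_of_map_le hle)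
    exact Ideal.comap_ne_top _ hP.ne_top
  intro P Q hP hQ hvP hvQ
  haveI := hP
  haveI := hQ
  haveI := hover P hP hvP
  haveI := hover Q hQ hvQ
  obtain ⟨g, hg⟩ := Ideal.exists_smul_eq_of_isGaloisGroup v.asIdeal P Q (F ≃ₐ[M] F)
  apply le_antisymm
  · have h1 : P = g⁻¹ • Q := by rw [← hg, inv_smul_smul]
    rw [h1]
    exact hstab g⁻¹ Q hQ hvQ
  · rw [← hg]
    exact hstab g P hP hvP

end H5SW
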