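import Pool.Agent.H5.SW.L3
import Pool.Agent.H5.SW.L4

/-!
ROW L4b (one prime above, in the general tower).  PROOF.  `T : Tw p m n K L M F`. Let `v` be a prime of `K`, `P, Q` primes of `L` containing `v 𝓞 L` (so `P ∩ 𝓞 K = v = Q ∩ 𝓞 K`, all non zero).
`q ≠ p`, `q ∈ v`: choose primes `P', Q'` of `F` above `P`, `Q` (lying over exists). Both lie above `v`; `Gal(F/K)` (automorphisms of `F` trivial on the image of `K`; `F/ℚ` Galois) acts transitively on the primes of `F` above `v`: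
`Q' = g P'`; `gal_split`: `g = a b`, `a` trivial on `L`, `b` trivial on `M`. `b P' = P'` (both are above the same prime `P' ∩ 𝓞 M ∋ q` of `M`, `unique_pair`), so `Q' = a P'`, and since `a` is trivial on `L`,
`Q = Q' ∩ 𝓞 L = P' ∩ 𝓞 L = P`.
`q = p`: `F` has only one prime above `p` (`above_p` for `T.rp.rL`), so `P = P' ∩ 𝓞 L = Q`.
-/

set_option autoImplicit false

namespace H5SW

open NumberField IsDedekindDomain Pool.Agent.H10

open scoped Pointwise in
private theorem l4b_smul_rs {K F : Type} [Field K] [NumberField K] [Field F] [NumberField F] [Algebra K F]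
    (h : F ≃ₐ[K] F) (I : Ideal (𝓞 F)) : (h.restrictScalars ℚ) • I = h • I := by
  ext x
  rw [Ideal.mem_pointwise_smul_iff_inv_smul_mem, Ideal.mem_pointwise_smul_iff_inv_smul_mem]
  rfl

private theorem l4b_smul_fix {L F : Type} [Field L] [NumberField L] [Field F] [NumberField F] [Algebra L F]
    (a : F ≃ₐ[ℚ] F) (ha : ∀ x : L, a (algebraMap L F x) = algebraMap L F x) (x : 𝓞 L) :
    a⁻¹ • (algebraMap (𝓞 L) (𝓞 F) x) = algebraMap (𝓞 L) (𝓞 F) x := by
  apply inv_smul_eq_iff.2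
  apply RingOfIntegers.ext
  exact (ha (x : L)).symm

open scoped Pointwise in
private theorem l4b_comap {L F : Type} [Field L] [NumberField L] [Field F] [NumberField F] [Algebra L F]
    (a : F ≃ₐ[ℚ] F) (ha : ∀ x : L, a (algebraMap L F x) = algebraMap L F x) (I : Ideal (𝓞 F)) :
    (a • I).comap (algebraMap (𝓞 L) (𝓞 F)) = I.comap (algebraMap (𝓞 L) (𝓞 F)) := by
  ext x
  rw [Ideal.mem_comap, Ideal.mem_comap, Ideal.mem_pointwise_smul_iff_inv_smul_mem, l4b_smul_fix a ha]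

open scoped Pointwise in
theorem unique_tower {p m n : ℕ} [Fact p.Prime] (hp2 : p ≠ 2) {K L M F : Type}
    [Field K] [NumberField K] [Field L] [NumberField L] [Field M]
    [NumberField M] [Field F] [NumberField F] [Algebra K L] [Algebra M F] [Algebra K M] [Algebra L F]
    (T : Tw p m n K L M F) {q t : ℕ} (hq : q.Prime)
    (ht : q ≠ p → ¬ p ^ (t + 1) ∣ q ^ (p - 1) - 1) (htm : t ≤ m + 1) (v : HeightOneSpectrum (𝓞 K)) (hv : (q : 𝓞 K) ∈ v.asIdeal) :
    UniqueOver K L v.asIdeal := by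
  intro P Q hP hQ hvP hvQ
  have hker : ∀ I : Ideal (𝓞 L), RingHom.ker (algebraMap (𝓞 L) (𝓞 F)) ≤ I := by
    intro I
    rw [(RingHom.injective_iff_ker_eq_bot _).1 (FaithfulSMul.algebraMap_injective (𝓞 L) (𝓞 F))]
    exact bot_le
  obtain ⟨P', hP', hPc⟩ := Ideal.exists_ideal_over_prime_of_isIntegral_of_isDomain (S := 𝓞 F) P (hker P)
  obtain ⟨Q', hQ', hQc⟩ := Ideal.exists_ideal_over_prime_of_isIntegral_of_isDomain (S := 𝓞 F) Q (hker Q)
  have hqL : ∀ I : Ideal (𝓞 L), v.asIdeal.map (algebraMap (𝓞 K) (𝓞 L)) ≤ I → (q : 𝓞 L) ∈ I := by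
    intro I hI
    have h1 := hI (Ideal.mem_map_of_mem _ hv)
    rwa [map_natCast] at h1
  have hqF : ∀ (I : Ideal (𝓞 L)) (J : Ideal (𝓞 F)), J.comap (algebraMap (𝓞 L) (𝓞 F)) = I → (q : 𝓞 L) ∈ I →
      (q : 𝓞 F) ∈ J := by
    rintro I J rfl h
    rw [Ideal.mem_comap, map_natCast] at h
    exact h
  have hqP' : (q : 𝓞 F) ∈ P' := hqF P P' hPc (hqL P hvP)
  have hqQ' : (q : 𝓞 F) ∈ Q' := hqF Q Q' hQc (hqL Q hvQ)
  by_cases hqp : q = p
  · subst hqp
    obtain ⟨P0, _, _, _, _, _, h0⟩ := above_p hp2 T.rp.rL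
    rw [← hPc, ← hQc, h0 P' hP' hqP', h0 Q' hQ' hqQ']
  · letI : Algebra K F := ((algebraMap L F).comp (algebraMap K L)).toAlgebra
    haveI : IsScalarTower K L F := IsScalarTower.of_algebraMap_eq (fun _ => rfl)
    haveI : IsGalois ℚ F := T.rp.rL.gal
    haveI : IsGalois K F := IsGalois.tower_top_of_isGalois ℚ K F
    have hund : ∀ (I : Ideal (𝓞 L)) (J : Ideal (𝓞 F)), J.IsPrime → J.comap (algebraMap (𝓞 L) (𝓞 F)) = I →
        v.asIdeal.map (algebraMap (𝓞 K) (𝓞 L)) ≤ I → J.under (𝓞 K) = v.asIdeal := by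
      intro I J hJ hJI hI
      symm
      apply v.isMaximal.eq_of_le (Ideal.IsPrime.under (𝓞 K) J).ne_top
      intro x hx
      have h1 := hI (Ideal.mem_map_of_mem _ hx)
      rw [← hJI, Ideal.mem_comap] at h1
      rw [Ideal.under_def, Ideal.mem_comap, IsScalarTower.algebraMap_apply (𝓞 K) (𝓞 L) (𝓞 F)]
      exact h1
    obtain ⟨g, hg⟩ := Algebra.IsInvariant.exists_smul_of_under_eq (𝓞 K) (𝓞 F) (F ≃ₐ[K] F) P' Q'
      ((hund P P' hP' hPc hvP).trans (hund Q Q' hQ' hQc hvQ).symm)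
    obtain ⟨a, b, hab, ha, hb⟩ := T.gal_split (g.restrictScalars ℚ) (fun x => g.commutes x)
    rw [← l4b_smul_rs, hab, mul_smul] at hg
    have hbP : b • P' = P' := by
      have hne : P'.under (𝓞 M) ≠ ⊥ := by
        intro h0
        have h1 : (q : 𝓞 M) ∈ P'.under (𝓞 M) := by
          rw [Ideal.under_def, Ideal.mem_comap, map_natCast]
          exact hqP'
        rw [h0, Ideal.mem_bot, Nat.cast_eq_zero] at h1
        exact hq.ne_zero h1
      have hpr : (P'.under (𝓞 M)).IsPrime := Ideal.IsPrime.under (𝓞 M) P'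
      have h2 : (q : 𝓞 M) ∈ (⟨P'.under (𝓞 M), hpr, hne⟩ : HeightOneSpectrum (𝓞 M)).asIdeal := by
        change (q : 𝓞 M) ∈ P'.under (𝓞 M)
        rw [Ideal.under_def, Ideal.mem_comap, map_natCast]
        exact hqP'
      have h3 := unique_pair hp2 T.rp hq hqp (ht hqp) htm _ h2
      apply h3 (b • P') P' inferInstance hP'
      · rw [Ideal.map_le_iff_le_comap, l4b_comap b hb]
      · exact Ideal.map_comap_le
    rw [hbP] at hg
    rw [← hPc, ← hQc, hg, l4b_comap a ha]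

end H5SW
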