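import Pool.Agent.H5.SW.Ap

/-!
ROW Rd (two is unramified, the discriminant is odd).  PROOF.  `L` embeds in `C = CyclotomicField f ℚ`, `f = p^(n+1)` odd prime power; the discriminant of `C` is `±` a power of `p`
(Mathlib `IsCyclotomicExtension.Rat.discr...`/`IsCyclotomicExtension.discr_prime_pow`), and the discriminant of `L` divides it (`NumberField.discr_dvd_discr`), so it is odd.
Hence `2` is unramified in `L`, `2 𝓞 L` is a product of distinct primes, so `2 ∣ x^2` implies `2 ∣ x`. Alternatively for (b) use Frobenius: if `2 ∣ x^2` in `𝓞 L`, then for every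
`y ∈ 𝓞 L`, `Tr(x y)^2 ≡ Tr(x^2 y^2) ≡ 0 mod 2` (`Tr(z)^2 ≡ Tr(z^2) mod 2`), so `Tr(x y)` is even for all `y`; as the discriminant is odd the trace form is perfect modulo 2, so
`x ∈ 2 𝓞 L`.
-/

set_option autoImplicit false

namespace H5SW

open NumberField

theorem discr_odd {p n : ℕ} [Fact p.Prime] (hp2 : p ≠ 2) {L : Type} [Field L] [NumberField L]
    (r : RC (p ^ (n + 1)) L) : Odd (NumberField.discr L) := by
  have hp : p.Prime := Fact.out
  have hz : NeZero (p ^ (n + 1)) := ⟨pow_ne_zero _ hp.ne_zero⟩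
  have hz' : NeZero (((p ^ (n + 1) : ℕ) : ℚ)) := ⟨Nat.cast_ne_zero.mpr (pow_ne_zero _ hp.ne_zero)⟩
  have hcyc : IsCyclotomicExtension {p ^ (n + 1)} ℚ (CyclotomicField (p ^ (n + 1)) ℚ) :=
    CyclotomicField.isCyclotomicExtension (p ^ (n + 1)) ℚ
  obtain ⟨i⟩ := r.emb
  let _ : Algebra L (CyclotomicField (p ^ (n + 1)) ℚ) := i.toAlgebra
  have hNF : NumberField (CyclotomicField (p ^ (n + 1)) ℚ) :=
    IsCyclotomicExtension.numberField {p ^ (n + 1)} ℚ _
  have h1 : NumberField.discr L ∣ NumberField.discr (CyclotomicField (p ^ (n + 1)) ℚ) :=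
    NumberField.discr_dvd_discr L (CyclotomicField (p ^ (n + 1)) ℚ)
  have h2 := IsCyclotomicExtension.Rat.discr_prime_pow p (n + 1) (CyclotomicField (p ^ (n + 1)) ℚ)
  rw [h2] at h1
  have h3 : Odd ((-1 : ℤ) ^ ((p ^ (n + 1)).totient / 2) * (p : ℤ) ^ (p ^ (n + 1 - 1) * ((p - 1) * (n + 1) - 1))) := by
    have hpo : Odd (p : ℤ) := by
      rw [Int.odd_coe_nat]
      exact hp.odd_of_ne_two hp2
    exact (Odd.pow (by decide)).mul hpo.pow
  obtain ⟨c, hc⟩ := h1
  rw [hc] at h3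
  exact (Int.odd_mul.mp h3).1

theorem two_red {p n : ℕ} [Fact p.Prime] (hp2 : p ≠ 2) {L : Type} [Field L] [NumberField L]
    (r : RC (p ^ (n + 1)) L) (x : 𝓞 L) (h : (2 : 𝓞 L) ∣ x ^ 2) : (2 : 𝓞 L) ∣ x := by
  have hodd := discr_odd hp2 r
  have hsq : Squarefree (Ideal.span {(2 : 𝓞 L)}) := by
    intro P hP
    have hPm : P ^ 2 ∣ (Ideal.span {(2 : ℤ)}).map (algebraMap ℤ (𝓞 L)) := by
      rw [Ideal.map_span, Set.image_singleton, pow_two]
      simpa using hP
    have hmax : (Ideal.span {(2 : ℤ)}).IsMaximal :=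
      PrincipalIdealRing.isMaximal_of_irreducible (Int.prime_two.irreducible)
    have hne : (Ideal.span {(2 : ℤ)}) ≠ ⊥ := by
      rw [Ne, Ideal.span_singleton_eq_bot]
      norm_num
    have hdiff := pow_sub_one_dvd_differentIdeal ℤ P 2 hne hPm
    rw [show 2 - 1 = 1 from rfl, pow_one] at hdiff
    have hN1 : Ideal.absNorm P ∣ (NumberField.discr L).natAbs := by
      rw [← NumberField.absNorm_differentIdeal L (𝓞 L)]
      exact map_dvd Ideal.absNorm hdiff
    have hN2 : Ideal.absNorm P ∣ 2 ^ Module.finrank ℚ L := by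
      have h5 : Ideal.absNorm P ∣ Ideal.absNorm (Ideal.span {(2 : 𝓞 L)}) :=
        map_dvd Ideal.absNorm ((dvd_mul_left P P).trans hP)
      have h6 : Ideal.absNorm (Ideal.span {(2 : 𝓞 L)}) = 2 ^ Module.finrank ℚ L := by
        rw [Ideal.absNorm_span_singleton]
        have h7 : (2 : 𝓞 L) = algebraMap ℤ (𝓞 L) 2 := by simp
        rw [h7, Algebra.norm_algebraMap, Int.natAbs_pow, RingOfIntegers.rank]
        rfl
      rwa [h6] at h5
    have hcop : Nat.Coprime (NumberField.discr L).natAbs (2 ^ Module.finrank ℚ L) := by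
      apply Nat.Coprime.pow_right
      exact (Nat.coprime_two_right).mpr (Int.natAbs_odd.mpr hodd)
    have h8 : Ideal.absNorm P = 1 := Nat.eq_one_of_dvd_coprimes hcop hN1 hN2
    rw [Ideal.absNorm_eq_one_iff] at h8
    exact Ideal.isUnit_iff.mpr h8
  have h1 : Ideal.span {(2 : 𝓞 L)} ∣ (Ideal.span {x}) ^ 2 := by
    rw [Ideal.span_singleton_pow, Ideal.dvd_span_singleton, Ideal.mem_span_singleton]
    exact h
  have h2 := hsq.isRadical 2 _ h1
  rw [Ideal.dvd_span_singleton, Ideal.mem_span_singleton] at h2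
  exact h2

end H5SW
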