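import Pool.Agent.H5.SW.L3
import Pool.Agent.H5.SW.Rd

/-!
ROW L5 (further facts on a field of the tower).  PROOF.
(a) `two_unramified`: `L → F` with `F` of odd discriminant (`discr_odd`), `discr L ∣ discr F` (`NumberField.discr_dvd_discr`), so `2` is unramified in `L`: `2 ∉ w^2` for `w ∋ 2` (Mathlib: unramified iff not dividing the discriminant /
    different); or use `two_red` in `F`: if `2 ∈ w^2`, write `(2) = w^2 J`; take `x ∈ w J` (so `x^2 ∈ w^2 J^2 ⊆ (2)`), `x ∉ (2) = w^2 J` (`w J ≠ w^2 J`); `2 ∣ x^2` in `𝓞 F`, so `2 ∣ x` in `𝓞 F` (`two_red`), `x/2 ∈ L` is integral, `2 ∣ x` in `𝓞 L`: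
    contradiction.
(b) `galois_KL`: `L/ℚ` is Galois as a subfield of `F` (abelian), so `L/K` is Galois.
(c) `cubic`: `p = 3`, `3 ∣ [K:ℚ]`: `m = v_3([K:ℚ]) ≥ 1`, `K → M`, `M` has degree `3^m` (`RC`: `|Gal| = φ(3^(m+1))/2`), and `3^m ∣ [K:ℚ]`, so `K → M` is bijective. In `M`: `c' = rM.c (3^(m-1))`, `c'^3 - 3 c' = rM.c (3^m)` (`c_mul`) `= -1`
    (`2 cos(2π/3) = -1`). With `c = c' + 1`: `c^3 + c^2 + 1 = (c'^3 - 3 c' + 1) + 2 (2 c'^2 + 4 c' + 1)` is in every `v ∋ 2`.
-/

set_option autoImplicit false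

namespace H5SW

open NumberField IsDedekindDomain

variable {p m n : ℕ} {K L M F : Type} [Field K] [NumberField K] [Field L] [NumberField L] [Field M]
    [NumberField M] [Field F] [NumberField F] [Algebra K L] [Algebra M F] [Algebra K M] [Algebra L F]


theorem two_unramified [Fact p.Prime] (hp2 : p ≠ 2) (T : Tw p m n K L M F) (w : HeightOneSpectrum (𝓞 L))
    (hw : (2 : 𝓞 L) ∈ w.asIdeal) : (2 : 𝓞 L) ∉ w.asIdeal ^ 2 := by
  have h0 : Odd (NumberField.discr F) := discr_odd hp2 T.rp.rL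
  have h1 : NumberField.discr L ∣ NumberField.discr F := NumberField.discr_dvd_discr L F
  have h2 : ¬ (2 : ℤ) ∣ NumberField.discr L := by
    intro h
    have h3 := h.trans h1
    rw [← even_iff_two_dvd, ← Int.not_odd_iff_even] at h3
    exact h3 h0
  have h3 := (NumberField.not_dvd_discr_iff_forall_mem L (𝓞 L) Int.prime_two).1 h2 w.asIdeal w.isPrime
    (by simpa using hw)
  intro h4
  have hprime := w.isPrime
  have hover : w.asIdeal.LiesOver (Ideal.span {(2 : ℤ)}) :=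
    (Ideal.liesOver_span_iff w.isPrime.ne_top Int.prime_two).mpr (by simpa using hw)
  have hsp : (Ideal.span {(2 : ℤ)}).IsPrime :=
    (Ideal.span_singleton_prime (by norm_num)).2 Int.prime_two
  let := Localization.AtPrime.algebraOfLiesOver (Ideal.span {(2 : ℤ)}) w.asIdeal
  have h5 := ((Algebra.isUnramifiedAt_iff_map_eq ℤ (Ideal.span {(2 : ℤ)}) w.asIdeal).mp h3).2
  have h6 : Ideal.map (algebraMap ℤ (𝓞 L)) (Ideal.span {(2 : ℤ)}) ≤ w.asIdeal := by
    rw [Ideal.map_span, Ideal.span_le]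
    simpa using hw
  have h7 := Ideal.ramificationIdx'_eq_one_of_map_localization h6 w.ne_bot
    w.asIdeal.primeCompl_le_nonZeroDivisors h5
  have h8 : Ideal.map (algebraMap ℤ (𝓞 L)) (Ideal.span {(2 : ℤ)}) ≤ w.asIdeal ^ 2 := by
    rw [Ideal.map_span, Ideal.span_le]
    simpa using h4
  exact (Ideal.ramificationIdx'_ne_one_iff h6).2 h8 h7

theorem galois_KL [Fact p.Prime] (hp2 : p ≠ 2) (T : Tw p m n K L M F) : IsGalois K L := by
  have h1 : IsGalois ℚ F := T.rp.rL.gal
  have h2 : IsAbelianGalois ℚ F := { is_comm.comm x y := T.rp.rL.gal_comm x y }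
  have h3 : IsAbelianGalois ℚ L := IsAbelianGalois.tower_bot ℚ L F
  have h4 : IsGalois ℚ L := h3.toIsGalois
  exact IsGalois.tower_top_of_isGalois ℚ K L

private lemma L5_card {f : ℕ} {M : Type} [Field M] [NumberField M] (r : RC f M) :
    2 * Module.finrank ℚ M = f.totient := by
  have := r.neZero
  have := r.gal
  have : Fact (2 < f) := ⟨r.two_lt⟩
  have h1 : Nat.card (M ≃ₐ[ℚ] M) = Module.finrank ℚ M := IsGalois.card_aut_eq_finrank ℚ M
  have h2 := Subgroup.card_mul_index r.σ.ker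
  have h3 : r.σ.ker.index = Nat.card (M ≃ₐ[ℚ] M) := by
    rw [Subgroup.index_ker, MonoidHom.range_eq_top.2 r.surj, Subgroup.card_top]
  have hne : (1 : (ZMod f)ˣ) ≠ -1 := by
    intro h
    have h4 := congrArg (fun u : (ZMod f)ˣ => (u : ZMod f)) h
    simp only [Units.val_one, Units.val_neg] at h4
    exact ZMod.neg_one_ne_one h4.symm
  have h4 : Nat.card r.σ.ker = 2 := by
    have h5 : (r.σ.ker : Set (ZMod f)ˣ) = {1, -1} := by
      ext u
      simp only [SetLike.mem_coe, MonoidHom.mem_ker, Set.mem_insert_iff, Set.mem_singleton_iff]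
      exact r.ker u
    have h6 : Nat.card r.σ.ker = Set.ncard (r.σ.ker : Set (ZMod f)ˣ) := rfl
    rw [h6, h5, Set.ncard_pair hne]
  rw [h4, h3, h1, Nat.card_eq_fintype_card, ZMod.card_units_eq_totient] at h2
  exact h2

theorem cubic (T : Tw 3 m n K L M F) (h : m = padicValNat 3 (Module.finrank ℚ K)) (h3 : 3 ∣ Module.finrank ℚ K) :
    ∀ v : HeightOneSpectrum (𝓞 K), (2 : 𝓞 K) ∈ v.asIdeal → ∃ c : 𝓞 K, c ^ 3 + c ^ 2 + 1 ∈ v.asIdeal := by
  have hfin : Module.finrank ℚ K ≠ 0 := Module.finrank_pos.ne'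
  have hm : 1 ≤ m := by
    rw [h]
    exact one_le_padicValNat_of_dvd hfin h3
  have hM : Module.finrank ℚ M = 3 ^ m := by
    have h1 := L5_card T.rp.rK
    rw [Nat.totient_prime_pow Nat.prime_three (Nat.succ_pos m)] at h1
    simp only [Nat.add_sub_cancel, Nat.succ_eq_add_one] at h1
    omega
  have hdvd : 3 ^ m ∣ Module.finrank ℚ K := by
    rw [h]
    exact pow_padicValNat_dvd
  have hmul : Module.finrank ℚ K * Module.finrank K M = Module.finrank ℚ M :=
    Module.finrank_mul_finrank ℚ K M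
  have h1 : Module.finrank K M = 1 := by
    obtain ⟨k, hk⟩ := hdvd
    rw [hM, hk, mul_assoc] at hmul
    have h5 : 0 < 3 ^ m := by positivity
    have h6 : k * Module.finrank K M = 1 := by
      apply Nat.eq_of_mul_eq_mul_left h5
      rw [mul_one]
      exact hmul
    exact Nat.eq_one_of_mul_eq_one_left h6
  have hsurj : Function.Surjective (algebraMap K M) := by
    intro x
    have h5 : (⊥ : Subalgebra K M) = ⊤ := Subalgebra.bot_eq_top_of_finrank_eq_one h1
    have h6 : x ∈ (⊥ : Subalgebra K M) := by rw [h5]; exact Algebra.mem_top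
    exact Algebra.mem_bot.1 h6
  obtain ⟨a, ha⟩ : ∃ a : ZMod (3 ^ (m + 1)), a = ((3 ^ (m - 1) : ℕ) : ZMod (3 ^ (m + 1))) := ⟨_, rfl⟩
  have hpow : 3 * 3 ^ (m - 1) = 3 ^ m := by
    rw [← pow_succ']
    congr 1
    omega
  have hc3 : T.rp.rK.c a ^ 3 = T.rp.rK.c (3 * a) + 3 * T.rp.rK.c a := by
    rw [pow_succ, T.rp.rK.c_sq, add_mul, T.rp.rK.c_mul, show 2 * a + a = 3 * a by ring,
      show 2 * a - a = a by ring]
    ring
  have h3a : T.rp.rK.c (3 * a) = -1 := by
    apply T.rp.rK.ext_φ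
    have h5 : 3 * a = ((3 ^ m : ℕ) : ZMod (3 ^ (m + 1))) := by
      rw [ha, ← hpow]
      push_cast
      ring
    rw [h5, T.rp.rK.φ_c_nat]
    have h6 : 2 * Real.pi * ((3 ^ m : ℕ) : ℝ) / ((3 ^ (m + 1) : ℕ) : ℝ) = Real.pi - Real.pi / 3 := by
      push_cast
      rw [pow_succ]
      field_simp
      ring
    rw [h6, Real.cos_pi_sub, Real.cos_pi_div_three]
    simp
  obtain ⟨k, hk⟩ := hsurj (T.rp.rK.c a : M)
  have hkint : IsIntegral ℤ k := by
    have h5 : IsIntegral ℤ (algebraMap K M k) := by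
      rw [hk]
      exact (T.rp.rK.c a).isIntegral_coe
    exact (isIntegral_algebraMap_iff (algebraMap K M).injective).1 h5
  obtain ⟨k', hk'⟩ : ∃ k' : 𝓞 K, (k' : K) = k := ⟨⟨k, hkint⟩, rfl⟩
  intro v hv
  refine ⟨k' + 1, ?_⟩
  have key : (k' + 1) ^ 3 + (k' + 1) ^ 2 + 1 = 2 * (2 * k' ^ 2 + 4 * k' + 1) := by
    have h5 : k' ^ 3 = -1 + 3 * k' := by
      apply RingOfIntegers.coe_injective
      apply (algebraMap K M).injective
      have h6 := congrArg (fun x : 𝓞 M => (x : M)) hc3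
      rw [h3a] at h6
      simp only [map_pow, map_add, map_mul, map_neg, map_one, map_ofNat] at h6 ⊢
      rw [← hk'] at hk
      have h7 : (algebraMap K M) ((algebraMap (𝓞 K) K) k') = (algebraMap (𝓞 M) M) (T.rp.rK.c a) := hk
      rw [h7]
      exact h6
    linear_combination h5
  rw [key]
  exact v.asIdeal.mul_mem_right _ hv

end H5SW
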