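import Pool.Agent.H5.SW.SA
import Pool.Agent.H5.SW.L3b
import Pool.Agent.H5.SW.L4b
import Pool.Agent.H5.SW.L5
import Pool.Agent.H10.Star
import Pool.Agent.H10.Cong
import Pool.Agent.H10.Restr

/-! Assembly (helper5). -/

set_option autoImplicit false
set_option linter.style.haveILetI false
open scoped Classical

namespace H5SW

open NumberField IsDedekindDomain WeierstrassCurve Pool.Agent.H10

/-- a bound for the valuations of `q ^ (p - 1) - 1` over the prime divisors `q ≠ p` of `D` -/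
lemma exists_val_bound {p : ℕ} [Fact p.Prime] {D : ℕ} (hD : D ≠ 0) :
    ∃ T : ℕ, ∀ q : ℕ, q.Prime → q ∣ D → q ≠ p → ¬ p ^ (T + 1) ∣ q ^ (p - 1) - 1 := by
  have hp := (Fact.out : p.Prime)
  refine ⟨D.primeFactors.sup (fun q => q ^ (p - 1)), fun q hq hqD hqp hdvd => ?_⟩
  set T := D.primeFactors.sup (fun q => q ^ (p - 1)) with hT
  have h1 : q ^ (p - 1) ≤ T := by
    rw [hT]
    exact Finset.le_sup (f := fun q => q ^ (p - 1)) (Nat.mem_primeFactors.mpr ⟨hq, hqD, hD⟩)
  have h2 : 1 < q ^ (p - 1) := Nat.one_lt_pow (by have := hp.two_le; omega) hq.one_lt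
  have h3 : p ^ (T + 1) ≤ q ^ (p - 1) - 1 := Nat.le_of_dvd (by omega) hdvd
  have h4 : T + 1 < p ^ (T + 1) := Nat.lt_pow_self hp.one_lt
  omega

/-- a non zero integer in a prime ideal has a prime divisor in it -/
lemma exists_prime_mem {K : Type} [Field K] [NumberField K] {D : ℤ} (hD : D ≠ 0) (v : HeightOneSpectrum (𝓞 K))
    (hv : (D : 𝓞 K) ∈ v.asIdeal) : ∃ q : ℕ, q.Prime ∧ q ∣ D.natAbs ∧ (q : 𝓞 K) ∈ v.asIdeal := by
  have hD0 : D.natAbs ≠ 0 := Int.natAbs_ne_zero.mpr hD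
  have hDv : (D.natAbs : 𝓞 K) ∈ v.asIdeal := by
    rcases Int.natAbs_eq D with h | h
    · rw [h, Int.cast_natCast] at hv
      exact hv
    · rw [h, Int.cast_neg, Int.cast_natCast] at hv
      exact neg_mem_iff.mp hv
  have key : ∀ n : ℕ, n ≠ 0 → n ∣ D.natAbs → (n : 𝓞 K) ∈ v.asIdeal →
      ∃ q : ℕ, q.Prime ∧ q ∣ D.natAbs ∧ (q : 𝓞 K) ∈ v.asIdeal := by
    intro n
    induction n using Nat.recOnMul with
    | zero => intro h; exact absurd rfl h
    | one =>
      intro _ _ h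
      exact absurd ((Ideal.eq_top_iff_one _).mpr (by simpa using h)) v.isPrime.ne_top
    | prime q hq => intro _ hqD hqv; exact ⟨q, hq, hqD, hqv⟩
    | mul x y ihx ihy =>
      intro h0 hxy hm
      push_cast at hm
      rcases v.isPrime.mem_or_mem hm with h | h
      · exact ihx (left_ne_zero_of_mul h0) ((dvd_mul_right x y).trans hxy) h
      · exact ihy (right_ne_zero_of_mul h0) ((dvd_mul_left y x).trans hxy) h
  exact key _ hD0 dvd_rfl hDv

section

variable {K L : Type} [Field K] [NumberField K] [Field L] [NumberField L] [Algebra K L]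

theorem newTrivial_of {p k0 T : ℕ} [Fact p.Prime] (hp2 : p ≠ 2) (hS : NV p k0) {a b : ℤ} (ha : 0 < a)
    (hb : 0 < b) (hab : a ≠ b) (hst : StarTwo a b)
    (hT : ∀ q : ℕ, q.Prime → q ∣ (2 * a * b * (b - a)).natAbs → q ≠ p → ¬ p ^ (T + 1) ∣ q ^ (p - 1) - 1)
    (hL : IsR p L) {i : ℕ} (hi : Module.finrank K L = p ^ i)
    (hk : k0 ≤ padicValNat p (Module.finrank ℚ K) + 1) (hTm : T ≤ padicValNat p (Module.finrank ℚ K) + 1)
    (h3 : p = 3 → (i = 0 ∨ 3 ∣ Module.finrank ℚ K)) :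
    NewTrivial K L (algebraMap K L 0) (algebraMap K L (a : K)) (algebraMap K L (b : K)) := by
  have hp := (Fact.out : p.Prime)
  obtain ⟨n, M, F, _, _, _, _, _, _, _, ⟨Tw⟩⟩ := exists_tower (p := p) hp2 hL hi
  haveI : IsGalois K L := galois_KL hp2 Tw
  obtain ⟨R1, R2⟩ := noNew_of_tower hp2 hS hk Tw
  have hodd : Odd (Module.finrank K L) := by
    rw [hi]
    exact (hp.odd_of_ne_two hp2).pow
  refine newTrivial_star hodd R1 R2 ha hb hab hst ?_ (two_unramified hp2 Tw) ?_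
  · intro v hv
    have hD : (2 * a * b * (b - a)) ≠ 0 :=
      mul_ne_zero (mul_ne_zero (mul_ne_zero two_ne_zero ha.ne') hb.ne') (sub_ne_zero.mpr hab.symm)
    obtain ⟨q, hq, hqD, hqv⟩ := exists_prime_mem hD v hv
    exact unique_tower hp2 Tw hq (fun hqp => hT q hq hqD hqp) hTm v hqv
  · by_cases hp3 : p = 3
    · subst hp3
      rcases h3 rfl with h | h
      · left
        rw [hi, h, pow_zero]
        norm_num
      · right
        exact cubic Tw rfl h
    · left
      rw [hi]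
      intro h
      have := (Nat.prime_dvd_prime_iff_eq Nat.prime_three hp).mp (Nat.prime_three.dvd_of_dvd_pow h)
      exact hp3 this.symm

/-- bijectivity on `Sha[2^∞]` and odd index of the Mordell-Weil groups from `NewTrivial` -/
theorem stable_of {a b : ℤ} (ha : 0 < a) (hb : 0 < b) (hab : a ≠ b) (hodd : Odd (Module.finrank K L))
    (H : NewTrivial K L (algebraMap K L 0) (algebraMap K L (a : K)) (algebraMap K L (b : K)))
    (E : WeierstrassCurve K) (hE : E = ⟨0, -((a : K) + b), 0, (a : K) * b, 0⟩) :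
    ShaTwoBijective K E L ∧
      ∃ m : ℕ, Odd m ∧ ∀ P : (E.baseChange L).toAffine.Point,
        ∃ Q : (E.baseChange K).toAffine.Point,
          m • P = WeierstrassCurve.Affine.Point.map (Algebra.ofId K L) Q := by
  have ea : ((a : 𝓞 K) : K) = (a : K) := map_intCast (algebraMap (𝓞 K) K) a
  have eb : ((b : 𝓞 K) : K) = (b : K) := map_intCast (algebraMap (𝓞 K) K) b
  have h : IsCub E 0 (a : K) (b : K) := by
    rw [hE]
    have h1 := isCub_legendre (K := K) (a := (a : 𝓞 K)) (b := (b : 𝓞 K)) (by exact_mod_cast ha.ne')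
      (by exact_mod_cast hb.ne') (by exact_mod_cast hab)
    rwa [ea, eb] at h1
  refine ⟨shaTwoBijective rfl (sha_bijOn hodd h rfl H), ?_⟩
  obtain ⟨m, hm, hP⟩ := mw_odd (V := E) (V' := E.baseChange L) hodd h rfl H
  refine ⟨m, hm, fun P => ?_⟩
  obtain ⟨Q, hQ⟩ := hP P
  refine ⟨Q, ?_⟩
  rw [hQ]
  exact (map_eq_pm (S := K) E (Algebra.ofId K L) Q).symm

end

theorem main_tower (p : ℕ) [Fact p.Prime] (hp2 : p ≠ 2) (a b : ℤ) (ha : 0 < a) (hb : 0 < b) (hab : a ≠ b)
    (hst : StarTwo a b) :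
    ∃ N : ℕ, ∀ (K L : Type) [Field K] [NumberField K] [Field L] [NumberField L] [Algebra K L],
      IsR p L → (∃ i : ℕ, Module.finrank K L = p ^ i) → p ^ N ∣ Module.finrank ℚ K →
      ∀ (E : WeierstrassCurve K), E = ⟨0, -((a : K) + b), 0, (a : K) * b, 0⟩ →
      ShaTwoBijective K E L ∧
      ∃ m : ℕ, Odd m ∧ ∀ P : (E.baseChange L).toAffine.Point,
        ∃ Q : (E.baseChange K).toAffine.Point,
          m • P = WeierstrassCurve.Affine.Point.map (Algebra.ofId K L) Q := by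
  have hp := (Fact.out : p.Prime)
  obtain ⟨k0, hk0⟩ := sinnott (p := p) hp2
  have hD : (2 * a * b * (b - a)).natAbs ≠ 0 := Int.natAbs_ne_zero.mpr
    (mul_ne_zero (mul_ne_zero (mul_ne_zero two_ne_zero ha.ne') hb.ne') (sub_ne_zero.mpr hab.symm))
  obtain ⟨T, hT⟩ := exists_val_bound (p := p) hD
  refine ⟨k0 + T + 1, ?_⟩
  intro K L _ _ _ _ _ hL ⟨i, hi⟩ hN E hE
  have hK0 : Module.finrank ℚ K ≠ 0 := Module.finrank_pos.ne'
  have hm : k0 + T + 1 ≤ padicValNat p (Module.finrank ℚ K) :=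
    (padicValNat_dvd_iff_le hK0).mp hN
  have hodd : Odd (Module.finrank K L) := by
    rw [hi]
    exact (hp.odd_of_ne_two hp2).pow
  refine stable_of ha hb hab hodd ?_ E hE
  refine newTrivial_of (k0 := k0) (T := T) hp2 hk0 ha hb hab hst hT hL hi (by omega) (by omega) ?_
  intro h3
  right
  subst h3
  exact (dvd_pow_self 3 (by omega)).trans hN

end H5SW
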