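import Pool.Agent.H5.SW.Cb
import Pool.Agent.H10.Semi

/-!
ROW L2 (descent of squares through a totally ramified extension).  PROOF.  Let `P0` be the unique prime of `𝓞 F` above `p`, of norm `p` (`above_p`), `w = P0 ∩ 𝓞 L`, the prime below, `p ∈ w`. Let
`algebraMap x = y^2`, `y ∈ F`, and suppose that `y ∉ L` (image). `F/L` is Galois (`r.gal`), so there is `τ ∈ Gal(F/L)` with `τ y ≠ y`, hence `τ y = -y`.
`v_{P0}(y) = v_{P0}(x)/2 = e v_w(x)/2 = e l`, `v_w(x) = 2 l` even by `hev`, `e` = ramification index of `P0` over `w`. Choose `π ∈ L` with `v_w(π) = l` (`HeightOneSpectrum.valuation_surjective` or powers of a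
uniformiser). `y' = y/π` has `v_{P0}(y') = 0`, `τ y' = - y'`. Write `y' = a/b`, `a, b ∈ 𝓞 F \ P0` (`HeightOneSpectrum.exists_primeCompl_mul_eq_of_integer`). Every element of `𝓞 F` is congruent to an integer
modulo `P0` (norm `p` prime), and `τ P0 = P0` (uniqueness), so `τ z ≡ z mod P0` for all `z ∈ 𝓞 F`. `τ(a) b = - a τ(b)` gives `2 a b ∈ P0`, impossible (`p` odd, `2 ∉ P0`, `P0` prime). So `y` is in the image of `L`, `x` is a square.
-/

set_option autoImplicit false

namespace H5SW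

open NumberField IsDedekindDomain

lemma exists_nat_congr {p : ℕ} [Fact p.Prime] {F : Type} [Field F] [NumberField F] {P : Ideal (𝓞 F)}
    (hP : P.IsPrime) (hn : Ideal.absNorm P = p) (z : 𝓞 F) : ∃ k : ℤ, z - k ∈ P := by
  have hcard : Nat.card (𝓞 F ⧸ P) = p := by
    rw [← hn, Ideal.absNorm_apply, Submodule.cardQuot_apply]
  haveI : Nontrivial (𝓞 F ⧸ P) := Ideal.Quotient.nontrivial_iff.2 hP.ne_top
  have htop := zmultiples_eq_top_of_prime_card (G := 𝓞 F ⧸ P) hcard (g := 1) one_ne_zero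
  have hmem : (Ideal.Quotient.mk P z) ∈ AddSubgroup.zmultiples (1 : 𝓞 F ⧸ P) := by
    rw [htop]; exact AddSubgroup.mem_top _
  obtain ⟨k, hk⟩ := AddSubgroup.mem_zmultiples_iff.1 hmem
  refine ⟨k, ?_⟩
  rw [← Ideal.Quotient.eq_zero_iff_mem, map_sub, map_intCast, ← hk, zsmul_one, sub_self]

lemma aut_congr {p : ℕ} [Fact p.Prime] {F : Type} [Field F] [NumberField F] {P : Ideal (𝓞 F)}
    (hP : P.IsPrime) (hp : (p : 𝓞 F) ∈ P) (hn : Ideal.absNorm P = p)
    (hu : ∀ Q : Ideal (𝓞 F), Q.IsPrime → (p : 𝓞 F) ∈ Q → Q = P) (τ : F ≃+* F) (z : 𝓞 F) :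
    RingOfIntegers.mapRingHom (τ : F →+* F) z - z ∈ P := by
  set t : 𝓞 F →+* 𝓞 F := RingOfIntegers.mapRingHom (τ : F →+* F) with ht
  have hcomap : P.comap t = P := by
    refine hu _ (hP.comap t) ?_
    rw [Ideal.mem_comap, map_natCast]
    exact hp
  obtain ⟨k, hk⟩ := exists_nat_congr hP hn z
  have h1 : t (z - k) ∈ P := by
    have : z - k ∈ P.comap t := by rw [hcomap]; exact hk
    exact this
  rw [map_sub, map_intCast] at h1
  have : t z - z = (t z - k) - (z - k) := by ring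
  rw [this]
  exact P.sub_mem h1 hk

theorem sq_descent {p n : ℕ} [Fact p.Prime] (hp2 : p ≠ 2) {L F : Type} [Field L] [NumberField L] [Field F]
    [NumberField F] [Algebra L F] (r : RC (p ^ (n + 1)) F) {x : L} (hx : x ≠ 0)
    (hev : ∀ w : HeightOneSpectrum (𝓞 L), (p : 𝓞 L) ∈ w.asIdeal → Even (WithZero.log (w.valuation L x)))
    (h : IsSquare (algebraMap L F x)) : IsSquare x := by
  obtain ⟨P0, hP0, hpP0, hnP0, -, -, hu⟩ := above_p hp2 r
  have hpp : p.Prime := Fact.out
  haveI : IsGalois ℚ F := r.gal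
  haveI : IsGalois L F := IsGalois.tower_top_of_isGalois ℚ L F
  obtain ⟨y, hy⟩ := h
  by_cases hr : y ∈ Set.range (algebraMap L F)
  · obtain ⟨z, rfl⟩ := hr
    refine ⟨z, ?_⟩
    apply (algebraMap L F).injective
    rw [hy, map_mul]
  exfalso
  have hτ : ∃ τ : F ≃ₐ[L] F, τ y ≠ y := by
    by_contra hcon
    push Not at hcon
    exact hr ((IsGalois.mem_range_algebraMap_iff_fixed y).2 hcon)
  obtain ⟨τ, hτy⟩ := hτ
  have hneg : τ y = -y := by
    have h1 : τ y * τ y = y * y := by rw [← map_mul, ← hy, AlgEquiv.commutes]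
    rcases mul_self_eq_mul_self_iff.1 h1 with h2 | h2
    · exact absurd h2 hτy
    · exact h2
  -- the prime below
  have hp0L : (p : 𝓞 L) ≠ 0 := by exact_mod_cast hpp.ne_zero
  have hp0F : (p : 𝓞 F) ≠ 0 := by exact_mod_cast hpp.ne_zero
  let ι : 𝓞 L →+* 𝓞 F := algebraMap (𝓞 L) (𝓞 F)
  have hwp : (P0.comap ι).IsPrime := hP0.comap ι
  have hpw : (p : 𝓞 L) ∈ P0.comap ι := by
    rw [Ideal.mem_comap, map_natCast]; exact hpP0
  let w : HeightOneSpectrum (𝓞 L) := ⟨P0.comap ι, hwp, fun h0 => hp0L (by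
    have := hpw
    rw [h0] at this
    exact (Ideal.mem_bot.1 this))⟩
  let v : HeightOneSpectrum (𝓞 F) := ⟨P0, hP0, fun h0 => hp0F (by
    have := hpP0
    rw [h0] at this
    exact (Ideal.mem_bot.1 this))⟩
  have hval1 : ∀ t : L, w.valuation L t = 1 → v.valuation F (algebraMap L F t) = 1 := by
    intro t ht
    obtain ⟨a, ⟨d, hd⟩, had⟩ := HeightOneSpectrum.exists_primeCompl_mul_eq_of_integer w t ht.le
    change d ∉ w.asIdeal at hd
    change t * algebraMap (𝓞 L) L d = algebraMap (𝓞 L) L a at had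
    have hd1 : w.valuation L (algebraMap (𝓞 L) L d) = 1 :=
      (w.valuation_eq_one_iff_notMem (K := L)).mpr hd
    have ha1 : w.valuation L (algebraMap (𝓞 L) L a) = 1 := by
      rw [← had, map_mul, ht, hd1, one_mul]
    have ha : a ∉ w.asIdeal := (w.valuation_eq_one_iff_notMem (K := L)).mp ha1
    have hd' : ι d ∉ v.asIdeal := hd
    have ha' : ι a ∉ v.asIdeal := ha
    have hd2 : v.valuation F (algebraMap (𝓞 F) F (ι d)) = 1 :=
      (v.valuation_eq_one_iff_notMem (K := F)).mpr hd'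
    have ha2 : v.valuation F (algebraMap (𝓞 F) F (ι a)) = 1 :=
      (v.valuation_eq_one_iff_notMem (K := F)).mpr ha'
    have e1 : algebraMap L F (algebraMap (𝓞 L) L d) = algebraMap (𝓞 F) F (ι d) := rfl
    have e2 : algebraMap L F (algebraMap (𝓞 L) L a) = algebraMap (𝓞 F) F (ι a) := rfl
    have had' := congrArg (algebraMap L F) had
    rw [map_mul, e1, e2] at had'
    have := congrArg (v.valuation F) had'
    rw [map_mul, hd2, ha2, mul_one] at this
    exact this
  obtain ⟨l, hl⟩ := hev w hpw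
  have hvx : w.valuation L x ≠ 0 := (Valuation.ne_zero_iff _).mpr hx
  obtain ⟨π, hπ⟩ := w.valuation_surjective L (WithZero.exp l)
  have hπ0 : π ≠ 0 := by
    rintro rfl
    rw [map_zero] at hπ
    exact WithZero.exp_ne_zero hπ.symm
  have hxv : w.valuation L x = WithZero.exp l * WithZero.exp l := by
    rw [← WithZero.exp_add, ← hl, WithZero.exp_log hvx]
  have hunit : w.valuation L (x / (π * π)) = 1 := by
    rw [map_div₀, map_mul, hπ, hxv]
    exact div_self (mul_ne_zero WithZero.exp_ne_zero WithZero.exp_ne_zero)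
  have hunit2 := hval1 _ hunit
  set π' : F := algebraMap L F π with hπ'
  have hπ'0 : π' ≠ 0 := by
    rw [hπ', Ne, map_eq_zero]; exact hπ0
  set y' : F := y / π' with hy'
  have hy'sq : algebraMap L F (x / (π * π)) = y' * y' := by
    rw [map_div₀, map_mul, hy, hy', div_mul_div_comm]
  have hy'v : v.valuation F y' = 1 := by
    rw [hy'sq, map_mul, ← pow_two] at hunit2
    exact (pow_eq_one_iff_of_nonneg zero_le (by norm_num : (2 : ℕ) ≠ 0)).1 hunit2
  have hy'neg : τ y' = -y' := by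
    rw [hy', map_div₀, hneg, hπ', AlgEquiv.commutes, neg_div]
  obtain ⟨a, ⟨b, hb⟩, hab⟩ := HeightOneSpectrum.exists_primeCompl_mul_eq_of_integer v y' hy'v.le
  change b ∉ v.asIdeal at hb
  change y' * algebraMap (𝓞 F) F b = algebraMap (𝓞 F) F a at hab
  have hb1 : v.valuation F (algebraMap (𝓞 F) F b) = 1 := (v.valuation_eq_one_iff_notMem (K := F)).mpr hb
  have ha1 : v.valuation F (algebraMap (𝓞 F) F a) = 1 := by
    rw [← hab, map_mul, hy'v, hb1, one_mul]
  have ha : a ∉ v.asIdeal := (v.valuation_eq_one_iff_notMem (K := F)).mp ha1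
  set t : 𝓞 F →+* 𝓞 F := RingOfIntegers.mapRingHom ((τ : F ≃+* F) : F →+* F) with ht
  have hta := aut_congr hP0 hpP0 hnP0 hu (τ : F ≃+* F) a
  have htb := aut_congr hP0 hpP0 hnP0 hu (τ : F ≃+* F) b
  rw [← ht] at hta htb
  have eta : ((t a : 𝓞 F) : F) = τ (a : F) := rfl
  have etb : ((t b : 𝓞 F) : F) = τ (b : F) := rfl
  have hrel : t a * b + a * t b = 0 := by
    apply RingOfIntegers.coe_injective
    rw [map_add, map_mul, map_mul, map_zero]
    change ((t a : 𝓞 F) : F) * (b : F) + (a : F) * ((t b : 𝓞 F) : F) = 0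
    rw [eta, etb]
    have e1 : (a : F) = y' * (b : F) := hab.symm
    rw [e1, map_mul, hy'neg]
    ring
  have h2ab : (2 : 𝓞 F) * (a * b) ∈ P0 := by
    have : (2 : 𝓞 F) * (a * b) = (t a * b + a * t b) - ((t a - a) * b + a * (t b - b)) := by ring
    rw [this, hrel, zero_sub]
    exact P0.neg_mem (P0.add_mem (P0.mul_mem_right _ hta) (P0.mul_mem_left _ htb))
  have h2 : (2 : 𝓞 F) ∈ P0 := by
    rcases hP0.mem_or_mem h2ab with h3 | h3
    · exact h3
    · rcases hP0.mem_or_mem h3 with h4 | h4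
      · exact absurd h4 ha
      · exact absurd h4 hb
  have hodd : Odd p := hpp.odd_of_ne_two hp2
  obtain ⟨k, hk⟩ := hodd
  have h1 : (1 : 𝓞 F) ∈ P0 := by
    have : (1 : 𝓞 F) = (p : 𝓞 F) - 2 * k := by rw [hk]; push_cast; ring
    rw [this]
    exact P0.sub_mem hpP0 (P0.mul_mem_right _ h2)
  exact hP0.ne_top ((Ideal.eq_top_iff_one P0).2 h1)

end H5SW
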