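import Pool.Agent.H5.SW.C6
import Pool.Agent.H86.CN.Asm

/-! Output of the class number formula, from helper86's `cnf` (analytic half: helper73) and `cyc_bridge`. -/

set_option autoImplicit false
set_option linter.style.haveILetI false

namespace H5SW

open NumberField

theorem class_parity {p n : ℕ} [Fact p.Prime] (hp2 : p ≠ 2) {L : Type} [Field L] [NumberField L]
    (r : RC (p ^ (n + 1)) L) : r.Cyc.index ≠ 0 ∧
      padicValNat 2 (NumberField.classNumber L) = padicValNat 2 r.Cyc.index := by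
  haveI : NeZero (p ^ (n + 1)) := ⟨pow_ne_zero _ (Fact.out : p.Prime).ne_zero⟩
  haveI : NeZero ((p ^ (n + 1) : ℕ) : ℚ) := ⟨by exact_mod_cast pow_ne_zero _ (Fact.out : p.Prime).ne_zero⟩
  haveI : IsCyclotomicExtension {p ^ (n + 1)} ℚ (CyclotomicField (p ^ (n + 1)) ℚ) :=
    CyclotomicField.isCyclotomicExtension (p ^ (n + 1)) ℚ
  letI := r.algC
  obtain ⟨hq, ζ, hζ, hC⟩ := cyc_bridge hp2 r
  haveI := hq
  haveI := r.real
  have h := H86CN.cnf p n hp2 (CyclotomicField (p ^ (n + 1)) ℚ) L ζ hζ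
  rw [hC]
  exact ⟨h.1, h.2 2 Nat.prime_two (Ne.symm hp2)⟩

end H5SW
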