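import Pool.Agent.H5.SW.U1

/-!
ROW U4 (the 2-part of the index of the cyclotomic units is stationary).  PROOF.  `D = [L:K] = p^(n-m)` odd, `A = (𝓞 K)ˣ / Cyc_K`, `B = (𝓞 L)ˣ / Cyc_L`, finite by hypothesis.
(1) The inclusion `i : (𝓞 K)ˣ → (𝓞 L)ˣ` maps `Cyc_K` to `Cyc_L`: `d_K(σ ū) = N_{L/K}(d_L(σ u)) = ∏_{h ∈ Gal(L/K)} d_L(h σ u)` (`norm_d`, `apply_d`), so a product of the `d_K` of total
    exponent `0` is a product of the `d_L` of total exponent `0`.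
(2) The norm `ν : (𝓞 L)ˣ → (𝓞 K)ˣ` maps `Cyc_L` to `Cyc_K`: `norm_d`.
(3) `ν ∘ i = (·)^D`.
(4) `c_u ∈ Cyc_L` for units `u`: `(rL.c u)^2 = (2 - rL.c (4u)) / (2 - rL.c (2u))` (from `c_sq`, `c_mul`: `(2 - c(4u)) = (2 - c(2u))(2 + c(2u))`, `2 + c(2u) = c(u)^2`); so `pw θ ∈ Cyc_L` for all `θ`.
(5) If `ε ∈ (𝓞 L)ˣ`, `ν ε ∈ Cyc_K`, then an odd power of `ε` is in `Cyc_L`: `ε' = ε^D / i(ν ε)` has norm 1, `ε'^j = pw θ ∈ Cyc_L` (`unit_odd_power`, (4)), `i(ν ε) ∈ Cyc_L` by (1), so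
    `ε^(D j) ∈ Cyc_L`.
(6) So `ν : B → A` is injective on the 2-primary part `B_2` of `B`, and `i : A → B` is injective on `A_2` by (3). Hence `|A_2| = |B_2|`: `padicValNat 2` of the orders agree
    (Sylow / `Nat.card` of the 2-primary component: `CommGroup.primaryComponent`; or: `B_2 ↪ A_2`, `A_2 ↪ B_2`).
-/

set_option autoImplicit false

namespace H5SW

open NumberField

variable {p m n : ℕ} {K L : Type} [Field K] [NumberField K] [Field L] [NumberField L] [Algebra K L]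

section group

theorem U4_le {A B : Type} [CommGroup A] [CommGroup B] [Finite A] [Finite B] (f : A →* B)
    (hf : ∀ a, f a = 1 → ∃ j : ℕ, Odd j ∧ a ^ j = 1) :
    padicValNat 2 (Nat.card A) ≤ padicValNat 2 (Nat.card B) := by
  haveI : Fact (Nat.Prime 2) := ⟨Nat.prime_two⟩
  have h1 : ¬ 2 ∣ Nat.card f.ker := by
    intro h
    obtain ⟨x, hx⟩ := exists_prime_orderOf_dvd_card' (G := f.ker) 2 h
    obtain ⟨j, hj, hxj⟩ := hf x.1 x.2
    have h2 : x ^ j = 1 := Subtype.ext hxj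
    have h3 : 2 ∣ j := by
      rw [← hx]
      exact orderOf_dvd_of_pow_eq_one h2
    exact (Nat.not_even_iff_odd.2 hj) (even_iff_two_dvd.2 h3)
  have h2 : Nat.card A = Nat.card f.ker * Nat.card f.range := by
    rw [← Subgroup.index_ker, Subgroup.card_mul_index]
  have h3 : Nat.card f.range ∣ Nat.card B := Subgroup.card_subgroup_dvd_card f.range
  rw [h2, padicValNat.mul Nat.card_pos.ne' Nat.card_pos.ne', padicValNat.eq_zero_of_not_dvd h1,
    zero_add]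
  exact (padicValNat_dvd_iff_le Nat.card_pos.ne').1 (pow_padicValNat_dvd.trans h3)

theorem U4_index {G H : Type} [CommGroup G] [CommGroup H] (A : Subgroup G) (B : Subgroup H)
    (hA : A.index ≠ 0) (hB : B.index ≠ 0) (i : G →* H) (hi : ∀ a ∈ A, i a ∈ B) (ν : H →* G)
    (hν : ∀ b ∈ B, ν b ∈ A) {D : ℕ} (hD : Odd D) (hνi : ∀ a, ν (i a) = a ^ D)
    (h5 : ∀ ε : H, ν ε ∈ A → ∃ j : ℕ, Odd j ∧ ε ^ j ∈ B) :
    padicValNat 2 B.index = padicValNat 2 A.index := by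
  have : A.FiniteIndex := ⟨hA⟩
  have : B.FiniteIndex := ⟨hB⟩
  have : Finite (G ⧸ A) := Subgroup.finite_quotient_of_finiteIndex
  have : Finite (H ⧸ B) := Subgroup.finite_quotient_of_finiteIndex
  let i' : G ⧸ A →* H ⧸ B := QuotientGroup.map A B i hi
  let ν' : H ⧸ B →* G ⧸ A := QuotientGroup.map B A ν hν
  apply le_antisymm
  · apply U4_le ν'
    intro b
    induction b using QuotientGroup.induction_on with
    | H b =>
      intro hb
      change ((ν b : G) : G ⧸ A) = 1 at hb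
      rw [QuotientGroup.eq_one_iff] at hb
      obtain ⟨j, hj, h⟩ := h5 b hb
      refine ⟨j, hj, ?_⟩
      rw [← QuotientGroup.mk_pow, QuotientGroup.eq_one_iff]
      exact h
  · apply U4_le i'
    intro a
    induction a using QuotientGroup.induction_on with
    | H a =>
      intro ha
      change ((i a : H) : H ⧸ B) = 1 at ha
      rw [QuotientGroup.eq_one_iff] at ha
      refine ⟨D, hD, ?_⟩
      rw [← QuotientGroup.mk_pow, QuotientGroup.eq_one_iff, ← hνi]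
      exact hν _ ha

end group

section dset

variable {f : ℕ}

/-- products of powers of the `d g` of total exponent `k` -/
def U4_D (r : RC f L) (k : ℤ) (y : L) : Prop :=
  ∃ θ : (L ≃ₐ[ℚ] L) → ℤ, ∑ g, θ g = k ∧ y = ∏ g, r.d g ^ θ g

theorem U4_D_one (r : RC f L) : U4_D r 0 1 := ⟨0, by simp, by simp⟩

theorem U4_D_mul (r : RC f L) {k l : ℤ} {y z : L} (hy : U4_D r k y) (hz : U4_D r l z) :
    U4_D r (k + l) (y * z) := by
  obtain ⟨θ, h1, rfl⟩ := hy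
  obtain ⟨η, h3, rfl⟩ := hz
  refine ⟨fun g => θ g + η g, by rw [Finset.sum_add_distrib, h1, h3], ?_⟩
  simp only [zpow_add₀ (r.d_ne_zero _), Finset.prod_mul_distrib]

theorem U4_D_zpow (r : RC f L) {k : ℤ} {y : L} (hy : U4_D r k y) (a : ℤ) :
    U4_D r (k * a) (y ^ a) := by
  obtain ⟨θ, h1, rfl⟩ := hy
  refine ⟨fun g => θ g * a, by rw [← Finset.sum_mul, h1], ?_⟩
  rw [← Finset.prod_zpow]
  exact Finset.prod_congr rfl fun g _ => (zpow_mul _ _ _).symm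

theorem U4_D_single (r : RC f L) (g : L ≃ₐ[ℚ] L) : U4_D r 1 (r.d g) := by
  classical
  refine ⟨Pi.single g 1, by simp, ?_⟩
  rw [Finset.prod_eq_single g]
  · simp
  · intro b _ hb
    rw [Pi.single_eq_of_ne hb, zpow_zero]
  · simp

theorem U4_D_prod (r : RC f L) {ι : Type} (s : Finset ι) (k : ι → ℤ) (y : ι → L)
    (h : ∀ i ∈ s, U4_D r (k i) (y i)) : U4_D r (∑ i ∈ s, k i) (∏ i ∈ s, y i) := by
  classical
  induction s using Finset.induction_on with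
  | empty => simpa using U4_D_one r
  | insert a s ha ih =>
    rw [Finset.sum_insert ha, Finset.prod_insert ha]
    exact U4_D_mul r (h a (Finset.mem_insert_self _ _))
      (ih fun i hi => h i (Finset.mem_insert_of_mem hi))

theorem U4_Cyc_iff (r : RC f L) (ε : (𝓞 L)ˣ) : ε ∈ r.Cyc ↔ U4_D r 0 (((ε : 𝓞 L) : L) ^ 2) :=
  Iff.rfl

theorem U4_e_sq (r : RC f L) (g : L ≃ₐ[ℚ] L) : U4_D r 0 (((r.e g : 𝓞 L) : L) ^ 2) := by
  have hcop : Nat.Coprime 2 f := (Nat.coprime_two_left).2 r.odd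
  obtain ⟨w, hw⟩ : ∃ w : (ZMod f)ˣ, (w : ZMod f) = 2 :=
    ⟨ZMod.unitOfCoprime 2 hcop, by rw [ZMod.coe_unitOfCoprime]; norm_num⟩
  have hd1 : r.d (r.σ (w * r.u g)) = 2 - (r.c (2 * r.u g) : L) := by
    rw [RC.d, r.e_σ, Units.val_mul, hw]
  have hd2 : r.d (r.σ (w * (w * r.u g))) = 2 - (r.c (2 * (2 * r.u g)) : L) := by
    rw [RC.d, r.e_σ, Units.val_mul, Units.val_mul, hw]
  have h2 : ((2 : 𝓞 L) : L) = 2 := map_ofNat (algebraMap (𝓞 L) L) 2
  have h1 : ((r.e g : 𝓞 L) : L) ^ 2 = (r.c (2 * r.u g) : L) + 2 := by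
    have h := congrArg (fun x : 𝓞 L => (x : L)) (r.c_sq (r.u g : ZMod f))
    rw [r.e_eq]
    calc ((r.c (r.u g) : 𝓞 L) : L) ^ 2 = ((r.c (r.u g) ^ 2 : 𝓞 L) : L) :=
          (map_pow (algebraMap (𝓞 L) L) _ _).symm
      _ = ((r.c (2 * r.u g) + 2 : 𝓞 L) : L) := h
      _ = (r.c (2 * r.u g) : L) + ((2 : 𝓞 L) : L) := map_add (algebraMap (𝓞 L) L) _ _
      _ = _ := by rw [h2]
  have h3 : (r.c (2 * r.u g) : L) ^ 2 = (r.c (2 * (2 * r.u g)) : L) + 2 := by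
    have h := congrArg (fun x : 𝓞 L => (x : L)) (r.c_sq (2 * r.u g : ZMod f))
    calc ((r.c (2 * r.u g) : 𝓞 L) : L) ^ 2 = ((r.c (2 * r.u g) ^ 2 : 𝓞 L) : L) :=
          (map_pow (algebraMap (𝓞 L) L) _ _).symm
      _ = ((r.c (2 * (2 * r.u g)) + 2 : 𝓞 L) : L) := h
      _ = (r.c (2 * (2 * r.u g)) : L) + ((2 : 𝓞 L) : L) := map_add (algebraMap (𝓞 L) L) _ _
      _ = _ := by rw [h2]
  have h4 : ((r.e g : 𝓞 L) : L) ^ 2 =
      r.d (r.σ (w * (w * r.u g))) * (r.d (r.σ (w * r.u g))) ^ (-1 : ℤ) := by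
    have h5 := r.d_ne_zero (r.σ (w * r.u g))
    rw [zpow_neg_one, eq_mul_inv_iff_mul_eq₀ h5, hd2, hd1, h1]
    linear_combination -h3
  rw [h4]
  have h6 := U4_D_mul r (U4_D_single r (r.σ (w * (w * r.u g))))
    (U4_D_zpow r (U4_D_single r (r.σ (w * r.u g))) (-1))
  have h7 : (1 : ℤ) + 1 * (-1) = 0 := by norm_num
  rwa [h7] at h6

theorem U4_pw (r : RC f L) (θ : (L ≃ₐ[ℚ] L) → ℤ) : r.pw θ ∈ r.Cyc := by
  have h1 : ∀ g, r.e g ∈ r.Cyc := fun g => U4_e_sq r g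
  exact Subgroup.prod_mem _ fun g _ => Subgroup.zpow_mem _ (h1 g) _

end dset

theorem U4_norm_zpow {x : L} (hx : x ≠ 0) (a : ℤ) :
    Algebra.norm K (x ^ a) = (Algebra.norm K x) ^ a := by
  have h1 : Algebra.norm K (x⁻¹) = (Algebra.norm K x)⁻¹ := by
    apply eq_inv_of_mul_eq_one_left
    rw [← map_mul, inv_mul_cancel₀ hx, map_one]
  cases a with
  | ofNat a =>
    rw [Int.ofNat_eq_natCast, zpow_natCast, zpow_natCast, map_pow]
  | negSucc a =>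
    rw [zpow_negSucc, zpow_negSucc, ← inv_pow, ← inv_pow, map_pow, h1]

theorem index_two_part [Fact p.Prime] (hp2 : p ≠ 2) (r : RP p m n K L) (HS : HSigns r)
    (hK : r.rK.Cyc.index ≠ 0) (hL : r.rL.Cyc.index ≠ 0) :
    padicValNat 2 r.rL.Cyc.index = padicValNat 2 r.rK.Cyc.index := by
  haveI : IsGalois K L := r.isGalois
  haveI : FiniteDimensional K L := Module.Finite.of_restrictScalars_finite ℚ K L
  have hpo : Odd p := (Fact.out : p.Prime).odd_of_ne_two hp2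
  have hDo : Odd (p ^ (n - m)) := hpo.pow
  have hfin := r.finrank hp2
  have hle : p ^ (m + 1) ∣ p ^ (n + 1) := pow_dvd_pow p (Nat.succ_le_succ r.hmn)
  -- the two maps
  set i : (𝓞 K)ˣ →* (𝓞 L)ˣ := Units.map (algebraMap (𝓞 K) (𝓞 L)).toMonoidHom with hi
  set ν : (𝓞 L)ˣ →* (𝓞 K)ˣ := Units.map (RingOfIntegers.norm K) with hν
  have hi1 : ∀ a : (𝓞 K)ˣ, (((i a : (𝓞 L)ˣ) : 𝓞 L) : L) = algebraMap K L ((a : 𝓞 K) : K) :=
    fun a => rfl
  have hν1 : ∀ b : (𝓞 L)ˣ, (((ν b : (𝓞 K)ˣ) : 𝓞 K) : K) = Algebra.norm K ((b : 𝓞 L) : L) :=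
    fun b => rfl
  have hinj : ∀ a b : (𝓞 K)ˣ, ((a : 𝓞 K) : K) = ((b : 𝓞 K) : K) → a = b := fun a b h =>
    Units.ext (RingOfIntegers.coe_injective h)
  have hνi : ∀ a, ν (i a) = a ^ (p ^ (n - m)) := by
    intro a
    apply hinj
    rw [hν1, hi1, Algebra.norm_algebraMap, hfin]
    simp
  -- (1)
  have H1 : ∀ a ∈ r.rK.Cyc, i a ∈ r.rL.Cyc := by
    intro a ha
    rw [U4_Cyc_iff, hi1]
    obtain ⟨θ, h1, h2⟩ := ha
    rw [← map_pow, h2, map_prod]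
    have key : ∀ g : K ≃ₐ[ℚ] K, U4_D r.rL (Fintype.card (L ≃ₐ[K] L))
        (algebraMap K L (r.rK.d g)) := by
      intro g
      obtain ⟨u, hu⟩ := ZMod.unitsMap_surjective hle (r.rK.u g)
      have h3 := r.norm_d hp2 u
      rw [hu, r.rK.σ_u] at h3
      rw [← h3, Algebra.norm_eq_prod_automorphisms]
      have h4 : ∀ h : L ≃ₐ[K] L, h (r.rL.d (r.rL.σ u)) =
          r.rL.d (h.restrictScalars ℚ * r.rL.σ u) := fun h =>
        r.rL.apply_d (h.restrictScalars ℚ) (r.rL.σ u)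
      have h5 := U4_D_prod r.rL (Finset.univ : Finset (L ≃ₐ[K] L)) (fun _ => 1)
        (fun h => h (r.rL.d (r.rL.σ u))) (fun h _ => by
          rw [h4 h]
          exact U4_D_single r.rL _)
      simpa using h5
    have h6 := U4_D_prod r.rL (Finset.univ : Finset (K ≃ₐ[ℚ] K))
      (fun g => (Fintype.card (L ≃ₐ[K] L) : ℤ) * θ g)
      (fun g => algebraMap K L (r.rK.d g ^ θ g)) (fun g _ => by
        rw [map_zpow₀]
        exact U4_D_zpow r.rL (key g) (θ g))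
    rw [← Finset.mul_sum, h1, mul_zero] at h6
    exact h6
  -- (2)
  have H2 : ∀ b ∈ r.rL.Cyc, ν b ∈ r.rK.Cyc := by
    intro b hb
    rw [U4_Cyc_iff, hν1]
    obtain ⟨θ, h1, h2⟩ := hb
    rw [← map_pow, h2, map_prod]
    have h6 := U4_D_prod r.rK (Finset.univ : Finset (L ≃ₐ[ℚ] L)) (fun g => 1 * θ g)
      (fun g => Algebra.norm K (r.rL.d g ^ θ g)) (fun g _ => by
        rw [U4_norm_zpow (r.rL.d_ne_zero g)]
        have h3 := r.norm_d hp2 (r.rL.u g)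
        rw [r.rL.σ_u] at h3
        rw [h3]
        exact U4_D_zpow r.rK (U4_D_single r.rK _) (θ g))
    simp only [one_mul, h1] at h6
    exact h6
  refine U4_index _ _ hK hL i H1 ν H2 hDo hνi ?_
  intro ε hε
  set ε' : (𝓞 L)ˣ := ε ^ (p ^ (n - m)) * (i (ν ε))⁻¹ with hε'
  have h1 : ν ε' = 1 := by
    rw [hε', map_mul, map_pow, map_inv, hνi, mul_inv_cancel]
  have h2 : Algebra.norm K ((ε' : 𝓞 L) : L) = 1 := by
    rw [← hν1, h1]
    simp
  obtain ⟨j, hj, θ, -, h3⟩ := unit_odd_power hp2 r HS ε' h2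
  refine ⟨p ^ (n - m) * j, hDo.mul hj, ?_⟩
  have h4 : ε ^ (p ^ (n - m) * j) = r.rL.pw θ * (i (ν ε)) ^ j := by
    rw [← h3, hε', mul_pow, ← pow_mul, inv_pow, inv_mul_cancel_right]
  rw [h4]
  exact Subgroup.mul_mem _ (U4_pw r.rL θ) (Subgroup.pow_mem _ (H1 _ hε) _)

end H5SW
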