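import Pool.Agent.H10.RelVal

/-!
ROW X1 (elements of even valuation and square norm).  PROOF.  `D = [L:K]` odd. `(x) = I^2` for a fractional ideal `I` of `L` (all valuations even). Write things in the class groups:
`i = ClassGroup.extendedHom : Cl(𝓞 K) → Cl(𝓞 L)`; for ideals the relative norm `Ideal.relNorm (𝓞 K)` with `relNorm (J 𝓞 L) = J^D` (`Ideal.relNorm_algebraMap`), and
`relNorm (x) = (N x)` (`relNorm_singleton`).
(1) `i` is injective on the 2-primary part (if `J 𝓞 L = (t)` then `J^D = (N t)` is principal; `D` odd). As `v_2(h_L) = v_2(h_K)`, `i` maps the 2-primary part of `Cl(𝓞 K)` onto that of `Cl(𝓞 L)`.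
(2) `[I]^2 = 1`, so `[I] = i [J]` with `[J]` in the 2-primary part, `i([J]^2) = 1`, `[J]^2 = 1`. I.e. (with integral ideals) `I * (t) = J 𝓞 L * (t')`, so taking relative norms,
    `relNorm I ~ J^D ~ J` (as `[J]^2 = 1`, `D` odd) in `Cl(𝓞 K)`.
(3) `relNorm(I)^2 = (N x) = (y)^2`, `N x = y^2`, so `relNorm I = (y)` is principal. Hence `[J] = 1`, `[I] = 1`, `I = (z)`, `x = ε z^2` with `ε` a unit, and `N ε = N x / (N z)^2` is a square.
To stay with integral ideals, first multiply `x` by the square of an integer so that `x ∈ 𝓞 L` (harmless: changes `z`), then `(x) = I^2` with `I` integral.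
-/

set_option autoImplicit false

namespace H5SW

open NumberField IsDedekindDomain

theorem x1_grp {A B : Type*} [CommGroup A] [CommGroup B] [Finite A] [Finite B] (i : A →* B)
    {D : ℕ} (hD : Odd D) (hker : ∀ a, i a = 1 → a ^ D = 1)
    (hv : padicValNat 2 (Nat.card B) = padicValNat 2 (Nat.card A)) {b : B} (hb : b ^ 2 = 1) :
    ∃ a : A, a ^ 2 = 1 ∧ i a = b := by
  have hodd : ¬ 2 ∣ Nat.card i.ker := by
    intro h
    obtain ⟨x, hx⟩ := exists_prime_orderOf_dvd_card' (G := i.ker) 2 h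
    have h1 : (x : A) ^ D = 1 := hker x x.2
    have h2 : x ^ D = 1 := Subtype.ext h1
    have h3 : 2 ∣ D := hx ▸ orderOf_dvd_of_pow_eq_one h2
    obtain ⟨k, hk⟩ := hD
    omega
  have h1 : Nat.card i.ker * Nat.card i.range = Nat.card A := by
    rw [← Subgroup.index_ker, Subgroup.card_mul_index]
  have h2 : Nat.card i.range * i.range.index = Nat.card B := Subgroup.card_mul_index _
  have k0 : Nat.card i.ker ≠ 0 := Nat.card_pos.ne'
  have r0 : Nat.card i.range ≠ 0 := Nat.card_pos.ne'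
  have j0 : i.range.index ≠ 0 := Subgroup.index_ne_zero_of_finite
  rw [← h1, ← h2, padicValNat.mul r0 j0, padicValNat.mul k0 r0,
    padicValNat.eq_zero_of_not_dvd hodd] at hv
  have h3 : padicValNat 2 i.range.index = 0 := by omega
  have h4 : ¬ 2 ∣ i.range.index := by
    intro h
    have := one_le_padicValNat_of_dvd j0 h
    omega
  have hpow : ∀ {G : Type _} [Group G] (g : G) {n : ℕ}, Odd n → g ^ 2 = 1 → g ^ n = g := by
    intro G _ g n hn hg
    obtain ⟨k, rfl⟩ := hn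
    rw [pow_succ, pow_mul, hg, one_pow, one_mul]
  have h5 : b ^ i.range.index ∈ i.range := Subgroup.pow_index_mem _ b
  rw [hpow b (by rw [← Nat.not_even_iff_odd, even_iff_two_dvd]; exact h4) hb] at h5
  obtain ⟨a, ha⟩ := h5
  refine ⟨a ^ D, ?_, ?_⟩
  · rw [← pow_mul, mul_comm D 2, pow_mul]
    apply hker
    rw [map_pow, ha, hb]
  · rw [map_pow, ha, hpow b hD hb]

theorem x1_finrank (K L : Type) [Field K] [NumberField K] [Field L] [NumberField L] [Algebra K L] :
    Module.finrank (𝓞 K) (𝓞 L) = Module.finrank K L :=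
  (IsFractionRing.finrank_eq (𝓞 K) K (𝓞 L) L).symm

open nonZeroDivisors in
theorem x1_ker {K L : Type} [Field K] [NumberField K] [Field L] [NumberField L] [Algebra K L]
    (a : ClassGroup (𝓞 K)) (ha : ClassGroup.extendedHom (𝓞 K) (𝓞 L) a = 1) :
    a ^ (Module.finrank K L) = 1 := by
  obtain ⟨J, rfl⟩ := ClassGroup.mk0_surjective a
  rw [ClassGroup.extendedHom_mk0] at ha
  have h1 := (ClassGroup.mk0_eq_one_iff (ClassGroup.extendedIdeal (𝓞 K) (𝓞 L) J).2).mp ha
  obtain ⟨⟨t, ht⟩⟩ := h1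
  have ht' : (J : Ideal (𝓞 K)).map (algebraMap (𝓞 K) (𝓞 L)) = Ideal.span {t} := ht
  have h2 := Ideal.relNorm_algebraMap (𝓞 L) (J : Ideal (𝓞 K))
  rw [ht', Ideal.relNorm_singleton, x1_finrank] at h2
  rw [← map_pow]
  refine (ClassGroup.mk0_eq_one_iff (I := (J : Ideal (𝓞 K)) ^ (Module.finrank K L))
    (pow_mem J.2 _)).mpr ⟨⟨Algebra.intNorm (𝓞 K) (𝓞 L) t, ?_⟩⟩
  rw [← h2]

open nonZeroDivisors in
theorem x1_int {K L : Type} [Field K] [NumberField K] [Field L] [NumberField L] [Algebra K L]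
    (hodd : Odd (Module.finrank K L))
    (hcl : padicValNat 2 (NumberField.classNumber L) = padicValNat 2 (NumberField.classNumber K))
    {y : 𝓞 L} (hy : y ≠ 0)
    (hev : ∀ v : HeightOneSpectrum (𝓞 L), Even (multiplicity v.asIdeal (Ideal.span {y})))
    (hN : IsSquare (Algebra.norm K (y : L))) :
    ∃ (ε : (𝓞 L)ˣ) (c : L), c ≠ 0 ∧ (y : L) = ((ε : 𝓞 L) : L) * c ^ 2 := by
  classical
  have hI : Ideal.span {y} ≠ 0 := by
    rw [Ideal.zero_eq_bot, Ne, Ideal.span_singleton_eq_bot]; exact hy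
  obtain ⟨u, hu⟩ := Multiset.exists_smul_of_dvd_count
    (UniqueFactorizationMonoid.normalizedFactors (Ideal.span {y})) (k := 2)
    (by
      intro P hP
      have hirr := UniqueFactorizationMonoid.irreducible_of_normalized_factor P hP
      have hpr : Prime P := hirr.prime
      have hev' := hev ⟨P, Ideal.isPrime_of_prime hpr, hpr.ne_zero⟩
      rw [UniqueFactorizationMonoid.multiplicity_eq_count_normalizedFactors hirr hI, normalize_eq] at hev'
      exact hev'.two_dvd)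
  set I := u.prod with hIdef
  have hI2 : I ^ 2 = Ideal.span {y} := by
    rw [hIdef, ← Multiset.prod_nsmul, ← hu]
    exact Ideal.prod_normalizedFactors_eq_self hI
  have hI0 : I ≠ 0 := by
    intro h
    rw [h] at hI2
    exact hI (by rw [← hI2, zero_pow two_ne_zero])
  have hIm : I ∈ (Ideal (𝓞 L))⁰ := mem_nonZeroDivisors_of_ne_zero hI0
  -- the norm of `I` is principal
  obtain ⟨z, hz⟩ := hN
  have hzint : IsIntegral ℤ z := by
    refine IsIntegral.of_pow (n := 2) two_pos ?_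
    rw [sq, ← hz, ← Algebra.algebraMap_intNorm (A := 𝓞 K) (K := K) (L := L) (B := 𝓞 L)]
    exact RingOfIntegers.isIntegral_coe _
  obtain ⟨zi, hzi⟩ : ∃ zi : 𝓞 K, algebraMap (𝓞 K) K zi = z := ⟨⟨z, hzint⟩, rfl⟩
  have hzn : Algebra.intNorm (𝓞 K) (𝓞 L) y = zi ^ 2 := by
    apply RingOfIntegers.coe_injective (K := K)
    have h1 := Algebra.algebraMap_intNorm (A := 𝓞 K) (K := K) (L := L) (B := 𝓞 L) y
    rw [h1, map_pow, hzi, hz, sq]
  have hrel2 : (Ideal.relNorm (𝓞 K) I) ^ 2 = Ideal.span {zi} ^ 2 := by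
    rw [← map_pow, hI2, Ideal.relNorm_singleton, hzn, Ideal.span_singleton_pow]
  have hrel : Ideal.relNorm (𝓞 K) I = Ideal.span {zi} := by
    apply dvd_antisymm
    · exact (UniqueFactorizationMonoid.pow_dvd_pow_iff_dvd two_ne_zero).mp (dvd_of_eq hrel2)
    · exact (UniqueFactorizationMonoid.pow_dvd_pow_iff_dvd two_ne_zero).mp (dvd_of_eq hrel2.symm)
  -- the class of `I`
  have hb : (ClassGroup.mk0 ⟨I, hIm⟩) ^ 2 = 1 := by
    rw [← map_pow]
    refine (ClassGroup.mk0_eq_one_iff (I := I ^ 2) (pow_mem hIm _)).mpr ⟨⟨y, ?_⟩⟩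
    rw [hI2]
  obtain ⟨a, ha2, hab⟩ := x1_grp (ClassGroup.extendedHom (𝓞 K) (𝓞 L)) hodd x1_ker (by
    rw [Nat.card_eq_fintype_card, Nat.card_eq_fintype_card]; exact hcl) hb
  obtain ⟨J, rfl⟩ := ClassGroup.mk0_surjective a
  rw [ClassGroup.extendedHom_mk0] at hab
  obtain ⟨s, t, hs, ht, hst⟩ := (ClassGroup.mk0_eq_mk0_iff).mp hab
  have hst' : Ideal.span {s} * (J : Ideal (𝓞 K)).map (algebraMap (𝓞 K) (𝓞 L)) = Ideal.span {t} * I := hst
  have h3 := congrArg (Ideal.relNorm (𝓞 K)) hst'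
  rw [map_mul, map_mul, Ideal.relNorm_singleton, Ideal.relNorm_singleton, hrel,
    Ideal.relNorm_algebraMap, x1_finrank] at h3
  have ns : Algebra.intNorm (𝓞 K) (𝓞 L) s ≠ 0 := by
    rw [Ne, Algebra.intNorm_eq_zero]; exact hs
  have nt : Algebra.intNorm (𝓞 K) (𝓞 L) t ≠ 0 := by
    rw [Ne, Algebra.intNorm_eq_zero]; exact ht
  have hz0 : zi ≠ 0 := by
    intro h0
    rw [h0, zero_pow two_ne_zero, Algebra.intNorm_eq_zero] at hzn
    exact hy hzn
  have hzI : Ideal.span {zi} ∈ (Ideal (𝓞 K))⁰ := by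
    apply mem_nonZeroDivisors_of_ne_zero
    rw [Ideal.zero_eq_bot, Ne, Ideal.span_singleton_eq_bot]; exact hz0
  have h4 : ClassGroup.mk0 J ^ (Module.finrank K L) = 1 := by
    rw [← map_pow]
    have h5 : ClassGroup.mk0 (J ^ (Module.finrank K L)) = ClassGroup.mk0 ⟨_, hzI⟩ := by
      refine (ClassGroup.mk0_eq_mk0_iff).mpr ⟨_, _, ns, nt, ?_⟩
      exact h3
    rw [h5]
    exact (ClassGroup.mk0_eq_one_iff hzI).mpr ⟨⟨_, rfl⟩⟩
  have h6 : ClassGroup.mk0 J = 1 := by
    obtain ⟨k, hk⟩ := hodd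
    rw [hk, pow_succ, pow_mul, ha2, one_pow, one_mul] at h4
    exact h4
  have h7 : ClassGroup.mk0 ⟨I, hIm⟩ = 1 := by
    rw [← hab, ← ClassGroup.extendedHom_mk0, h6, map_one]
  obtain ⟨⟨c, hc⟩⟩ := (ClassGroup.mk0_eq_one_iff hIm).mp h7
  have hc' : I = Ideal.span {c} := hc
  rw [hc', Ideal.span_singleton_pow, Ideal.span_singleton_eq_span_singleton] at hI2
  obtain ⟨ε, hε⟩ := hI2
  have hc0 : (c : L) ≠ 0 := by
    rw [RingOfIntegers.coe_ne_zero_iff]
    rintro rfl
    rw [zero_pow two_ne_zero, zero_mul] at hε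
    exact hy hε.symm
  refine ⟨ε, c, hc0, ?_⟩
  have h8 := congrArg (algebraMap (𝓞 L) L) hε
  rw [map_mul, map_pow, mul_comm] at h8
  exact h8.symm

theorem even_val_repr {K L : Type} [Field K] [NumberField K] [Field L] [NumberField L] [Algebra K L]
    (hodd : Odd (Module.finrank K L))
    (hcl : padicValNat 2 (NumberField.classNumber L) = padicValNat 2 (NumberField.classNumber K)) {x : L} (hx : x ≠ 0)
    (hev : ∀ w : HeightOneSpectrum (𝓞 L), Even (WithZero.log (w.valuation L x)))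
    (hN : IsSquare (Algebra.norm K x)) :
    ∃ (ε : (𝓞 L)ˣ) (z : L), z ≠ 0 ∧ x = ((ε : 𝓞 L) : L) * z ^ 2 ∧ IsSquare (Algebra.norm K ((ε : 𝓞 L) : L)) := by
  obtain ⟨a, b, hb, rfl⟩ := IsFractionRing.div_surjective (A := 𝓞 L) x
  have hb0 : b ≠ 0 := nonZeroDivisors.ne_zero hb
  have ha0 : a ≠ 0 := by
    rintro rfl
    apply hx
    simp
  have haK : (a : L) ≠ 0 := RingOfIntegers.coe_ne_zero_iff.mpr ha0
  have hbK : (b : L) ≠ 0 := RingOfIntegers.coe_ne_zero_iff.mpr hb0
  obtain ⟨ε, c, hc, h⟩ := x1_int hodd hcl (y := a * b) (mul_ne_zero ha0 hb0) (by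
    intro v
    have h1 := hev v
    have h2 : v.valuation L ((a * b : 𝓞 L) : L) =
        v.valuation L ((a : L) / (b : L)) * v.valuation L (b : L) ^ 2 := by
      rw [← map_pow, ← map_mul]
      congr 1
      push_cast
      field_simp
    have h3 := v.intValuation_eq_exp_neg_multiplicity (mul_ne_zero ha0 hb0)
    rw [← v.valuation_of_algebraMap (K := L)] at h3
    have h4 := congrArg WithZero.log h2
    change WithZero.log (v.valuation L (algebraMap (𝓞 L) L (a * b))) = _ at h4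
    rw [h3, WithZero.log_exp, WithZero.log_mul, WithZero.log_pow] at h4
    · rw [Int.even_iff] at h1
      have h5 : (multiplicity v.asIdeal (Ideal.span {a * b}) : ℤ) % 2 = 0 := by
        change WithZero.log (v.valuation L ((a : L) / (b : L))) % 2 = 0 at h1
        simp only [nsmul_eq_mul, Nat.cast_ofNat] at h4
        omega
      rw [Nat.even_iff]
      omega
    · rw [Valuation.ne_zero_iff]
      exact div_ne_zero haK hbK
    · exact pow_ne_zero _ ((Valuation.ne_zero_iff _).mpr hbK)) (by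
    obtain ⟨q, hq⟩ := hN
    have h2 : ((a * b : 𝓞 L) : L) = (a : L) / (b : L) * (b : L) ^ 2 := by
      push_cast
      field_simp
    refine ⟨q * Algebra.norm K (b : L), ?_⟩
    change Algebra.norm K ((a : L) / (b : L)) = q * q at hq
    rw [h2, map_mul, map_pow, hq]
    ring)
  have hx' : (algebraMap (𝓞 L) L a) / (algebraMap (𝓞 L) L b) = ((ε : 𝓞 L) : L) * (c / b) ^ 2 := by
    change (a : L) / (b : L) = _
    push_cast at h
    field_simp
    exact h
  refine ⟨ε, c / b, div_ne_zero hc hbK, hx', ?_⟩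
  obtain ⟨q, hq⟩ := hN
  have hcb : Algebra.norm K (c / (b : L)) ≠ 0 := by
    rw [Ne, Algebra.norm_eq_zero_iff]; exact div_ne_zero hc hbK
  rw [hx', map_mul, map_pow] at hq
  refine ⟨q / Algebra.norm K (c / (b : L)), ?_⟩
  field_simp
  linear_combination hq

end H5SW
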