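import Pool.Agent.H5.SW.U2
import Pool.Agent.H5.SW.U4
import Pool.Agent.H5.SW.C7
import Pool.Agent.H5.SW.X1
import Pool.Agent.H10.Semi
import Pool.Agent.H10.Class

/-!
ROW R1 (no new classes for the real cyclotomic pair).  PROOF.  `hodd`: `[L:K] = p^(n-m)` odd (`RP.finrank`). `HSigns r` is `even_of_signs`. `class_parity` for `rL`, `rK` and `index_two_part` give
`v_2(h_L) = v_2(h_K)`. Let `x ≠ 0` with even valuations and square norm. `even_val_repr`: `x = ε z^2`, `N ε` a square.
(a) If `x` is totally positive so is `ε` (`φ ε = φ x / (φ z)^2`), `unit_sq_of_pos` gives `ε` square, so `x` is.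
(b) If at every `w ∣ 2` there are `t, m` with `w(m) = 1`, `w(x t^2 - m^2) ≤ w(4)`: then the same holds for `ε` (`t z`), and `w(t z) = 1`. As in H10/ClassCrit.lean (`noNewUnramified_of`, which proves the
    same reduction: a CRT argument gives a global `s ∈ 𝓞 L` with `4 ∣ ε - s^2`), and `unit_sq_of_four` (with `two_red`, see K2) gives `ε` square.
-/

set_option autoImplicit false

namespace H5SW

set_option linter.style.haveILetI false

open NumberField IsDedekindDomain WithZero Pool.Agent.H10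

variable {p k0 : ℕ} [Fact p.Prime] {m n : ℕ} {K L : Type} [Field K] [NumberField K] [Field L] [NumberField L] [Algebra K L]

omit [NumberField K] [Algebra K L] [Field K] in
lemma R1_unit_val (ε : (𝓞 L)ˣ) (w : HeightOneSpectrum (𝓞 L)) :
    w.valuation L ((ε : 𝓞 L) : L) = 1 := by
  apply (w.valuation_eq_one_iff_notMem (K := L)).mpr
  intro h
  exact w.isPrime.ne_top (Ideal.eq_top_of_isUnit_mem _ h ε.isUnit)

/-- a unit which is, up to squares, a square modulo four at all primes above two is a square modulo four -/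
theorem R1_four {x c : L} {ε : (𝓞 L)ˣ} (hc : c ≠ 0) (hxc : x = ((ε : 𝓞 L) : L) * c ^ 2)
    (hloc : ∀ w : HeightOneSpectrum (𝓞 L), (2 : 𝓞 L) ∈ w.asIdeal →
      ∃ t m : L, t ≠ 0 ∧ w.valuation L m = 1 ∧
        w.valuation L (x * t ^ 2 - m ^ 2) ≤ w.valuation L 4) : ∃ s : 𝓞 L, (4 : 𝓞 L) ∣ (ε : 𝓞 L) - s ^ 2 := by
  have e4 : ((4 : 𝓞 L) : L) = 4 := map_ofNat (algebraMap (𝓞 L) L) 4
  have h40 : ∀ w : HeightOneSpectrum (𝓞 L), w.valuation L 4 ≠ 0 := fun w =>
    (Valuation.ne_zero_iff _).mpr (by norm_num)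
  have h4le : ∀ w : HeightOneSpectrum (𝓞 L), w.valuation L 4 ≤ 1 := fun w => by
    have := w.valuation_le_one (K := L) (4 : 𝓞 L)
    rwa [← e4]
  -- local square roots which are integers
  have hsw : ∀ w : HeightOneSpectrum (𝓞 L), ∃ s : 𝓞 L,
      w.valuation L (((ε : 𝓞 L) : L) - (s : L) ^ 2) ≤ w.valuation L 4 := by
    intro w
    by_cases hw : (2 : 𝓞 L) ∈ w.asIdeal
    · obtain ⟨t, m, ht, hm, h⟩ := hloc w hw
      have h2lt : w.valuation L 4 < 1 := by
        have h1 : (4 : 𝓞 L) ∈ w.asIdeal := by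
          have : (4 : 𝓞 L) = 2 * 2 := by norm_num
          rw [this]; exact Ideal.mul_mem_left _ _ hw
        have := (w.valuation_lt_one_iff_mem (K := L) (4 : 𝓞 L)).mpr h1
        rwa [← e4]
      set T := c * t with hT
      have hT0 : T ≠ 0 := mul_ne_zero hc ht
      have hxT : x * t ^ 2 = ((ε : 𝓞 L) : L) * T ^ 2 := by rw [hxc, hT]; ring
      rw [hxT] at h
      have hVT : w.valuation L T = 1 := by
        apply val_eq_one_of_sq
        have h3 : w.valuation L (((ε : 𝓞 L) : L) * T ^ 2) = 1 := by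
          have h2 : ((ε : 𝓞 L) : L) * T ^ 2 = (((ε : 𝓞 L) : L) * T ^ 2 - m ^ 2) + m ^ 2 := by ring
          rw [h2, Valuation.map_add_eq_of_lt_right, map_pow, hm, one_pow]
          rw [map_pow, hm, one_pow]
          exact h.trans_lt h2lt
        rwa [map_mul, R1_unit_val, one_mul] at h3
      have hq1 : w.valuation L (m / T) = 1 := by rw [map_div₀, hm, hVT, div_one]
      obtain ⟨s, hs⟩ := w.exists_valuation_sub_lt_of_integer hq1.le
        (Units.mk0 (w.valuation L 4) (h40 w))
      refine ⟨s, ?_⟩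
      change w.valuation L ((s : L) - m / T) < w.valuation L 4 at hs
      have h5 : w.valuation L (((ε : 𝓞 L) : L) - (m / T) ^ 2) ≤ w.valuation L 4 := by
        have h6 : ((ε : 𝓞 L) : L) - (m / T) ^ 2 = (((ε : 𝓞 L) : L) * T ^ 2 - m ^ 2) / T ^ 2 := by
          field_simp
        rw [h6, map_div₀, map_pow, hVT, one_pow, div_one]
        exact h
      have h7 : ((ε : 𝓞 L) : L) - (s : L) ^ 2 = (((ε : 𝓞 L) : L) - (m / T) ^ 2) -
          ((s : L) - m / T) * ((s : L) + m / T) := by ring
      rw [h7]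
      refine (Valuation.map_sub _ _ _).trans (max_le h5 ?_)
      rw [map_mul]
      have h8 : w.valuation L ((s : L) + m / T) ≤ 1 :=
        (Valuation.map_add _ _ _).trans (max_le (w.valuation_le_one (K := L) s) hq1.le)
      calc w.valuation L ((s : L) - m / T) * w.valuation L ((s : L) + m / T)
          ≤ w.valuation L 4 * 1 := mul_le_mul' hs.le h8
        _ = _ := mul_one _
    · refine ⟨0, ?_⟩
      have h2 : w.valuation L 2 = 1 := by
        have h3 := val_eq_one_of_notMem hw
        have e2 : ((2 : 𝓞 L) : L) = 2 := map_ofNat (algebraMap (𝓞 L) L) 2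
        rwa [e2] at h3
      have h4 : w.valuation L 4 = 1 := by
        have : (4 : L) = 2 * 2 := by norm_num
        rw [this, map_mul, h2, mul_one]
      rw [h4]
      have e0 : ((0 : 𝓞 L) : L) = 0 := map_zero (algebraMap (𝓞 L) L)
      rw [e0, zero_pow two_ne_zero, sub_zero, R1_unit_val]
  choose s hs using hsw
  -- the Chinese remainder theorem
  have hfin : {w : HeightOneSpectrum (𝓞 L) | w.asIdeal ∣ Ideal.span {(4 : 𝓞 L)}}.Finite :=
    Ideal.finite_factors (by
      rw [Ideal.zero_eq_bot, Ne, Ideal.span_singleton_eq_bot]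
      norm_num)
  obtain ⟨y, hy⟩ := IsDedekindDomain.exists_forall_sub_mem_ideal (s := hfin.toFinset)
    (fun w : HeightOneSpectrum (𝓞 L) => w.asIdeal)
    (fun w => (-(log (w.valuation L 4))).toNat) (fun w _ => w.prime)
    (fun w _ w' _ hne h => hne (HeightOneSpectrum.ext h)) (fun w => s w.1)
  refine ⟨y, ?_⟩
  have hmem : (((ε : 𝓞 L) : L) - (y : L) ^ 2) / 4 ∈ (algebraMap (𝓞 L) L).range := by
    apply HeightOneSpectrum.mem_integers_of_valuation_le_one
    intro w
    rw [map_div₀]
    apply div_le_one_of_le₀ _ zero_le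
    by_cases hw : w.asIdeal ∣ Ideal.span {(4 : 𝓞 L)}
    · have h1 := hy w (by simpa using hw)
      have h2 : w.valuation L ((y : L) - (s w : L)) ≤ w.valuation L 4 := by
        have h3 := (w.intValuation_le_pow_iff_mem _ _).mpr h1
        rw [← w.valuation_of_algebraMap (K := L)] at h3
        have e5 : ((y - s w : 𝓞 L) : L) = (y : L) - (s w : L) :=
          map_sub (algebraMap (𝓞 L) L) y (s w)
        change w.valuation L ((y - s w : 𝓞 L) : L) ≤ _ at h3
        rw [e5] at h3
        refine h3.trans ?_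
        conv_rhs => rw [← exp_log (h40 w)]
        rw [exp_le_exp]
        have h5 := h4le w
        rw [← exp_log (h40 w), ← exp_zero, exp_le_exp] at h5
        omega
      have h7 : ((ε : 𝓞 L) : L) - (y : L) ^ 2 = (((ε : 𝓞 L) : L) - (s w : L) ^ 2) -
        ((y : L) - s w) * ((y : L) + s w) := by ring
      rw [h7]
      refine (Valuation.map_sub _ _ _).trans (max_le (hs w) ?_)
      rw [map_mul]
      have h8 : w.valuation L ((y : L) + s w) ≤ 1 :=
        (Valuation.map_add _ _ _).trans (max_le (w.valuation_le_one (K := L) y)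
          (w.valuation_le_one (K := L) (s w)))
      calc w.valuation L ((y : L) - s w) * w.valuation L ((y : L) + s w)
          ≤ w.valuation L 4 * 1 := mul_le_mul' h2 h8
        _ = _ := mul_one _
    · have h1 : (4 : 𝓞 L) ∉ w.asIdeal := fun h => hw (Ideal.dvd_span_singleton.mpr h)
      have h2 := val_eq_one_of_notMem h1
      rw [e4] at h2
      rw [h2]
      exact (Valuation.map_sub _ _ _).trans (max_le (R1_unit_val ε w).le (by
        rw [map_pow]
        exact pow_le_one₀ zero_le (w.valuation_le_one (K := L) y)))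
  obtain ⟨q, hq⟩ := hmem
  refine ⟨q, ?_⟩
  apply (RingOfIntegers.coe_injective (K := L))
  rw [map_sub, map_pow, map_mul, hq, map_ofNat]
  field_simp

theorem noNew_pair (hp2 : p ≠ 2) (hS : NV p k0) (hm : k0 ≤ m + 1) (r : RP p m n K L) :
    NoNewPositive K L ∧ NoNewUnramified K L := by
  have hodd : Odd (Module.finrank K L) := by
    rw [r.finrank hp2]
    exact ((Fact.out : p.Prime).odd_of_ne_two hp2).pow
  have HS : HSigns r := fun θ hR h => even_of_signs hp2 hS hm r θ hR h
  obtain ⟨hL1, hL2⟩ := class_parity hp2 r.rL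
  obtain ⟨hK1, hK2⟩ := class_parity hp2 r.rK
  have hcl : padicValNat 2 (NumberField.classNumber L) = padicValNat 2 (NumberField.classNumber K) := by
    rw [hL2, hK2]
    exact index_two_part hp2 r HS hK1 hL1
  constructor
  · intro x hx hev hN hpos
    obtain ⟨ε, c, hc, hxc, hNε⟩ := even_val_repr hodd hcl hx hev hN
    obtain ⟨η, hη⟩ := unit_sq_of_pos hp2 hS hm r ε hNε (fun φ => by
      have h1 := hpos φ
      rw [hxc, map_mul, map_pow] at h1
      have hc' : φ c ≠ 0 := by rw [Ne, map_eq_zero]; exact hc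
      exact (mul_pos_iff_of_pos_right (by positivity)).mp h1)
    refine ⟨((η : 𝓞 L) : L) * c, ?_⟩
    rw [hxc, hη]
    push_cast
    ring
  · intro x hx hev hN hloc
    obtain ⟨ε, c, hc, hxc, hNε⟩ := even_val_repr hodd hcl hx hev hN
    obtain ⟨s, hs⟩ := R1_four hc hxc hloc
    obtain ⟨η, hη⟩ := unit_sq_of_four hp2 hS hm r ε hNε hs
    refine ⟨((η : 𝓞 L) : L) * c, ?_⟩
    rw [hxc, hη]
    push_cast
    ring

end H5SW
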