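import Pool.Agent.H5.SW.L1
import Pool.Agent.H5.SW.L2
import Pool.Agent.H5.SW.R1

/-!
ROW L3 (all totally real subfields of the tower).  PROOF.
(1) `exists_tower`: `L` embeds in some `F_{n'}` (`map_R`, `exists_F`), `n' ≥ n` without loss (`map_F`). `n = padicValNat p [L:ℚ] = m + i` (`[L:ℚ] = [K:ℚ] p^i`). Let `F` be a field with `IsF (p^(n+1)) F`, `M` one with
    `IsF (p^(m+1)) M`, `Algebra F F'` by `map_F`, data by `exists_RP`; `lift_level` gives `L → F`; make `F` an `L`-algebra; `Algebra M F` by `map_F`; `lift_level` for `K → L → F` gives `K → M` with the commutation.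
(2) Groups: `H_K, H_L, H_M ≤ Gal(F/ℚ)` (automorphisms trivial on the images of `K, L, M`). `|H_L| = φ(p^(n+1))/2 / [L:ℚ]` is prime to `p` (`v_p = n - n`), `|H_M| = p^(n-m) = p^i`, `[H_K : H_L] = [L:K] = p^i`, so
    `H_L ∩ H_M = 1`, `|H_L| |H_M| = |H_K|`, `H_K = H_L H_M`: `gal_split`. (`H_M ⊆ H_K` by the commutation.)
(3) norms: for `x ∈ L`: `N_{F/M}(x) = ∏_{h ∈ H_M} h x`, and `N_{L/K}(x) = ∏_{g ∈ H_K/H_L} g x`, with `H_M` a set of representatives of `H_K/H_L`: `norm_compat`. (`L/ℚ` is Galois as `Gal(F/ℚ)` is abelian; restriction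
    `H_M → Gal(L/K)` is an isomorphism: injective since `H_L ∩ H_M = 1`, orders agree; use `Algebra.norm_eq_prod_automorphisms` on both sides.)
-/

set_option autoImplicit false

namespace H5SW

open NumberField IsDedekindDomain

/-- `L` is a totally real subfield of `ℚ(ζ_{p^∞})` -/
def IsR (p : ℕ) (L : Type) [Field L] [NumberField L] : Prop :=
  IsTotallyReal L ∧ ∃ n : ℕ, Nonempty (L →+* CyclotomicField (p ^ (n + 1)) ℚ)

/-- a pair `K ⊆ L` inside a pair `M ⊆ F` of maximal real subfields -/
structure Tw (p m n : ℕ) (K L M F : Type) [Field K] [NumberField K] [Field L] [NumberField L] [Field M]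
    [NumberField M] [Field F] [NumberField F] [Algebra K L] [Algebra M F] [Algebra K M] [Algebra L F] where
  rp : RP p m n M F
  comm : ∀ x : K, algebraMap M F (algebraMap K M x) = algebraMap L F (algebraMap K L x)
  norm_compat : ∀ x : L, algebraMap K M (Algebra.norm K x) = Algebra.norm M (algebraMap L F x)
  gal_split : ∀ g : F ≃ₐ[ℚ] F, (∀ x : K, g (algebraMap L F (algebraMap K L x)) = algebraMap L F (algebraMap K L x)) →
    ∃ a b : F ≃ₐ[ℚ] F, g = a * b ∧ (∀ x : L, a (algebraMap L F x) = algebraMap L F x) ∧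
      ∀ x : M, b (algebraMap M F x) = algebraMap M F x

namespace L3aux

theorem split_aux {G : Type*} [Group G] [Finite G] (HK HL HM : Subgroup G) (h1 : HL ≤ HK) (h2 : HM ≤ HK)
    (hc : Nat.card HL * Nat.card HM = Nat.card HK) (hcop : Nat.Coprime (Nat.card HL) (Nat.card HM)) :
    ∀ g ∈ HK, ∃ a ∈ HL, ∃ b ∈ HM, g = a * b := by
  intro g hg
  have e1 : Nat.card (HL.subgroupOf HK) = Nat.card HL :=
    Nat.card_congr (Subgroup.subgroupOfEquivOfLe h1).toEquiv
  have e2 : Nat.card (HM.subgroupOf HK) = Nat.card HM :=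
    Nat.card_congr (Subgroup.subgroupOfEquivOfLe h2).toEquiv
  have hcomp : Subgroup.IsComplement' (HL.subgroupOf HK) (HM.subgroupOf HK) := by
    apply Subgroup.isComplement'_of_coprime
    · rw [e1, e2, hc]
    · rw [e1, e2]; exact hcop
  obtain ⟨⟨⟨a, ha⟩, ⟨b, hb⟩⟩, hab⟩ := hcomp.2 ⟨g, hg⟩
  refine ⟨a, ha, b, hb, ?_⟩
  have := congrArg Subtype.val hab
  exact this.symm

/-- automorphisms fixing the image of a ring homomorphism -/
def HH {A F : Type} [Field A] [Field F] [NumberField F] (φ : A →+* F) : Subgroup (F ≃ₐ[ℚ] F) where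
  carrier := {g | ∀ x, g (φ x) = φ x}
  one_mem' := fun x => rfl
  mul_mem' := by
    intro a b ha hb x
    rw [AlgEquiv.mul_apply, hb x, ha x]
  inv_mem' := by
    intro a ha x
    have := ha x
    rw [← this]
    exact (a.symm_apply_apply _).trans this.symm

theorem mem_HH {A F : Type} [Field A] [Field F] [NumberField F] (φ : A →+* F) (g : F ≃ₐ[ℚ] F) :
    g ∈ HH φ ↔ ∀ x, g (φ x) = φ x := Iff.rfl

theorem card_HH {A F : Type} [Field A] [NumberField A] [Field F] [NumberField F] (φ : A →+* F)
    [IsGalois ℚ F] : Nat.card (HH φ) * Module.finrank ℚ A = Module.finrank ℚ F := by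
  let _ := φ.toAlgebra
  have hA : IsGalois A F := IsGalois.tower_top_of_isGalois ℚ A F
  have h1 : Nat.card (F ≃ₐ[A] F) = Module.finrank A F := IsGalois.card_aut_eq_finrank A F
  have h2 : Module.finrank ℚ A * Module.finrank A F = Module.finrank ℚ F :=
    Module.finrank_mul_finrank ℚ A F
  have h3 : Nat.card (HH φ) = Nat.card (F ≃ₐ[A] F) := by
    symm
    apply Nat.card_congr
    refine Equiv.ofBijective (fun h => ⟨h.restrictScalars ℚ, fun x => h.commutes x⟩) ⟨?_, ?_⟩
    · intro a b hab
      have := congrArg Subtype.val hab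
      ext x
      exact congrArg (fun t : F ≃ₐ[ℚ] F => t x) this
    · rintro ⟨g, hg⟩
      refine ⟨AlgEquiv.ofRingEquiv (f := g.toRingEquiv) (fun x => hg x), ?_⟩
      apply Subtype.ext
      ext x
      rfl
  rw [h3, h1, mul_comm, h2]

theorem tower_build {p m n : ℕ} [Fact p.Prime] (hp2 : p ≠ 2) {K L M F : Type} [Field K] [NumberField K] [Field L]
    [NumberField L] [Field M] [NumberField M] [Field F] [NumberField F] [Algebra K L] [Algebra M F] [Algebra K M]
    [Algebra L F] (r : RP p m n M F)
    (comm : ∀ x : K, algebraMap M F (algebraMap K M x) = algebraMap L F (algebraMap K L x))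
    (hm : padicValNat p (Module.finrank ℚ K) = m) (hn : padicValNat p (Module.finrank ℚ L) = n) {i : ℕ}
    (hi : Module.finrank K L = p ^ i) (hF : 2 * Module.finrank ℚ F = (p ^ (n + 1)).totient) :
    Nonempty (Tw p m n K L M F) := by
  have hp : p.Prime := Fact.out
  have hg : IsGalois ℚ F := r.rL.gal
  have hgMF : IsGalois M F := r.isGalois
  have hLK : Module.finrank ℚ K * Module.finrank K L = Module.finrank ℚ L :=
    Module.finrank_mul_finrank ℚ K L
  have hK0 : 0 < Module.finrank ℚ K := Module.finrank_pos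
  have hL0 : 0 < Module.finrank ℚ L := Module.finrank_pos
  have hM0 : 0 < Module.finrank ℚ M := Module.finrank_pos
  have hF0 : 0 < Module.finrank ℚ F := Module.finrank_pos
  have hni : n = m + i := by
    rw [← hn, ← hLK, hi, padicValNat.mul hK0.ne' (pow_pos hp.pos i).ne', hm, padicValNat.prime_pow]
  have cL := card_HH (algebraMap L F)
  have cM := card_HH (algebraMap M F)
  have cK := card_HH ((algebraMap L F).comp (algebraMap K L))
  have hMF : Module.finrank ℚ M * Module.finrank M F = Module.finrank ℚ F :=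
    Module.finrank_mul_finrank ℚ M F
  have hfr := r.finrank hp2
  have hnm : n - m = i := by omega
  rw [hnm] at hfr
  have eM : Nat.card (HH (algebraMap M F)) = p ^ i := by
    rw [hfr, mul_comm, ← cM] at hMF
    exact (Nat.eq_of_mul_eq_mul_right hM0 hMF).symm
  have eK : Nat.card (HH (algebraMap L F)) * Nat.card (HH (algebraMap M F)) =
      Nat.card (HH ((algebraMap L F).comp (algebraMap K L))) := by
    rw [eM]
    apply Nat.eq_of_mul_eq_mul_right hK0
    rw [cK, ← cL, ← hLK, hi]
    ring
  have hcop : Nat.Coprime (Nat.card (HH (algebraMap L F))) (Nat.card (HH (algebraMap M F))) := by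
    rw [eM]
    apply Nat.Coprime.pow_right
    rw [Nat.coprime_comm, hp.coprime_iff_not_dvd]
    intro hd
    have h1 : p ^ n ∣ Module.finrank ℚ L := by
      rw [← hn]; exact pow_padicValNat_dvd
    have h2 : p * p ^ n ∣ Nat.card (HH (algebraMap L F)) * Module.finrank ℚ L := mul_dvd_mul hd h1
    rw [cL] at h2
    have h3 : p * p ^ n ∣ 2 * Module.finrank ℚ F := Dvd.dvd.mul_left h2 2
    rw [hF, Nat.totient_prime_pow_succ hp, mul_comm (p ^ n)] at h3
    have h4 : p ∣ p - 1 := Nat.dvd_of_mul_dvd_mul_right (pow_pos hp.pos n) h3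
    have h5 := hp.two_le
    have := Nat.le_of_dvd (by omega) h4
    omega
  have hLle : HH (algebraMap L F) ≤ HH ((algebraMap L F).comp (algebraMap K L)) := fun g hg x => hg _
  have hMle : HH (algebraMap M F) ≤ HH ((algebraMap L F).comp (algebraMap K L)) := by
    intro g hg x
    have := hg (algebraMap K M x)
    rw [comm] at this
    exact this
  have hinf : HH (algebraMap L F) ⊓ HH (algebraMap M F) = ⊥ := (Subgroup.disjoint_of_coprime_natCard hcop).eq_bot
  refine ⟨⟨r, comm, ?_, ?_⟩⟩
  · -- norms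
    intro x
    have hab : IsAbelianGalois ℚ F := { is_comm := ⟨fun a b => r.rL.gal_comm a b⟩ }
    have : IsAbelianGalois ℚ L := IsAbelianGalois.tower_bot ℚ L F
    have hgL : IsGalois ℚ L := inferInstance
    have hgKL : IsGalois K L := IsGalois.tower_top_of_isGalois ℚ K L
    apply (algebraMap M F).injective
    rw [comm, Algebra.norm_eq_prod_automorphisms, Algebra.norm_eq_prod_automorphisms, map_prod]
    have hres : ∀ h : F ≃ₐ[M] F, ∃ t : L ≃ₐ[K] L, ∀ y : L, algebraMap L F (t y) = h (algebraMap L F y) := by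
      intro h
      have hc : ∀ y : L, algebraMap L F ((h.restrictScalars ℚ).restrictNormal L y) =
          h (algebraMap L F y) := fun y => AlgEquiv.restrictNormal_commutes (h.restrictScalars ℚ) L y
      refine ⟨AlgEquiv.ofRingEquiv (f := ((h.restrictScalars ℚ).restrictNormal L).toRingEquiv) ?_, ?_⟩
      · intro z
        apply (algebraMap L F).injective
        refine (hc _).trans ?_
        rw [← comm]
        exact h.commutes _
      · intro y
        exact hc y
    choose Φ hΦ using hres
    have hinj : Function.Injective Φ := by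
      intro a b hab
      have h1 : (b⁻¹ * a).restrictScalars ℚ ∈ HH (algebraMap L F) ⊓ HH (algebraMap M F) := by
        constructor
        · intro y
          have e1 := hΦ a y
          rw [hab, hΦ b y] at e1
          change b.symm (a (algebraMap L F y)) = _
          rw [← e1]
          exact b.symm_apply_apply _
        · intro y
          exact (b⁻¹ * a).commutes y
      rw [hinf, Subgroup.mem_bot] at h1
      have h2 : b⁻¹ * a = 1 := by
        ext y
        exact congrArg (fun t : F ≃ₐ[ℚ] F => t y) h1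
      have := inv_mul_eq_one.mp h2
      exact this.symm
    have hcard : Nat.card (L ≃ₐ[K] L) ≤ Nat.card (F ≃ₐ[M] F) := by
      rw [IsGalois.card_aut_eq_finrank, IsGalois.card_aut_eq_finrank, hi, hfr]
    have hbij : Function.Bijective Φ := hinj.bijective_of_nat_card_le hcard
    symm
    exact Fintype.prod_bijective Φ hbij _ _ (fun h => (hΦ h x).symm)
  · intro g hgK
    obtain ⟨a, ha, b, hb, hab⟩ := split_aux _ _ _ hLle hMle eK hcop g hgK
    exact ⟨a, b, hab, ha, hb⟩

end L3aux

theorem exists_tower {p : ℕ} [Fact p.Prime] (hp2 : p ≠ 2) {K L : Type} [Field K] [NumberField K] [Field L]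
    [NumberField L] [Algebra K L] (hL : IsR p L) {i : ℕ} (hi : Module.finrank K L = p ^ i) :
    ∃ n : ℕ, ∃ (M F : Type) (_ : Field M) (_ : NumberField M) (_ : Field F) (_ : NumberField F) (_ : Algebra M F)
      (_ : Algebra K M) (_ : Algebra L F), Nonempty (Tw p (padicValNat p (Module.finrank ℚ K)) n K L M F) := by
  have hp : p.Prime := Fact.out
  obtain ⟨hreal, n0, ⟨i0⟩⟩ := hL
  have hLK : Module.finrank ℚ K * Module.finrank K L = Module.finrank ℚ L :=
    Module.finrank_mul_finrank ℚ K L
  have hK0 : 0 < Module.finrank ℚ K := Module.finrank_pos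
  set m := padicValNat p (Module.finrank ℚ K) with hm
  set n := padicValNat p (Module.finrank ℚ L) with hn
  have hni : n = m + i := by
    rw [hn, ← hLK, hi, padicValNat.mul hK0.ne' (pow_pos hp.pos i).ne', ← hm, padicValNat.prime_pow]
  obtain ⟨F0, _, _, hF0⟩ := exists_F p n0 hp2
  obtain ⟨j0⟩ := map_R hp2 hreal i0 hF0
  obtain ⟨F', _, _, hF'⟩ := exists_F p (max n n0) hp2
  obtain ⟨F, _, _, hF⟩ := exists_F p n hp2
  obtain ⟨M, _, _, hM⟩ := exists_F p m hp2
  obtain ⟨j1⟩ := map_F hp2 (le_max_right n n0) hF0 hF'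
  obtain ⟨j2⟩ := map_F hp2 (le_max_left n n0) hF hF'
  obtain ⟨j3⟩ := map_F hp2 (by omega : m ≤ n) hM hF
  let _ : Algebra F F' := j2.toAlgebra
  let _ : Algebra M F := j3.toAlgebra
  obtain ⟨r1⟩ := exists_RP hp2 (le_max_left n n0) hF hF'
  obtain ⟨r⟩ := exists_RP hp2 (by omega : m ≤ n) hM hF
  obtain ⟨j, hj⟩ := lift_level hp2 r1 (j1.comp j0) (le_of_eq hn.symm)
  let _ : Algebra L F := j.toAlgebra
  obtain ⟨k, hk⟩ := lift_level hp2 r ((algebraMap L F).comp (algebraMap K L)) (le_of_eq hm.symm)
  let _ : Algebra K M := k.toAlgebra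
  exact ⟨n, M, F, _, _, _, _, _, _, _, L3aux.tower_build hp2 r (fun x => hk x) hm.symm hn.symm hi hF.2.2⟩

end H5SW
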