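import Mathlib

/-!
# Real cyclotomic towers and the 2-primary part of Sha (MP_78d38b): definitions

`L` is (abstractly) the maximal real subfield of the cyclotomic field of conductor `f = p ^ (n + 1)`, `p` an odd prime.
`G = Gal(L/ℚ)` is written `L ≃ₐ[ℚ] L`; `c a = ζ ^ a + ζ ^ (-a) = 2 cos (2 π a / f)`.
-/

set_option autoImplicit false

namespace H5SW

open NumberField

/-- `L` is isomorphic to the maximal real subfield of the `f`-th cyclotomic field -/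
def IsF (f : ℕ) (L : Type) [Field L] [NumberField L] : Prop :=
  IsTotallyReal L ∧ Nonempty (L →+* CyclotomicField f ℚ) ∧ 2 * Module.finrank ℚ L = f.totient

/-- Data of the maximal real subfield of the `f`-th cyclotomic field (`f` odd). -/
structure RC (f : ℕ) (L : Type) [Field L] [NumberField L] where
  /-- `ζ ^ a + ζ ^ (-a)` -/
  c : ZMod f → 𝓞 L
  /-- a real embedding -/
  φ : L →+* ℝ
  hφ : ∀ a : ZMod f, φ (c a : L) = 2 * Real.cos (2 * Real.pi * (a.val : ℝ) / f)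
  /-- the Galois action -/
  σ : (ZMod f)ˣ →* (L ≃ₐ[ℚ] L)
  hσ : ∀ (u : (ZMod f)ˣ) (a : ZMod f), σ u (c a : L) = (c (u * a) : L)
  surj : Function.Surjective σ
  ker : ∀ u, σ u = 1 ↔ u = 1 ∨ u = -1
  unit : ∀ u : (ZMod f)ˣ, IsUnit (c u)
  emb : Nonempty (L →+* CyclotomicField f ℚ)
  real : IsTotallyReal L
  gal : IsGalois ℚ L
  two_lt : 2 < f
  odd : Odd f

/-- Compatible data for `K ⊆ L`, the maximal real subfields of conductors `p ^ (m + 1)` and `p ^ (n + 1)`. -/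
structure RP (p m n : ℕ) (K L : Type) [Field K] [NumberField K] [Field L] [NumberField L] [Algebra K L] where
  rL : RC (p ^ (n + 1)) L
  rK : RC (p ^ (m + 1)) K
  hmn : m ≤ n
  compat : ∀ a : ℕ, algebraMap K L (rK.c (a : ZMod (p ^ (m + 1))) : K) =
    (rL.c ((p ^ (n - m) * a : ℕ) : ZMod (p ^ (n + 1))) : L)

section

variable {f : ℕ} {L : Type} [Field L] [NumberField L]

/-- the unit `g (c 1)`, `g` in the Galois group -/
noncomputable def RC.e (r : RC f L) (g : L ≃ₐ[ℚ] L) : (𝓞 L)ˣ :=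
  (r.unit (r.surj g).choose).unit

/-- `∏ g (c 1) ^ θ g` -/
noncomputable def RC.pw (r : RC f L) (θ : (L ≃ₐ[ℚ] L) → ℤ) : (𝓞 L)ˣ :=
  ∏ g : L ≃ₐ[ℚ] L, (r.e g) ^ (θ g)

open Classical in
/-- the sign bit of `φ (g (c 1))` -/
noncomputable def RC.sg (r : RC f L) (g : L ≃ₐ[ℚ] L) : ℤ := if r.φ ((r.e g : 𝓞 L) : L) < 0 then 1 else 0

/-- `2 - g (c 1)`, the square of `2 sin (π u / f)` if `g = σ u` -/
noncomputable def RC.d (r : RC f L) (g : L ≃ₐ[ℚ] L) : L := 2 - ((r.e g : 𝓞 L) : L)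

/-- a choice of `u` with `g = σ u` -/
noncomputable def RC.u (r : RC f L) (g : L ≃ₐ[ℚ] L) : (ZMod f)ˣ := (r.surj g).choose

lemma RC.σ_u (r : RC f L) (g : L ≃ₐ[ℚ] L) : r.σ (r.u g) = g := (r.surj g).choose_spec

lemma RC.e_eq (r : RC f L) (g : L ≃ₐ[ℚ] L) : (r.e g : 𝓞 L) = r.c (r.u g) := IsUnit.unit_spec _

lemma RC.d_eq (r : RC f L) (g : L ≃ₐ[ℚ] L) : r.d g = 2 - (r.c (r.u g) : L) := by
  rw [RC.d, r.e_eq]

lemma cos_eq_one_iff_val {f : ℕ} (hf : 2 < f) (a : ZMod f) :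
    Real.cos (2 * Real.pi * (a.val : ℝ) / f) = 1 ↔ a = 0 := by
  haveI : NeZero f := ⟨by omega⟩
  have hf0 : (0 : ℝ) < f := by exact_mod_cast (by omega : 0 < f)
  constructor
  · intro h
    rw [Real.cos_eq_one_iff] at h
    obtain ⟨k, hk⟩ := h
    have h1 : (k : ℝ) * f = a.val := by
      field_simp at hk
      have := Real.pi_pos
      nlinarith [hk, this]
    have h2 : (k : ℤ) * f = a.val := by exact_mod_cast h1
    have h3 : a.val < f := a.val_lt
    have h4 : k = 0 := by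
      have h5 : (0 : ℤ) ≤ k * f := by rw [h2]; positivity
      have h6 : k * f < 1 * (f : ℤ) := by rw [h2, one_mul]; exact_mod_cast h3
      have h7 : (0 : ℤ) < f := by exact_mod_cast (by omega : 0 < f)
      have h8 : k < 1 := lt_of_mul_lt_mul_right h6 h7.le
      have h9 : 0 ≤ k := nonneg_of_mul_nonneg_left h5 h7
      omega
    rw [h4, zero_mul] at h2
    have h5 : a.val = 0 := by exact_mod_cast h2.symm
    exact (ZMod.val_eq_zero a).mp h5
  · rintro rfl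
    simp

lemma RC.d_ne_zero (r : RC f L) (g : L ≃ₐ[ℚ] L) : r.d g ≠ 0 := by
  intro h0
  have h1 := congrArg r.φ h0
  rw [r.d_eq, map_sub, r.hφ, map_ofNat, map_zero] at h1
  have h2 : Real.cos (2 * Real.pi * (((r.u g : (ZMod f)ˣ) : ZMod f).val : ℝ) / f) = 1 := by linarith
  rw [cos_eq_one_iff_val r.two_lt] at h2
  haveI : Fact (1 < f) := ⟨by have := r.two_lt; omega⟩
  exact (r.u g).ne_zero h2

/-- real cyclotomic units: units whose square is a product of powers of the `d g` of total exponent `0` -/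
noncomputable def RC.Cyc (r : RC f L) : Subgroup (𝓞 L)ˣ where
  carrier := {ε | ∃ θ : (L ≃ₐ[ℚ] L) → ℤ, ∑ g, θ g = 0 ∧ (((ε : 𝓞 L) : L)) ^ 2 = ∏ g, r.d g ^ θ g}
  one_mem' := ⟨0, by simp, by simp⟩
  mul_mem' := by
    rintro a b ⟨θ, h1, h2⟩ ⟨η, h3, h4⟩
    refine ⟨fun g => θ g + η g, by rw [Finset.sum_add_distrib, h1, h3, add_zero], ?_⟩
    have hd : ∀ g, r.d g ≠ 0 := r.d_ne_zero
    simp only [zpow_add₀ (hd _), Finset.prod_mul_distrib]
    rw [← h2, ← h4]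
    simp only [Units.val_mul, map_mul, mul_pow]
  inv_mem' := by
    rintro a ⟨θ, h1, h2⟩
    refine ⟨fun g => - θ g, by rw [Finset.sum_neg_distrib, h1, neg_zero], ?_⟩
    simp only [zpow_neg, Finset.prod_inv_distrib]
    rw [← h2]
    have h3 : (((a⁻¹ : (𝓞 L)ˣ) : 𝓞 L) : L) * ((a : 𝓞 L) : L) = 1 := by
      rw [← map_mul, Units.inv_mul, map_one]
    have h4 : ((a : 𝓞 L) : L) ≠ 0 := by
      intro h0
      rw [h0, mul_zero] at h3
      exact zero_ne_one h3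
    rw [eq_inv_of_mul_eq_one_left h3, inv_pow]

lemma RC.mem_Cyc (r : RC f L) (ε : (𝓞 L)ˣ) : ε ∈ r.Cyc ↔
    ∃ θ : (L ≃ₐ[ℚ] L) → ℤ, ∑ g, θ g = 0 ∧ (((ε : 𝓞 L) : L)) ^ 2 = ∏ g, r.d g ^ θ g := Iff.rfl

end

/-- functions on `G` whose sums over the cosets of `N = Gal(L/K)` vanish -/
def Rel (K L : Type) [Field K] [NumberField K] [Field L] [NumberField L] [Algebra K L]
    (θ : (L ≃ₐ[ℚ] L) → ℤ) : Prop :=
  ∀ g : L ≃ₐ[ℚ] L, ∑ h : L ≃ₐ[K] L, θ (g * h.restrictScalars ℚ) = 0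

end H5SW
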