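import Pool.Agent.H5.SW.E0

/-!
ROW S3 (the set where `χ(u/a)^q = χ(u/a)`).  PROOF.  `f = p^(k+1)`, `red (k+1) x` = reduction of the Teichmueller unit `x`, `u1 = 1 + p^(k+1-e)`.
Let `H = {v : χ(v)^(q-1) = 1}`, a subgroup of `(ZMod f)ˣ`.
(1) `H ∋ red x` for every `x` with `x^(p-1) = 1`: `χ(red x)` has odd order (characteristic 2: `y^(2^a r) = 1 → y^r = 1`) dividing the odd part `r` of `p - 1`, and
    `r ∣ q - 1`.
(2) `u1^(p^e) = 1` and `p^e ∣ q - 1`, so `u1 ∈ H`. [`u1^t = 1 + p^(k+1-e) t` in `ZMod f` since `2 (k+1-e) ≥ k+1`.]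
(3) Conversely let `v ∈ H`. Choose a root of unity `x` with `x ≡ v mod p` (`teich_exists`), `v = red x * v'`, `v' ≡ 1 mod p`, `v' ∈ H`. The group
    `U1 = {v ≡ 1 mod p}` is cyclic of order `p^k` (Mathlib: units of `ZMod (p^n)`, `p` odd, are cyclic: `ZMod.isCyclic_units_iff`...), and `χ` is injective on `U1`:
    otherwise its kernel on `U1` is a non trivial `p`-subgroup, so contains the unique subgroup of order `p`, which is `{1 + p^k t}`, contradicting `Prim χ`. So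
    `v'^(q-1) = 1`, `v'^(p^k) = 1`, hence `v'^(p^e) = 1` (`gcd(q-1, p^k) = p^e` as `e ≤ k`), and the subgroup of elements of `U1` killed by `p^e` has order `p^e` and
    equals `{u1^t : t < p^e}`.
(4) So the map `(x, t) ↦ a * red x * u1^t` from `E × range (p^e)` is injective with image `A'`, and for `u ∈ aH` exactly one of `u, -u` is in `A'` (`EH`); both
    `A'` and `Hf ∩ aH` are half systems of `aH` (`-1 ∈ H`); for an even function the sums agree: extend `h` by `0` outside of `aH` and complete `A'` to a half system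
    `A' ∪ (Hf \ aH)`, then use `sum_half`.
(`u ∈ aH` iff `χ(u a⁻¹)^(2^s) = χ(u a⁻¹)`.)
-/

set_option autoImplicit false

namespace H5SW

open Finset

/-- `(1 + P y)^c = 1 + c P y` if `P^2 = 0` -/
theorem S3_pow {R : Type*} [CommRing R] {P : R} (hP : P * P = 0) (y : R) (c : ℕ) : (1 + P * y) ^ c = 1 + P * (y * c) := by
  induction c with
  | zero => simp
  | succ c ih =>
    rw [pow_succ, ih]
    push_cast
    have : (1 + P * (y * c)) * (1 + P * y) = 1 + P * (y * (c + 1)) + (P * P) * (y * c * y) := by ring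
    rw [this, hP]; ring

/-- ring homomorphisms from the `p`-adic integers to `ZMod p` agree -/
theorem S3_hom {p : ℕ} [Fact p.Prime] (φ ψ : ℤ_[p] →+* ZMod p) (x : ℤ_[p]) : φ x = ψ x := by
  obtain ⟨n, _, hn⟩ := PadicInt.exists_mem_range x
  rw [PadicInt.maximalIdeal_eq_span_p, Ideal.mem_span_singleton] at hn
  obtain ⟨y, hy⟩ := hn
  have hx : x = n + p * y := by rw [← hy]; ring
  rw [hx]
  simp

/-- reduction modulo `p` -/
noncomputable def S3_r (p k : ℕ) : (ZMod (p ^ (k + 1)))ˣ →* (ZMod p)ˣ :=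
  Units.map (ZMod.castHom (dvd_pow_self p (Nat.succ_ne_zero k)) (ZMod p)).toMonoidHom

theorem S3_r_red {p : ℕ} [Fact p.Prime] (k : ℕ) (x : ℤ_[p]ˣ) :
    ((S3_r p k (red (k + 1) x) : (ZMod p)ˣ) : ZMod p) = PadicInt.toZMod (x : ℤ_[p]) := by
  show ((ZMod.castHom (dvd_pow_self p (Nat.succ_ne_zero k)) (ZMod p)).comp (PadicInt.toZModPow (k + 1))) (x : ℤ_[p]) = _
  exact S3_hom _ _ _

/-- a natural representative -/
theorem S3_rep {p k : ℕ} [Fact p.Prime] (z : (ZMod (p ^ (k + 1)))ˣ) (hz : S3_r p k z = 1) :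
    ∃ N : ℕ, 1 < N ∧ ((N : ℕ) : ZMod (p ^ (k + 1))) = (z : ZMod (p ^ (k + 1))) ∧ p ∣ N - 1 ∧ ¬ p ∣ N := by
  have hp : p.Prime := Fact.out
  have : NeZero (p ^ (k + 1)) := ⟨pow_ne_zero _ hp.ne_zero⟩
  have hN : (((z : ZMod (p ^ (k + 1))).val + p ^ (k + 1) : ℕ) : ZMod (p ^ (k + 1))) = (z : ZMod (p ^ (k + 1))) := by
    rw [Nat.cast_add, ZMod.natCast_self, add_zero, ZMod.natCast_zmod_val]
  have h1 : ((((z : ZMod (p ^ (k + 1))).val + p ^ (k + 1) : ℕ)) : ZMod p) = 1 := by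
    have h2 : (ZMod.castHom (dvd_pow_self p (Nat.succ_ne_zero k)) (ZMod p)) (z : ZMod (p ^ (k + 1))) = 1 := by
      have := congrArg (fun u : (ZMod p)ˣ => (u : ZMod p)) hz
      exact this
    rw [← hN, map_natCast] at h2
    exact h2
  have hgt : 1 < (z : ZMod (p ^ (k + 1))).val + p ^ (k + 1) := by
    have : 1 < p ^ (k + 1) := Nat.one_lt_pow (Nat.succ_ne_zero k) hp.one_lt
    omega
  refine ⟨(z : ZMod (p ^ (k + 1))).val + p ^ (k + 1), hgt, hN, ?_, ?_⟩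
  · rw [← CharP.cast_eq_zero_iff (ZMod p) p, Nat.cast_sub hgt.le, h1]; simp
  · rw [← CharP.cast_eq_zero_iff (ZMod p) p, h1]
    exact one_ne_zero

/-- lifting the exponent -/
theorem S3_lte {p k : ℕ} [Fact p.Prime] (hp2 : p ≠ 2) {z : (ZMod (p ^ (k + 1)))ˣ} {N : ℕ} (h1 : 1 < N)
    (hN : ((N : ℕ) : ZMod (p ^ (k + 1))) = (z : ZMod (p ^ (k + 1)))) (hd : p ∣ N - 1) (hnd : ¬ p ∣ N) {n : ℕ} (hn : n ≠ 0) :
    z ^ n = 1 ↔ k + 1 ≤ padicValNat p (N - 1) + padicValNat p n := by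
  have hp : p.Prime := Fact.out
  have hodd : Odd p := hp.odd_of_ne_two hp2
  have hv := padicValNat.pow_sub_pow hodd h1 hd hnd hn
  rw [one_pow] at hv
  rw [← hv]
  have hN1 : 1 < N ^ n := Nat.one_lt_pow hn h1
  rw [← Units.val_inj, Units.val_pow_eq_pow_val, ← hN, Units.val_one, ← padicValNat_dvd_iff_le (by omega),
    ← CharP.cast_eq_zero_iff (ZMod (p ^ (k + 1))) (p ^ (k + 1)), Nat.cast_sub hN1.le, sub_eq_zero]
  push_cast
  rfl

/-- `χ` is injective on the units `1` modulo `p` -/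
theorem S3_inj {Ω : Type*} [Field Ω] {p k : ℕ} [Fact p.Prime] (hp2 : p ≠ 2) (hk : 1 ≤ k) (χ : (ZMod (p ^ (k + 1)))ˣ →* Ωˣ)
    (hχ : Prim χ) (z : (ZMod (p ^ (k + 1)))ˣ) (hz : S3_r p k z = 1) (h : χ z = 1) : z = 1 := by
  have hp : p.Prime := Fact.out
  obtain ⟨N, hN1, hN, hd, hnd⟩ := S3_rep z hz
  by_contra hne
  have hlt : padicValNat p (N - 1) < k + 1 := by
    by_contra hge
    apply hne
    rw [← pow_one z, S3_lte hp2 hN1 hN hd hnd one_ne_zero]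
    simp only [padicValNat_one_right, add_zero]
    omega
  have hj1 : 1 ≤ padicValNat p (N - 1) := by
    have : N - 1 ≠ 0 := by omega
    exact one_le_padicValNat_of_dvd this hd
  -- the power
  have hw0 : p ^ (k - padicValNat p (N - 1)) ≠ 0 := pow_ne_zero _ hp.ne_zero
  have hv := padicValNat.pow_sub_pow (hp.odd_of_ne_two hp2) hN1 hd hnd hw0
  rw [one_pow, padicValNat.prime_pow] at hv
  have hvk : padicValNat p (N ^ p ^ (k - padicValNat p (N - 1)) - 1) = k := by omega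
  have hM1 : 1 < N ^ p ^ (k - padicValNat p (N - 1)) := Nat.one_lt_pow hw0 hN1
  generalize hMdef : N ^ p ^ (k - padicValNat p (N - 1)) = M at hvk hM1
  have hM0 : M - 1 ≠ 0 := by omega
  obtain ⟨y, hy⟩ : p ^ k ∣ M - 1 := by
    have := pow_padicValNat_dvd (p := p) (n := M - 1)
    rwa [hvk] at this
  have hyp : ¬ p ∣ y := by
    rintro ⟨y', rfl⟩
    have h2 : p ^ (k + 1) ∣ M - 1 := ⟨y', by rw [hy]; ring⟩
    rw [padicValNat_dvd_iff_le hM0, hvk] at h2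
    omega
  have hM : M = 1 + p ^ k * y := by omega
  set w := z ^ p ^ (k - padicValNat p (N - 1)) with hw
  have hwM : (w : ZMod (p ^ (k + 1))) = 1 + (p : ZMod (p ^ (k + 1))) ^ k * y := by
    rw [hw, Units.val_pow_eq_pow_val, ← hN, ← Nat.cast_pow, hMdef, hM]
    push_cast; rfl
  have hχw : χ w = 1 := by rw [hw, map_pow, h, one_pow]
  obtain ⟨u, ⟨t, ht⟩, hu⟩ := hχ
  -- c with c y = t modulo p
  have hyu : IsUnit (y : ZMod p) := by
    rw [isUnit_iff_ne_zero, Ne, CharP.cast_eq_zero_iff (ZMod p) p]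
    exact hyp
  obtain ⟨c, hc⟩ : ∃ c : ℕ, ((y * c : ℕ) : ZMod p) = ((t : ℕ) : ZMod p) := by
    refine ⟨((t : ZMod p) * (y : ZMod p)⁻¹).val, ?_⟩
    rw [Nat.cast_mul, ZMod.natCast_zmod_val]
    have := hyu.ne_zero
    field_simp
  apply hu
  have hcalc : u = w ^ c := by
    rw [← Units.val_inj, Units.val_pow_eq_pow_val, ht, hwM, S3_pow]
    · congr 1
      have h3 : (y * c) ≡ t [MOD p] := (ZMod.natCast_eq_natCast_iff _ _ _).1 hc
      have h4 : p ^ k * (y * c) ≡ p ^ k * t [MOD p ^ (k + 1)] := by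
        have := Nat.ModEq.mul_left' (p ^ k) h3
        rwa [← pow_succ] at this
      have h5 := (ZMod.natCast_eq_natCast_iff _ _ _).2 h4
      push_cast at h5
      exact h5.symm
    · rw [← pow_add]
      have : (p : ZMod (p ^ (k + 1))) ^ (k + k) = ((p ^ (k + 1) : ℕ) : ZMod (p ^ (k + 1))) * (p : ZMod (p ^ (k + 1))) ^ (k - 1) := by
        rw [Nat.cast_pow, ← pow_add]
        congr 1
        omega
      rw [this, ZMod.natCast_self, zero_mul]
  rw [hcalc, map_pow, hχw, one_pow]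

/-- `P^2 = 0` -/
theorem S3_sq {p k e : ℕ} (hek : 2 * e ≤ k + 1) :
    (p : ZMod (p ^ (k + 1))) ^ (k + 1 - e) * (p : ZMod (p ^ (k + 1))) ^ (k + 1 - e) = 0 := by
  have : (p : ZMod (p ^ (k + 1))) ^ (k + 1 - e) * (p : ZMod (p ^ (k + 1))) ^ (k + 1 - e) =
      ((p ^ (k + 1) : ℕ) : ZMod (p ^ (k + 1))) * (p : ZMod (p ^ (k + 1))) ^ (k + 1 - 2 * e) := by
    rw [Nat.cast_pow, ← pow_add, ← pow_add]
    congr 1
    omega
  rw [this, ZMod.natCast_self, zero_mul]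

theorem S3_u1pow {p k e : ℕ} (hek : 2 * e ≤ k + 1) (u1 : (ZMod (p ^ (k + 1)))ˣ)
    (hu1 : (u1 : ZMod (p ^ (k + 1))) = 1 + (p : ZMod (p ^ (k + 1))) ^ (k + 1 - e)) (t : ℕ) :
    ((u1 ^ t : (ZMod (p ^ (k + 1)))ˣ) : ZMod (p ^ (k + 1))) = 1 + (p : ZMod (p ^ (k + 1))) ^ (k + 1 - e) * t := by
  rw [Units.val_pow_eq_pow_val, hu1]
  have := S3_pow (S3_sq (p := p) hek) 1 t
  rw [mul_one, one_mul] at this
  exact this

theorem S3_u1ord {p k e : ℕ} (hek : 2 * e ≤ k + 1) (u1 : (ZMod (p ^ (k + 1)))ˣ)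
    (hu1 : (u1 : ZMod (p ^ (k + 1))) = 1 + (p : ZMod (p ^ (k + 1))) ^ (k + 1 - e)) : u1 ^ p ^ e = 1 := by
  rw [← Units.val_inj, S3_u1pow hek u1 hu1, Units.val_one]
  have : (p : ZMod (p ^ (k + 1))) ^ (k + 1 - e) * ((p ^ e : ℕ) : ZMod (p ^ (k + 1))) = ((p ^ (k + 1) : ℕ) : ZMod (p ^ (k + 1))) := by
    rw [Nat.cast_pow, Nat.cast_pow, ← pow_add]
    congr 1
    omega
  rw [this, ZMod.natCast_self, add_zero]

theorem S3_u1r {p k e : ℕ} [Fact p.Prime] (he : 1 ≤ e) (hek : 2 * e ≤ k + 1) (u1 : (ZMod (p ^ (k + 1)))ˣ)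
    (hu1 : (u1 : ZMod (p ^ (k + 1))) = 1 + (p : ZMod (p ^ (k + 1))) ^ (k + 1 - e)) : S3_r p k u1 = 1 := by
  rw [← Units.val_inj]
  show (ZMod.castHom (dvd_pow_self p (Nat.succ_ne_zero k)) (ZMod p)) (u1 : ZMod (p ^ (k + 1))) = 1
  rw [hu1, map_add, map_one, map_pow, map_natCast, ZMod.natCast_self, zero_pow (by omega), add_zero]

theorem S3_u1inj {p k e : ℕ} [Fact p.Prime] (hek : 2 * e ≤ k + 1) (u1 : (ZMod (p ^ (k + 1)))ˣ)
    (hu1 : (u1 : ZMod (p ^ (k + 1))) = 1 + (p : ZMod (p ^ (k + 1))) ^ (k + 1 - e)) {t t' : ℕ} (ht : t < p ^ e) (ht' : t' < p ^ e)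
    (h : u1 ^ t = u1 ^ t') : t = t' := by
  have hp : p.Prime := Fact.out
  rw [← Units.val_inj, S3_u1pow hek u1 hu1, S3_u1pow hek u1 hu1, add_right_inj] at h
  have h2 : ((p ^ (k + 1 - e) * t : ℕ) : ZMod (p ^ (k + 1))) = ((p ^ (k + 1 - e) * t' : ℕ) : ZMod (p ^ (k + 1))) := by
    push_cast; exact h
  rw [ZMod.natCast_eq_natCast_iff] at h2
  have h3 : p ^ (k + 1) = p ^ (k + 1 - e) * p ^ e := by rw [← pow_add]; congr 1; omega
  rw [h3] at h2
  have h4 := Nat.ModEq.mul_left_cancel' (pow_ne_zero _ hp.ne_zero) h2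
  exact Nat.ModEq.eq_of_lt_of_lt h4 ht ht'

/-- the elements killed by `p^e` -/
theorem S3_root {p k e : ℕ} [Fact p.Prime] (hp2 : p ≠ 2) (hek : 2 * e ≤ k + 1) (u1 : (ZMod (p ^ (k + 1)))ˣ)
    (hu1 : (u1 : ZMod (p ^ (k + 1))) = 1 + (p : ZMod (p ^ (k + 1))) ^ (k + 1 - e)) (z : (ZMod (p ^ (k + 1)))ˣ)
    (hz : S3_r p k z = 1) (h : z ^ p ^ e = 1) : ∃ t < p ^ e, z = u1 ^ t := by
  have hp : p.Prime := Fact.out
  obtain ⟨N, hN1, hN, hd, hnd⟩ := S3_rep z hz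
  rw [S3_lte hp2 hN1 hN hd hnd (pow_ne_zero _ hp.ne_zero), padicValNat.prime_pow] at h
  have hle : k + 1 - e ≤ padicValNat p (N - 1) := by omega
  obtain ⟨T, hT⟩ : p ^ (k + 1 - e) ∣ N - 1 := by
    rw [padicValNat_dvd_iff_le (by omega)]; exact hle
  have hNT : N = 1 + p ^ (k + 1 - e) * T := by omega
  refine ⟨T % p ^ e, Nat.mod_lt _ (pow_pos hp.pos _), ?_⟩
  rw [← pow_eq_pow_mod T (S3_u1ord hek u1 hu1)]
  rw [← Units.val_inj, S3_u1pow hek u1 hu1, ← hN, hNT]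
  push_cast; rfl

/-- `y^(2^m) = 1` implies `y = 1` in characteristic two -/
theorem S3_two {Ω : Type*} [Field Ω] [CharP Ω 2] (y : Ωˣ) (m : ℕ) (h : y ^ 2 ^ m = 1) : y = 1 := by
  have : ExpChar Ω 2 := ExpChar.prime Nat.prime_two
  rw [← Units.val_inj, Units.val_one]
  apply iterateFrobenius_inj Ω 2 m
  rw [iterateFrobenius_def, map_one, ← Units.val_pow_eq_pow_val, h, Units.val_one]

theorem S3_chired {Ω : Type*} [Field Ω] [CharP Ω 2] {p k e s : ℕ} [Fact p.Prime] (hQ : QD p e s)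
    (χ : (ZMod (p ^ (k + 1)))ˣ →* Ωˣ) (v : (ZMod (p ^ (k + 1)))ˣ) (hx : v ^ (p - 1) = 1) : χ v ^ (2 ^ s - 1) = 1 := by
  have hp : p.Prime := Fact.out
  have hp1 : p - 1 ≠ 0 := by have := hp.two_le; omega
  obtain ⟨m, r, hr, hmr⟩ := Nat.exists_eq_two_pow_mul_odd hp1
  have h1 : χ v ^ r = 1 := by
    apply S3_two (χ v ^ r) m
    rw [← pow_mul, mul_comm, ← hmr, ← map_pow, hx, map_one]
  obtain ⟨c, hc⟩ := hQ.odd r hr ⟨2 ^ m, by rw [hmr]; ring⟩
  rw [hc, pow_mul, h1, one_pow]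

theorem S3_iff {Ω : Type*} [Field Ω] (s : ℕ) (y : Ωˣ) : y ^ (2 ^ s) = y ↔ y ^ (2 ^ s - 1) = 1 := by
  have h : y ^ (2 ^ s) = y ^ (2 ^ s - 1) * y := by
    rw [← pow_succ, Nat.sub_add_cancel (Nat.one_le_two_pow)]
  rw [h]
  exact mul_eq_right

/-- structure of `H` -/
theorem S3_struct {Ω : Type*} [Field Ω] [CharP Ω 2] {p k e s : ℕ} [Fact p.Prime] (hp2 : p ≠ 2) (hQ : QD p e s)
    (hek : 2 * e ≤ k + 1) (χ : (ZMod (p ^ (k + 1)))ˣ →* Ωˣ) (hχ : Prim χ) (u1 : (ZMod (p ^ (k + 1)))ˣ)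
    (hu1 : (u1 : ZMod (p ^ (k + 1))) = 1 + (p : ZMod (p ^ (k + 1))) ^ (k + 1 - e)) (v : (ZMod (p ^ (k + 1)))ˣ)
    (hv : χ v ^ (2 ^ s) = χ v) : ∃ x : ℤ_[p]ˣ, x ^ (p - 1) = 1 ∧ ∃ t < p ^ e, v = red (k + 1) x * u1 ^ t := by
  have hp : p.Prime := Fact.out
  have he := hQ.e1
  have hk : 1 ≤ k := by omega
  obtain ⟨x, hx1, hx2⟩ := teich_exists ((S3_r p k v : (ZMod p)ˣ) : ZMod p) (Units.ne_zero _)
  refine ⟨x, hx1, ?_⟩
  have hredx : (red (k + 1) x) ^ (p - 1) = 1 := by rw [← map_pow, hx1, map_one]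
  have hrv : S3_r p k (v * (red (k + 1) x)⁻¹) = 1 := by
    rw [map_mul, map_inv, mul_inv_eq_one, ← Units.val_inj, S3_r_red, hx2]
  have hχ' : χ (v * (red (k + 1) x)⁻¹) ^ (2 ^ s - 1) = 1 := by
    rw [map_mul, map_inv, mul_pow, inv_pow, (S3_iff s _).1 hv, S3_chired hQ χ _ hredx]; simp
  obtain ⟨c, hc⟩ := hQ.dvd
  have hpc : ¬ p ∣ c := by
    rintro ⟨c', rfl⟩
    exact hQ.not_dvd ⟨c', by rw [hc]; ring⟩
  set z := v * (red (k + 1) x)⁻¹ with hz
  have hzp : z ^ p ^ k = 1 := by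
    obtain ⟨N, hN1, hN, hd, hnd⟩ := S3_rep z hrv
    rw [S3_lte hp2 hN1 hN hd hnd (pow_ne_zero _ hp.ne_zero), padicValNat.prime_pow]
    have : N - 1 ≠ 0 := by omega
    have := one_le_padicValNat_of_dvd this hd
    omega
  have hze : z ^ p ^ e = 1 := by
    apply S3_inj hp2 hk χ hχ
    · rw [map_pow, hrv, one_pow]
    · have h1 : χ (z ^ p ^ e) ^ c = 1 := by
        rw [← map_pow, ← pow_mul, ← hc, map_pow]
        exact hχ'
      have h2 : χ (z ^ p ^ e) ^ p ^ k = 1 := by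
        rw [← map_pow, ← pow_mul, mul_comm, pow_mul, hzp, one_pow, map_one]
      have h3 := pow_gcd_eq_one.2 ⟨h1, h2⟩
      rwa [Nat.Coprime.gcd_eq_one, pow_one] at h3
      exact (Nat.Coprime.pow_left k ((Nat.Prime.coprime_iff_not_dvd hp).2 hpc)).symm
  obtain ⟨t, ht, htz⟩ := S3_root hp2 hek u1 hu1 z hrv hze
  refine ⟨t, ht, ?_⟩
  rw [← htz, hz]
  rw [mul_comm v, mul_inv_cancel_left]

/-- sums of even functions over two systems -/
theorem S3_sum {f : ℕ} {M : Type*} [AddCommMonoid M] {A B : Finset (ZMod f)ˣ} (hAB : ∀ u ∈ A, u ∈ B ∨ -u ∈ B)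
    (hBA : ∀ u ∈ B, u ∈ A ∨ -u ∈ A) (hA : ∀ u ∈ A, -u ∉ A) (hB : ∀ u ∈ B, -u ∉ B) (h : (ZMod f)ˣ → M) (hh : ∀ u, h (-u) = h u) :
    ∑ u ∈ A, h u = ∑ u ∈ B, h u := by
  classical
  apply Finset.sum_bij' (fun u _ => if u ∈ B then u else -u) (fun u _ => if u ∈ A then u else -u)
  · intro u hu
    split_ifs with h1
    · exact h1
    · exact (hAB u hu).resolve_left h1
  · intro u hu
    split_ifs with h1
    · exact h1
    · exact (hBA u hu).resolve_left h1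
  · intro u hu
    by_cases h1 : u ∈ B
    · simp [h1, hu]
    · have h2 : -u ∉ A := hA u hu
      simp [h1, h2]
  · intro u hu
    by_cases h1 : u ∈ A
    · simp [h1, hu]
    · have h2 : -u ∉ B := hB u hu
      simp [h1, h2]
  · intro u hu
    split_ifs with h1
    · rfl
    · exact (hh u).symm

open Classical in
theorem cosets {Ω : Type*} [Field Ω] [CharP Ω 2] {p k e s : ℕ} [Fact p.Prime] (hp2 : p ≠ 2) (hQ : QD p e s)
    (hek : 2 * e ≤ k + 1) {E : Finset ℤ_[p]ˣ} (hE : EH p E) (χ : (ZMod (p ^ (k + 1)))ˣ →* Ωˣ) (hev : χ (-1) = 1)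
    (hχ : Prim χ) (a u1 : (ZMod (p ^ (k + 1)))ˣ)
    (hu1 : (u1 : ZMod (p ^ (k + 1))) = 1 + (p : ZMod (p ^ (k + 1))) ^ (k + 1 - e))
    (h : (ZMod (p ^ (k + 1)))ˣ → Ω) (hh : ∀ u, h (-u) = h u) :
    ∑ u ∈ (Hf (p ^ (k + 1))).filter (fun u => χ (u * a⁻¹) ^ (2 ^ s) = χ (u * a⁻¹)), h u =
      ∑ x ∈ E, ∑ t ∈ range (p ^ e), h (a * red (k + 1) x * u1 ^ t) := by
  have hp : p.Prime := Fact.out
  have he := hQ.e1
  have hk : 1 ≤ k := by omega
  have hodd : Odd (p ^ (k + 1)) := (hp.odd_of_ne_two hp2).pow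
  have hone : 1 < p ^ (k + 1) := Nat.one_lt_pow (Nat.succ_ne_zero k) hp.one_lt
  have hHf := isHalf_Hf hodd hone
  -- roots agreeing after reduction
  have key : ∀ x y : ℤ_[p]ˣ, x ^ (p - 1) = 1 → y ^ (p - 1) = 1 → ∀ t t' : ℕ,
      red (k + 1) x * u1 ^ t = red (k + 1) y * u1 ^ t' → x = y := by
    intro x y hx hy t t' hxy
    apply teich_unique hx hy
    rw [← S3_r_red k x, ← S3_r_red k y]
    have h2 := congrArg (S3_r p k) hxy
    rw [map_mul, map_mul, map_pow, map_pow, S3_u1r he hek u1 hu1, one_pow, one_pow, mul_one, mul_one] at h2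
    rw [h2]
  have hneg : ∀ x : ℤ_[p]ˣ, x ^ (p - 1) = 1 → (-x) ^ (p - 1) = 1 := by
    intro x hx
    have hev' : Even (p - 1) := by
      obtain ⟨m, hm⟩ := hp.odd_of_ne_two hp2
      exact ⟨m, by omega⟩
    rw [hev'.neg_pow, hx]
  have hredneg : ∀ x : ℤ_[p]ˣ, red (k + 1) (-x) = - red (k + 1) x := by
    intro x
    rw [← Units.val_inj]
    show PadicInt.toZModPow (k + 1) ((-x : ℤ_[p]ˣ) : ℤ_[p]) = - PadicInt.toZModPow (k + 1) (x : ℤ_[p])
    rw [Units.val_neg, map_neg]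
  have hχu1 : ∀ t : ℕ, χ (u1 ^ t) ^ (2 ^ s - 1) = 1 := by
    intro t
    obtain ⟨c, hc⟩ := hQ.dvd
    rw [← map_pow, ← pow_mul, mul_comm t, pow_mul, hc, pow_mul, S3_u1ord hek u1 hu1, one_pow, one_pow, map_one]
  -- the image set
  set A' : Finset (ZMod (p ^ (k + 1)))ˣ := (E ×ˢ range (p ^ e)).image (fun q => a * red (k + 1) q.1 * u1 ^ q.2) with hA'
  have hsum : ∑ x ∈ E, ∑ t ∈ range (p ^ e), h (a * red (k + 1) x * u1 ^ t) = ∑ u ∈ A', h u := by
    rw [hA', Finset.sum_image, Finset.sum_product]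
    rintro ⟨x, t⟩ hx ⟨y, t'⟩ hy hxy
    simp only [coe_product, Set.mem_prod, mem_coe, mem_range] at hx hy
    simp only at hxy
    rw [mul_assoc, mul_assoc, mul_right_inj] at hxy
    have hxy1 := key x y (hE.root x hx.1) (hE.root y hy.1) t t' hxy
    subst hxy1
    rw [mul_right_inj] at hxy
    rw [S3_u1inj hek u1 hu1 hx.2 hy.2 hxy]
  rw [hsum]
  apply S3_sum _ _ _ _ h hh
  · intro u hu
    rw [mem_filter] at hu
    obtain ⟨x, hx, t, ht, hxt⟩ := S3_struct hp2 hQ hek χ hχ u1 hu1 (u * a⁻¹) hu.2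
    have hu' : u = a * red (k + 1) x * u1 ^ t := by
      rw [mul_assoc, ← hxt, mul_comm u, mul_inv_cancel_left]
    rcases hE.cov x hx with hxE | hxE
    · left
      rw [hA', mem_image]
      exact ⟨(x, t), by simp [hxE, ht], hu'.symm⟩
    · right
      rw [hA', mem_image]
      refine ⟨(-x, t), by simp [hxE, ht], ?_⟩
      simp only
      rw [hredneg, hu', mul_neg, neg_mul]
  · intro u hu
    rw [hA', mem_image] at hu
    obtain ⟨⟨x, t⟩, hxt, rfl⟩ := hu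
    simp only [mem_product, mem_range] at hxt
    have hredx : (red (k + 1) x) ^ (p - 1) = 1 := by rw [← map_pow, hE.root x hxt.1, map_one]
    have hin : χ (a * red (k + 1) x * u1 ^ t * a⁻¹) ^ (2 ^ s) = χ (a * red (k + 1) x * u1 ^ t * a⁻¹) := by
      have h1 : a * red (k + 1) x * u1 ^ t * a⁻¹ = red (k + 1) x * u1 ^ t := by
        rw [mul_comm _ a⁻¹, mul_assoc a, inv_mul_cancel_left]
      rw [h1, S3_iff, map_mul, mul_pow, S3_chired hQ χ _ hredx, hχu1, one_mul]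
    by_cases hH : a * red (k + 1) x * u1 ^ t ∈ Hf (p ^ (k + 1))
    · left
      rw [mem_filter]
      exact ⟨hH, hin⟩
    · right
      rw [mem_filter]
      refine ⟨?_, ?_⟩
      · by_contra hc
        exact hH ((hHf _).2 hc)
      · have h1 : χ (-(a * red (k + 1) x * u1 ^ t) * a⁻¹) = χ (a * red (k + 1) x * u1 ^ t * a⁻¹) := by
          rw [neg_mul, ← neg_one_mul, map_mul, hev, one_mul]
        rw [h1]
        exact hin
  · intro u hu hu2
    rw [mem_filter] at hu hu2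
    exact (hHf u).1 hu.1 hu2.1
  · intro u hu hu2
    rw [hA', mem_image] at hu hu2
    obtain ⟨⟨x, t⟩, hxt, rfl⟩ := hu
    obtain ⟨⟨y, t'⟩, hyt, hy⟩ := hu2
    simp only [mem_product, mem_range] at hxt hyt hy
    have h1 : red (k + 1) y * u1 ^ t' = red (k + 1) (-x) * u1 ^ t := by
      rw [hredneg, neg_mul]
      have : a * (red (k + 1) y * u1 ^ t') = a * (-(red (k + 1) x * u1 ^ t)) := by
        rw [← mul_assoc, hy, mul_neg, mul_assoc]
      exact mul_left_cancel this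
    have h2 := key y (-x) (hE.root y hyt.1) (hneg x (hE.root x hxt.1)) t' t h1
    exact hE.neg x hxt.1 (h2 ▸ hyt.1)

end H5SW
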