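import Pool.Agent.H5.SW.Ds

/-!
ROW S7 (a separating additive function).  PROOF.  View `ℚ_[p]` as a `ℚ`-vector space `V`. For `x ∈ E`, `x ≠ 1`, `x` (in `ℚ_[p]`) is not in the line `ℚ · 1`: if
`x = (c : ℚ)` then `c^(p-1) = 1` in `ℚ` (injectivity of the cast), so `c = ± 1`, `x = ± 1`, and `x = -1` is excluded by `EH.neg 1` (`1 ∈ E`), `x = 1` is excluded.
For every such `x` there is a `ℚ`-linear form on `V` killing `1` and not `x`. The forms
`g : V →ₗ[ℚ] ℚ` with `g 1 = 0` form a `ℚ`-vector space `W`, and the proper subspaces `{g ∈ W : g x = 0}`, `x ∈ E \ {1}`, do not cover it.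
Take `g ∈ W` with `g x ≠ 0` for all
`x ∈ E \ {1}`, multiply by a common denominator `D` of the finitely many values `g x`, `x ∈ E`: `l x = D * g x ∈ ℤ`. Additivity gives the last claim:
`0 = D g(∑ m_x x) = ∑ m_x l x`.
-/

set_option autoImplicit false

namespace H5SW

open Finset

theorem sep_form {p : ℕ} [Fact p.Prime] (hp2 : p ≠ 2) {E : Finset ℤ_[p]ˣ} (hE : EH p E) :
    ∃ l : ℤ_[p]ˣ → ℤ, l 1 = 0 ∧ (∀ x ∈ E, x ≠ 1 → l x ≠ 0) ∧
      ∀ m : ℤ_[p]ˣ → ℤ, ∑ x ∈ E, (m x : ℤ_[p]) * (x : ℤ_[p]) = 0 → ∑ x ∈ E, m x * l x = 0 := by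
  classical
  have hpp : p.Prime := Fact.out
  have hp0 : p - 1 ≠ 0 := by have := hpp.two_le; omega
  let c : ℤ_[p]ˣ → ℚ_[p] := fun x => ((x : ℤ_[p]) : ℚ_[p])
  have hc1 : c 1 = 1 := by simp [c]
  have hline : ∀ x ∈ E, x ≠ 1 → c x ∉ Submodule.span ℚ {(1 : ℚ_[p])} := by
    intro x hx hx1 hmem
    rw [Submodule.mem_span_singleton] at hmem
    obtain ⟨q, hq⟩ := hmem
    have hq2 : (q : ℚ_[p]) = c x := by
      rw [← hq, Rat.smul_def, mul_one]
    have h1 : (c x) ^ (p - 1) = 1 := by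
      have h2 := hE.root x hx
      have h3 : ((x ^ (p - 1) : ℤ_[p]ˣ) : ℤ_[p]) = 1 := by rw [h2]; simp
      rw [Units.val_pow_eq_pow_val] at h3
      have h4 : ((((x : ℤ_[p]) ^ (p - 1) : ℤ_[p])) : ℚ_[p]) = 1 := by rw [h3]; simp
      rw [PadicInt.coe_pow] at h4
      exact h4
    rw [← hq2] at h1
    have h5 : q ^ (p - 1) = 1 := by exact_mod_cast h1
    have h6 : |q| = 1 := by
      have h7 : |q| ^ (p - 1) = 1 := by rw [← abs_pow, h5, abs_one]
      exact (pow_eq_one_iff_of_nonneg (abs_nonneg q) hp0).mp h7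
    rcases (abs_eq (zero_le_one)).mp h6 with h8 | h8
    · rw [h8] at hq2
      apply hx1
      apply Units.ext
      apply Subtype.ext
      change c x = c 1
      rw [← hq2, hc1]; simp
    · rw [h8] at hq2
      apply hE.neg x hx
      have : -x = 1 := by
        apply Units.ext
        apply Subtype.ext
        change ((((-x : ℤ_[p]ˣ)) : ℤ_[p]) : ℚ_[p]) = c 1
        rw [Units.val_neg, PadicInt.coe_neg, hc1]
        change - c x = 1
        rw [← hq2]; simp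
      rw [this]; exact hE.one
  let W : Submodule ℚ (ℚ_[p] →ₗ[ℚ] ℚ) := LinearMap.ker (LinearMap.applyₗ (1 : ℚ_[p]))
  let K : ℤ_[p]ˣ → Subspace ℚ W := fun x => LinearMap.ker ((LinearMap.applyₗ (c x) : (ℚ_[p] →ₗ[ℚ] ℚ) →ₗ[ℚ] ℚ).comp W.subtype)
  have htop : (⊤ : Subspace ℚ W) ∉ (E.erase 1).image K := by
    intro h
    rw [mem_image] at h
    obtain ⟨x, hx, hxt⟩ := h
    rw [mem_erase] at hx
    obtain ⟨f, hf, hle⟩ := Submodule.exists_le_ker_of_notMem (hline x hx.2 hx.1)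
    have hf1 : f 1 = 0 := by
      have : (1 : ℚ_[p]) ∈ LinearMap.ker f := hle (Submodule.subset_span (Set.mem_singleton _))
      exact this
    have hfW : f ∈ W := hf1
    have : (⟨f, hfW⟩ : W) ∈ K x := by rw [hxt]; trivial
    exact hf this
  have hne := Subspace.biUnion_ne_univ_of_top_notMem htop
  obtain ⟨g, hg⟩ := (Set.ne_univ_iff_exists_notMem _).mp hne
  have hg1 : (g : ℚ_[p] →ₗ[ℚ] ℚ) 1 = 0 := g.2
  have hgx : ∀ x ∈ E, x ≠ 1 → (g : ℚ_[p] →ₗ[ℚ] ℚ) (c x) ≠ 0 := by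
    intro x hx hx1 h0
    apply hg
    simp only [Set.mem_iUnion]
    exact ⟨K x, mem_image_of_mem K (mem_erase.mpr ⟨hx1, hx⟩), h0⟩
  let G : ℤ_[p]ˣ → ℚ := fun x => (g : ℚ_[p] →ₗ[ℚ] ℚ) (c x)
  let D : ℕ := ∏ x ∈ E, (G x).den
  have hD : D ≠ 0 := Finset.prod_ne_zero_iff.mpr fun x _ => (G x).den_nz
  have hint : ∀ x ∈ E, ∃ z : ℤ, (z : ℚ) = D * G x := by
    intro x hx
    obtain ⟨r, hr⟩ := Finset.dvd_prod_of_mem (fun x => (G x).den) hx
    refine ⟨r * (G x).num, ?_⟩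
    have h1 : (D : ℚ) = (G x).den * r := by
      have : D = (G x).den * r := hr
      rw [this]; push_cast; ring
    have h2 : ((G x).den : ℚ) * G x = (G x).num := by
      rw [mul_comm]; exact Rat.mul_den_eq_num (G x)
    push_cast
    rw [h1, ← h2]; ring
  let l : ℤ_[p]ˣ → ℤ := fun x => if h : x ∈ E then (hint x h).choose else 0
  have hl : ∀ x ∈ E, (l x : ℚ) = D * G x := by
    intro x hx
    simp only [l, dif_pos hx]
    exact (hint x hx).choose_spec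
  have hG1 : G 1 = 0 := by
    change (g : ℚ_[p] →ₗ[ℚ] ℚ) (c 1) = 0
    rw [hc1]; exact hg1
  refine ⟨l, ?_, ?_, ?_⟩
  · have := hl 1 hE.one
    rw [hG1, mul_zero] at this
    exact_mod_cast this
  · intro x hx hx1 h0
    have h1 := hl x hx
    rw [h0] at h1
    have h2 : (D : ℚ) ≠ 0 := by exact_mod_cast hD
    have h3 : G x ≠ 0 := hgx x hx hx1
    exact (mul_ne_zero h2 h3) (by rw [← h1]; simp)
  · intro m hm
    have h1 : ∑ x ∈ E, ((m x : ℤ) : ℚ) • c x = 0 := by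
      have h2 : ((∑ x ∈ E, (m x : ℤ_[p]) * (x : ℤ_[p]) : ℤ_[p]) : ℚ_[p]) = 0 := by rw [hm]; simp
      rw [← h2]
      have h3 : ((∑ x ∈ E, (m x : ℤ_[p]) * (x : ℤ_[p]) : ℤ_[p]) : ℚ_[p]) = ∑ x ∈ E, (((m x : ℤ_[p]) * (x : ℤ_[p]) : ℤ_[p]) : ℚ_[p]) := by
        exact map_sum (PadicInt.Coe.ringHom (p := p)) _ _
      rw [h3]
      apply Finset.sum_congr rfl
      intro x _
      rw [PadicInt.coe_mul, PadicInt.coe_intCast, Rat.smul_def]
      simp [c]
    have h4 : ∑ x ∈ E, ((m x : ℤ) : ℚ) * G x = 0 := by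
      have h5 := congrArg (g : ℚ_[p] →ₗ[ℚ] ℚ) h1
      rw [map_sum, map_zero] at h5
      rw [← h5]
      apply Finset.sum_congr rfl
      intro x _
      rw [map_smul, smul_eq_mul]
    have h6 : ((∑ x ∈ E, m x * l x : ℤ) : ℚ) = 0 := by
      push_cast
      rw [show (0 : ℚ) = (D : ℚ) * ∑ x ∈ E, ((m x : ℤ) : ℚ) * G x by rw [h4, mul_zero], Finset.mul_sum]
      apply Finset.sum_congr rfl
      intro x hx
      rw [hl x hx]; ring
    exact_mod_cast h6

end H5SW
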