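import Pool.Agent.H5.SW.S4
import Pool.Agent.H5.SW.S5
import Pool.Agent.H5.SW.S7

/-!
ROW SB (no relation).  PROOF.  `P = p^e` (odd). Index type `ι = {(x, S) : x ∈ E, S ⊆ E \ {x}}` together with a function `r : E → {1, …, 2P-1}`: since `γ` must not depend on
`k`, apply S5 (`grouping`) to the finite type of all `(r, x, S)` with `r : E → Fin (2P)` — or apply it for each of the finitely many `r` and take the maximum of the `k0`'s:
`γ_r(x, S) = r x * x + 2 P ∑_{y ∈ S} y ∈ ℤ_[p]`. Also take `k0` with `2 e ≤ k0`, so that `P ∣`-type conditions hold (`e < k+1`).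
Let `k ≥ k0`, `z`, `c`, `ρ` be given and suppose all the sums vanish. Put `ω = z^(p^(k+1-e))`, a primitive `P`-th root of unity. For `x ∈ E` with reduction `x̄` (prime to `p`):
for `b : ℕ`, `z^((1+Pb)(1+p^(k+1-e)t) x̄.val) = (ω^(x̄.val))^t * X` with `X = z^((1+Pb) x̄.val)` (`ω^(P b x̄ t) = 1`), `ω^(x̄.val)` is a primitive `P`-th root of unity. By S4 there is
`r x ∈ [1, 2P)` (depending on `x` only, not on `b`) with inner sum `= X^(r x) / (1 + X^P)^2`; `X^P ≠ 1` since `X` has exact order `p^(k+1) > P`.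
Multiply the relation by `∏_{y ∈ E} (1 + X_y^P)^2` (`≠ 0`), `X_y = z^((1+Pb) ȳ.val)`, `(1 + X^P)^2 = 1 + X^(2P)` (characteristic 2), and expand
(`Finset.prod_one_add`): `∑_{x ∈ E} ∑_{S ⊆ E \ {x}} c x * X_x^(r x) ∏_{y ∈ S} X_y^(2P) = 0`, i.e. `∑_{(x,S)} c x z^((1+Pb) * (toZModPow (k+1) (γ_r (x,S))).val) = 0` for all `b`
(exponents of `z` only matter mod `p^(k+1)`). S5 gives: for every value `γ0`, `∑_{(x,S) : γ_r(x,S) = γ0} c x = 0`.
S7 gives `l`. For `(x, S)`, put `Λ(x,S) = r x * l x + 2 P ∑_{y ∈ S} l y ∈ ℤ`; if `γ_r(x,S) = γ_r(x',S')` then `Λ(x,S) = Λ(x',S')` (S7 with `m` the difference of the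
coefficient vectors). So in `LaurentPolynomial Ω` (`Ω[T;T⁻¹]`): `∑_{(x,S)} C (c x) * T (Λ (x,S)) = 0` (group by the value of `γ_r`; `Finset.sum_fiberwise`-style). But this is
`∑_{x ∈ E} C (c x) T(r x l x) ∏_{y ∈ E \ {x}} (1 + T (2 P l y))`; for `x ≠ 1` the factor `y = 1` is `1 + T 0 = 1 + 1 = 0`; so it is `C (c 1) ∏_{y ∈ E \ {1}} (1 + T (2 P l y))`,
non zero because `c 1 ≠ 0`, `l y ≠ 0`, `1 + T m ≠ 0` for `m ≠ 0` and `Ω[T;T⁻¹]` is a domain. Contradiction.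
-/

set_option autoImplicit false

namespace H5SW

open Finset

theorem SB_prod {R : Type*} [CommRing R] {ι : Type} [Fintype ι] [DecidableEq ι] (a f : ι → R) :
    ∑ i : ι × Finset ι, (if i.1 ∈ i.2 then 0 else a i.1 * ∏ y ∈ i.2, f y)
      = ∑ x, a x * ∏ y ∈ univ.erase x, (1 + f y) := by
  rw [Fintype.sum_prod_type]
  refine sum_congr rfl (fun x _ => ?_)
  rw [Finset.prod_one_add, mul_sum]
  rw [← Finset.sum_subset (s₁ := (univ.erase x).powerset) (s₂ := univ) (subset_univ _)]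
  · refine sum_congr rfl (fun S hS => ?_)
    have hx : x ∉ S := by
      intro h
      have h1 := (mem_powerset.1 hS) h
      simp at h1
    simp only [if_neg hx]
  · intro S _ hS
    have hx : x ∈ S := by
      by_contra h
      apply hS
      rw [mem_powerset]
      intro y hy
      rw [mem_erase]
      exact ⟨fun h1 => h (h1 ▸ hy), mem_univ _⟩
    simp only [if_pos hx]

theorem SB_cop {p : ℕ} [Fact p.Prime] (k : ℕ) (x : ℤ_[p]ˣ) :
    Nat.Coprime (PadicInt.toZModPow (k + 1) (x : ℤ_[p])).val p := by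
  have h := ZMod.val_coe_unit_coprime (red (k + 1) x)
  have h2 : ((red (k + 1) x : (ZMod (p ^ (k + 1)))ˣ) : ZMod (p ^ (k + 1)))
      = PadicInt.toZModPow (k + 1) (x : ℤ_[p]) := rfl
  rw [h2] at h
  exact Nat.Coprime.coprime_dvd_right (dvd_pow_self p (by omega)) h

theorem SB_pow {Ω : Type} [Field Ω] {z : Ω} {N a b : ℕ} (hz : z ^ N = 1)
    (h : (a : ZMod N) = (b : ZMod N)) : z ^ a = z ^ b := by
  rw [ZMod.natCast_eq_natCast_iff] at h
  rw [pow_eq_pow_mod a hz, pow_eq_pow_mod b hz]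
  rw [h]

theorem SB_key {p e : ℕ} [Fact p.Prime] (hp2 : p ≠ 2) (he : 1 ≤ e) {k : ℕ} (hk : 2 * e ≤ k)
    {Ω : Type} [Field Ω] [CharP Ω 2] {z : Ω} (hz : IsPrimitiveRoot z (p ^ (k + 1))) (ρ : Ω)
    (hρ : ρ ^ (p ^ e) = 1) (x : ℤ_[p]ˣ) :
    ∃ r : ℕ, r < 2 * p ^ e ∧ ∀ b : ℕ,
      (z ^ ((1 + p ^ e * b) * (PadicInt.toZModPow (k + 1) (x : ℤ_[p])).val)) ^ (p ^ e) ≠ 1 ∧
      ∑ t ∈ range (p ^ e), ρ ^ t * Fr (z ^ ((1 + p ^ e * b) * (1 + p ^ (k + 1 - e) * t) *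
        (PadicInt.toZModPow (k + 1) (x : ℤ_[p])).val))
        = (z ^ ((1 + p ^ e * b) * (PadicInt.toZModPow (k + 1) (x : ℤ_[p])).val)) ^ r /
          (1 + (z ^ ((1 + p ^ e * b) * (PadicInt.toZModPow (k + 1) (x : ℤ_[p])).val)) ^ (p ^ e))
            ^ 2 := by
  have hp := Fact.out (p := p.Prime)
  have hodd : Odd (p ^ e) := (hp.odd_of_ne_two hp2).pow
  have hcop := SB_cop k x
  obtain ⟨v, hv⟩ : ∃ v : ℕ, v = (PadicInt.toZModPow (k + 1) (x : ℤ_[p])).val := ⟨_, rfl⟩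
  rw [← hv] at hcop
  rw [← hv]
  have hsplit : p ^ (k + 1) = p ^ (k + 1 - e) * p ^ e := by
    rw [← pow_add]
    congr 1
    omega
  have hω1 : IsPrimitiveRoot (z ^ (p ^ (k + 1 - e))) (p ^ e) :=
    hz.pow (pow_pos hp.pos _) hsplit
  have hω2 : IsPrimitiveRoot ((z ^ (p ^ (k + 1 - e))) ^ v) (p ^ e) :=
    hω1.pow_of_coprime v (Nat.Coprime.pow_right e hcop)
  obtain ⟨r, _, hr2, hr3⟩ := mono_sum hodd hω2 hρ
  refine ⟨r, hr2, fun b => ?_⟩
  have hb : Nat.Coprime (1 + p ^ e * b) p := by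
    have h1 : p ^ e * b = p * (p ^ (e - 1) * b) := by
      rw [← mul_assoc, ← pow_succ']
      congr 2
      omega
    rw [h1]
    rw [Nat.coprime_add_mul_left_left]
    exact Nat.coprime_one_left p
  have hne : (z ^ ((1 + p ^ e * b) * v)) ^ (p ^ e) ≠ 1 := by
    intro h1
    rw [← pow_mul, hz.pow_eq_one_iff_dvd] at h1
    have h2 : Nat.Coprime (p ^ (k + 1)) ((1 + p ^ e * b) * v) :=
      Nat.Coprime.pow_left _ (Nat.Coprime.symm (Nat.Coprime.mul_left hb hcop))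
    have h3 := h2.dvd_of_dvd_mul_left h1
    have h4 := (Nat.pow_dvd_pow_iff_le_right hp.one_lt).1 h3
    omega
  refine ⟨hne, ?_⟩
  rw [← hr3 _ hne]
  refine sum_congr rfl (fun t _ => ?_)
  congr 2
  rw [← pow_mul, ← pow_mul, ← pow_add]
  refine SB_pow hz.pow_eq_one ?_
  have h5 : (1 + p ^ e * b) * (1 + p ^ (k + 1 - e) * t) * v
      = p ^ (k + 1 - e) * v * t + (1 + p ^ e * b) * v + p ^ (k + 1) * (b * t * v) := by
    rw [hsplit]
    ring
  rw [h5]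
  push_cast
  have h6 : ((p : ZMod (p ^ (k + 1))) ^ (k + 1)) = 0 := by
    have := ZMod.natCast_self (p ^ (k + 1))
    push_cast at this
    exact this
  rw [h6]
  ring

/-- the exponent attached to `(x, S)` -/
noncomputable def SB_gam {p : ℕ} [Fact p.Prime] (e : ℕ) (E : Finset ℤ_[p]ˣ) (r : E → ℕ)
    (i : E × Finset E) : ℤ_[p] :=
  (r i.1 : ℤ_[p]) * ((i.1 : ℤ_[p]ˣ) : ℤ_[p]) + 2 * (p : ℤ_[p]) ^ e
    * ∑ y ∈ i.2, ((y : ℤ_[p]ˣ) : ℤ_[p])

theorem SB_exp {p e k : ℕ} [Fact p.Prime] {E : Finset ℤ_[p]ˣ} {Ω : Type} [Field Ω] {z : Ω}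
    (hz : z ^ (p ^ (k + 1)) = 1) (r : E → ℕ) (i : E × Finset E) (B : ℕ) :
    (z ^ (B * (PadicInt.toZModPow (k + 1) ((i.1 : ℤ_[p]ˣ) : ℤ_[p])).val)) ^ (r i.1)
      * ∏ y ∈ i.2, (z ^ (B * (PadicInt.toZModPow (k + 1) ((y : ℤ_[p]ˣ) : ℤ_[p])).val))
        ^ (2 * p ^ e)
      = z ^ (B * (PadicInt.toZModPow (k + 1) (SB_gam e E r i)).val) := by
  simp only [← pow_mul]
  rw [Finset.prod_pow_eq_pow_sum, ← pow_add]
  refine SB_pow hz ?_
  have : NeZero (p ^ (k + 1)) := ⟨pow_ne_zero _ (Fact.out (p := p.Prime)).ne_zero⟩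
  unfold SB_gam
  push_cast
  simp only [ZMod.natCast_val, ZMod.cast_id', id_eq, map_add, map_mul, map_natCast, map_sum,
    map_ofNat, map_pow]
  rw [mul_add, mul_sum, mul_sum]
  congr 1
  · ring
  · refine sum_congr rfl (fun y _ => ?_)
    ring

theorem SB_rel {p e k : ℕ} [Fact p.Prime] {E : Finset ℤ_[p]ˣ} [DecidableEq E]
    {Ω : Type} [Field Ω] [CharP Ω 2] {z : Ω} (hz : z ^ (p ^ (k + 1)) = 1)
    (r : E → ℕ) (c : ℤ_[p]ˣ → Ω) (B : ℕ)
    (hne : ∀ x : E, (z ^ (B * (PadicInt.toZModPow (k + 1) ((x : ℤ_[p]ˣ) : ℤ_[p])).val))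
      ^ (p ^ e) ≠ 1)
    (h : ∑ x : E, c x * ((z ^ (B * (PadicInt.toZModPow (k + 1) ((x : ℤ_[p]ˣ) : ℤ_[p])).val))
        ^ (r x) / (1 + (z ^ (B * (PadicInt.toZModPow (k + 1) ((x : ℤ_[p]ˣ) : ℤ_[p])).val))
          ^ (p ^ e)) ^ 2) = 0) :
    ∑ i : E × Finset E, (if i.1 ∈ i.2 then 0 else c i.1)
      * z ^ (B * (PadicInt.toZModPow (k + 1) (SB_gam e E r i)).val) = 0 := by
  obtain ⟨Y, hY⟩ : ∃ Y : E → Ω, Y = fun x : E =>
    z ^ (B * (PadicInt.toZModPow (k + 1) ((x : ℤ_[p]ˣ) : ℤ_[p])).val) := ⟨_, rfl⟩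
  have hYx : ∀ x : E, z ^ (B * (PadicInt.toZModPow (k + 1) ((x : ℤ_[p]ˣ) : ℤ_[p])).val) = Y x := by
    intro x
    rw [hY]
  simp only [hYx] at h hne
  have h1 : ∀ i : E × Finset E, (if i.1 ∈ i.2 then 0 else c i.1)
      * z ^ (B * (PadicInt.toZModPow (k + 1) (SB_gam e E r i)).val)
      = if i.1 ∈ i.2 then 0 else (c i.1 * Y i.1 ^ (r i.1)) * ∏ y ∈ i.2, Y y ^ (2 * p ^ e) := by
    intro i
    rw [← SB_exp hz r i B]
    simp only [hYx]
    split_ifs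
    · ring
    · ring
  rw [sum_congr rfl (fun i _ => h1 i),
    SB_prod (fun x : E => c x * Y x ^ (r x)) (fun y : E => Y y ^ (2 * p ^ e))]
  have h2 : ∀ y : E, 1 + Y y ^ (2 * p ^ e) = (1 + Y y ^ (p ^ e)) ^ 2 := by
    intro y
    have h3 : (2 : Ω) = 0 := CharTwo.two_eq_zero
    have h4 : (1 + Y y ^ (p ^ e)) ^ 2 = 1 + Y y ^ (2 * p ^ e) + 2 * Y y ^ (p ^ e) := by
      rw [mul_comm 2, pow_mul]
      ring
    rw [h4, h3]
    ring
  have h3 : ∀ y : E, (1 + Y y ^ (p ^ e)) ^ 2 ≠ 0 := by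
    intro y h4
    have h5 : 1 + Y y ^ (p ^ e) = 0 := by
      rwa [pow_eq_zero_iff two_ne_zero] at h4
    exact hne y ((CharTwo.add_eq_zero.1 h5).symm)
  have h4 : ∑ x : E, c x * Y x ^ (r x) * ∏ y ∈ univ.erase x, (1 + Y y ^ (2 * p ^ e))
      = (∏ y : E, (1 + Y y ^ (p ^ e)) ^ 2)
        * ∑ x : E, c x * (Y x ^ (r x) / (1 + Y x ^ (p ^ e)) ^ 2) := by
    rw [mul_sum]
    refine sum_congr rfl (fun x _ => ?_)
    rw [← Finset.mul_prod_erase univ _ (mem_univ x)]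
    simp only [h2]
    have h6 := h3 x
    generalize (1 + Y x ^ (p ^ e)) ^ 2 = W at h6
    generalize ∏ y ∈ univ.erase x, (1 + Y y ^ (p ^ e)) ^ 2 = V
    rw [mul_div_assoc', mul_div_assoc', eq_div_iff h6]
    ring
  rw [h4, h, mul_zero]

/-- the integer exponents -/
noncomputable def SB_lam {p : ℕ} [Fact p.Prime] (e : ℕ) (E : Finset ℤ_[p]ˣ) (r : E → ℕ)
    (l : ℤ_[p]ˣ → ℤ) (i : E × Finset E) : ℤ :=
  (r i.1 : ℤ) * l (i.1 : ℤ_[p]ˣ) + 2 * (p : ℤ) ^ e * ∑ y ∈ i.2, l (y : ℤ_[p]ˣ)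

open Classical in
/-- the coefficient vector -/
noncomputable def SB_m {p : ℕ} [Fact p.Prime] (e : ℕ) (E : Finset ℤ_[p]ˣ) (r : E → ℕ)
    (i : E × Finset E) (x : ℤ_[p]ˣ) : ℤ :=
  if hx : x ∈ E then (if (⟨x, hx⟩ : E) = i.1 then (r i.1 : ℤ) else 0)
    + (if (⟨x, hx⟩ : E) ∈ i.2 then 2 * (p : ℤ) ^ e else 0) else 0

theorem SB_sum {p : ℕ} [Fact p.Prime] (e : ℕ) (E : Finset ℤ_[p]ˣ) (r : E → ℕ)
    (i : E × Finset E) {R : Type*} [CommRing R] (v : ℤ_[p]ˣ → R) :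
    ∑ x ∈ E, (SB_m e E r i x : R) * v x
      = (r i.1 : R) * v (i.1 : ℤ_[p]ˣ) + 2 * (p : R) ^ e * ∑ y ∈ i.2, v (y : ℤ_[p]ˣ) := by
  classical
  rw [← Finset.sum_coe_sort E (fun x => (SB_m e E r i x : R) * v x)]
  have h1 : ∀ x : E, (SB_m e E r i (x : ℤ_[p]ˣ) : R) * v x
      = (if x = i.1 then (r i.1 : R) * v (x : ℤ_[p]ˣ) else 0)
        + (if x ∈ i.2 then 2 * (p : R) ^ e * v (x : ℤ_[p]ˣ) else 0) := by
    intro x
    unfold SB_m
    rw [dif_pos x.2]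
    simp only [Subtype.coe_eta]
    split_ifs <;> push_cast <;> ring
  rw [sum_congr rfl (fun x _ => h1 x), sum_add_distrib]
  congr 1
  · rw [Finset.sum_ite_eq' univ i.1 (fun x : E => (r i.1 : R) * v (x : ℤ_[p]ˣ)),
      if_pos (mem_univ _)]
  · rw [mul_sum, ← Finset.sum_filter]
    refine sum_congr ?_ (fun _ _ => rfl)
    ext x
    simp

theorem SB_lam_eq {p : ℕ} [Fact p.Prime] (e : ℕ) (E : Finset ℤ_[p]ˣ) (r : E → ℕ)
    (l : ℤ_[p]ˣ → ℤ)
    (hl : ∀ m : ℤ_[p]ˣ → ℤ, ∑ x ∈ E, (m x : ℤ_[p]) * (x : ℤ_[p]) = 0 → ∑ x ∈ E, m x * l x = 0)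
    (i j : E × Finset E) (h : SB_gam e E r i = SB_gam e E r j) :
    SB_lam e E r l i = SB_lam e E r l j := by
  have h1 := hl (fun x => SB_m e E r i x - SB_m e E r j x) (by
    push_cast
    simp only [sub_mul]
    rw [sum_sub_distrib, SB_sum e E r i (fun x => (x : ℤ_[p])),
      SB_sum e E r j (fun x => (x : ℤ_[p]))]
    exact sub_eq_zero.2 h)
  simp only [sub_mul] at h1
  rw [sum_sub_distrib] at h1
  have h2 := SB_sum e E r i l
  have h3 := SB_sum e E r j l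
  simp only [Int.cast_id] at h2 h3
  rw [h2, h3, sub_eq_zero] at h1
  unfold SB_lam
  simpa using h1

theorem SB_T {Ω : Type} [Field Ω] {m : ℤ} (hm : m ≠ 0) :
    (1 : LaurentPolynomial Ω) + LaurentPolynomial.T m ≠ 0 := by
  intro h
  rw [← LaurentPolynomial.T_zero] at h
  have h1 : (LaurentPolynomial.T 0 + LaurentPolynomial.T m : LaurentPolynomial Ω).coeff 0
    = (0 : LaurentPolynomial Ω).coeff 0 := by rw [h]
  simp [hm] at h1

theorem no_relation {p e : ℕ} [Fact p.Prime] (hp2 : p ≠ 2) (he : 1 ≤ e) {E : Finset ℤ_[p]ˣ} (hE : EH p E) :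
    ∃ k0 : ℕ, 2 * e ≤ k0 ∧ ∀ k ≥ k0, ∀ (Ω : Type) [Field Ω] [CharP Ω 2] (z : Ω), IsPrimitiveRoot z (p ^ (k + 1)) →
      ∀ (c : ℤ_[p]ˣ → Ω) (ρ : Ω), c 1 ≠ 0 → ρ ^ (p ^ e) = 1 →
        ¬ ∀ b : ℕ, ∑ x ∈ E, c x * ∑ t ∈ range (p ^ e),
          ρ ^ t * Fr (z ^ ((1 + p ^ e * b) * (1 + p ^ (k + 1 - e) * t) *
            (PadicInt.toZModPow (k + 1) (x : ℤ_[p])).val)) = 0 := by
  classical
  choose K hK using fun r : E → Fin (2 * p ^ e) =>
    grouping (e := e) hp2 (SB_gam e E (fun x => (r x : ℕ)))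
  refine ⟨max (2 * e) (univ.sup K), le_max_left _ _, ?_⟩
  intro k hk Ω _ _ z hz c ρ hc hρ H
  have hk1 : 2 * e ≤ k := (le_max_left _ _).trans hk
  have hk2 : ∀ r, K r ≤ k := fun r =>
    (Finset.le_sup (f := K) (mem_univ r)).trans ((le_max_right _ _).trans hk)
  choose r hr1 hr2 using fun x : ℤ_[p]ˣ => SB_key hp2 he hk1 hz ρ hρ x
  obtain ⟨l, hl1, hl2, hl3⟩ := sep_form hp2 hE
  have hrel : ∀ b : ℕ, ∑ i : E × Finset E, (if i.1 ∈ i.2 then 0 else c i.1)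
      * z ^ ((1 + p ^ e * b) * (PadicInt.toZModPow (k + 1)
        (SB_gam e E (fun x : E => r (x : ℤ_[p]ˣ)) i)).val) = 0 := by
    intro b
    refine SB_rel hz.pow_eq_one (fun x : E => r (x : ℤ_[p]ˣ)) c (1 + p ^ e * b)
      (fun x => (hr2 x b).1) ?_
    have h1 := H b
    rw [← Finset.sum_coe_sort E] at h1
    rw [← h1]
    refine sum_congr rfl (fun x _ => ?_)
    rw [(hr2 x b).2]
  have hgr := hK (fun x : E => ⟨r (x : ℤ_[p]ˣ), hr1 _⟩) k (hk2 _) Ω z hz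
    (fun i : E × Finset E => if i.1 ∈ i.2 then 0 else c i.1) hrel
  obtain ⟨Λ, hΛ⟩ : ∃ Λ : E × Finset E → ℤ, Λ = SB_lam e E (fun x : E => r (x : ℤ_[p]ˣ)) l :=
    ⟨_, rfl⟩
  have hsum : ∑ i : E × Finset E, LaurentPolynomial.C (if i.1 ∈ i.2 then 0 else c i.1)
      * LaurentPolynomial.T (Λ i) = 0 := by
    rw [← Finset.sum_fiberwise_of_maps_to (s := univ)
      (t := univ.image (SB_gam e E (fun x : E => r (x : ℤ_[p]ˣ))))
      (g := SB_gam e E (fun x : E => r (x : ℤ_[p]ˣ)))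
      (fun i _ => mem_image_of_mem _ (mem_univ i))]
    refine sum_eq_zero (fun g hg => ?_)
    obtain ⟨i0, _, rfl⟩ := mem_image.1 hg
    have h1 := hgr i0
    have h2 : ∀ i ∈ univ.filter (fun i => SB_gam e E (fun x : E => r (x : ℤ_[p]ˣ)) i
        = SB_gam e E (fun x : E => r (x : ℤ_[p]ˣ)) i0),
        LaurentPolynomial.C (if i.1 ∈ i.2 then 0 else c i.1) * LaurentPolynomial.T (Λ i)
        = LaurentPolynomial.C (if i.1 ∈ i.2 then 0 else c i.1) * LaurentPolynomial.T (Λ i0) := by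
      intro i hi
      rw [mem_filter] at hi
      have h3 : Λ i = Λ i0 := by
        rw [hΛ]
        exact SB_lam_eq e E _ l hl3 i i0 hi.2
      rw [h3]
    rw [sum_congr rfl h2, ← sum_mul, ← map_sum]
    have h4 : ∑ i ∈ univ.filter (fun i => SB_gam e E (fun x : E => r (x : ℤ_[p]ˣ)) i
        = SB_gam e E (fun x : E => r (x : ℤ_[p]ˣ)) i0), (if i.1 ∈ i.2 then 0 else c i.1) = 0 := h1
    rw [h4, map_zero, zero_mul]
  have hT : ∀ i : E × Finset E, LaurentPolynomial.C (if i.1 ∈ i.2 then 0 else c i.1)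
      * LaurentPolynomial.T (Λ i)
      = if i.1 ∈ i.2 then 0 else (LaurentPolynomial.C (c i.1)
          * LaurentPolynomial.T ((r i.1 : ℤ) * l i.1))
        * ∏ y ∈ i.2, LaurentPolynomial.T (2 * (p : ℤ) ^ e * l y) := by
    intro i
    have h1 : (LaurentPolynomial.T (Λ i) : LaurentPolynomial Ω)
        = LaurentPolynomial.T ((r i.1 : ℤ) * l i.1)
          * ∏ y ∈ i.2, LaurentPolynomial.T (2 * (p : ℤ) ^ e * l y) := by
      have h2 : ∀ S : Finset E, (∏ y ∈ S, LaurentPolynomial.T (2 * (p : ℤ) ^ e * l y)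
          : LaurentPolynomial Ω) = LaurentPolynomial.T (2 * (p : ℤ) ^ e * ∑ y ∈ S, l y) := by
        intro S
        induction S using Finset.induction_on with
        | empty => simp
        | insert a S ha ih =>
          rw [prod_insert ha, sum_insert ha, ih, mul_add, LaurentPolynomial.T_add]
      rw [h2, ← LaurentPolynomial.T_add, hΛ]
      rfl
    split_ifs
    · rw [map_zero, zero_mul]
    · rw [h1, mul_assoc]
  rw [sum_congr rfl (fun i _ => hT i), SB_prod (R := LaurentPolynomial Ω)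
    (fun x : E => LaurentPolynomial.C (c x) * LaurentPolynomial.T ((r x : ℤ) * l x))
    (fun y : E => LaurentPolynomial.T (2 * (p : ℤ) ^ e * l y))] at hsum
  obtain ⟨u, hu⟩ : ∃ u : E, (u : ℤ_[p]ˣ) = 1 := ⟨⟨1, hE.one⟩, rfl⟩
  have h2z : (1 : LaurentPolynomial Ω) + 1 = 0 := by
    have h1 : (1 : Ω) + 1 = 0 := CharTwo.add_self_eq_zero 1
    have h2 := congrArg (LaurentPolynomial.C : Ω →+* LaurentPolynomial Ω) h1
    simpa using h2
  rw [Finset.sum_eq_single u] at hsum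
  · have hp := Fact.out (p := p.Prime)
    rcases mul_eq_zero.1 hsum with h1 | h1
    · rcases mul_eq_zero.1 h1 with h2 | h2
      · rw [hu] at h2
        apply hc
        have h3 : (LaurentPolynomial.C : Ω →+* LaurentPolynomial Ω) (c 1) = 0 := h2
        exact (map_eq_zero _).1 h3
      · exact (LaurentPolynomial.isUnit_T (R := Ω) _).ne_zero h2
    · rw [Finset.prod_eq_zero_iff] at h1
      obtain ⟨y, hy, h2⟩ := h1
      rw [mem_erase] at hy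
      refine SB_T ?_ h2
      have h3 : l y ≠ 0 := hl2 y y.2 (fun h4 => hy.1 (Subtype.ext (h4.trans hu.symm)))
      have h4 : (p : ℤ) ^ e ≠ 0 := pow_ne_zero _ (by exact_mod_cast hp.ne_zero)
      exact mul_ne_zero (mul_ne_zero two_ne_zero h4) h3
  · intro x _ hx
    have h1 : ∏ y ∈ univ.erase x, ((1 : LaurentPolynomial Ω)
        + LaurentPolynomial.T (2 * (p : ℤ) ^ e * l y)) = 0 := by
      refine Finset.prod_eq_zero (i := u) (mem_erase.2 ⟨fun h => hx h.symm, mem_univ _⟩) ?_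
      rw [hu, hl1, mul_zero, LaurentPolynomial.T_zero, h2z]
    rw [h1, mul_zero]
  · intro h
    exact absurd (mem_univ _) h

end H5SW
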