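import Pool.Agent.H5.SW.Gn

/-!
ROW U1 (units of relative norm one).  PROOF.  `G = L ≃ₐ[ℚ] L`, `N = Gal(L/K)`, `M = {θ : G → ℤ | Rel K L θ}`, `B = {β ∈ (𝓞 L)ˣ : N_{L/K} β = 1}`.
(1) `pw : M → B`: `N_{L/K}(pw θ) = ∏_{h ∈ N} h (pw θ) = ∏_g (e g)^(∑_{h ∈ N} θ(g h⁻¹)) = 1` (`Algebra.norm_eq_prod_automorphisms`, `RC.apply_e`).
(2) If `pw θ = β^2` or `pw θ = -β^2`... only squares are needed: if `pw θ` is a square in `(𝓞 L)ˣ`, then `θ` is even: for all `g`, `φ(g (pw θ)) > 0`, and the sign of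
    `φ (g (pw θ)) = ∏_x φ(e (g x))^(θ x)` is `(-1)^(∑_x θ x sg (g x))`; so `HS` applies.
(3) `pw` is injective on `M`: if `pw θ = 1`, `θ ≠ 0`, by (2) `θ = 2 θ'`, `θ' ∈ M`, `(pw θ')^2 = 1`, `pw θ' = ± 1`, and `pw θ' = -1` is impossible because `N_{L/K}(-1) = (-1)^(p^(n-m)) = -1 ≠ 1`;
    so `pw θ' = 1`; descend (`∑ |θ|` decreases).
(4) ranks: `M` is free of rank `|G| - |G/N|` (it is the kernel of the surjection-up-to-finite-index `ℤ^G → ℤ^(G/N)`), `(𝓞 L)ˣ` has rank `[L:ℚ] - 1 = |G| - 1`, `(𝓞 K)ˣ` has rank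
    `[K:ℚ] - 1 = |G/N| - 1` (totally real; `RC.real`, `NumberField.Units.rank`), and the norm `(𝓞 L)ˣ → (𝓞 K)ˣ` has image of finite index (it contains the `p^(n-m)`-th powers of
    `(𝓞 K)ˣ`), so `B` has rank `|G| - |G/N|`, the same as `M`, hence for every `β ∈ B` there are `l ≥ 1`, `θ ∈ M` with `β^l = pw θ` (`B` may have no torsion: `-1 ∉ B`; if `β` were
    independent of the image of `pw` the rank of `B` would be larger).
    [Concrete version avoiding ranks of subgroups: tensor with `ℚ`, or use logarithms: `dim_ℚ (𝓞 L)ˣ ⊗ ℚ = |G|-1` etc.; `Module.finrank` of `Additive ((𝓞 L)ˣ ⧸ torsion)`.]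
(5) Given `ε ∈ B`, take `l ≥ 1` minimal with `ε^l = pw θ`, `θ ∈ M`. If `l` is even, `pw θ` is the square of `ε^(l/2)`, so `θ = 2 θ'` by (2), `(ε^(l/2) (pw θ')⁻¹)^2 = 1`, so
    `ε^(l/2) = ± pw θ'`, and `-` is excluded by norms as in (3). Contradiction with minimality. So `l` is odd.
-/

set_option autoImplicit false

namespace H5SW

open NumberField

variable {p m n : ℕ} {K L : Type} [Field K] [NumberField K] [Field L] [NumberField L] [Algebra K L]

/-- the conclusion of `even_of_signs` -/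
def HSigns (r : RP p m n K L) : Prop := ∀ θ : (L ≃ₐ[ℚ] L) → ℤ, Rel K L θ →
  (∀ g, Even (∑ x : L ≃ₐ[ℚ] L, θ x * r.rL.sg (g * x))) → ∀ g, Even (θ g)

theorem U1_rank {A B : Type} [AddCommGroup A] [AddCommGroup B] [Module.Finite ℤ A] [Module.Finite ℤ B]
    (Φ : A →ₗ[ℤ] B) (hker : Function.Injective Φ)
    (hrank : Module.finrank ℤ B ≤ Module.finrank ℤ A) (b : B) :
    ∃ n : ℤ, n ≠ 0 ∧ ∃ a, n • b = Φ a := by
  have h1 := Submodule.finrank_quotient_add_finrank (R := ℤ) (LinearMap.range Φ)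
  have h2 : Module.finrank ℤ (LinearMap.range Φ) = Module.finrank ℤ A :=
    (LinearEquiv.ofInjective Φ hker).finrank_eq.symm
  have h3 : Module.finrank ℤ (B ⧸ LinearMap.range Φ) = 0 := by omega
  rw [Module.finrank_eq_zero_iff_isTorsion] at h3
  obtain ⟨n, hn⟩ := @h3 (Submodule.Quotient.mk b)
  refine ⟨(n : ℤ), nonZeroDivisors.coe_ne_zero n, ?_⟩
  have h4 : (Submodule.Quotient.mk ((n : ℤ) • b) : B ⧸ LinearMap.range Φ) = 0 := hn
  rw [Submodule.Quotient.mk_eq_zero] at h4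
  obtain ⟨a, ha⟩ := h4
  exact ⟨a, ha.symm⟩

theorem U1_range {A B : Type} [AddCommGroup A] [AddCommGroup B] [Module.Finite ℤ A] [Module.Finite ℤ B]
    (ν : A →ₗ[ℤ] B) (n : ℤ) (hn : n ≠ 0) (h : ∀ b, n • b ∈ LinearMap.range ν) :
    Module.finrank ℤ A = Module.finrank ℤ B + Module.finrank ℤ (LinearMap.ker ν) := by
  have h1 := Submodule.finrank_quotient_add_finrank (R := ℤ) (LinearMap.range ν)
  have h2 := Submodule.finrank_quotient_add_finrank (R := ℤ) (LinearMap.ker ν)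
  have h3 : Module.finrank ℤ (A ⧸ LinearMap.ker ν) = Module.finrank ℤ (LinearMap.range ν) :=
    ν.quotKerEquivRange.finrank_eq
  have h4 : Module.finrank ℤ (B ⧸ LinearMap.range ν) = 0 := by
    rw [Module.finrank_eq_zero_iff_isTorsion]
    intro x
    obtain ⟨b, rfl⟩ := Submodule.Quotient.mk_surjective _ x
    refine ⟨⟨n, mem_nonZeroDivisors_of_ne_zero hn⟩, ?_⟩
    have h5 : (Submodule.Quotient.mk (n • b) : B ⧸ LinearMap.range ν) = 0 := by
      rw [Submodule.Quotient.mk_eq_zero]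
      exact h b
    exact h5
  omega

section

variable {f : ℕ} (r : RC f L)

theorem U1_pw_zero : r.pw 0 = 1 := by
  unfold RC.pw
  simp

theorem U1_pw_add (θ η : (L ≃ₐ[ℚ] L) → ℤ) : r.pw (θ + η) = r.pw θ * r.pw η := by
  unfold RC.pw
  rw [← Finset.prod_mul_distrib]
  refine Finset.prod_congr rfl fun g _ => ?_
  rw [Pi.add_apply, zpow_add]

/-- `pw` as a homomorphism -/
noncomputable def U1_hom : ((L ≃ₐ[ℚ] L) → ℤ) →+ Additive (𝓞 L)ˣ where
  toFun θ := Additive.ofMul (r.pw θ)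
  map_zero' := by rw [U1_pw_zero]; rfl
  map_add' θ η := by rw [U1_pw_add]; rfl

theorem U1_pw_neg (θ : (L ≃ₐ[ℚ] L) → ℤ) : r.pw (-θ) = (r.pw θ)⁻¹ := by
  have h := (U1_hom r).map_neg θ
  exact congrArg Additive.toMul h

theorem U1_pw_two (θ : (L ≃ₐ[ℚ] L) → ℤ) : r.pw (fun g => 2 * θ g) = r.pw θ ^ 2 := by
  have h : (fun g => 2 * θ g) = θ + θ := by
    funext g
    rw [Pi.add_apply, two_mul]
  rw [h, U1_pw_add, pow_two]

theorem U1_coe (θ : (L ≃ₐ[ℚ] L) → ℤ) :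
    ((r.pw θ : 𝓞 L) : L) = ∏ g, ((r.e g : 𝓞 L) : L) ^ θ g := by
  have h : ∀ u : (𝓞 L)ˣ, ((u : 𝓞 L) : L) =
      ((Units.map (algebraMap (𝓞 L) L : 𝓞 L →* L) u : Lˣ) : L) := fun _ => rfl
  rw [h, RC.pw, map_prod, Units.coe_prod]
  refine Finset.prod_congr rfl fun g _ => ?_
  rw [map_zpow, Units.val_zpow_eq_zpow_val, ← h]

theorem U1_ne (u : (𝓞 L)ˣ) : ((u : 𝓞 L) : L) ≠ 0 := by
  intro h
  exact u.ne_zero (RingOfIntegers.coe_eq_zero_iff.1 h)

end

/-- the sign of a product -/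
theorem U1_sign {ι : Type} [Fintype ι] (x : ι → ℝ) (hx : ∀ i, x i ≠ 0) (θ s : ι → ℤ)
    (hs : ∀ i, (x i < 0 → s i = 1) ∧ (0 < x i → s i = 0)) (h : 0 < ∏ i, x i ^ θ i) :
    Even (∑ i, θ i * s i) := by
  by_contra hne
  rw [Int.not_even_iff_odd] at hne
  have h1 : ∀ i, x i ^ θ i = (-1) ^ (θ i * s i) * |x i| ^ θ i := by
    intro i
    rcases lt_or_gt_of_ne (hx i) with hi | hi
    · rw [(hs i).1 hi, mul_one, abs_of_neg hi, ← mul_zpow, neg_one_mul, neg_neg]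
    · rw [(hs i).2 hi, mul_zero, zpow_zero, one_mul, abs_of_pos hi]
  have h2 : ∏ i, x i ^ θ i = (-1) ^ (∑ i, θ i * s i) * ∏ i, |x i| ^ θ i := by
    rw [Finset.prod_congr rfl fun i _ => h1 i, Finset.prod_mul_distrib]
    congr 1
    have : ∀ S : Finset ι, ∏ i ∈ S, (-1 : ℝ) ^ (θ i * s i) = (-1) ^ (∑ i ∈ S, θ i * s i) := by
      classical
      intro S
      induction S using Finset.induction_on with
      | empty => simp
      | insert a S ha ih =>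
        rw [Finset.prod_insert ha, Finset.sum_insert ha, ih, zpow_add₀ (by norm_num)]
    exact this _
  rw [h2, hne.neg_one_zpow] at h
  have h3 : 0 < ∏ i, |x i| ^ θ i :=
    Finset.prod_pos fun i _ => zpow_pos (abs_pos.2 (hx i)) _
  linarith

theorem U1_signs (r : RP p m n K L) (θ : (L ≃ₐ[ℚ] L) → ℤ)
    (h : ∀ φ : L →+* ℝ, 0 < φ ((r.rL.pw θ : 𝓞 L) : L)) (g : L ≃ₐ[ℚ] L) :
    Even (∑ x : L ≃ₐ[ℚ] L, θ x * r.rL.sg (g * x)) := by
  classical
  have h1 := h (r.rL.φ.comp (g : L →+* L))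
  have h2 : (r.rL.φ.comp (g : L →+* L)) ((r.rL.pw θ : 𝓞 L) : L) =
      ∏ x, r.rL.φ ((r.rL.e (g * x) : 𝓞 L) : L) ^ θ x := by
    rw [U1_coe, map_prod]
    refine Finset.prod_congr rfl fun x _ => ?_
    rw [map_zpow₀, ← r.rL.apply_e]
    rfl
  rw [h2] at h1
  refine U1_sign (fun x => r.rL.φ ((r.rL.e (g * x) : 𝓞 L) : L)) ?_ θ _ ?_ h1
  · intro i
    rw [map_ne_zero]
    exact U1_ne _
  · intro i
    unfold RC.sg
    constructor
    · intro hi
      rw [if_pos hi]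
    · intro hi
      rw [if_neg (not_lt.2 hi.le)]

theorem U1_norm_pw (r : RP p m n K L) {θ : (L ≃ₐ[ℚ] L) → ℤ} (hθ : Rel K L θ) :
    Algebra.norm K ((r.rL.pw θ : 𝓞 L) : L) = 1 := by
  have hG := r.isGalois
  apply (algebraMap K L).injective
  rw [Algebra.norm_eq_prod_automorphisms, map_one]
  have h1 : ∀ h : L ≃ₐ[K] L, h ((r.rL.pw θ : 𝓞 L) : L) =
      ∏ g, ((r.rL.e g : 𝓞 L) : L) ^ θ ((h.restrictScalars ℚ)⁻¹ * g) := by
    intro h
    rw [U1_coe, map_prod]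
    rw [← Equiv.prod_comp (Equiv.mulLeft (h.restrictScalars ℚ))
      (fun g => ((r.rL.e g : 𝓞 L) : L) ^ θ ((h.restrictScalars ℚ)⁻¹ * g))]
    refine Finset.prod_congr rfl fun g _ => ?_
    rw [map_zpow₀, Equiv.coe_mulLeft, inv_mul_cancel_left, ← r.rL.apply_e]
    rfl
  rw [Finset.prod_congr rfl fun h _ => h1 h, Finset.prod_comm]
  refine Finset.prod_eq_one fun g _ => ?_
  have h2 : ∀ S : Finset (L ≃ₐ[K] L),
      ∏ h ∈ S, ((r.rL.e g : 𝓞 L) : L) ^ θ ((h.restrictScalars ℚ)⁻¹ * g) =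
      ((r.rL.e g : 𝓞 L) : L) ^ (∑ h ∈ S, θ ((h.restrictScalars ℚ)⁻¹ * g)) := by
    classical
    intro S
    induction S using Finset.induction_on with
    | empty => simp
    | insert a S ha ih => rw [Finset.prod_insert ha, Finset.sum_insert ha, ih, zpow_add₀ (U1_ne _)]
  rw [h2]
  have h3 : ∑ h : L ≃ₐ[K] L, θ ((h.restrictScalars ℚ)⁻¹ * g) = 0 := by
    rw [← hθ g, ← Equiv.sum_comp (Equiv.inv (L ≃ₐ[K] L))
      (fun h : L ≃ₐ[K] L => θ (g * h.restrictScalars ℚ))]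
    refine Finset.sum_congr rfl fun h _ => ?_
    rw [r.rL.gal_comm]
    rfl
  rw [h3, zpow_zero]

theorem U1_norm_neg_one [Fact p.Prime] (hp2 : p ≠ 2) (r : RP p m n K L) :
    Algebra.norm K (-1 : L) = -1 := by
  have h1 : (-1 : L) = algebraMap K L (-1) := by rw [map_neg, map_one]
  rw [h1, Algebra.norm_algebraMap, r.finrank hp2]
  have hp : Odd p := (Fact.out : p.Prime).odd_of_ne_two hp2
  rw [(hp.pow).neg_one_pow]

/-- a unit of relative norm one whose square is one is one -/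
theorem U1_sq_one [Fact p.Prime] (hp2 : p ≠ 2) (r : RP p m n K L) {u : (𝓞 L)ˣ} (h : u ^ 2 = 1)
    (hN : Algebra.norm K ((u : 𝓞 L) : L) = 1) : u = 1 := by
  have h1 : ((u : 𝓞 L) : L) ^ 2 = 1 := by
    have := congrArg (fun v : (𝓞 L)ˣ => ((v : 𝓞 L) : L)) h
    simpa using this
  rcases sq_eq_one_iff.1 h1 with h2 | h2
  · apply Units.ext
    apply RingOfIntegers.coe_injective
    have h3 : (algebraMap (𝓞 L) L) ((1 : (𝓞 L)ˣ) : 𝓞 L) = 1 := by simp
    exact h2.trans h3.symm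
  · exfalso
    rw [h2, U1_norm_neg_one hp2 r] at hN
    have h3 : (2 : K) = 0 := by linear_combination -hN
    exact two_ne_zero h3

theorem U1_norm_mul (u v : (𝓞 L)ˣ) : Algebra.norm K (((u * v : (𝓞 L)ˣ) : 𝓞 L) : L) =
    Algebra.norm K ((u : 𝓞 L) : L) * Algebra.norm K ((v : 𝓞 L) : L) := by
  rw [← map_mul, ← map_mul, ← Units.val_mul]

theorem U1_norm_pow (u : (𝓞 L)ˣ) (k : ℕ) : Algebra.norm K (((u ^ k : (𝓞 L)ˣ) : 𝓞 L) : L) =
    Algebra.norm K ((u : 𝓞 L) : L) ^ k := by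
  rw [← map_pow, ← map_pow, ← Units.val_pow_eq_pow_val]

/-- squares have even exponents -/
theorem U1_even [Fact p.Prime] (hp2 : p ≠ 2) (r : RP p m n K L) (HS : HSigns r)
    {θ : (L ≃ₐ[ℚ] L) → ℤ} (hθ : Rel K L θ) {u : (𝓞 L)ˣ} (h : r.rL.pw θ = u ^ 2)
    (hN : Algebra.norm K ((u : 𝓞 L) : L) = 1) :
    ∃ θ' : (L ≃ₐ[ℚ] L) → ℤ, Rel K L θ' ∧ (∀ g, θ g = 2 * θ' g) ∧ u = r.rL.pw θ' := by
  have h1 : ∀ g, Even (θ g) := by
    refine HS θ hθ (U1_signs r θ ?_)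
    intro φ
    rw [h]
    have h2 : ((((u ^ 2 : (𝓞 L)ˣ) : 𝓞 L)) : L) = ((u : 𝓞 L) : L) ^ 2 := by
      rw [← map_pow, ← Units.val_pow_eq_pow_val]
    rw [h2, map_pow]
    have h3 : φ ((u : 𝓞 L) : L) ≠ 0 := by
      rw [map_ne_zero]
      exact U1_ne u
    positivity
  choose θ' hθ' using fun g => (h1 g).two_dvd
  have h4 : Rel K L θ' := by
    intro g
    have h5 := hθ g
    rw [Finset.sum_congr rfl fun h _ => hθ' (g * h.restrictScalars ℚ), ← Finset.mul_sum] at h5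
    omega
  refine ⟨θ', h4, hθ', ?_⟩
  have h6 : r.rL.pw θ = r.rL.pw θ' ^ 2 := by
    rw [← U1_pw_two]
    congr 1
    funext g
    exact hθ' g
  have h7 : (u * r.rL.pw (-θ')) ^ 2 = 1 := by
    rw [mul_pow, ← h, h6, U1_pw_neg, inv_pow, mul_inv_cancel]
  have hneg : Rel K L (-θ') := by
    intro g
    simp only [Pi.neg_apply, Finset.sum_neg_distrib]
    rw [h4 g, neg_zero]
  have h8 := U1_sq_one hp2 r h7 (by rw [U1_norm_mul, hN, U1_norm_pw r hneg, mul_one])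
  rw [U1_pw_neg, mul_inv_eq_one] at h8
  exact h8

theorem U1_inj [Fact p.Prime] (hp2 : p ≠ 2) (r : RP p m n K L) (HS : HSigns r) (k : ℕ) :
    ∀ θ : (L ≃ₐ[ℚ] L) → ℤ, Rel K L θ → r.rL.pw θ = 1 → ∀ g, (2 : ℤ) ^ k ∣ θ g := by
  induction k with
  | zero => intro θ _ _ g; simp
  | succ k ih =>
    intro θ hθ h g
    obtain ⟨θ', h1, h2, h3⟩ := U1_even hp2 r HS hθ (u := 1) (by rw [h, one_pow]) (by simp)
    rw [h2, pow_succ, mul_comm]
    exact mul_dvd_mul_left 2 (ih θ' h1 h3.symm g)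

theorem U1_zero [Fact p.Prime] (hp2 : p ≠ 2) (r : RP p m n K L) (HS : HSigns r)
    {θ : (L ≃ₐ[ℚ] L) → ℤ} (hθ : Rel K L θ) (h : r.rL.pw θ = 1) : θ = 0 := by
  funext g
  have h1 := U1_inj hp2 r HS (θ g).natAbs θ hθ h g
  refine Int.eq_zero_of_abs_lt_dvd h1 ?_
  rw [Int.abs_eq_natAbs]
  exact_mod_cast Nat.lt_two_pow_self

/-- the relations as a submodule -/
def U1_M (K L : Type) [Field K] [NumberField K] [Field L] [NumberField L] [Algebra K L] :
    Submodule ℤ ((L ≃ₐ[ℚ] L) → ℤ) where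
  carrier := {θ | Rel K L θ}
  zero_mem' := by intro g; simp
  add_mem' := by
    intro a b ha hb g
    simp only [Pi.add_apply, Finset.sum_add_distrib]
    rw [ha g, hb g, add_zero]
  smul_mem' := by
    intro c a ha g
    simp only [Pi.smul_apply, smul_eq_mul, ← Finset.mul_sum]
    rw [ha g, mul_zero]

/-- sums over cosets -/
noncomputable def U1_S (K L : Type) [Field K] [NumberField K] [Field L] [NumberField L] [Algebra K L] :
    ((L ≃ₐ[ℚ] L) → ℤ) →ₗ[ℤ] ((L ≃ₐ[ℚ] L) → ℤ) where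
  toFun θ g := ∑ h : L ≃ₐ[K] L, θ (g * h.restrictScalars ℚ)
  map_add' a b := by
    funext g
    simp only [Pi.add_apply, Finset.sum_add_distrib]
  map_smul' c a := by
    funext g
    simp only [Pi.smul_apply, smul_eq_mul, ← Finset.mul_sum, RingHom.id_apply]

theorem U1_ker : LinearMap.ker (U1_S K L) = U1_M K L := by
  ext θ
  rw [LinearMap.mem_ker]
  constructor
  · intro h g
    exact congrFun h g
  · intro h
    funext g
    exact h g

theorem U1_rankM (r : RP p m n K L) :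
    Module.finrank ℚ L ≤ Module.finrank ℚ K + Module.finrank ℤ (U1_M K L) := by
  classical
  have hG := r.isGalois
  have hGL : IsGalois ℚ L := r.rL.gal
  have h1 := Submodule.finrank_quotient_add_finrank (R := ℤ) (LinearMap.ker (U1_S K L))
  have h2 : Module.finrank ℤ (((L ≃ₐ[ℚ] L) → ℤ) ⧸ LinearMap.ker (U1_S K L)) =
      Module.finrank ℤ (LinearMap.range (U1_S K L)) := (U1_S K L).quotKerEquivRange.finrank_eq
  have h3 : Module.finrank ℤ ((L ≃ₐ[ℚ] L) → ℤ) = Module.finrank ℚ L := by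
    rw [Module.finrank_pi, ← Nat.card_eq_fintype_card]
    exact IsGalois.card_aut_eq_finrank ℚ L
  let N : Subgroup (L ≃ₐ[ℚ] L) := (AlgEquiv.restrictScalarsHom (A := L) (S := K) ℚ).range
  have h4 : Nat.card N = Module.finrank K L := by
    rw [← IsGalois.card_aut_eq_finrank K L]
    exact Nat.card_congr (Equiv.ofInjective _ (AlgEquiv.restrictScalarsHom_injective ℚ)).symm
  have h5 : Nat.card ((L ≃ₐ[ℚ] L) ⧸ N) = Module.finrank ℚ K := by
    have h6 := Subgroup.card_eq_card_quotient_mul_card_subgroup N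
    rw [h4, IsGalois.card_aut_eq_finrank ℚ L, ← Module.finrank_mul_finrank ℚ K L] at h6
    exact (Nat.eq_of_mul_eq_mul_right Module.finrank_pos h6).symm
  have h7 : LinearMap.range (U1_S K L) ≤
      LinearMap.range (LinearMap.funLeft ℤ ℤ (QuotientGroup.mk : (L ≃ₐ[ℚ] L) → (L ≃ₐ[ℚ] L) ⧸ N)) := by
    rintro _ ⟨θ, rfl⟩
    refine ⟨fun q => U1_S K L θ q.out, ?_⟩
    funext g
    rw [LinearMap.funLeft_apply]
    have h8 : ((QuotientGroup.mk g : (L ≃ₐ[ℚ] L) ⧸ N).out)⁻¹ * g ∈ N := by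
      rw [← QuotientGroup.eq, QuotientGroup.out_eq']
    obtain ⟨k, hk⟩ := h8
    have h9 : g = (QuotientGroup.mk g : (L ≃ₐ[ℚ] L) ⧸ N).out * k.restrictScalars ℚ := by
      rw [eq_inv_mul_iff_mul_eq] at hk
      exact hk.symm
    generalize (QuotientGroup.mk g : (L ≃ₐ[ℚ] L) ⧸ N).out = g' at h9
    subst h9
    show ∑ h : L ≃ₐ[K] L, θ (g' * h.restrictScalars ℚ) =
      ∑ h : L ≃ₐ[K] L, θ (g' * k.restrictScalars ℚ * h.restrictScalars ℚ)
    rw [← Equiv.sum_comp (Equiv.mulLeft k)]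
    rfl
  have h10 := Submodule.finrank_mono h7
  have h11 : Module.finrank ℤ (LinearMap.range
      (LinearMap.funLeft ℤ ℤ (QuotientGroup.mk : (L ≃ₐ[ℚ] L) → (L ≃ₐ[ℚ] L) ⧸ N))) ≤
      Module.finrank ℚ K := by
    refine (LinearMap.finrank_range_le _).trans ?_
    rw [Module.finrank_pi, ← Nat.card_eq_fintype_card, h5]
  rw [U1_ker] at h1 h2
  omega

theorem U1_rankU (F : Type) [Field F] [NumberField F] (h : IsTotallyReal F) :
    Module.finrank ℤ (Additive (𝓞 F)ˣ) + 1 = Module.finrank ℚ F := by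
  rw [NumberField.Units.finrank_eq, NumberField.Units.rank, IsTotallyReal.finrank,
    InfinitePlace.card_eq_nrRealPlaces_add_nrComplexPlaces, IsTotallyReal.nrComplexPlaces_eq_zero,
    add_zero]
  have : 0 < InfinitePlace.nrRealPlaces F := by
    rw [← IsTotallyReal.finrank]
    exact Module.finrank_pos
  omega

/-- the norm on units -/
noncomputable def U1_nu (K L : Type) [Field K] [NumberField K] [Field L] [NumberField L] [Algebra K L] :
    Additive (𝓞 L)ˣ →ₗ[ℤ] Additive (𝓞 K)ˣ :=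
  (MonoidHom.toAdditive (Units.map (RingOfIntegers.norm K : 𝓞 L →* 𝓞 K))).toIntLinearMap

theorem U1_mem (u : (𝓞 L)ˣ) :
    Additive.ofMul u ∈ LinearMap.ker (U1_nu K L) ↔ Algebra.norm K ((u : 𝓞 L) : L) = 1 := by
  rw [LinearMap.mem_ker]
  have h1 : U1_nu K L (Additive.ofMul u) =
      Additive.ofMul (Units.map (RingOfIntegers.norm K : 𝓞 L →* 𝓞 K) u) := rfl
  rw [h1, ofMul_eq_zero, Units.ext_iff, ← RingOfIntegers.coe_injective.eq_iff]
  have h2 : (algebraMap (𝓞 K) K) ((Units.map (RingOfIntegers.norm K : 𝓞 L →* 𝓞 K) u : (𝓞 K)ˣ) : 𝓞 K) =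
      Algebra.norm K ((u : 𝓞 L) : L) := rfl
  have h3 : (algebraMap (𝓞 K) K) ((1 : (𝓞 K)ˣ) : 𝓞 K) = 1 := by simp
  constructor
  · intro h
    exact h2.symm.trans (h.trans h3)
  · intro h
    exact h2.trans (h.trans h3.symm)

theorem unit_odd_power [Fact p.Prime] (hp2 : p ≠ 2) (r : RP p m n K L) (HS : HSigns r) (ε : (𝓞 L)ˣ)
    (hε : Algebra.norm K ((ε : 𝓞 L) : L) = 1) :
    ∃ j : ℕ, Odd j ∧ ∃ θ : (L ≃ₐ[ℚ] L) → ℤ, Rel K L θ ∧ ε ^ j = r.rL.pw θ := by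
  classical
  have hG := r.isGalois
  have hL := U1_rankU L r.rL.real
  have hK := U1_rankU K r.rK.real
  have hM := U1_rankM r
  have hB := U1_range (U1_nu K L) (Module.finrank K L : ℤ)
    (by exact_mod_cast (Module.finrank_pos (R := K) (M := L)).ne') (by
      intro b
      refine ⟨Additive.ofMul (Units.map (algebraMap (𝓞 K) (𝓞 L) : 𝓞 K →* 𝓞 L) b.toMul), ?_⟩
      have h1 : U1_nu K L (Additive.ofMul
          (Units.map (algebraMap (𝓞 K) (𝓞 L) : 𝓞 K →* 𝓞 L) b.toMul)) =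
          Additive.ofMul (b.toMul ^ Module.finrank K L) := by
        apply congrArg Additive.ofMul
        apply Units.ext
        exact RingOfIntegers.norm_algebraMap K _
      rw [h1, ofMul_pow, natCast_zsmul]
      rfl)
  let Φ : U1_M K L →ₗ[ℤ] LinearMap.ker (U1_nu K L) :=
    LinearMap.codRestrict _ ((U1_hom r.rL).toIntLinearMap.comp (U1_M K L).subtype)
      (fun θ => (U1_mem _).2 (U1_norm_pw r θ.2))
  have hΦ : ∀ θ : U1_M K L, ((Φ θ : LinearMap.ker (U1_nu K L)) : Additive (𝓞 L)ˣ) =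
      Additive.ofMul (r.rL.pw θ.1) := fun θ => rfl
  have hinj : Function.Injective Φ := by
    rw [← LinearMap.ker_eq_bot, LinearMap.ker_eq_bot']
    intro θ hθ
    have h1 := hΦ θ
    rw [hθ] at h1
    have h2 : r.rL.pw θ.1 = 1 := by
      have := congrArg Additive.toMul h1
      exact this.symm
    exact Subtype.ext (U1_zero hp2 r HS θ.2 h2)
  obtain ⟨k, hk, θ, hθ⟩ := U1_rank Φ hinj (by omega) ⟨Additive.ofMul ε, (U1_mem ε).2 hε⟩
  have h1 : ε ^ k = r.rL.pw θ.1 := by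
    have h2 := congrArg (fun x : LinearMap.ker (U1_nu K L) => Additive.toMul (x : Additive (𝓞 L)ˣ)) hθ
    exact h2
  -- a positive exponent
  have hex : ∃ l : ℕ, 0 < l ∧ ∃ θ : (L ≃ₐ[ℚ] L) → ℤ, Rel K L θ ∧ ε ^ l = r.rL.pw θ := by
    rcases lt_or_gt_of_ne hk with h3 | h3
    · refine ⟨k.natAbs, by omega, -θ.1, (U1_M K L).neg_mem θ.2, ?_⟩
      rw [U1_pw_neg, ← h1, ← zpow_natCast, ← zpow_neg]
      congr 1
      omega
    · refine ⟨k.natAbs, by omega, θ.1, θ.2, ?_⟩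
      rw [← h1, ← zpow_natCast]
      congr 1
      omega
  obtain ⟨hl0, θ0, hθ0, hl1⟩ := Nat.find_spec hex
  refine ⟨Nat.find hex, ?_, θ0, hθ0, hl1⟩
  by_contra hne
  rw [Nat.not_odd_iff_even] at hne
  obtain ⟨q, hq⟩ := hne
  rw [hq, ← two_mul, mul_comm, pow_mul] at hl1
  obtain ⟨θ', h5, -, h6⟩ := U1_even hp2 r HS hθ0 hl1.symm (by rw [U1_norm_pow, hε, one_pow])
  exact Nat.find_min hex (m := q) (by omega) ⟨by omega, θ', h5, h6⟩

/-- an element of the image of `Rel` that is totally positive has even exponents (used also in U2) -/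
theorem signs_of_pos (r : RP p m n K L) (θ : (L ≃ₐ[ℚ] L) → ℤ)
    (h : ∀ φ : L →+* ℝ, 0 < φ ((r.rL.pw θ : 𝓞 L) : L)) (g : L ≃ₐ[ℚ] L) :
    Even (∑ x : L ≃ₐ[ℚ] L, θ x * r.rL.sg (g * x)) := U1_signs r θ h g

end H5SW
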