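import Pool.Agent.H5.SW.Ps

/-!
ROW Cb (total ramification at `p`).  PROOF.  `f = p^(n+1)`, `N = [L:ℚ] = φ(f)/2`. `π = 2 - c 1 ∈ 𝓞 L`. Its conjugates are the `2 - c u`, `u ∈ (ℤ/f)^*/±1`, and `N_{L/ℚ}(π) = ∏_{u} (2 - c u) = p`:
apply `φ`: `2 - 2 cos(2πu/f) = (1 - ξ^u)(1 - ξ^(-u))`, `ξ = exp(2πi/f)`, and `∏_{u ∈ (ℤ/f)^*} (1 - ξ^u) = Φ_f(1) = p` (`Polynomial.eval_one_cyclotomic_prime_pow`). So `P0 = (π)` is a prime ideal of norm `p`
(absNorm of a principal ideal = |norm|; an ideal of prime norm is prime). All conjugates `2 - c u` are associated to `π`: `2 - c u` is divisible by `2 - c 1` in `𝓞 L` (`2 - c u = (2 - c 1) * (integer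
combination)`, since `c (a+1) - 2 = ...`, e.g. for `a : ℕ`, `2 - c a = (2 - c 1) s_a` by the recursion `2 - c(a+1) = (2 - c a) c 1 ... `; or: every Galois automorphism maps `P0` to an ideal above `p` of
norm `p`; `σ u (π) = 2 - c u = (1-ξ^u)(1-ξ^-u)` and `(1-ξ^u)/(1-ξ)` is integral), so `(p) = ∏ (2 - c u) = P0^N`. Hence `P0` is the unique prime of `𝓞 L` containing `p`, of norm `p`.
-/

set_option autoImplicit false

namespace H5SW

open NumberField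

theorem Cb_prod_units {p n : ℕ} [hp : Fact p.Prime] [NeZero (p ^ (n + 1))] {ξ : ℂ}
    (hξ : IsPrimitiveRoot ξ (p ^ (n + 1))) :
    ∏ u : (ZMod (p ^ (n + 1)))ˣ, (1 - ξ ^ (u : ZMod (p ^ (n + 1))).val) = (p : ℂ) := by
  have hpos : 0 < p ^ (n + 1) := pow_pos hp.out.pos _
  have h1 : Polynomial.eval (1 : ℂ) (Polynomial.cyclotomic (p ^ (n + 1)) ℂ) = (p : ℂ) :=
    Polynomial.eval_one_cyclotomic_prime_pow n
  rw [Polynomial.cyclotomic_eq_prod_X_sub_primitiveRoots hξ, Polynomial.eval_prod] at h1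
  rw [← h1]
  refine Finset.prod_bij (fun u _ => ξ ^ (u : ZMod (p ^ (n + 1))).val) ?_ ?_ ?_ ?_
  · intro u _
    rw [mem_primitiveRoots hpos]
    exact hξ.pow_of_coprime _ (ZMod.val_coe_unit_coprime u)
  · intro u _ v _ huv
    have h2 := hξ.pow_inj (ZMod.val_lt _) (ZMod.val_lt _) huv
    exact Units.ext (ZMod.val_injective _ h2)
  · intro μ hμ
    rw [mem_primitiveRoots hpos, hξ.isPrimitiveRoot_iff] at hμ
    obtain ⟨i, hi, hc, rfl⟩ := hμ
    refine ⟨ZMod.unitOfCoprime i hc, Finset.mem_univ _, ?_⟩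
    show ξ ^ ((ZMod.unitOfCoprime i hc : (ZMod (p ^ (n + 1)))ˣ) : ZMod (p ^ (n + 1))).val = ξ ^ i
    rw [ZMod.coe_unitOfCoprime, ZMod.val_natCast, Nat.mod_eq_of_lt hi]
  · intro u _
    simp

theorem Cb_prod_real {p n : ℕ} [hp : Fact p.Prime] [NeZero (p ^ (n + 1))] :
    ∏ u : (ZMod (p ^ (n + 1)))ˣ,
      (2 - 2 * Real.cos (2 * Real.pi * ((u : ZMod (p ^ (n + 1))).val : ℝ) / ((p ^ (n + 1) : ℕ) : ℝ))) =
      (p : ℝ) ^ 2 := by
  have hne : p ^ (n + 1) ≠ 0 := NeZero.ne _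
  have hξ : IsPrimitiveRoot (Complex.exp (2 * Real.pi * Complex.I / ((p ^ (n + 1) : ℕ) : ℂ))) (p ^ (n + 1)) :=
    Complex.isPrimitiveRoot_exp _ hne
  set ξ : ℂ := Complex.exp (2 * Real.pi * Complex.I / ((p ^ (n + 1) : ℕ) : ℂ)) with hξd
  have hξ0 : ξ ≠ 0 := Complex.exp_ne_zero _
  have key : ∀ u : (ZMod (p ^ (n + 1)))ˣ,
      (((2 - 2 * Real.cos (2 * Real.pi * ((u : ZMod (p ^ (n + 1))).val : ℝ) / ((p ^ (n + 1) : ℕ) : ℝ))) : ℝ) : ℂ) =
      (1 - ξ ^ (u : ZMod (p ^ (n + 1))).val) * (1 - (ξ⁻¹) ^ (u : ZMod (p ^ (n + 1))).val) := by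
    intro u
    set v : ℕ := (u : ZMod (p ^ (n + 1))).val with hv
    have e1 : ξ ^ v = Complex.exp ((2 * Real.pi * (v : ℝ) / ((p ^ (n + 1) : ℕ) : ℝ) : ℝ) * Complex.I) := by
      rw [hξd, ← Complex.exp_nat_mul]
      congr 1
      push_cast
      ring
    have e2 : ξ⁻¹ ^ v = Complex.exp (-((2 * Real.pi * (v : ℝ) / ((p ^ (n + 1) : ℕ) : ℝ) : ℝ) * Complex.I)) := by
      rw [inv_pow, e1, Complex.exp_neg]
    have e3 : ξ ^ v * ξ⁻¹ ^ v = 1 := by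
      rw [← mul_pow, mul_inv_cancel₀ hξ0, one_pow]
    have e4 : ξ ^ v + ξ⁻¹ ^ v = 2 * Complex.cos ((2 * Real.pi * (v : ℝ) / ((p ^ (n + 1) : ℕ) : ℝ) : ℝ)) := by
      rw [e1, e2, Complex.two_cos, neg_mul]
    rw [Complex.ofReal_sub, Complex.ofReal_mul, Complex.ofReal_cos, Complex.ofReal_ofNat]
    linear_combination e4 - e3
  have h1 := Cb_prod_units (p := p) (n := n) hξ
  have hξ' : IsPrimitiveRoot ξ⁻¹ (p ^ (n + 1)) := hξ.inv
  have h2 := Cb_prod_units (p := p) (n := n) hξ'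
  have h3 : ((∏ u : (ZMod (p ^ (n + 1)))ˣ,
      (2 - 2 * Real.cos (2 * Real.pi * ((u : ZMod (p ^ (n + 1))).val : ℝ) / ((p ^ (n + 1) : ℕ) : ℝ))) : ℝ) : ℂ) =
      (((p : ℝ) ^ 2 : ℝ) : ℂ) := by
    rw [Complex.ofReal_prod, Finset.prod_congr rfl (fun u _ => key u), Finset.prod_mul_distrib, h1, h2]
    push_cast
    ring
  exact Complex.ofReal_injective h3

theorem Cb_dvd_nat {f : ℕ} {L : Type} [Field L] [NumberField L] (r : RC f L) (b : ZMod f) (a : ℕ) :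
    (2 - r.c b) ∣ (2 - r.c (a * b)) ∧ (2 - r.c b) ∣ (2 - r.c ((a + 1 : ℕ) * b)) := by
  induction a with
  | zero =>
    constructor
    · rw [Nat.cast_zero, zero_mul, r.c_zero, sub_self]
      exact dvd_zero _
    · rw [zero_add, Nat.cast_one, one_mul]
  | succ a ih =>
    refine ⟨ih.2, ?_⟩
    have h1 := r.c_mul ((a + 1 : ℕ) * b) b
    have e1 : ((a + 1 : ℕ) : ZMod f) * b + b = ((a + 1 + 1 : ℕ) : ZMod f) * b := by push_cast; ring
    have e2 : ((a + 1 : ℕ) : ZMod f) * b - b = (a : ZMod f) * b := by push_cast; ring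
    rw [e1, e2] at h1
    obtain ⟨x, hx⟩ := ih.1
    obtain ⟨y, hy⟩ := ih.2
    refine ⟨r.c ((a + 1 : ℕ) * b) + 2 * y - x, ?_⟩
    linear_combination h1 + 2 * hy - hx

theorem Cb_assoc {f : ℕ} {L : Type} [Field L] [NumberField L] (r : RC f L) (u : (ZMod f)ˣ) :
    Ideal.span {2 - r.c (u : ZMod f)} = Ideal.span {2 - r.c 1} := by
  have : NeZero f := r.neZero
  apply le_antisymm
  · rw [Ideal.span_singleton_le_span_singleton]
    have h1 := (Cb_dvd_nat r 1 (u : ZMod f).val).1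
    rwa [ZMod.natCast_zmod_val, mul_one] at h1
  · rw [Ideal.span_singleton_le_span_singleton]
    have h1 := (Cb_dvd_nat r (u : ZMod f) ((u⁻¹ : (ZMod f)ˣ) : ZMod f).val).1
    rwa [ZMod.natCast_zmod_val, Units.inv_mul] at h1

theorem Cb_coe {f : ℕ} {L : Type} [Field L] [NumberField L] (r : RC f L) (a : ZMod f) :
    ((2 - r.c a : 𝓞 L) : L) = 2 - (r.c a : L) := by
  have h1 : ((2 - r.c a : 𝓞 L) : L) = ((2 : 𝓞 L) : L) - (r.c a : L) := map_sub (algebraMap (𝓞 L) L) _ _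
  have h2 : ((2 : 𝓞 L) : L) = 2 := map_ofNat (algebraMap (𝓞 L) L) 2
  rw [h1, h2]

theorem Cb_prod_gal {p n : ℕ} [hp : Fact p.Prime] {L : Type} [Field L] [NumberField L]
    (r : RC (p ^ (n + 1)) L) : ∏ g : L ≃ₐ[ℚ] L, (2 - r.c (r.u g : ZMod (p ^ (n + 1)))) = (p : 𝓞 L) := by
  classical
  have : NeZero (p ^ (n + 1)) := r.neZero
  -- the real numbers
  set D : ZMod (p ^ (n + 1)) → ℝ := fun a => 2 - 2 * Real.cos (2 * Real.pi * (a.val : ℝ) / ((p ^ (n + 1) : ℕ) : ℝ))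
    with hD
  have hDφ : ∀ a, r.φ ((2 - r.c a : 𝓞 L) : L) = D a := by
    intro a
    rw [Cb_coe r a, map_sub, map_ofNat, r.hφ]
  have hDn : ∀ a, 0 ≤ D a := by
    intro a
    have := Real.cos_le_one (2 * Real.pi * (a.val : ℝ) / ((p ^ (n + 1) : ℕ) : ℝ))
    show 0 ≤ 2 - 2 * Real.cos _
    linarith
  have hDneg : ∀ a, D (-a) = D a := by
    intro a
    rw [← hDφ, ← hDφ, r.c_neg]
  -- the fibres of the Galois action
  have hone : ∀ u : (ZMod (p ^ (n + 1)))ˣ, u ≠ -u := by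
    intro u hu
    have h1 := r.two_lt
    have : Fact (1 < p ^ (n + 1)) := ⟨by omega⟩
    have h2 : (2 : ZMod (p ^ (n + 1))) = 0 := by
      have h3 := congrArg (fun v : (ZMod (p ^ (n + 1)))ˣ => (v : ZMod (p ^ (n + 1))) * (u⁻¹ : (ZMod (p ^ (n + 1)))ˣ)) hu
      simp only [Units.val_neg, neg_mul, Units.mul_inv] at h3
      linear_combination h3
    have h4 : ((2 : ℕ) : ZMod (p ^ (n + 1))) = 0 := by exact_mod_cast h2
    rw [ZMod.natCast_eq_zero_iff] at h4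
    have := Nat.le_of_dvd (by norm_num) h4
    omega
  have hfib : ∀ g : L ≃ₐ[ℚ] L,
      (Finset.univ.filter (fun u : (ZMod (p ^ (n + 1)))ˣ => r.σ u = g)) = {r.u g, - r.u g} := by
    intro g
    ext u
    simp only [Finset.mem_filter, Finset.mem_univ, true_and, Finset.mem_insert, Finset.mem_singleton]
    constructor
    · intro h
      have h1 : r.σ (u * (r.u g)⁻¹) = 1 := by rw [map_mul, h, map_inv, r.σ_u, mul_inv_cancel]
      rcases (r.ker _).1 h1 with h2 | h2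
      · left
        exact mul_inv_eq_one.1 h2
      · right
        rw [mul_inv_eq_iff_eq_mul] at h2
        rw [h2, neg_one_mul]
    · rintro (h | h)
      · rw [h, r.σ_u]
      · rw [h, r.σ_neg, r.σ_u]
  have h1 : ∏ u : (ZMod (p ^ (n + 1)))ˣ, D u = (∏ g : L ≃ₐ[ℚ] L, D (r.u g : ZMod (p ^ (n + 1)))) ^ 2 := by
    rw [← Finset.prod_fiberwise Finset.univ (fun u : (ZMod (p ^ (n + 1)))ˣ => r.σ u)
      (fun u : (ZMod (p ^ (n + 1)))ˣ => D u), ← Finset.prod_pow]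
    refine Finset.prod_congr rfl fun g _ => ?_
    rw [hfib g, Finset.prod_pair (hone _), Units.val_neg, hDneg, pow_two]
  have h2 : ∏ u : (ZMod (p ^ (n + 1)))ˣ, D u = (p : ℝ) ^ 2 := Cb_prod_real
  have h3 : ∏ g : L ≃ₐ[ℚ] L, D (r.u g : ZMod (p ^ (n + 1))) = (p : ℝ) := by
    rw [h2] at h1
    have h4 : 0 ≤ ∏ g : L ≃ₐ[ℚ] L, D (r.u g : ZMod (p ^ (n + 1))) := Finset.prod_nonneg fun g _ => hDn _
    exact ((pow_left_inj₀ (Nat.cast_nonneg p) h4 two_ne_zero).1 h1).symm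
  apply r.ext_φ
  have e1 : ((∏ g : L ≃ₐ[ℚ] L, (2 - r.c (r.u g : ZMod (p ^ (n + 1)))) : 𝓞 L) : L) =
      ∏ g : L ≃ₐ[ℚ] L, ((2 - r.c (r.u g : ZMod (p ^ (n + 1))) : 𝓞 L) : L) := map_prod (algebraMap (𝓞 L) L) _ _
  have e2 : (((p : ℕ) : 𝓞 L) : L) = (p : L) := map_natCast (algebraMap (𝓞 L) L) p
  rw [e1, e2, map_prod, map_natCast, ← h3]
  exact Finset.prod_congr rfl fun g _ => hDφ _

theorem above_p {p n : ℕ} [Fact p.Prime] (hp2 : p ≠ 2) {L : Type} [Field L] [NumberField L]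
    (r : RC (p ^ (n + 1)) L) : ∃ P0 : Ideal (𝓞 L), P0.IsPrime ∧ (p : 𝓞 L) ∈ P0 ∧ Ideal.absNorm P0 = p ∧
      Ideal.span {(p : 𝓞 L)} = P0 ^ Module.finrank ℚ L ∧ P0 = Ideal.span {2 - r.c 1} ∧
      ∀ P : Ideal (𝓞 L), P.IsPrime → (p : 𝓞 L) ∈ P → P = P0 := by
  classical
  have hp : p.Prime := Fact.out
  have : IsGalois ℚ L := r.gal
  have hprod := Cb_prod_gal r
  have hcard : Fintype.card (L ≃ₐ[ℚ] L) = Module.finrank ℚ L := by
    rw [← Nat.card_eq_fintype_card, IsGalois.card_aut_eq_finrank]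
  have hspan : Ideal.span {(p : 𝓞 L)} = (Ideal.span {2 - r.c 1}) ^ Module.finrank ℚ L := by
    rw [← hprod, ← Ideal.prod_span_singleton, Finset.prod_congr rfl (fun g _ => Cb_assoc r (r.u g)),
      Finset.prod_const, Finset.card_univ, hcard]
  -- the norm
  have hnorm : Algebra.norm ℤ (2 - r.c 1 : 𝓞 L) = (p : ℤ) := by
    have h1 : Algebra.norm ℚ ((2 - r.c 1 : 𝓞 L) : L) = (p : ℚ) := by
      apply (algebraMap ℚ L).injective
      rw [Algebra.norm_eq_prod_automorphisms, map_natCast]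
      have e2 : (((p : ℕ) : 𝓞 L) : L) = (p : L) := map_natCast (algebraMap (𝓞 L) L) p
      rw [← e2, ← hprod]
      have e1 : ((∏ g : L ≃ₐ[ℚ] L, (2 - r.c (r.u g : ZMod (p ^ (n + 1)))) : 𝓞 L) : L) =
        ∏ g : L ≃ₐ[ℚ] L, ((2 - r.c (r.u g : ZMod (p ^ (n + 1))) : 𝓞 L) : L) := map_prod (algebraMap (𝓞 L) L) _ _
      rw [e1]
      refine Finset.prod_congr rfl fun g _ => ?_
      rw [Cb_coe, Cb_coe, map_sub, map_ofNat, r.apply_c, mul_one]
    have h2 := Algebra.coe_norm_int (K := L) (2 - r.c 1 : 𝓞 L)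
    rw [h1] at h2
    exact_mod_cast h2
  have habs : Ideal.absNorm (Ideal.span {2 - r.c 1} : Ideal (𝓞 L)) = p := by
    rw [Ideal.absNorm_span_singleton, hnorm, Int.natAbs_natCast]
  have hprime : (Ideal.span {2 - r.c 1} : Ideal (𝓞 L)).IsPrime := by
    apply Ideal.isPrime_of_irreducible_absNorm
    rw [habs]
    exact hp
  have hmem : (p : 𝓞 L) ∈ (Ideal.span {2 - r.c 1} : Ideal (𝓞 L)) := by
    have := Ideal.absNorm_mem (Ideal.span {2 - r.c 1} : Ideal (𝓞 L))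
    rwa [habs] at this
  have hne : (Ideal.span {2 - r.c 1} : Ideal (𝓞 L)) ≠ ⊥ := by
    intro h0
    rw [h0, Ideal.absNorm_bot] at habs
    exact hp.ne_zero habs.symm
  refine ⟨Ideal.span {2 - r.c 1}, hprime, hmem, habs, hspan, rfl, ?_⟩
  intro P hP hpP
  have hle : (Ideal.span {2 - r.c 1} : Ideal (𝓞 L)) ^ Module.finrank ℚ L ≤ P := by
    rw [← hspan, Ideal.span_singleton_le_iff_mem]
    exact hpP
  have hle2 : (Ideal.span {2 - r.c 1} : Ideal (𝓞 L)) ≤ P := hP.le_of_pow_le hle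
  have hmax : (Ideal.span {2 - r.c 1} : Ideal (𝓞 L)).IsMaximal := hprime.isMaximal hne
  exact (hmax.eq_of_le hP.ne_top hle2).symm

end H5SW
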