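import Pool.Agent.H5.SW.Ds

/-!
ROW T0 (factor through the exact level).  PROOF.
Let `k` be minimal such that `χ` is trivial on the kernel of `(ZMod (p^(n+1)))ˣ → (ZMod (p^(k+1)))ˣ` (`k = n` works). By `hm`, `k > m` (the kernel to level `m+1`
contains the kernel to level `k+1` for `k ≥ m`, and is not contained in `ker χ`; so if `k ≤ m` ... contradiction; in particular `k ≥ 1`). `χ` factors through the surjection
`ZMod.unitsMap` (`ZMod.unitsMap_surjective`) as `χ = χ' ∘ unitsMap` (e.g. `MonoidHom.liftOfSurjective`/`DirichletCharacter`-like argument); `χ' (-1) = χ (-1) = 1`. By minimality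
`χ` is non trivial on the kernel to level `(k-1)+1 = k`, so `χ'` is non trivial on some `u'` with `u' ≡ 1 mod p^k`, i.e. `u' = 1 + p^k t` in `ZMod (p^(k+1))`: `Prim χ'`.
-/

set_option autoImplicit false

namespace H5SW

theorem factor_level {Ω : Type*} [Field Ω] {p n m : ℕ} [Fact p.Prime] (hp2 : p ≠ 2) (hmn : m ≤ n)
    (χ : (ZMod (p ^ (n + 1)))ˣ →* Ωˣ) (hev : χ (-1) = 1)
    (hm : ∃ u, ZMod.unitsMap (pow_dvd_pow p (Nat.succ_le_succ hmn)) u = 1 ∧ χ u ≠ 1) :
    ∃ k, m < k ∧ ∃ hk : k ≤ n, ∃ χ' : (ZMod (p ^ (k + 1)))ˣ →* Ωˣ,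
      χ = χ'.comp (ZMod.unitsMap (pow_dvd_pow p (Nat.succ_le_succ hk))) ∧ χ' (-1) = 1 ∧ Prim χ' := by
  classical
  have hP : ∃ k, ∃ hk : k ≤ n, ∀ u, ZMod.unitsMap (pow_dvd_pow p (Nat.succ_le_succ hk)) u = 1 →
      χ u = 1 := by
    refine ⟨n, le_refl n, fun u hu => ?_⟩
    have h1 : ZMod.unitsMap (pow_dvd_pow p (Nat.succ_le_succ (le_refl n))) u = u := by
      have := ZMod.unitsMap_self (p ^ (n + 1))
      exact congrArg (fun f => f u) this
    rw [h1] at hu
    rw [hu, map_one]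
  obtain ⟨hk, hker⟩ := Nat.find_spec hP
  set k := Nat.find hP with hkdef
  have hmk : m < k := by
    by_contra hlt
    have hkm : k ≤ m := not_lt.mp hlt
    obtain ⟨u, hu1, hu2⟩ := hm
    apply hu2
    apply hker
    have hc := ZMod.unitsMap_comp (pow_dvd_pow p (Nat.succ_le_succ hkm))
      (pow_dvd_pow p (Nat.succ_le_succ hmn))
    have hc2 := congrArg (fun f => f u) hc
    simp only [MonoidHom.comp_apply] at hc2
    rw [← hc2, hu1, map_one]
  have hsurj := ZMod.unitsMap_surjective (pow_dvd_pow p (Nat.succ_le_succ hk))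
  have hle : (ZMod.unitsMap (pow_dvd_pow p (Nat.succ_le_succ hk))).ker ≤ χ.ker := by
    intro u hu
    exact hker u hu
  let φ := ZMod.unitsMap (pow_dvd_pow p (Nat.succ_le_succ hk))
  let χ' : (ZMod (p ^ (k + 1)))ˣ →* Ωˣ :=
    φ.liftOfRightInverse _ (Function.rightInverse_surjInv hsurj) ⟨χ, hle⟩
  have hχ' : ∀ u, χ' (φ u) = χ u := fun u =>
    φ.liftOfRightInverse_comp_apply _ (Function.rightInverse_surjInv hsurj) ⟨χ, hle⟩ u
  refine ⟨k, hmk, hk, χ', ?_, ?_, ?_⟩
  · ext u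
    simp only [MonoidHom.comp_apply]
    exact congrArg _ (hχ' u).symm
  · have h1 : φ (-1) = -1 := by
      ext
      simp [φ, ZMod.unitsMap_def]
    rw [← h1, hχ', hev]
  · have hk1 : k - 1 < k := by omega
    have hnot := Nat.find_min hP hk1
    have hkn : k - 1 ≤ n := by omega
    have hex : ∃ u, ZMod.unitsMap (pow_dvd_pow p (Nat.succ_le_succ hkn)) u = 1 ∧ χ u ≠ 1 := by
      by_contra hcon
      push Not at hcon
      exact hnot ⟨hkn, hcon⟩
    obtain ⟨u, hu1, hu2⟩ := hex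
    refine ⟨φ u, ?_, by rw [hχ']; exact hu2⟩
    have hkk : k - 1 + 1 = k := by omega
    have hdv : p ^ (k - 1 + 1) ∣ p ^ (k + 1) := pow_dvd_pow p (by omega)
    have hc := ZMod.unitsMap_comp hdv (pow_dvd_pow p (Nat.succ_le_succ hk))
    have hc2 := congrArg (fun f => f u) hc
    simp only [MonoidHom.comp_apply] at hc2
    have h3 : ZMod.unitsMap hdv (φ u) = 1 := hc2.trans hu1
    set w := φ u with hw
    have hne : NeZero (p ^ (k + 1)) := ⟨pow_ne_zero _ (Fact.out : p.Prime).ne_zero⟩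
    have h4 : (((w : ZMod (p ^ (k + 1))).val : ℕ) : ZMod (p ^ (k - 1 + 1))) = ((1 : ℕ) : ZMod _) := by
      have h5 := congrArg (fun x : (ZMod (p ^ (k - 1 + 1)))ˣ => (x : ZMod (p ^ (k - 1 + 1)))) h3
      simp only [ZMod.unitsMap_val, Units.val_one] at h5
      rw [← h5.trans (by simp : (1 : ZMod (p ^ (k - 1 + 1))) = ((1 : ℕ) : ZMod _)), ZMod.natCast_val]
    rw [ZMod.natCast_eq_natCast_iff, hkk] at h4
    have hp1 : 1 < p ^ k := Nat.one_lt_pow (by omega) (Fact.out : p.Prime).one_lt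
    have h6 : (w : ZMod (p ^ (k + 1))).val % p ^ k = 1 := by
      have := h4
      unfold Nat.ModEq at this
      rw [this, Nat.mod_eq_of_lt hp1]
    refine ⟨(w : ZMod (p ^ (k + 1))).val / p ^ k, ?_⟩
    have h7 := Nat.mod_add_div (w : ZMod (p ^ (k + 1))).val (p ^ k)
    rw [h6] at h7
    have h8 := congrArg (fun x : ℕ => (x : ZMod (p ^ (k + 1)))) h7
    simp only [Nat.cast_add, Nat.cast_one, Nat.cast_mul, Nat.cast_pow, ZMod.natCast_val,
      ZMod.cast_id', id_eq] at h8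
    exact h8.symm

end H5SW
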