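import Pool.Agent.H5.SW.Ap

/-!
ROW Ps (reductions of the `c a`).  PROOF.  `k` algebraically closed with `p ≠ 0` in `k`; `f = p^(n+1)`.
(1) Let `z` be a root of `X^2 - ψ(c 1) X + 1`; `z ≠ 0`, `ψ(c 1) = z + z⁻¹`, `ψ(c 0) = 2`. By `c_mul`, `c (a+1) = c a * c 1 - c (a-1)`; induction gives
    `ψ (c (a : ZMod f)) = z^a + z^(-a)` for all `a : ℕ`.
(2) `a = f`: `2 = z^f + z^(-f)`, `(z^f - 1)^2 = 0`, `z^f = 1`.
(3) If `z` is not of exact order `f`, then `z^(p^n) = 1` and `ψ(2 - c(p^n)) = 0`. But `2 - c (p^n)` divides `p` in `𝓞 L` (`two_sub_dvd`):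
    with `c_j = c (p^n j)` all `c_j` are congruent to `2` modulo `2 - c_1`, and `1 + ∑_{j=1}^{(p-1)/2} c_j = 0`. So `ψ(p) = 0`, contradiction.
-/

set_option autoImplicit false

namespace H5SW

open NumberField

theorem two_sub_dvd {p n : ℕ} [Fact p.Prime] (hp2 : p ≠ 2) {L : Type} [Field L] [NumberField L]
    (r : RC (p ^ (n + 1)) L) : (2 - r.c ((p ^ n : ℕ) : ZMod (p ^ (n + 1)))) ∣ (p : 𝓞 L) := by
  have hp : p.Prime := Fact.out
  obtain ⟨m, hm⟩ : ∃ m, p = 2 * m + 1 := hp.odd_of_ne_two hp2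
  obtain ⟨d, hd⟩ : ∃ d : ℕ → 𝓞 L, d = fun j => r.c ((p ^ n * j : ℕ) : ZMod (p ^ (n + 1))) := ⟨_, rfl⟩
  have hd1 : r.c ((p ^ n : ℕ) : ZMod (p ^ (n + 1))) = d 1 := by rw [hd]; simp
  rw [hd1]
  have hd0 : d 0 = 2 := by
    rw [hd]; simp [r.c_zero]
  have hrec : ∀ j, d (j + 1) * d 1 = d (j + 2) + d j := by
    intro j
    have h1 := r.c_mul ((p ^ n * (j + 1) : ℕ) : ZMod (p ^ (n + 1))) ((p ^ n * 1 : ℕ) : ZMod (p ^ (n + 1)))
    have e1 : ((p ^ n * (j + 1) : ℕ) : ZMod (p ^ (n + 1))) + ((p ^ n * 1 : ℕ) : ZMod (p ^ (n + 1))) = ((p ^ n * (j + 2) : ℕ) : ZMod (p ^ (n + 1))) := by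
      push_cast; ring
    have e2 : ((p ^ n * (j + 1) : ℕ) : ZMod (p ^ (n + 1))) - ((p ^ n * 1 : ℕ) : ZMod (p ^ (n + 1))) = ((p ^ n * j : ℕ) : ZMod (p ^ (n + 1))) := by
      push_cast; ring
    rw [e1, e2] at h1
    rw [hd]
    exact h1
  -- congruence
  have hcong : ∀ j, (2 - d 1) ∣ (d j - 2) ∧ (2 - d 1) ∣ (d (j + 1) - 2) := by
    intro j
    induction j with
    | zero =>
      refine ⟨by rw [hd0, sub_self]; exact dvd_zero _, ?_⟩
      exact ⟨-1, by ring⟩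
    | succ j ih =>
      refine ⟨ih.2, ?_⟩
      obtain ⟨x, hx⟩ := ih.1
      obtain ⟨y, hy⟩ := ih.2
      have h1 := hrec j
      refine ⟨y * d 1 - x - 2, ?_⟩
      have e1 : d (j + 1 + 1) = d (j + 1) * d 1 - d j := by rw [h1]; ring
      have e2 : d (j + 1) = (2 - d 1) * y + 2 := by rw [← hy]; ring
      have e3 : d j = (2 - d 1) * x + 2 := by rw [← hx]; ring
      rw [e1, e2, e3]
      ring
  -- partial sums
  have hsum : ∀ k, d 1 * (1 + ∑ j ∈ Finset.range k, d (j + 1)) =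
      2 * (1 + ∑ j ∈ Finset.range k, d (j + 1)) + d (k + 1) - d k := by
    intro k
    induction k with
    | zero => simp [hd0]
    | succ k ih =>
      rw [Finset.sum_range_succ]
      have h1 := hrec k
      have : d 1 * (1 + (∑ j ∈ Finset.range k, d (j + 1) + d (k + 1))) =
          d 1 * (1 + ∑ j ∈ Finset.range k, d (j + 1)) + d (k + 1) * d 1 := by ring
      rw [this, ih, h1]
      ring
  have hsym : d (m + 1) = d m := by
    have h1 : ((p ^ n * (m + 1) : ℕ) : ZMod (p ^ (n + 1))) = -((p ^ n * m : ℕ) : ZMod (p ^ (n + 1))) := by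
      have h2 : ((p ^ n * (m + 1) + p ^ n * m : ℕ) : ZMod (p ^ (n + 1))) = 0 := by
        have h3 : p ^ n * (m + 1) + p ^ n * m = p ^ (n + 1) := by
          have h4 : p ^ n * (m + 1) + p ^ n * m = p ^ n * (2 * m + 1) := by ring
          rw [h4, ← hm, pow_succ]
        rw [h3, ZMod.natCast_self]
      rw [Nat.cast_add] at h2
      exact eq_neg_of_add_eq_zero_left h2
    rw [hd]
    change r.c _ = r.c _
    rw [h1, r.c_neg]
  have hzero : 1 + ∑ j ∈ Finset.range m, d (j + 1) = 0 := by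
    have h1 := hsum m
    rw [hsym] at h1
    have h2 : (d 1 - 2) * (1 + ∑ j ∈ Finset.range m, d (j + 1)) = 0 := by
      rw [sub_mul, h1]; ring
    rcases mul_eq_zero.1 h2 with h3 | h3
    · exfalso
      have h4 : d 1 = 2 := sub_eq_zero.1 h3
      have h5 := r.φ_c_nat (p ^ n * 1)
      have h6 : r.c ((p ^ n * 1 : ℕ) : ZMod (p ^ (n + 1))) = 2 := by rw [hd] at h4; exact h4
      rw [h6] at h5
      have h7 : ((2 : 𝓞 L) : L) = 2 := map_ofNat (algebraMap (𝓞 L) L) 2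
      rw [h7, map_ofNat] at h5
      have h8 : Real.cos (2 * Real.pi * ((p ^ n * 1 : ℕ) : ℝ) / ((p ^ (n + 1) : ℕ) : ℝ)) = 1 := by linarith
      have hp0 : (0 : ℝ) < p := by exact_mod_cast hp.pos
      have h9 : 2 * Real.pi * ((p ^ n * 1 : ℕ) : ℝ) / ((p ^ (n + 1) : ℕ) : ℝ) = 2 * Real.pi / p := by
        rw [Nat.mul_one, pow_succ]
        push_cast
        field_simp
      rw [h9] at h8
      have hp1 : (1 : ℝ) < p := by exact_mod_cast hp.one_lt
      have hpi := Real.pi_pos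
      have h10 : 0 < 2 * Real.pi / p := by positivity
      have h11 : 2 * Real.pi / p < 2 * Real.pi := by
        rw [div_lt_iff₀ hp0]
        nlinarith
      rw [Real.cos_eq_one_iff_of_lt_of_lt (by linarith) h11] at h8
      exact absurd h8 h10.ne'
    · exact h3
  have hdiv : (2 - d 1) ∣ ∑ j ∈ Finset.range m, (d (j + 1) - 2) :=
    Finset.dvd_sum fun j _ => (hcong j).2
  have hS : ∑ j ∈ Finset.range m, (d (j + 1) - 2) = -(p : 𝓞 L) := by
    rw [Finset.sum_sub_distrib, Finset.sum_const, Finset.card_range, nsmul_eq_mul]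
    have h1 : ∑ j ∈ Finset.range m, d (j + 1) = -1 := by
      linear_combination hzero
    rw [h1]
    have h2 : (p : 𝓞 L) = ((2 * m + 1 : ℕ) : 𝓞 L) := by rw [← hm]
    rw [h2]
    push_cast
    ring
  rw [hS] at hdiv
  exact (dvd_neg).1 hdiv

theorem psi {p n : ℕ} [Fact p.Prime] (hp2 : p ≠ 2) {L : Type} [Field L] [NumberField L] (r : RC (p ^ (n + 1)) L)
    {k : Type} [Field k] [IsAlgClosed k] (hk : (p : k) ≠ 0) (ψ : 𝓞 L →+* k) :
    ∃ z : k, IsPrimitiveRoot z (p ^ (n + 1)) ∧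
      ∀ a : ZMod (p ^ (n + 1)), ψ (r.c a) = z ^ a.val + (z ^ a.val)⁻¹ := by
  have := r.neZero
  obtain ⟨z, hz⟩ : ∃ z : k, z ^ 2 - ψ (r.c 1) * z + 1 = 0 := by
    have hdeg : (Polynomial.X ^ 2 - Polynomial.C (ψ (r.c 1)) * Polynomial.X + Polynomial.C 1 : Polynomial k).degree ≠ 0 := by
      have : (Polynomial.X ^ 2 - Polynomial.C (ψ (r.c 1)) * Polynomial.X + Polynomial.C 1 : Polynomial k).degree = 2 := by
        compute_degree!
      rw [this]; decide
    obtain ⟨z, hz⟩ := IsAlgClosed.exists_root _ hdeg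
    refine ⟨z, ?_⟩
    have := hz
    simpa [Polynomial.IsRoot] using this
  have hz0 : z ≠ 0 := by
    intro h0
    rw [h0] at hz
    simp at hz
  have h1 : ψ (r.c 1) = z + z⁻¹ := by
    have : ψ (r.c 1) * z = z ^ 2 + 1 := by linear_combination -hz
    field_simp
    exact this
  have key : ∀ a : ℕ, ψ (r.c (a : ZMod (p ^ (n + 1)))) = z ^ a + (z ^ a)⁻¹ ∧
      ψ (r.c ((a + 1 : ℕ) : ZMod (p ^ (n + 1)))) = z ^ (a + 1) + (z ^ (a + 1))⁻¹ := by
    intro a
    induction a with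
    | zero =>
      refine ⟨?_, ?_⟩
      · rw [Nat.cast_zero, r.c_zero, map_ofNat, pow_zero, inv_one]
        norm_num
      · rw [zero_add, Nat.cast_one, pow_one, h1]
    | succ a ih =>
      refine ⟨ih.2, ?_⟩
      have h2 := r.c_mul ((a + 1 : ℕ) : ZMod (p ^ (n + 1))) 1
      have e1 : ((a + 1 : ℕ) : ZMod (p ^ (n + 1))) + 1 = ((a + 1 + 1 : ℕ) : ZMod (p ^ (n + 1))) := by
        push_cast; ring
      have e2 : ((a + 1 : ℕ) : ZMod (p ^ (n + 1))) - 1 = (a : ZMod (p ^ (n + 1))) := by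
        push_cast; ring
      rw [e1, e2] at h2
      have h3 := congrArg ψ h2
      rw [map_mul, map_add, ih.1, ih.2, h1] at h3
      have h4 : ψ (r.c ((a + 1 + 1 : ℕ) : ZMod (p ^ (n + 1)))) =
          (z ^ (a + 1) + (z ^ (a + 1))⁻¹) * (z + z⁻¹) - (z ^ a + (z ^ a)⁻¹) := by
        rw [h3]; ring
      rw [h4]
      field_simp
      ring
  have hf : z ^ (p ^ (n + 1)) = 1 := by
    have h2 := (key (p ^ (n + 1))).1
    rw [ZMod.natCast_self, r.c_zero, map_ofNat] at h2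
    have hne : z ^ (p ^ (n + 1)) ≠ 0 := pow_ne_zero _ hz0
    have h3 : (z ^ (p ^ (n + 1)) - 1) ^ 2 = 0 := by
      have h4 : 2 * z ^ (p ^ (n + 1)) = (z ^ (p ^ (n + 1))) ^ 2 + 1 := by
        calc 2 * z ^ (p ^ (n + 1)) = (z ^ (p ^ (n + 1)) + (z ^ (p ^ (n + 1)))⁻¹) * z ^ (p ^ (n + 1)) := by
              rw [← h2]
          _ = _ := by
              rw [add_mul, inv_mul_cancel₀ hne]; ring
      linear_combination -h4
    exact sub_eq_zero.1 (pow_eq_zero_iff (two_ne_zero) |>.1 h3)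
  have hn : ¬ z ^ (p ^ n) = 1 := by
    intro h2
    have h3 := (key (p ^ n)).1
    rw [h2, inv_one] at h3
    obtain ⟨w, hw⟩ := two_sub_dvd hp2 r
    have h4 := congrArg ψ hw
    rw [map_mul, map_sub, h3, map_ofNat, map_natCast] at h4
    apply hk
    rw [h4]
    ring
  refine ⟨z, ?_, fun a => ?_⟩
  · rw [IsPrimitiveRoot.iff_orderOf]
    exact orderOf_eq_prime_pow hn hf
  · have := (key a.val).1
    rwa [ZMod.natCast_zmod_val] at this

end H5SW
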