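import Pool.Agent.H5.SW.T1

/-!
ROW T2 (the sign sum controls `T(χ)`).  PROOF.  `f = p^(k+1)`, `χ` even and non trivial on `1 + p^k`. `Z x = z^(x : ZMod f).val` for `x : ZMod f`
(additive to multiplicative since `z^f = 1`; cf. `AddChar.zmodChar`).
(1) `cs f u = 1` iff `f < 4 u.val` for `u ∈ Hf f` (`2 u.val < f`): `cos (2πu/f) < 0` iff `π/2 < 2πu/f` on `(0, π)`; equality `4 u = f` is impossible (`f` odd).
(2) `T(χ) = ∑_{u ∈ Hf} χ(u) Fr (Z u)`, by T1 with `w = Z u` (`≠ 1` as `u ≠ 0` and `z` has exact order `f`):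
    `= ∑_{a ∈ A} ∑_{u ∈ Hf} χ(u) (Z(4 a u) + Z(-4 a u))`, `A = {a < f : f < 4a, 2a < f}`, `= ∑_{a ∈ A} ∑_{u : (ZMod f)ˣ} χ(u) Z(4 a u)` (`Hf ∪ -Hf` = all units,
    `isHalf_Hf`, `χ` even).
(3) Put `g(x) = ∑_{u} χ(u) Z(x u)`, `x : ZMod f`. If `x` is a unit, `g(x) = χ(x)⁻¹ g(1)` (substitute). If `p ∣ x` (a non unit of `ZMod (p^(k+1))`), take `v = 1 + p^k t`
    with `χ(v) ≠ 1` (`Prim`): `x v = x`, so `g(x) = χ(v)⁻¹... g(x)`, more precisely `χ(v) g(x) = ∑ χ(u v) Z(x u) = ∑ χ(u v) Z(x u v) = g(x)`, so `g(x) = 0`.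
(4) `4 = 2^2` is a unit of `ZMod f`. So `T(χ) = χ(4)⁻¹ g(1) ∑_{a ∈ A, p ∤ a} χ(a)⁻¹ = χ(4)⁻¹ g(1) Sc χ⁻¹` by (1) (the units `u ∈ Hf` with `f < 4 u.val` are the classes of the
    `a ∈ A` prime to `p`).
-/

set_option autoImplicit false

namespace H5SW

open Finset

theorem T2_pow {Ω : Type*} [Field Ω] {f : ℕ} {z : Ω} (hz : z ^ f = 1) {m n : ℕ}
    (h : (m : ZMod f) = n) : z ^ m = z ^ n := by
  have h1 := (ZMod.natCast_eq_natCast_iff' m n f).1 h
  rw [pow_eq_pow_mod m hz, pow_eq_pow_mod n hz, h1]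

/-- the character sum -/
noncomputable def T2_g {f : ℕ} [NeZero f] {Ω : Type*} [Field Ω] (χ : (ZMod f)ˣ →* Ωˣ) (z : Ω)
    (x : ZMod f) : Ω := ∑ u : (ZMod f)ˣ, (χ u : Ω) * z ^ (x * u : ZMod f).val

theorem T2_g_mul {f : ℕ} [NeZero f] {Ω : Type*} [Field Ω] (χ : (ZMod f)ˣ →* Ωˣ) (z : Ω)
    (v : (ZMod f)ˣ) (x : ZMod f) : T2_g χ z (v * x) = ((χ v)⁻¹ : Ωˣ) * T2_g χ z x := by
  unfold T2_g
  rw [Finset.mul_sum]
  apply Fintype.sum_equiv (Equiv.mulLeft v)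
  intro u
  rw [Equiv.coe_mulLeft, map_mul, Units.val_mul, ← mul_assoc, ← mul_assoc, Units.inv_mul, one_mul]
  congr 2
  rw [Units.val_mul]
  ring_nf

theorem T2_half {f : ℕ} [NeZero f] (hf : Odd f) (h1 : 1 < f) {Ω : Type*} [Field Ω]
    (h : (ZMod f)ˣ → Ω) : ∑ u ∈ Hf f, (h u + h (-u)) = ∑ u, h u := by
  classical
  have hH := isHalf_Hf hf h1
  rw [Finset.sum_add_distrib, ← Finset.sum_add_sum_compl (Hf f) h]
  congr 1
  refine Finset.sum_bij' (fun u _ => -u) (fun u _ => -u) ?_ ?_ ?_ ?_ ?_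
  · intro u hu
    rw [Finset.mem_compl]
    exact (hH u).1 hu
  · intro u hu
    rw [Finset.mem_compl] at hu
    exact (hH (-u)).2 (by rw [neg_neg]; exact hu)
  · intro u _; exact neg_neg u
  · intro u _; exact neg_neg u
  · intro u _; rfl

theorem T2_cs {f : ℕ} [NeZero f] (u : (ZMod f)ˣ) (hu : u ∈ Hf f) :
    cs f u = if f < 4 * (u : ZMod f).val then 1 else 0 := by
  have hu2 : 2 * (u : ZMod f).val < f := by
    unfold Hf at hu
    exact (Finset.mem_filter.1 hu).2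
  have hf0 : (0 : ℝ) < f := by
    have := NeZero.pos f
    exact_mod_cast this
  have hpi := Real.pi_pos
  obtain ⟨a, ha⟩ : ∃ a : ℕ, a = (u : ZMod f).val := ⟨_, rfl⟩
  rw [← ha] at hu2 ⊢
  unfold cs
  rw [← ha]
  have e : 2 * Real.pi * (a : ℝ) / f = Real.pi * (2 * a / f) := by ring
  have h2 : (2 * (a : ℝ)) / f < 1 := by
    rw [div_lt_one hf0]
    exact_mod_cast hu2
  by_cases h4 : f < 4 * a
  · rw [if_pos h4, if_pos]
    rw [e]
    have h5 : (1 : ℝ) / 2 < 2 * a / f := by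
      rw [lt_div_iff₀ hf0]
      have : (f : ℝ) < 4 * a := by exact_mod_cast h4
      linarith
    apply Real.cos_neg_of_pi_div_two_lt_of_lt
    · nlinarith
    · nlinarith
  · rw [if_neg h4, if_neg]
    rw [e, not_lt]
    have h5 : 2 * (a : ℝ) / f ≤ 1 / 2 := by
      rw [div_le_iff₀ hf0]
      have : (4 * a : ℝ) ≤ f := by exact_mod_cast (not_lt.1 h4)
      linarith
    have h6 : 0 ≤ 2 * (a : ℝ) / f := by positivity
    apply Real.cos_nonneg_of_neg_pi_div_two_le_of_le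
    · have : 0 ≤ Real.pi * (2 * (a : ℝ) / f) := mul_nonneg hpi.le h6
      linarith
    · nlinarith

theorem T2_main {Ω : Type*} [Field Ω] [CharP Ω 2] {f : ℕ} [NeZero f] (hf : Odd f) (h1 : 1 < f)
    {z : Ω} (hz : IsPrimitiveRoot z f) (χ : (ZMod f)ˣ →* Ωˣ) (hev : χ (-1) = 1)
    (hnon : ∀ x : ZMod f, ¬ IsUnit x → ∃ v : (ZMod f)ˣ, (v : ZMod f) * x = x ∧ χ v ≠ 1)
    (hS : Sc χ⁻¹ = 0) : Tc χ z = 0 := by
  classical
  haveI : Fact (1 < f) := ⟨h1⟩
  have hzf : z ^ f = 1 := hz.pow_eq_one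
  have hcop : Nat.Coprime 4 f := by
    have h2 : Nat.Coprime 2 f := (Nat.coprime_two_left).2 hf
    exact Nat.Coprime.pow_left 2 h2
  obtain ⟨v4, hv4⟩ : ∃ v : (ZMod f)ˣ, (v : ZMod f) = 4 := by
    refine ⟨ZMod.unitOfCoprime 4 hcop, ?_⟩
    rw [ZMod.coe_unitOfCoprime]
    norm_num
  have hχneg : ∀ u, χ (-u) = χ u := by
    intro u
    rw [← neg_one_mul, map_mul, hev, one_mul]
  -- non units
  have hg0 : ∀ x : ZMod f, ¬ IsUnit x → T2_g χ z x = 0 := by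
    intro x hx
    obtain ⟨v, hv, hv1⟩ := hnon x hx
    have h2 := T2_g_mul χ z v x
    rw [hv] at h2
    by_contra hne
    have h3 : (((χ v)⁻¹ : Ωˣ) : Ω) = 1 := by
      have h4 : (((χ v)⁻¹ : Ωˣ) : Ω) * T2_g χ z x = 1 * T2_g χ z x := by rw [← h2, one_mul]
      exact mul_right_cancel₀ hne h4
    have h5 : (χ v)⁻¹ = 1 := Units.ext h3
    exact hv1 (inv_eq_one.1 h5)
  obtain ⟨A, hA⟩ : ∃ A : Finset ℕ, A = (range f).filter (fun a => f < 4 * a ∧ 2 * a < f) := ⟨_, rfl⟩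
  -- step 2
  have hT : Tc χ z = ∑ a ∈ A, T2_g χ z (4 * (a : ZMod f)) := by
    have e1 : ∀ u ∈ Hf f, (χ u : Ω) * Fr (z ^ (u : ZMod f).val) =
        ∑ a ∈ A, ((χ u : Ω) * z ^ (4 * (a : ZMod f) * u : ZMod f).val +
          (χ (-u) : Ω) * z ^ (4 * (a : ZMod f) * ((-u : (ZMod f)ˣ) : ZMod f) : ZMod f).val) := by
      intro u _
      have hw : (z ^ (u : ZMod f).val) ^ f = 1 := by
        rw [← pow_mul, mul_comm, pow_mul, hzf, one_pow]
      have hw1 : z ^ (u : ZMod f).val ≠ 1 := by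
        apply hz.pow_ne_one_of_pos_of_lt
        · intro h2
          exact u.ne_zero ((ZMod.val_eq_zero _).1 h2)
        · exact ZMod.val_lt _
      rw [t1 hf hw hw1, ← hA, Finset.mul_sum]
      apply Finset.sum_congr rfl
      intro a ha
      rw [hA] at ha
      have haf : a < f := Finset.mem_range.1 (Finset.mem_filter.1 ha).1
      rw [hχneg, mul_add, ← pow_mul, ← pow_mul]
      congr 2
      · apply T2_pow hzf
        push_cast
        rw [ZMod.natCast_zmod_val, ZMod.natCast_zmod_val]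
        ring
      · apply T2_pow hzf
        rw [Nat.cast_mul, Nat.cast_mul, Nat.cast_sub haf.le, ZMod.natCast_self,
          ZMod.natCast_zmod_val, ZMod.natCast_zmod_val, Units.val_neg]
        push_cast
        ring
    unfold Tc
    rw [Finset.sum_congr rfl e1, Finset.sum_comm]
    apply Finset.sum_congr rfl
    intro a _
    exact T2_half hf h1 (fun u => (χ u : Ω) * z ^ (4 * (a : ZMod f) * (u : ZMod f) : ZMod f).val)
  -- step 3: restrict to units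
  obtain ⟨B, hB⟩ : ∃ B : Finset (ZMod f)ˣ, B = (Hf f).filter (fun u : (ZMod f)ˣ => f < 4 * (u : ZMod f).val) :=
    ⟨_, rfl⟩
  have hAB : ∑ u ∈ B, T2_g χ z (4 * (u : ZMod f)) = ∑ a ∈ A, T2_g χ z (4 * (a : ZMod f)) := by
    apply Finset.sum_of_injOn (fun u : (ZMod f)ˣ => (u : ZMod f).val)
    · intro u _ v _ huv
      exact Units.ext (ZMod.val_injective f huv)
    · intro u hu
      have hu' : u ∈ B := hu
      rw [hB, Finset.mem_filter] at hu'
      have h3 := hu'.1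
      unfold Hf at h3
      have h4 := (Finset.mem_filter.1 h3).2
      show (u : ZMod f).val ∈ (A : Set ℕ)
      rw [hA, Finset.mem_coe, Finset.mem_filter]
      exact ⟨Finset.mem_range.2 (ZMod.val_lt _), hu'.2, h4⟩
    · intro a ha hna
      apply hg0
      intro hunit
      apply hna
      rw [hA, Finset.mem_filter] at ha
      have haf : a < f := Finset.mem_range.1 ha.1
      have h5 : IsUnit (a : ZMod f) := isUnit_of_mul_isUnit_right hunit
      obtain ⟨u, hu⟩ := h5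
      have hua : (u : ZMod f).val = a := by
        rw [hu, ZMod.val_natCast, Nat.mod_eq_of_lt haf]
      refine ⟨u, ?_, hua⟩
      rw [hB, Finset.mem_coe, Finset.mem_filter]
      unfold Hf
      rw [Finset.mem_filter, hua]
      exact ⟨⟨Finset.mem_univ _, ha.2.2⟩, ha.2.1⟩
    · intro u _
      rw [ZMod.natCast_zmod_val]
  -- step 4
  have hSB : ∑ u ∈ B, (((χ u)⁻¹ : Ωˣ) : Ω) = 0 := by
    rw [← hS, hB, Finset.sum_filter]
    unfold Sc
    apply Finset.sum_congr rfl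
    intro u hu
    rw [T2_cs u hu]
    by_cases h6 : f < 4 * (u : ZMod f).val
    · rw [if_pos h6, if_pos h6, Nat.cast_one, mul_one]
      rfl
    · rw [if_neg h6, if_neg h6, Nat.cast_zero, mul_zero]
  rw [hT, ← hAB]
  have e2 : ∀ u ∈ B, T2_g χ z (4 * (u : ZMod f)) =
      (((χ u)⁻¹ : Ωˣ) : Ω) * ((((χ v4)⁻¹ : Ωˣ) : Ω) * T2_g χ z 1) := by
    intro u _
    have h7 : (4 * (u : ZMod f)) = (u : ZMod f) * ((v4 : ZMod f) * 1) := by
      rw [hv4]
      ring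
    rw [h7, T2_g_mul, T2_g_mul]
  rw [Finset.sum_congr rfl e2, ← Finset.sum_mul, hSB, zero_mul]

theorem t2 {Ω : Type*} [Field Ω] [CharP Ω 2] {p k : ℕ} [Fact p.Prime] (hp2 : p ≠ 2) {z : Ω}
    (hz : IsPrimitiveRoot z (p ^ (k + 1))) (χ : (ZMod (p ^ (k + 1)))ˣ →* Ωˣ) (hev : χ (-1) = 1) (hχ : Prim χ)
    (hS : Sc χ⁻¹ = 0) : Tc χ z = 0 := by
  have hp : p.Prime := Fact.out
  have hodd : Odd p := hp.odd_of_ne_two hp2
  refine T2_main (hodd.pow) (Nat.one_lt_pow (Nat.succ_ne_zero k) hp.one_lt) hz χ hev ?_ hS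
  intro x hx
  obtain ⟨v, ⟨t, ht⟩, hv⟩ := hχ
  refine ⟨v, ?_, hv⟩
  have hdvd : p ∣ x.val := by
    by_contra hnd
    apply hx
    have hc : Nat.Coprime x.val (p ^ (k + 1)) :=
      Nat.Coprime.pow_right _ ((Nat.coprime_comm.1 ((Nat.Prime.coprime_iff_not_dvd hp).2 hnd)))
    have h1 := (ZMod.isUnit_iff_coprime x.val (p ^ (k + 1))).2 hc
    rwa [ZMod.natCast_zmod_val] at h1
  obtain ⟨y, hy⟩ := hdvd
  have hxy : x = (p : ZMod (p ^ (k + 1))) * y := by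
    rw [← ZMod.natCast_zmod_val x, hy]
    push_cast
    ring
  have hp0 : (p : ZMod (p ^ (k + 1))) ^ k * p = 0 := by
    rw [← pow_succ]
    have h2 := ZMod.natCast_self (p ^ (k + 1))
    push_cast at h2
    exact h2
  rw [ht]
  have e : (1 + (p : ZMod (p ^ (k + 1))) ^ k * t) * x = x + (p : ZMod (p ^ (k + 1))) ^ k * p * (t * y) := by
    rw [hxy]
    ring
  rw [e, hp0, zero_mul, add_zero]

end H5SW
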