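import Pool.Agent.H5.SW.Ds

/-!
ROW T3 (the Tc sum does not depend on the level).  PROOF.
(b) for a unit `v` mod `p^(k+1)`, `P = p^(n-k)`: `∑_{u ↦ v} Fr (z^(u.val)) = Fr (z^(P * v.val))`: the `u` above `v` are the classes of
    `x + p^(k+1) j`, `x = v.val`, `j < P`; `z^(x + p^(k+1) j) = η^j X`, `η = z^(p^(k+1))` of exact order `P`, `X = z^x`; and `∑_{j<P} Fr (η^j X) = X^P/(1+X^P)^2 = Fr (X^P)`: from
    `1 + X^P = (1 + Y) ∑_{i<P} Y^i`, `Y = η^j X` (characteristic 2): `Fr Y = ∑_{i<P} Y^(2i+1) / (1+X^P)^2`, and `∑_j η^(j(2i+1)) = P = 1` if `P ∣ 2i+1`, i.e. `i = (P-1)/2`, else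
    `0` (`P` odd, `i < P`), giving `X^P` (`P = 1` clear). `1 + Y ≠ 0` since `z` has exact order `p^(n+1)` and `u` is a unit; `X^P ≠ 1`.
(c) `h u = χ'(ū) Fr (z^u.val)` is even (`Fr_inv`), so `Hf (p^(n+1))` may be replaced by the half system `{u : unitsMap u ∈ Hf (p^(k+1))}` (`sum_half`, `isHalf_Hf`), then sum over
    the fibers of `unitsMap` (`Finset.sum_fiberwise_of_maps_to`), (b).
-/

set_option autoImplicit false

namespace H5SW

open Finset

private lemma T3_sum {Ω : Type*} [Field Ω] [CharP Ω 2] {P : ℕ} (hP : Odd P) {η X : Ω}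
    (hη : IsPrimitiveRoot η P) (hX : X ^ P ≠ 1) :
    ∑ j ∈ range P, Fr (η ^ j * X) = Fr (X ^ P) := by
  have hneg : ∀ a : Ω, -a = a := fun a => CharTwo.neg_eq a
  have hD : 1 + X ^ P ≠ 0 := by
    intro h
    apply hX
    have := eq_neg_of_add_eq_zero_right h
    rw [this, hneg]
  have hP0 : 0 < P := hP.pos
  have hPΩ : (P : Ω) = 1 := by
    obtain ⟨r, hr⟩ := hP
    rw [hr]
    push_cast
    rw [show (2 : Ω) = 0 from CharTwo.two_eq_zero]
    ring
  have h1 : ∀ j : ℕ, Fr (η ^ j * X) = (∑ i ∈ range P, (η ^ j * X) ^ (2 * i + 1)) / (1 + X ^ P) ^ 2 := by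
    intro j
    set Y := η ^ j * X with hY
    have hYP : Y ^ P = X ^ P := by
      rw [hY, mul_pow, ← pow_mul, mul_comm j P, pow_mul, hη.pow_eq_one, one_pow, one_mul]
    have h2 : (1 + Y) * (∑ i ∈ range P, Y ^ i) = 1 + X ^ P := by
      have := mul_geom_sum Y P
      rw [hYP] at this
      have e1 : Y - 1 = 1 + Y := by rw [sub_eq_add_neg, hneg, add_comm]
      have e2 : X ^ P - 1 = 1 + X ^ P := by rw [sub_eq_add_neg, hneg, add_comm]
      rw [e1, e2] at this
      exact this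
    have h3 : 1 + Y ≠ 0 := by
      intro h
      rw [h, zero_mul] at h2
      exact hD h2.symm
    have h4 : ∑ i ∈ range P, Y ^ (2 * i + 1) = Y * (∑ i ∈ range P, Y ^ i) ^ 2 := by
      rw [CharTwo.sum_sq, mul_sum]
      refine sum_congr rfl fun i _ => ?_
      rw [pow_succ, mul_comm 2 i, pow_mul, mul_comm]
    rw [h4, ← h2]
    unfold Fr
    have h5 : (∑ i ∈ range P, Y ^ i) ≠ 0 := by
      intro h
      rw [h, mul_zero] at h2
      exact hD h2.symm
    field_simp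
  rw [sum_congr rfl (fun j _ => h1 j), ← sum_div, sum_comm]
  have h6 : ∀ i ∈ range P, ∑ j ∈ range P, (η ^ j * X) ^ (2 * i + 1) =
      if 2 * i + 1 = P then X ^ P else 0 := by
    intro i hi
    rw [mem_range] at hi
    have h7 : ∑ j ∈ range P, (η ^ j * X) ^ (2 * i + 1) =
        (∑ j ∈ range P, (η ^ (2 * i + 1)) ^ j) * X ^ (2 * i + 1) := by
      rw [sum_mul]
      refine sum_congr rfl fun j _ => ?_
      rw [mul_pow, ← pow_mul, ← pow_mul, mul_comm j]
    rw [h7]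
    split_ifs with h
    · rw [h, hη.pow_eq_one]
      simp [hPΩ]
    · have h8 : η ^ (2 * i + 1) ≠ 1 := by
        intro h9
        obtain ⟨c, hc⟩ := (hη.pow_eq_one_iff_dvd _).mp h9
        have hc2 : c < 2 := by
          by_contra hcc
          push Not at hcc
          nlinarith
        interval_cases c
        · omega
        · apply h; rw [hc, mul_one]
      have h9 : (η ^ (2 * i + 1) - 1) * ∑ j ∈ range P, (η ^ (2 * i + 1)) ^ j = 0 := by
        rw [mul_geom_sum, ← pow_mul, mul_comm _ P, pow_mul, hη.pow_eq_one, one_pow, sub_self]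
      rcases mul_eq_zero.mp h9 with h10 | h10
      · exact absurd (sub_eq_zero.mp h10) h8
      · rw [h10, zero_mul]
  rw [sum_congr rfl h6]
  obtain ⟨r, hr⟩ := hP
  rw [sum_eq_single r]
  · rw [if_pos hr.symm]; rfl
  · intro i _ hi
    rw [if_neg (by omega)]
  · intro h
    exact absurd (mem_range.mpr (by omega)) h

private lemma T3_fib {Ω : Type*} [Field Ω] {M P N : ℕ} [NeZero N] [NeZero M] (hN : N = M * P) (hMN : M ∣ N)
    (hcop : ∀ a : ℕ, a.Coprime M → a.Coprime N) (v : (ZMod M)ˣ) (g : ℕ → Ω) :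
    ∑ u ∈ univ.filter (fun u : (ZMod N)ˣ => ZMod.unitsMap hMN u = v), g (u : ZMod N).val =
      ∑ j ∈ range P, g ((v : ZMod M).val + M * j) := by
  have hM0 : 0 < M := Nat.pos_of_ne_zero (NeZero.ne M)
  have hvM : (v : ZMod M).val < M := ZMod.val_lt _
  have hco : ∀ j, ((v : ZMod M).val + M * j).Coprime N := by
    intro j
    apply hcop
    rw [Nat.coprime_add_mul_left_left]
    exact ZMod.val_coe_unit_coprime v
  have hval : ∀ u : (ZMod N)ˣ, ZMod.unitsMap hMN u = v → (u : ZMod N).val % M = (v : ZMod M).val := by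
    intro u hu
    have h1 : ((ZMod.unitsMap hMN u : (ZMod M)ˣ) : ZMod M) = ZMod.castHom hMN (ZMod M) (u : ZMod N) := rfl
    rw [hu, ZMod.castHom_apply] at h1
    rw [h1]
    have h2 : ((u : ZMod N).cast : ZMod M) = (((u : ZMod N).val : ℕ) : ZMod M) := by
      rw [ZMod.natCast_val]
    rw [h2, ZMod.val_natCast]
  refine sum_bij' (fun u _ => (u : ZMod N).val / M) (fun j _ => ZMod.unitOfCoprime _ (hco j)) ?_ ?_ ?_ ?_ ?_
  · intro u hu
    rw [mem_range, Nat.div_lt_iff_lt_mul hM0]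
    calc (u : ZMod N).val < N := (u : ZMod N).val_lt
      _ = P * M := by rw [hN, mul_comm]
  · intro j hj
    rw [mem_filter]
    refine ⟨mem_univ _, ?_⟩
    apply Units.ext
    have h1 : ((ZMod.unitsMap hMN (ZMod.unitOfCoprime _ (hco j)) : (ZMod M)ˣ) : ZMod M) =
      ZMod.castHom hMN (ZMod M) ((((v : ZMod M).val + M * j : ℕ)) : ZMod N) := rfl
    rw [h1, map_natCast]
    push_cast
    simp
  · intro u hu
    rw [mem_filter] at hu
    apply Units.ext
    rw [ZMod.coe_unitOfCoprime, ← hval u hu.2, Nat.mod_add_div]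
    simp
  · intro j hj
    rw [mem_range] at hj
    have hlt : (v : ZMod M).val + M * j < N := by
      rw [hN]
      have : M * (j + 1) ≤ M * P := Nat.mul_le_mul_left _ hj
      rw [mul_add] at this
      omega
    simp only [ZMod.coe_unitOfCoprime]
    rw [ZMod.val_natCast, Nat.mod_eq_of_lt hlt, Nat.add_mul_div_left _ _ hM0,
      Nat.div_eq_of_lt hvM, zero_add]
  · intro u hu
    rw [mem_filter] at hu
    rw [← hval u hu.2, Nat.mod_add_div]

private lemma T3_neg {M N : ℕ} (hMN : M ∣ N) (u : (ZMod N)ˣ) :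
    ZMod.unitsMap hMN (-u) = -ZMod.unitsMap hMN u := by
  apply Units.ext
  have h1 : ((ZMod.unitsMap hMN (-u) : (ZMod M)ˣ) : ZMod M) = ZMod.castHom hMN (ZMod M) (-(u : ZMod N)) := rfl
  have h2 : ((ZMod.unitsMap hMN u : (ZMod M)ˣ) : ZMod M) = ZMod.castHom hMN (ZMod M) (u : ZMod N) := rfl
  rw [Units.val_neg, h1, h2, map_neg]

theorem Tc_level {Ω : Type*} [Field Ω] [CharP Ω 2] {p n k : ℕ} [Fact p.Prime] (hp2 : p ≠ 2) (hk : k ≤ n) {z : Ω}
    (hz : IsPrimitiveRoot z (p ^ (n + 1))) (χ' : (ZMod (p ^ (k + 1)))ˣ →* Ωˣ) (hev : χ' (-1) = 1) :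
    Tc (χ'.comp (ZMod.unitsMap (pow_dvd_pow p (Nat.succ_le_succ hk)))) z = Tc χ' (z ^ (p ^ (n - k))) := by
  classical
  have hp : p.Prime := Fact.out
  have hpo : Odd p := hp.odd_of_ne_two hp2
  have hNM : p ^ (n + 1) = p ^ (k + 1) * p ^ (n - k) := by
    rw [← pow_add]; congr 1; omega
  have hMN : p ^ (k + 1) ∣ p ^ (n + 1) := pow_dvd_pow p (Nat.succ_le_succ hk)
  have hcop : ∀ a : ℕ, a.Coprime (p ^ (k + 1)) → a.Coprime (p ^ (n + 1)) := by
    intro a ha
    have := Nat.Coprime.coprime_dvd_right (dvd_pow_self p (Nat.succ_ne_zero k)) ha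
    exact this.pow_right _
  have hz0 : z ≠ 0 := hz.ne_zero (pow_ne_zero _ hp.ne_zero)
  have h1N : 1 < p ^ (n + 1) := Nat.one_lt_pow (Nat.succ_ne_zero n) hp.one_lt
  have h1M : 1 < p ^ (k + 1) := Nat.one_lt_pow (Nat.succ_ne_zero k) hp.one_lt
  have : Fact (1 < p ^ (n + 1)) := ⟨h1N⟩
  have : Fact (1 < p ^ (k + 1)) := ⟨h1M⟩
  have hη : IsPrimitiveRoot (z ^ (p ^ (k + 1))) (p ^ (n - k)) := hz.pow (by positivity) hNM
  -- the fibres
  have hb : ∀ v : (ZMod (p ^ (k + 1)))ˣ,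
      ∑ u ∈ univ.filter (fun u : (ZMod (p ^ (n + 1)))ˣ => ZMod.unitsMap hMN u = v),
        Fr (z ^ (u : ZMod (p ^ (n + 1))).val) = Fr ((z ^ (p ^ (n - k))) ^ (v : ZMod (p ^ (k + 1))).val) := by
    intro v
    rw [T3_fib hNM hMN hcop v (fun a => Fr (z ^ a))]
    have h2 : ∀ j ∈ range (p ^ (n - k)), Fr (z ^ ((v : ZMod (p ^ (k + 1))).val + p ^ (k + 1) * j)) =
        Fr ((z ^ (p ^ (k + 1))) ^ j * z ^ (v : ZMod (p ^ (k + 1))).val) := by
      intro j _
      rw [pow_add, pow_mul, mul_comm]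
    rw [sum_congr rfl h2, T3_sum (hpo.pow) hη, ← pow_mul, ← pow_mul, mul_comm]
    intro h3
    rw [← pow_mul] at h3
    have h4 := (hz.pow_eq_one_iff_dvd _).mp h3
    rw [hNM] at h4
    have h5 : p ^ (k + 1) ∣ (v : ZMod (p ^ (k + 1))).val := Nat.dvd_of_mul_dvd_mul_right (pow_pos hp.pos _) h4
    have h6 := Nat.Coprime.eq_one_of_dvd (ZMod.val_coe_unit_coprime v).symm h5
    omega
  unfold Tc
  have hA : IsHalf (univ.filter (fun u : (ZMod (p ^ (n + 1)))ˣ => ZMod.unitsMap hMN u ∈ Hf (p ^ (k + 1)))) := by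
    intro u
    have := isHalf_Hf (hpo.pow : Odd (p ^ (k + 1))) h1M (ZMod.unitsMap hMN u)
    simp only [mem_filter, mem_univ, true_and]
    rw [T3_neg]
    exact this
  rw [sum_half (isHalf_Hf (hpo.pow) h1N) hA]
  · have hmaps : ∀ u ∈ univ.filter (fun u : (ZMod (p ^ (n + 1)))ˣ => ZMod.unitsMap hMN u ∈ Hf (p ^ (k + 1))),
        ZMod.unitsMap hMN u ∈ Hf (p ^ (k + 1)) := fun u hu => (mem_filter.mp hu).2
    rw [← sum_fiberwise_of_maps_to hmaps]
    refine sum_congr rfl fun v hv => ?_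
    rw [← hb v, mul_sum, filter_filter]
    refine sum_congr ?_ ?_
    · ext u
      simp only [mem_filter, mem_univ, true_and]
      constructor
      · rintro ⟨_, h⟩; exact h
      · intro h; exact ⟨h ▸ hv, h⟩
    · intro u hu
      have hu2 := (mem_filter.mp hu).2
      rw [MonoidHom.comp_apply, hu2]
  · intro u
    have hu : (u : ZMod (p ^ (n + 1))) ≠ 0 := u.ne_zero
    have h2 : ((-u : (ZMod (p ^ (n + 1)))ˣ) : ZMod (p ^ (n + 1))).val = p ^ (n + 1) - (u : ZMod (p ^ (n + 1))).val := by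
      rw [Units.val_neg, ZMod.neg_val, if_neg hu]
    have h3 : z ^ (p ^ (n + 1) - (u : ZMod (p ^ (n + 1))).val) = (z ^ (u : ZMod (p ^ (n + 1))).val)⁻¹ := by
      apply eq_inv_of_mul_eq_one_left
      rw [← pow_add, Nat.sub_add_cancel (u : ZMod (p ^ (n + 1))).val_lt.le,
        hz.pow_eq_one]
    rw [h2, h3, Fr_inv (pow_ne_zero _ hz0), MonoidHom.comp_apply, MonoidHom.comp_apply, T3_neg]
    have h4 : χ' (-ZMod.unitsMap hMN u) = χ' (ZMod.unitsMap hMN u) := by
      rw [show -ZMod.unitsMap hMN u = (-1) * ZMod.unitsMap hMN u by simp, map_mul, hev, one_mul]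
    rw [h4]

end H5SW
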