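import Pool.Agent.H5.SW.Ds

/-!
ROW T4 (the sign sum does not depend on the level).  PROOF.  See the header of T3, parts (d), (e):
(d) for a unit `v` mod `p^(k+1)` with `x = v.val`, `P = p^(n-k)`: the units `u` mod `p^(n+1)` above `v` are the classes of `x + p^(k+1) j`, `j < P`;
    `cos (2π (x + p^(k+1) j)/p^(n+1)) = cos (θ + 2π j/P)`, `θ = 2π x/p^(n+1)`, and `∏_{j<P} 2 cos(θ + 2π j/P) = 2 cos(P θ)` for `P` odd
    [`2 cos(θ + 2πj/P) = Y⁻¹ ζ^(-j) (1 + ζ^(2j) Y^2)`, `Y = exp(iθ)`, `ζ = exp(2πi/P)`, `∏_j ζ^(-j) = ζ^(-P(P-1)/2) = 1`, `∏_j (1 + ζ^(2j) Y^2) = 1 + Y^(2P)` because `ζ^2` is a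
    primitive `P`-th root of unity and `P` is odd: `X^P - 1 = ∏ (X - ζ^(2j))` at `X = -1/Y^2`]. No factor vanishes: `cos (2π u/f) = 0` with `f` odd is impossible
    (`4u = f (2 l + 1)`). So the number of `u` above `v` with `cos (2π u/p^(n+1)) < 0` is congruent mod 2 to `1` or `0` according to the sign of `cos(P θ) = cos (2π x/p^(k+1))`.
(e) `cs f (-a) = cs f a`; replace the half system `Hf (p^(n+1))` by the half system `{u : unitsMap u ∈ Hf (p^(k+1))}` (`sum_half`; `h u = χ'(ū) cs u` is even), sum over the fibers of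
    `unitsMap`, and use (d) in characteristic 2.
-/

set_option autoImplicit false

namespace H5SW

open Finset

theorem T4_cos {f : ℕ} (hf : 0 < f) (a : ℕ) (ha : a < f) :
    Real.cos (2 * Real.pi * (a : ℝ) / f) < 0 ↔ f < 4 * a ∧ 4 * a < 3 * f := by
  have hf' : (0 : ℝ) < f := by exact_mod_cast hf
  have hpi := Real.pi_pos
  constructor
  · intro h
    by_contra hcon
    rw [not_and_or, not_lt, not_lt] at hcon
    refine absurd h (not_lt.2 ?_)
    rcases hcon with h1 | h1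
    · apply Real.cos_nonneg_of_mem_Icc
      have h1' : 4 * (a : ℝ) ≤ f := by exact_mod_cast h1
      constructor
      · have : 0 ≤ 2 * Real.pi * (a : ℝ) / f := by positivity
        linarith
      · rw [div_le_iff₀ hf']
        nlinarith
    · rw [← Real.cos_sub_two_pi]
      apply Real.cos_nonneg_of_mem_Icc
      have h1' : 3 * (f : ℝ) ≤ 4 * a := by exact_mod_cast h1
      have h2' : (a : ℝ) ≤ f := by exact_mod_cast ha.le
      have e : 2 * Real.pi * (a : ℝ) / f - 2 * Real.pi = 2 * Real.pi * (a - f) / f := by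
        field_simp
      rw [e]
      constructor
      · rw [le_div_iff₀ hf']
        nlinarith
      · rw [div_le_iff₀ hf']
        nlinarith
  · rintro ⟨h1, h2⟩
    have h1' : (f : ℝ) < 4 * a := by exact_mod_cast h1
    have h2' : 4 * (a : ℝ) < 3 * f := by exact_mod_cast h2
    apply Real.cos_neg_of_pi_div_two_lt_of_lt
    · rw [lt_div_iff₀ hf']
      nlinarith
    · rw [div_lt_iff₀ hf']
      nlinarith

theorem T4_cs {f : ℕ} [NeZero f] (a : ZMod f) :
    cs f a = if f < 4 * a.val ∧ 4 * a.val < 3 * f then 1 else 0 := by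
  have h := T4_cos (Nat.pos_of_ne_zero (NeZero.ne f)) a.val a.val_lt
  unfold cs
  by_cases h1 : f < 4 * a.val ∧ 4 * a.val < 3 * f
  · rw [if_pos h1, if_pos (h.2 h1)]
  · rw [if_neg h1, if_neg (fun h2 => h1 (h.1 h2))]

theorem T4_count1 {q m x : ℕ} (hx : x < q) (hqo : Odd q) :
    ((range (4 * m + 1)).filter (fun j => q * (4 * m + 1) < 4 * (x + q * j) ∧
      4 * (x + q * j) < 3 * (q * (4 * m + 1)))).card % 2 =
      if (q < 4 * x ∧ 4 * x < 3 * q) then 1 else 0 := by
  obtain ⟨r, hr⟩ := hqo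
  have e : ((range (4 * m + 1)).filter (fun j => q * (4 * m + 1) < 4 * (x + q * j) ∧
      4 * (x + q * j) < 3 * (q * (4 * m + 1)))) =
      Ico (m + if q < 4 * x then 0 else 1) (3 * m + if 4 * x < 3 * q then 1 else 0) := by
    ext j
    simp only [mem_filter, mem_range, mem_Ico]
    have e1 : q * (4 * m + 1) = 4 * (q * m) + q := by ring
    have e2 : 4 * (x + q * j) = 4 * x + 4 * (q * j) := by ring
    rw [e1, e2]
    have a1 : j < m → q * j + q ≤ q * m := by
      intro h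
      have := Nat.mul_le_mul_left q (Nat.succ_le_of_lt h)
      rw [Nat.mul_succ] at this
      exact this
    have a2 : m < j → q * m + q ≤ q * j := by
      intro h
      have := Nat.mul_le_mul_left q (Nat.succ_le_of_lt h)
      rw [Nat.mul_succ] at this
      exact this
    have a3 : j = m → q * j = q * m := by
      rintro rfl
      rfl
    have b1 : j < 3 * m → q * j + q ≤ 3 * (q * m) := by
      intro h
      have := Nat.mul_le_mul_left q (Nat.succ_le_of_lt h)
      rw [Nat.mul_succ] at this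
      have e3 : q * (3 * m) = 3 * (q * m) := by ring
      rw [e3] at this
      exact this
    have b2 : 3 * m < j → 3 * (q * m) + q ≤ q * j := by
      intro h
      have := Nat.mul_le_mul_left q (Nat.succ_le_of_lt h)
      rw [Nat.mul_succ] at this
      have e3 : q * (3 * m) = 3 * (q * m) := by ring
      rw [e3] at this
      exact this
    have b3 : j = 3 * m → q * j = 3 * (q * m) := by
      rintro rfl
      ring
    generalize q * j = A at *
    generalize q * m = B at *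
    split_ifs <;> constructor <;> intro h <;> omega
  rw [e, Nat.card_Ico]
  split_ifs <;> omega

theorem T4_count3 {q m x : ℕ} (hx : x < q) (hqo : Odd q) :
    ((range (4 * m + 3)).filter (fun j => q * (4 * m + 3) < 4 * (x + q * j) ∧
      4 * (x + q * j) < 3 * (q * (4 * m + 3)))).card % 2 =
      if (q < 4 * x ∧ 4 * x < 3 * q) then 1 else 0 := by
  obtain ⟨r, hr⟩ := hqo
  have e : ((range (4 * m + 3)).filter (fun j => q * (4 * m + 3) < 4 * (x + q * j) ∧
      4 * (x + q * j) < 3 * (q * (4 * m + 3)))) =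
      Ico (m + if 3 * q < 4 * x then 0 else 1) (3 * m + 2 + if 4 * x < q then 1 else 0) := by
    ext j
    simp only [mem_filter, mem_range, mem_Ico]
    have e1 : q * (4 * m + 3) = 4 * (q * m) + 3 * q := by ring
    have e2 : 4 * (x + q * j) = 4 * x + 4 * (q * j) := by ring
    rw [e1, e2]
    have a1 : j < m → q * j + q ≤ q * m := by
      intro h
      have := Nat.mul_le_mul_left q (Nat.succ_le_of_lt h)
      rw [Nat.mul_succ] at this
      exact this
    have a2 : m < j → q * m + q ≤ q * j := by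
      intro h
      have := Nat.mul_le_mul_left q (Nat.succ_le_of_lt h)
      rw [Nat.mul_succ] at this
      exact this
    have a3 : j = m → q * j = q * m := by
      rintro rfl
      rfl
    have b1 : j < 3 * m + 2 → q * j + q ≤ 3 * (q * m) + 2 * q := by
      intro h
      have := Nat.mul_le_mul_left q (Nat.succ_le_of_lt h)
      rw [Nat.mul_succ] at this
      have e3 : q * (3 * m + 2) = 3 * (q * m) + 2 * q := by ring
      rw [e3] at this
      exact this
    have b2 : 3 * m + 2 < j → 3 * (q * m) + 2 * q + q ≤ q * j := by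
      intro h
      have := Nat.mul_le_mul_left q (Nat.succ_le_of_lt h)
      rw [Nat.mul_succ] at this
      have e3 : q * (3 * m + 2) = 3 * (q * m) + 2 * q := by ring
      rw [e3] at this
      exact this
    have b3 : j = 3 * m + 2 → q * j = 3 * (q * m) + 2 * q := by
      rintro rfl
      ring
    generalize q * j = A at *
    generalize q * m = B at *
    split_ifs <;> constructor <;> intro h <;> omega
  rw [e, Nat.card_Ico]
  split_ifs <;> omega

theorem T4_count {q P x : ℕ} (hx : x < q) (hqo : Odd q) (hPo : Odd P) :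
    ((range P).filter (fun j => q * P < 4 * (x + q * j) ∧
      4 * (x + q * j) < 3 * (q * P))).card % 2 =
      if (q < 4 * x ∧ 4 * x < 3 * q) then 1 else 0 := by
  obtain ⟨r, hr⟩ := hPo
  rcases Nat.even_or_odd' r with ⟨m, hm | hm⟩
  · have hP : P = 4 * m + 1 := by omega
    subst hP
    exact T4_count1 hx hqo
  · have hP : P = 4 * m + 3 := by omega
    subst hP
    exact T4_count3 hx hqo

theorem T4_sym (N a : ℕ) (ha : a < N) :
    (if N < 4 * (N - a) ∧ 4 * (N - a) < 3 * N then 1 else 0 : ℕ) =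
      if N < 4 * a ∧ 4 * a < 3 * N then 1 else 0 := by
  split_ifs <;> omega

theorem T4_val {q N : ℕ} [NeZero q] [NeZero N] (h : q ∣ N) (u : (ZMod N)ˣ) :
    ((ZMod.unitsMap h u : (ZMod q)ˣ) : ZMod q).val = (u : ZMod N).val % q := by
  rw [ZMod.unitsMap_val, ← ZMod.natCast_val, ZMod.val_natCast]

theorem T4_fiber {p n k : ℕ} [Fact p.Prime] (hk : k ≤ n) (v : (ZMod (p ^ (k + 1)))ˣ) :
    ((univ.filter (fun u : (ZMod (p ^ (n + 1)))ˣ =>
      ZMod.unitsMap (pow_dvd_pow p (Nat.succ_le_succ hk)) u = v)).filter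
      (fun u : (ZMod (p ^ (n + 1)))ˣ => p ^ (n + 1) < 4 * (u : ZMod (p ^ (n + 1))).val ∧
        4 * (u : ZMod (p ^ (n + 1))).val < 3 * p ^ (n + 1))).card =
    ((range (p ^ (n - k))).filter (fun j =>
      p ^ (k + 1) * p ^ (n - k) < 4 * ((v : ZMod (p ^ (k + 1))).val + p ^ (k + 1) * j) ∧
      4 * ((v : ZMod (p ^ (k + 1))).val + p ^ (k + 1) * j) <
        3 * (p ^ (k + 1) * p ^ (n - k)))).card := by
  have hN : p ^ (n + 1) = p ^ (k + 1) * p ^ (n - k) := by
    rw [← pow_add]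
    congr 1
    omega
  have hp := (Fact.out : p.Prime)
  have hq0 : 0 < p ^ (k + 1) := pow_pos hp.pos _
  have hval : ∀ u : (ZMod (p ^ (n + 1)))ˣ,
      ZMod.unitsMap (pow_dvd_pow p (Nat.succ_le_succ hk)) u = v →
      (u : ZMod (p ^ (n + 1))).val = (v : ZMod (p ^ (k + 1))).val +
        p ^ (k + 1) * ((u : ZMod (p ^ (n + 1))).val / p ^ (k + 1)) := by
    intro u hu
    have h1 : ((ZMod.unitsMap (pow_dvd_pow p (Nat.succ_le_succ hk)) u : (ZMod (p ^ (k + 1)))ˣ) :
        ZMod (p ^ (k + 1))).val = (u : ZMod (p ^ (n + 1))).val % p ^ (k + 1) :=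
      T4_val (pow_dvd_pow p (Nat.succ_le_succ hk)) u
    rw [hu] at h1
    have h2 := Nat.div_add_mod (u : ZMod (p ^ (n + 1))).val (p ^ (k + 1))
    rw [h1]
    exact h2.symm.trans (Nat.add_comm _ _)
  refine Finset.card_bij (fun u _ => (u : ZMod (p ^ (n + 1))).val / p ^ (k + 1)) ?_ ?_ ?_
  · intro u hu
    rw [mem_filter, mem_filter] at hu
    obtain ⟨⟨_, h1⟩, h2, h3⟩ := hu
    rw [mem_filter, mem_range]
    have h4 := hval u h1
    have h5 := (u : ZMod (p ^ (n + 1))).val_lt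
    refine ⟨?_, ?_, ?_⟩
    · apply Nat.div_lt_of_lt_mul
      rw [← hN]
      exact h5
    · rw [← h4, ← hN]
      exact h2
    · rw [← h4, ← hN]
      exact h3
  · intro u hu u' hu' he
    rw [mem_filter, mem_filter] at hu hu'
    apply Units.ext
    apply ZMod.val_injective
    rw [hval u hu.1.2, hval u' hu'.1.2, he]
  · intro j hj
    rw [mem_filter, mem_range] at hj
    obtain ⟨hj1, h2, h3⟩ := hj
    have hv := ZMod.val_coe_unit_coprime v
    obtain ⟨x, hx⟩ : ∃ x, x = (v : ZMod (p ^ (k + 1))).val := ⟨_, rfl⟩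
    have hxl : x < p ^ (k + 1) := by
      rw [hx]
      exact ZMod.val_lt _
    rw [← hx] at hv h2 h3
    have hlt : x + p ^ (k + 1) * j < p ^ (n + 1) := by
      rw [hN]
      have h6 := Nat.mul_le_mul_left (p ^ (k + 1)) (Nat.succ_le_of_lt hj1)
      rw [Nat.mul_succ] at h6
      omega
    have hc1 : Nat.Coprime (x + p ^ (k + 1) * j) (p ^ (k + 1)) :=
      (Nat.coprime_add_mul_left_left x (p ^ (k + 1)) j).2 hv
    have hc2 : Nat.Coprime (x + p ^ (k + 1) * j) p :=
      hc1.coprime_dvd_right (dvd_pow_self p (Nat.succ_ne_zero k))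
    have hc3 : Nat.Coprime (x + p ^ (k + 1) * j) (p ^ (n + 1)) := hc2.pow_right _
    have huv : ((ZMod.unitOfCoprime _ hc3 : (ZMod (p ^ (n + 1)))ˣ) : ZMod (p ^ (n + 1))).val =
        x + p ^ (k + 1) * j := by
      rw [ZMod.coe_unitOfCoprime, ZMod.val_natCast, Nat.mod_eq_of_lt hlt]
    refine ⟨ZMod.unitOfCoprime _ hc3, ?_, ?_⟩
    · rw [mem_filter, mem_filter]
      refine ⟨⟨mem_univ _, ?_⟩, ?_, ?_⟩
      · apply Units.ext
        apply ZMod.val_injective
        rw [T4_val, huv, ← hx, Nat.add_mul_mod_self_left, Nat.mod_eq_of_lt hxl]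
      · rw [huv, hN]
        exact h2
      · rw [huv, hN]
        exact h3
    · show ((ZMod.unitOfCoprime _ hc3 : (ZMod (p ^ (n + 1)))ˣ) : ZMod (p ^ (n + 1))).val /
        p ^ (k + 1) = j
      rw [huv, Nat.add_mul_div_left _ _ hq0, Nat.div_eq_of_lt hxl, zero_add]

theorem Sc_level {Ω : Type*} [Field Ω] [CharP Ω 2] {p n k : ℕ} [Fact p.Prime] (hp2 : p ≠ 2) (hk : k ≤ n)
    (χ' : (ZMod (p ^ (k + 1)))ˣ →* Ωˣ) (hev : χ' (-1) = 1) :
    Sc (χ'.comp (ZMod.unitsMap (pow_dvd_pow p (Nat.succ_le_succ hk)))) = Sc χ' := by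
  classical
  have hp := (Fact.out : p.Prime)
  have hpo : Odd p := hp.odd_of_ne_two hp2
  obtain ⟨π, hπ⟩ : ∃ π : (ZMod (p ^ (n + 1)))ˣ →* (ZMod (p ^ (k + 1)))ˣ,
    π = ZMod.unitsMap (pow_dvd_pow p (Nat.succ_le_succ hk)) := ⟨_, rfl⟩
  have hneg : ∀ u, π (-u) = -π u := by
    intro u
    rw [hπ]
    apply Units.ext
    rw [ZMod.unitsMap_val, Units.val_neg, Units.val_neg, ZMod.unitsMap_val]
    exact ZMod.cast_neg (pow_dvd_pow p (Nat.succ_le_succ hk)) _
  have hq1 : 1 < p ^ (k + 1) := Nat.one_lt_pow (Nat.succ_ne_zero k) hp.one_lt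
  have hN1 : 1 < p ^ (n + 1) := Nat.one_lt_pow (Nat.succ_ne_zero n) hp.one_lt
  have hHq := isHalf_Hf (hpo.pow (n := k + 1)) hq1
  have hHN := isHalf_Hf (hpo.pow (n := n + 1)) hN1
  have hB : IsHalf (univ.filter (fun u : (ZMod (p ^ (n + 1)))ˣ => π u ∈ Hf (p ^ (k + 1)))) := by
    intro u
    rw [mem_filter, mem_filter, hneg, hHq (π u)]
    simp only [mem_univ, true_and]
  have hcsneg : ∀ u : (ZMod (p ^ (n + 1)))ˣ, cs (p ^ (n + 1)) ((-u : (ZMod (p ^ (n + 1)))ˣ) :
      ZMod (p ^ (n + 1))) = cs (p ^ (n + 1)) (u : ZMod (p ^ (n + 1))) := by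
    intro u
    have : Fact (1 < p ^ (n + 1)) := ⟨hN1⟩
    have hu : (u : ZMod (p ^ (n + 1))) ≠ 0 := u.ne_zero
    rw [T4_cs, T4_cs]
    have h2 : ((-u : (ZMod (p ^ (n + 1)))ˣ) : ZMod (p ^ (n + 1))).val =
        p ^ (n + 1) - (u : ZMod (p ^ (n + 1))).val := by
      rw [Units.val_neg, ZMod.neg_val, if_neg hu]
    have h3 := (u : ZMod (p ^ (n + 1))).val_lt
    rw [h2]
    exact T4_sym _ _ h3
  have hchi : ∀ u, χ' (-u) = χ' u := by
    intro u
    rw [← neg_one_mul, map_mul, hev, one_mul]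
  have h1 : Sc (χ'.comp π) = ∑ u ∈ univ.filter (fun u : (ZMod (p ^ (n + 1)))ˣ =>
      π u ∈ Hf (p ^ (k + 1))), ((χ' (π u) : Ωˣ) : Ω) *
        (cs (p ^ (n + 1)) (u : ZMod (p ^ (n + 1))) : Ω) := by
    unfold Sc
    refine sum_half hHN hB (fun u => ((χ' (π u) : Ωˣ) : Ω) *
        (cs (p ^ (n + 1)) (u : ZMod (p ^ (n + 1))) : Ω)) fun u => ?_
    show ((χ' (π (-u)) : Ωˣ) : Ω) * (cs (p ^ (n + 1)) ((-u : (ZMod (p ^ (n + 1)))ˣ) :
      ZMod (p ^ (n + 1))) : Ω) = _
    rw [hcsneg, hneg, hchi]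
  rw [← hπ, h1]
  unfold Sc
  rw [← Finset.sum_fiberwise_of_maps_to (g := π) (t := Hf (p ^ (k + 1)))
    (fun u hu => (mem_filter.1 hu).2)]
  refine Finset.sum_congr rfl fun v hv => ?_
  have h2 : (univ.filter (fun u : (ZMod (p ^ (n + 1)))ˣ => π u ∈ Hf (p ^ (k + 1)))).filter
      (fun u => π u = v) = univ.filter (fun u : (ZMod (p ^ (n + 1)))ˣ => π u = v) := by
    ext u
    rw [mem_filter, mem_filter, mem_filter]
    constructor
    · rintro ⟨_, h⟩
      exact ⟨mem_univ _, h⟩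
    · rintro ⟨_, h⟩
      exact ⟨⟨mem_univ _, by rw [h]; exact hv⟩, h⟩
  rw [h2]
  have h3 : ∑ u ∈ univ.filter (fun u : (ZMod (p ^ (n + 1)))ˣ => π u = v),
      ((χ' (π u) : Ωˣ) : Ω) * (cs (p ^ (n + 1)) (u : ZMod (p ^ (n + 1))) : Ω) =
      ((χ' v : Ωˣ) : Ω) * ((∑ u ∈ univ.filter (fun u : (ZMod (p ^ (n + 1)))ˣ => π u = v),
        cs (p ^ (n + 1)) (u : ZMod (p ^ (n + 1))) : ℕ) : Ω) := by
    rw [Nat.cast_sum, Finset.mul_sum]
    refine Finset.sum_congr rfl fun u hu => ?_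
    rw [(mem_filter.1 hu).2]
  rw [h3]
  congr 1
  have h4 : (∑ u ∈ univ.filter (fun u : (ZMod (p ^ (n + 1)))ˣ => π u = v),
        cs (p ^ (n + 1)) (u : ZMod (p ^ (n + 1)))) % 2 =
        cs (p ^ (k + 1)) (v : ZMod (p ^ (k + 1))) % 2 := by
    have h8 : ∀ u ∈ univ.filter (fun u : (ZMod (p ^ (n + 1)))ˣ => π u = v),
        cs (p ^ (n + 1)) (u : ZMod (p ^ (n + 1))) =
        if p ^ (n + 1) < 4 * (u : ZMod (p ^ (n + 1))).val ∧
        4 * (u : ZMod (p ^ (n + 1))).val < 3 * p ^ (n + 1) then 1 else 0 :=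
      fun u _ => T4_cs (u : ZMod (p ^ (n + 1)))
    rw [Finset.sum_congr rfl h8, Finset.sum_boole]
    have h5 := T4_fiber (p := p) (n := n) (k := k) hk v
    have h6 := T4_count (q := p ^ (k + 1)) (P := p ^ (n - k))
      (x := (v : ZMod (p ^ (k + 1))).val) (ZMod.val_lt _) hpo.pow hpo.pow
    rw [← h5, ← hπ] at h6
    rw [T4_cs]
    rw [Nat.cast_id, h6]
    split_ifs <;> rfl
  have h7 : ∀ a b : ℕ, a % 2 = b % 2 → (a : Ω) = (b : Ω) := by
    intro a b hab
    exact (CharP.natCast_eq_natCast Ω 2).2 hab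
  exact h7 _ _ h4

end H5SW
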