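import Pool.Agent.H5.SW.T0
import Pool.Agent.H5.SW.T2
import Pool.Agent.H5.SW.T3
import Pool.Agent.H5.SW.T4
import Pool.Agent.H5.SW.Ps
import Pool.Agent.H5.SW.Gn

/-!
ROW T5 (non vanishing on the Galois group).  PROOF.  `f = p^(n+1)`. Let `χ : Gal(L/ℚ) →* Ωˣ` be non trivial on `Gal(L/K)`, `χ1 = χ ∘ rL.σ`, even as `σ(-1) = 1`.
(1) Sums over `Gal(L/ℚ)` are sums over `Hf f`: `σ` induces a bijection `Hf f → Gal(L/ℚ)` (`isHalf_Hf`, `surj`, `ker`), so for every `F`,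
    `∑_g F g = ∑_{u ∈ Hf f} F (σ u)`. `rL.sg (σ u) = cs f u` (by `e_σ`, `hφ`: `φ (c u) = 2 cos(2π u.val/f) < 0` iff `cos < 0`). For `ψ` choose `z` by `psi`
    (replace `Ω` by `AlgebraicClosure Ω`: the inclusion is injective, characteristic 2, `p ≠ 0` since `p` is odd): `ψ(e(σ u))⁻¹ = (z^a + z^(-a))⁻¹ = z^a/(1+z^(2a)) = Fr (z^a)`,
    `a = u.val`, characteristic 2. So the two sums are `Sc χ1` and `Tc χ1 z`.
(2) By `RP.mem_iff`, `χ1` is non trivial on some `u` with `unitsMap u = 1` (level `m+1`): `factor_level` gives `k`, `m < k ≤ n`, `χ1 = χ' ∘ unitsMap`, `χ'(-1) = 1`, `Prim χ'`.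
    `Tc_level`: `Tc χ1 z = Tc χ' (z^(p^(n-k)))`, `z^(p^(n-k))` a primitive `p^(k+1)`-th root of unity, `≠ 0` by the hypothesis `hS` (`k ≥ m + 1 ≥ k0 + 1 > k0`).
    `Sc_level`: `Sc χ1 = Sc χ'`, and `Sc χ' ≠ 0` because otherwise `t2` for `χ'⁻¹` (even, `Prim`) gives `Tc χ'⁻¹ z' = 0` for `z'` a primitive `p^(k+1)`-th root of unity of
    `AlgebraicClosure Ω` (it exists: `p` odd), contradicting `hS`.
-/

set_option autoImplicit false

namespace H5SW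

open NumberField

/-- non vanishing from level `k0` on -/
def NV (p k0 : ℕ) [Fact p.Prime] : Prop :=
  ∀ k ≥ k0, ∀ (Ω : Type) [Field Ω] [CharP Ω 2] (z : Ω), IsPrimitiveRoot z (p ^ (k + 1)) →
      ∀ χ : (ZMod (p ^ (k + 1)))ˣ →* Ωˣ, χ (-1) = 1 → Prim χ → Tc χ z ≠ 0

private theorem T5_sum {f : ℕ} [NeZero f] {L : Type} [Field L] [NumberField L] (r : RC f L)
    {M : Type*} [AddCommMonoid M] (F : (L ≃ₐ[ℚ] L) → M) :
    ∑ g, F g = ∑ u ∈ Hf f, F (r.σ u) := by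
  classical
  have hhalf : IsHalf (Hf f) := isHalf_Hf r.odd (by have := r.two_lt; omega)
  symm
  refine Finset.sum_bij (fun u _ => r.σ u) (fun u _ => Finset.mem_univ _) ?_ ?_ (fun u _ => rfl)
  · intro u hu v hv h
    have h1 : r.σ (u * v⁻¹) = 1 := by rw [map_mul, map_inv, h, mul_inv_cancel]
    rcases (r.ker _).mp h1 with h2 | h2
    · rwa [mul_inv_eq_one] at h2
    · exfalso
      have h3 : u = -v := by rw [mul_inv_eq_iff_eq_mul] at h2; rw [h2, neg_one_mul]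
      rw [h3] at hu
      exact (hhalf v).mp hv hu
  · intro g _
    obtain ⟨u, rfl⟩ := r.surj g
    by_cases hu : u ∈ Hf f
    · exact ⟨u, hu, rfl⟩
    · refine ⟨-u, ?_, r.σ_neg u⟩
      by_contra h
      exact hu ((hhalf u).mpr h)

private theorem T5_inv {Ω : Type} [Field Ω] [CharP Ω 2] {x : Ω} (hx : x ≠ 0) : (x + x⁻¹)⁻¹ = Fr x := by
  have h2 : (2 : Ω) = 0 := by
    have := CharP.cast_eq_zero Ω 2
    exact_mod_cast this
  have h1 : x + x⁻¹ = (1 + x) ^ 2 / x := by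
    field_simp
    linear_combination -x * h2
  unfold Fr
  rw [h1, inv_div]

private theorem T5_prim_inv {p k : ℕ} {Ω : Type} [Field Ω] {χ : (ZMod (p ^ (k + 1)))ˣ →* Ωˣ} (h : Prim χ) :
    Prim χ⁻¹ := by
  obtain ⟨u, ht, hu⟩ := h
  refine ⟨u, ht, fun h2 => hu ?_⟩
  rw [MonoidHom.inv_apply, inv_eq_one] at h2
  exact h2

private theorem T5_root {p : ℕ} [Fact p.Prime] (hp2 : p ≠ 2) {Ω : Type} [Field Ω] [IsAlgClosed Ω] [CharP Ω 2]
    (k : ℕ) : ∃ z : Ω, IsPrimitiveRoot z (p ^ (k + 1)) := by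
  have hp : p.Prime := Fact.out
  have h1 : ((p ^ (k + 1) : ℕ) : Ω) ≠ 0 := by
    intro h0
    rw [CharP.cast_eq_zero_iff Ω 2] at h0
    have h2 := (Nat.prime_two).dvd_of_dvd_pow h0
    exact hp2 ((Nat.prime_dvd_prime_iff_eq Nat.prime_two hp).mp h2).symm
  haveI : NeZero ((p ^ (k + 1) : ℕ) : Ω) := ⟨h1⟩
  exact HasEnoughRootsOfUnity.exists_primitiveRoot Ω (p ^ (k + 1))

private theorem T5_core {p k0 : ℕ} [Fact p.Prime] (hp2 : p ≠ 2) (hS : NV p k0) {m n : ℕ} (hm : k0 ≤ m + 1)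
    (hmn : m ≤ n) {Ω : Type} [Field Ω] [IsAlgClosed Ω] [CharP Ω 2]
    (χ : (ZMod (p ^ (n + 1)))ˣ →* Ωˣ) (hev : χ (-1) = 1)
    (hmu : ∃ u, ZMod.unitsMap (pow_dvd_pow p (Nat.succ_le_succ hmn)) u = 1 ∧ χ u ≠ 1) :
    Sc χ ≠ 0 ∧ ∀ z : Ω, IsPrimitiveRoot z (p ^ (n + 1)) → Tc χ z ≠ 0 := by
  obtain ⟨k, hmk, hkn, χ', rfl, hev', hprim⟩ := factor_level hp2 hmn χ hev hmu
  have hk0 : k0 ≤ k := by omega
  constructor
  · rw [Sc_level hp2 hkn χ' hev']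
    intro h0
    obtain ⟨z, hz⟩ := T5_root (Ω := Ω) hp2 k
    have hevi : χ'⁻¹ (-1) = 1 := by rw [MonoidHom.inv_apply, hev', inv_one]
    have hii : (χ'⁻¹)⁻¹ = χ' := by
      ext u
      rw [MonoidHom.inv_apply, MonoidHom.inv_apply, inv_inv]
    have h1 : Tc χ'⁻¹ z = 0 := t2 hp2 hz χ'⁻¹ hevi (T5_prim_inv hprim) (by rw [hii]; exact h0)
    exact hS k hk0 Ω z hz χ'⁻¹ hevi (T5_prim_inv hprim) h1
  · intro z hz
    rw [Tc_level hp2 hkn hz χ' hev']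
    have hp : p.Prime := Fact.out
    have hz' : IsPrimitiveRoot (z ^ (p ^ (n - k))) (p ^ (k + 1)) := by
      refine hz.pow (pow_pos hp.pos _) ?_
      rw [← pow_add]
      congr 1
      omega
    exact hS k hk0 Ω _ hz' χ' hev' hprim

theorem nonvanish {p k0 : ℕ} [Fact p.Prime] (hp2 : p ≠ 2) (hS : NV p k0) {m n : ℕ} (hm : k0 ≤ m + 1) {K L : Type} [Field K]
    [NumberField K] [Field L] [NumberField L] [Algebra K L] (r : RP p m n K L) {Ω : Type} [Field Ω] [CharP Ω 2]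
    (χ : (L ≃ₐ[ℚ] L) →* Ωˣ) (hχ : ∃ h : L ≃ₐ[K] L, χ (h.restrictScalars ℚ) ≠ 1) :
    (∑ g : L ≃ₐ[ℚ] L, (χ g : Ω) * (r.rL.sg g : Ω) ≠ 0) ∧
      ∀ ψ : 𝓞 L →+* Ω, ∑ g : L ≃ₐ[ℚ] L, (χ g : Ω) * (ψ (r.rL.e g : 𝓞 L))⁻¹ ≠ 0 := by
  classical
  have hp : p.Prime := Fact.out
  set ι : Ω →+* AlgebraicClosure Ω := algebraMap Ω (AlgebraicClosure Ω) with hι
  have hinj : Function.Injective ι := ι.injective
  set χ1 : (ZMod (p ^ (n + 1)))ˣ →* (AlgebraicClosure Ω)ˣ := (Units.map (ι : Ω →* AlgebraicClosure Ω)).comp (χ.comp r.rL.σ)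
    with hχ1
  have hχ1v : ∀ u, ((χ1 u : (AlgebraicClosure Ω)ˣ) : AlgebraicClosure Ω) = ι (χ (r.rL.σ u) : Ω) := fun u => rfl
  have hev : χ1 (-1) = 1 := by
    have h4 : r.rL.σ (-1) = 1 := (r.rL.ker (-1)).mpr (Or.inr rfl)
    ext
    rw [hχ1v, h4, map_one]
    simp
  have hmu : ∃ u, ZMod.unitsMap (pow_dvd_pow p (Nat.succ_le_succ r.hmn)) u = 1 ∧ χ1 u ≠ 1 := by
    obtain ⟨h, hh⟩ := hχ
    obtain ⟨u, hu, hu2⟩ := (r.mem_iff hp2 (h.restrictScalars ℚ)).mp ⟨h, rfl⟩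
    refine ⟨u, hu, fun h1 => hh ?_⟩
    rw [← hu2]
    ext
    apply hinj
    rw [← hχ1v, h1]
    simp
  obtain ⟨hSc, hTc⟩ := T5_core hp2 hS hm r.hmn χ1 hev hmu
  constructor
  · intro h0
    apply hSc
    rw [T5_sum r.rL] at h0
    have h1 := congrArg ι h0
    rw [map_sum, map_zero] at h1
    rw [← h1]
    unfold Sc
    refine Finset.sum_congr rfl fun u _ => ?_
    rw [map_mul, hχ1v]
    congr 1
    unfold RC.sg cs
    rw [r.rL.e_σ, r.rL.hφ]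
    by_cases hc : Real.cos (2 * Real.pi * (((u : ZMod (p ^ (n + 1))).val : ℕ) : ℝ) / ((p ^ (n + 1) : ℕ) : ℝ)) < 0
    · rw [if_pos hc, if_pos (by linarith)]
      simp
    · rw [if_neg hc, if_neg (by linarith)]
      simp
  · intro ψ h0
    have hpne : (p : AlgebraicClosure Ω) ≠ 0 := by
      intro h1
      rw [CharP.cast_eq_zero_iff (AlgebraicClosure Ω) 2] at h1
      exact hp2 ((Nat.prime_dvd_prime_iff_eq Nat.prime_two hp).mp h1).symm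
    obtain ⟨z, hz, hzc⟩ := psi hp2 r.rL hpne (ι.comp ψ)
    apply hTc z hz
    rw [T5_sum r.rL] at h0
    have h1 := congrArg ι h0
    rw [map_sum, map_zero] at h1
    rw [← h1]
    unfold Tc
    refine Finset.sum_congr rfl fun u _ => ?_
    rw [map_mul, hχ1v]
    congr 1
    have hz0 : z ≠ 0 := hz.ne_zero (pow_ne_zero _ hp.ne_zero)
    rw [map_inv₀, r.rL.e_σ]
    have h2 := hzc (u : ZMod (p ^ (n + 1)))
    rw [RingHom.comp_apply] at h2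
    rw [h2, T5_inv (pow_ne_zero _ hz0)]

end H5SW
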