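import Pool.Agent.H5.SW.Ds

/-!
ROW E0 (Teichmueller units; parameters).  PROOF.
(a) `teich_exists`: Hensel (`hensels_lemma` / `HenselianLocalRing` for `ℤ_[p]`) applied to `X^(p-1) - 1` at a lift of `a` (derivative `(p-1) a^(p-2)` is a unit,
    `a^(p-1) = 1` in `ZMod p`), or the limit of `b^(p^n)`. A root is a unit of `ℤ_[p]`.
(b) `teich_unique`: if `x^(p-1) = y^(p-1) = 1`, `x ≡ y mod p`, then `w = x y⁻¹` has `w^(p-1) = 1`, `w = 1 + p t`; `0 = w^(p-1) - 1 = p t * ∑_{i<p-1} w^i` and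
    the sum is `≡ p - 1 ≡ -1 mod p`, a unit; so `p t = 0`.
(c) `exists_EH`: the set of roots is finite (`μ_{p-1}`), `x ↦ -x` is a fixed point free involution preserving it (`p - 1` is even); take `E` = the roots whose
    residue `a` in `ZMod p` satisfies `2 * a.val < p` (so `1 ∈ E`).
(d) `exists_QD`: take `r0` = odd part of `p - 1`, `s = φ(p r0)` (`2^s ≡ 1 mod p r0`, `s ≥ 1`), `e = v_p(2^s - 1) ≥ 1` (`2^s - 1 ≠ 0`).
(e) `QD_three`: `QD 3 1 2` since `2^2 - 1 = 3` and odd divisors of `2` are `1`.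
-/

set_option autoImplicit false

namespace H5SW

lemma toZMod_ne_zero_iff {p : ℕ} [Fact p.Prime] (z : ℤ_[p]) : PadicInt.toZMod z ≠ 0 ↔ ‖z‖ = 1 := by
  rw [← PadicInt.isUnit_iff, Ne, ← RingHom.mem_ker, PadicInt.ker_toZMod, IsLocalRing.mem_maximalIdeal,
    mem_nonunits_iff, not_not]

lemma toZMod_eq_zero_iff {p : ℕ} [Fact p.Prime] (z : ℤ_[p]) : PadicInt.toZMod z = 0 ↔ ‖z‖ < 1 := by
  have h := toZMod_ne_zero_iff z
  constructor
  · intro h0
    refine lt_of_le_of_ne (PadicInt.norm_le_one z) ?_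
    intro h1
    exact (h.mpr h1) h0
  · intro h0
    by_contra h1
    exact (ne_of_lt h0) (h.mp h1)

theorem teich_exists {p : ℕ} [Fact p.Prime] (a : ZMod p) (ha : a ≠ 0) :
    ∃ x : ℤ_[p]ˣ, x ^ (p - 1) = 1 ∧ PadicInt.toZMod (x : ℤ_[p]) = a := by
  have hp : p.Prime := Fact.out
  have hp1 : 1 < p := hp.one_lt
  set b : ℤ_[p] := (a.val : ℤ_[p]) with hb
  have hba : PadicInt.toZMod b = a := by
    rw [hb, map_natCast, ZMod.natCast_zmod_val]
  set F : Polynomial ℤ_[p] := Polynomial.X ^ (p - 1) - 1 with hF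
  have h1 : ‖F.eval b‖ < 1 := by
    rw [← toZMod_eq_zero_iff]
    simp only [hF, Polynomial.eval_sub, Polynomial.eval_pow, Polynomial.eval_X, Polynomial.eval_one, map_sub,
      map_pow, map_one, hba]
    rw [ZMod.pow_card_sub_one_eq_one ha, sub_self]
  have h2 : ‖F.derivative.eval b‖ = 1 := by
    rw [← toZMod_ne_zero_iff]
    have h3 : F.derivative = Polynomial.C ((p - 1 : ℕ) : ℤ_[p]) * Polynomial.X ^ (p - 1 - 1) := by
      rw [hF]
      simp [Polynomial.derivative_X_pow]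
    rw [h3]
    simp only [Polynomial.eval_mul, Polynomial.eval_natCast, Polynomial.eval_pow, Polynomial.eval_X, map_mul, map_pow,
      map_natCast, hba]
    apply mul_ne_zero _ (pow_ne_zero _ ha)
    rw [Ne, ZMod.natCast_eq_zero_iff]
    intro h4
    have := Nat.le_of_dvd (by omega) h4
    omega
  obtain ⟨z, hz1, hz2, -, -⟩ := hensels_lemma (p := p) (F := F) (a := b) (by
    simpa [h2] using h1)
  have hz3 : z ^ (p - 1) = 1 := by
    have : z ^ (p - 1) - 1 = 0 := by simpa [hF] using hz1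
    exact sub_eq_zero.mp this
  have hz4 : PadicInt.toZMod z = a := by
    have h5 : ‖z - b‖ < 1 := by
      have : ‖z - b‖ < ‖F.derivative.eval b‖ := by simpa using hz2
      rwa [h2] at this
    rw [← toZMod_eq_zero_iff, map_sub, hba, sub_eq_zero] at h5
    exact h5
  have hzu : IsUnit z := by
    rw [PadicInt.isUnit_iff, ← toZMod_ne_zero_iff, hz4]
    exact ha
  obtain ⟨u, hu⟩ := hzu
  refine ⟨u, ?_, by rw [hu]; exact hz4⟩
  apply Units.ext
  rw [Units.val_pow_eq_pow_val, hu, hz3, Units.val_one]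

theorem teich_unique {p : ℕ} [Fact p.Prime] {x y : ℤ_[p]ˣ} (hx : x ^ (p - 1) = 1) (hy : y ^ (p - 1) = 1)
    (h : PadicInt.toZMod (x : ℤ_[p]) = PadicInt.toZMod (y : ℤ_[p])) : x = y := by
  have hp : p.Prime := Fact.out
  have hp1 : 1 < p := hp.one_lt
  set w : ℤ_[p]ˣ := x * y⁻¹ with hw
  have hw1 : w ^ (p - 1) = 1 := by
    rw [hw, mul_pow, inv_pow, hx, hy]; simp
  have hxw : x = w * y := by rw [hw]; group
  have hy0 : PadicInt.toZMod (y : ℤ_[p]) ≠ 0 := by
    rw [toZMod_ne_zero_iff, ← PadicInt.isUnit_iff]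
    exact y.isUnit
  have hw2 : PadicInt.toZMod (w : ℤ_[p]) = 1 := by
    rw [hxw, Units.val_mul, map_mul] at h
    exact mul_right_cancel₀ hy0 (by rw [h, one_mul])
  have hw3 : ((w : ℤ_[p]) - 1) * ∑ i ∈ Finset.range (p - 1), (w : ℤ_[p]) ^ i = 0 := by
    rw [mul_geom_sum, ← Units.val_pow_eq_pow_val, hw1, Units.val_one, sub_self]
  have hw4 : ∑ i ∈ Finset.range (p - 1), (w : ℤ_[p]) ^ i ≠ 0 := by
    intro h0
    have h1 := congrArg PadicInt.toZMod h0
    simp only [map_sum, map_pow, hw2, one_pow, Finset.sum_const, Finset.card_range, nsmul_eq_mul, mul_one,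
      map_zero] at h1
    rw [ZMod.natCast_eq_zero_iff] at h1
    have := Nat.le_of_dvd (by omega) h1
    omega
  have hw5 : (w : ℤ_[p]) = 1 := by
    rcases mul_eq_zero.mp hw3 with h0 | h0
    · exact sub_eq_zero.mp h0
    · exact absurd h0 hw4
  have hw6 : w = 1 := Units.ext hw5
  rw [hxw, hw6, one_mul]

theorem exists_EH {p : ℕ} [Fact p.Prime] (hp2 : p ≠ 2) : ∃ E : Finset ℤ_[p]ˣ, EH p E := by
  classical
  have hp : p.Prime := Fact.out
  have hp1 : 1 < p := hp.one_lt
  have hodd : Odd p := hp.odd_of_ne_two hp2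
  have hev : Even (p - 1) := hp.even_sub_one hp2
  choose t ht1 ht2 using fun a : (ZMod p)ˣ => teich_exists (p := p) (a : ZMod p) a.ne_zero
  have key : ∀ (x : ℤ_[p]ˣ), x ^ (p - 1) = 1 → ∀ a : (ZMod p)ˣ, PadicInt.toZMod (x : ℤ_[p]) = a → t a = x := by
    intro x hx a ha
    exact teich_unique (ht1 a) hx (by rw [ht2 a, ha])
  have hneg : ∀ a : (ZMod p)ˣ, ((-a : (ZMod p)ˣ) : ZMod p).val = p - (a : ZMod p).val := by
    intro a
    rw [Units.val_neg, ZMod.neg_val, if_neg a.ne_zero]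
  refine ⟨(Finset.univ.filter (fun a : (ZMod p)ˣ => 2 * (a : ZMod p).val < p)).image t, ?_, ?_, ?_, ?_⟩
  · rw [Finset.mem_image]
    refine ⟨1, ?_, key 1 (one_pow _) 1 (by simp)⟩
    simp only [Finset.mem_filter, Finset.mem_univ, true_and, Units.val_one]
    haveI : Fact (1 < p) := ⟨hp1⟩
    rw [ZMod.val_one]
    have := hp.two_le
    omega
  · intro x hx
    rw [Finset.mem_image] at hx
    obtain ⟨a, -, rfl⟩ := hx
    exact ht1 a
  · intro x hx hx'
    rw [Finset.mem_image] at hx hx'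
    obtain ⟨a, ha, rfl⟩ := hx
    obtain ⟨b, hb, hab⟩ := hx'
    simp only [Finset.mem_filter, Finset.mem_univ, true_and] at ha hb
    have h1 : (b : ZMod p) = ((-a : (ZMod p)ˣ) : ZMod p) := by
      rw [← ht2 b, hab, Units.val_neg, map_neg, ht2 a, Units.val_neg]
    rw [h1, hneg a] at hb
    have := (a : ZMod p).val_lt
    omega
  · intro x hx
    have hx0 : PadicInt.toZMod (x : ℤ_[p]) ≠ 0 := by
      rw [toZMod_ne_zero_iff, ← PadicInt.isUnit_iff]
      exact x.isUnit
    set a : (ZMod p)ˣ := Units.mk0 _ hx0 with ha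
    have haa : PadicInt.toZMod (x : ℤ_[p]) = a := by rw [ha, Units.val_mk0]
    by_cases h2 : 2 * (a : ZMod p).val < p
    · left
      rw [Finset.mem_image]
      exact ⟨a, by simp [h2], key x hx a haa⟩
    · right
      rw [Finset.mem_image]
      refine ⟨-a, ?_, key (-x) (by rw [hev.neg_pow, hx]) (-a) ?_⟩
      · simp only [Finset.mem_filter, Finset.mem_univ, true_and, hneg a]
        have := (a : ZMod p).val_lt
        obtain ⟨r, hr⟩ := hodd
        omega
      · rw [Units.val_neg, map_neg, haa, Units.val_neg]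

theorem exists_QD {p : ℕ} [Fact p.Prime] (hp2 : p ≠ 2) : ∃ e s : ℕ, QD p e s := by
  have hp : p.Prime := Fact.out
  have hp1 : 1 < p := hp.one_lt
  have hodd : Odd p := hp.odd_of_ne_two hp2
  obtain ⟨k, r0, hr0, hk⟩ := Nat.exists_eq_two_pow_mul_odd (n := p - 1) (by omega)
  have hr0pos : 0 < r0 := hr0.pos
  set s := Nat.totient (p * r0) with hs
  have hs1 : 1 ≤ s := Nat.totient_pos.mpr (by positivity)
  have hcop : Nat.Coprime 2 (p * r0) := by
    rw [Nat.coprime_two_left]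
    exact hodd.mul hr0
  have hmod : 2 ^ s ≡ 1 [MOD p * r0] := Nat.ModEq.pow_totient hcop
  have hdvd : p * r0 ∣ 2 ^ s - 1 := (Nat.modEq_iff_dvd' Nat.one_le_two_pow).mp hmod.symm
  have h2s : 1 < 2 ^ s := Nat.one_lt_two_pow (by omega)
  have hne : 2 ^ s - 1 ≠ 0 := by omega
  have hpd : p ∣ 2 ^ s - 1 := (dvd_mul_right p r0).trans hdvd
  refine ⟨padicValNat p (2 ^ s - 1), s, ?_, hs1, pow_padicValNat_dvd, pow_succ_padicValNat_not_dvd hne, ?_⟩
  · exact one_le_padicValNat_of_dvd hne hpd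
  · intro r hr hrd
    rw [hk] at hrd
    have h3 : Nat.Coprime r (2 ^ k) := (Nat.coprime_two_right.mpr hr).pow_right k
    have h4 : r ∣ r0 := h3.dvd_of_dvd_mul_left hrd
    exact (h4.trans (dvd_mul_left r0 p)).trans hdvd

theorem QD_three : QD 3 1 2 := by
  refine ⟨le_refl _, by norm_num, by norm_num, by norm_num, ?_⟩
  intro r hr hrd
  have h1 : r ≤ 2 := Nat.le_of_dvd (by norm_num) hrd
  have h2 : r = 1 := by
    obtain ⟨m, hm⟩ := hr
    omega
  rw [h2]
  exact one_dvd _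

theorem EH_three [Fact (Nat.Prime 3)] : EH 3 ({1} : Finset ℤ_[3]ˣ) := by
  refine ⟨Finset.mem_singleton_self _, ?_, ?_, ?_⟩
  · intro x hx
    rw [Finset.mem_singleton] at hx
    rw [hx, one_pow]
  · intro x hx hx'
    rw [Finset.mem_singleton] at hx hx'
    rw [hx] at hx'
    have h1 := congrArg (fun u : ℤ_[3]ˣ => (u : ℤ_[3])) hx'
    simp only [Units.val_neg, Units.val_one] at h1
    have h2 : (2 : ℤ_[3]) = 0 := by linear_combination -h1
    exact two_ne_zero h2
  · intro x hx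
    have h1 : (x : ℤ_[3]) ^ 2 = 1 := by
      have := congrArg (fun u : ℤ_[3]ˣ => (u : ℤ_[3])) hx
      simpa using this
    have h2 : ((x : ℤ_[3]) - 1) * ((x : ℤ_[3]) + 1) = 0 := by linear_combination h1
    rcases mul_eq_zero.mp h2 with h0 | h0
    · left
      rw [Finset.mem_singleton]
      exact Units.ext (sub_eq_zero.mp h0)
    · right
      rw [Finset.mem_singleton]
      apply Units.ext
      rw [Units.val_neg, Units.val_one]
      linear_combination -h0

end H5SW
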