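import Pool.Agent.H5.SW.Fin
import Pool.Agent.H10.Cong

/-! The case `p = 3`: all layers of the cyclotomic `ℤ_3`-extension of the rationals (helper5). -/

set_option autoImplicit false
set_option linter.style.haveILetI false
open scoped Classical

namespace H5SW

open NumberField IsDedekindDomain WeierstrassCurve Pool.Agent.H10

section

variable {L : Type} [Field L] [NumberField L]

lemma uniqueAbove_of_over {q : ℕ} (hq : q.Prime)
    (h : ∀ v : HeightOneSpectrum (𝓞 ℚ), (q : 𝓞 ℚ) ∈ v.asIdeal → UniqueOver ℚ L v.asIdeal) : UniqueAbove L q := by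
  intro P Q hP hQ hqP hqQ
  have hP0 : P ≠ ⊥ := by
    rintro rfl
    rw [Ideal.mem_bot] at hqP
    exact hq.ne_zero (by exact_mod_cast hqP)
  let v : HeightOneSpectrum (𝓞 ℚ) := ⟨P.under (𝓞 ℚ), inferInstance, Ideal.IsIntegral.comap_ne_bot _ hP0⟩
  have hv : (q : 𝓞 ℚ) ∈ v.asIdeal := by
    change algebraMap (𝓞 ℚ) (𝓞 L) (q : 𝓞 ℚ) ∈ P
    rwa [map_natCast]
  refine h v hv P Q hP hQ Ideal.map_comap_le ?_
  -- `v` is generated by `q`
  rw [Ideal.map_le_iff_le_comap]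
  have hmax : (v.asIdeal).IsMaximal := v.isMaximal
  intro x hx
  change algebraMap (𝓞 ℚ) (𝓞 L) x ∈ Q
  -- the ideal `Q ∩ 𝓞 ℚ` is a maximal ideal containing `q`, as `v`
  have hQ0 : Q ≠ ⊥ := by
    rintro rfl
    rw [Ideal.mem_bot] at hqQ
    exact hq.ne_zero (by exact_mod_cast hqQ)
  let v' : HeightOneSpectrum (𝓞 ℚ) := ⟨Q.under (𝓞 ℚ), inferInstance, Ideal.IsIntegral.comap_ne_bot _ hQ0⟩
  have hv' : (q : 𝓞 ℚ) ∈ v'.asIdeal := by
    change algebraMap (𝓞 ℚ) (𝓞 L) (q : 𝓞 ℚ) ∈ Q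
    rwa [map_natCast]
  have h1 : v.asIdeal = v'.asIdeal := uniqueAbove_rat hq _ _ v.isPrime v'.isPrime hv hv'
  rw [h1] at hx
  exact hx

lemma prime_two_of (hu : UniqueAbove L 2)
    (hunr : ∀ w : HeightOneSpectrum (𝓞 L), (2 : 𝓞 L) ∈ w.asIdeal → (2 : 𝓞 L) ∉ w.asIdeal ^ 2) :
    Prime (2 : 𝓞 L) := by
  have h20 : (2 : 𝓞 L) ≠ 0 := two_ne_zero
  have hnu : ¬ IsUnit (2 : 𝓞 L) := by
    intro h
    have h1 := (NumberField.isUnit_iff_norm).mp h
    have h2 : Algebra.norm ℚ ((2 : 𝓞 L) : L) = 2 ^ Module.finrank ℚ L := by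
      have e : ((2 : 𝓞 L) : L) = algebraMap ℚ L 2 := by
        rw [map_ofNat]; exact map_ofNat (algebraMap (𝓞 L) L) 2
      rw [e, Algebra.norm_algebraMap]
    rw [RingOfIntegers.coe_norm, h2, abs_of_pos (by positivity)] at h1
    have h3 : (1 : ℚ) < 2 ^ Module.finrank ℚ L := one_lt_pow₀ (by norm_num) Module.finrank_pos.ne'
    linarith
  obtain ⟨W, hW, h2W⟩ := exists_max_ideal_of_mem_nonunits hnu
  have hW0 : W ≠ ⊥ := by
    rintro rfl
    exact h20 ((Ideal.mem_bot).mp h2W)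
  let w : HeightOneSpectrum (𝓞 L) := ⟨W, hW.isPrime, hW0⟩
  have hle : Ideal.span {(2 : 𝓞 L)} ≤ W := (Ideal.span_singleton_le_iff_mem _).mpr h2W
  obtain ⟨J, hJ⟩ := Ideal.dvd_iff_le.mpr hle
  have hJtop : J = ⊤ := by
    by_contra hne
    obtain ⟨M, hM, hJM⟩ := Ideal.exists_le_maximal J hne
    have h2J : (2 : 𝓞 L) ∈ J := by
      have h3 : (2 : 𝓞 L) ∈ W * J := by rw [← hJ]; exact Ideal.mem_span_singleton_self _
      exact Ideal.mul_le_right h3
    have hMW : M = W := hu M W hM.isPrime hW.isPrime (by exact_mod_cast hJM h2J) (by exact_mod_cast h2W)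
    apply hunr w h2W
    have h3 : (2 : 𝓞 L) ∈ W * J := by rw [← hJ]; exact Ideal.mem_span_singleton_self _
    rw [pow_two]
    exact Ideal.mul_mono_right (hJM.trans hMW.le) h3
  rw [hJtop, Ideal.mul_top] at hJ
  rw [← Ideal.span_singleton_prime h20, hJ]
  exact hW.isPrime

end

/-- The vanishing of the two-primary part and the finiteness of the Mordell-Weil group. -/
theorem cong_of_noNew {L : Type} [Field L] [NumberField L] {N p : ℕ} (hN : GoodN N p)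
    (hodd : Odd (Module.finrank ℚ L)) (R1 : NoNewPositive ℚ L) (R2 : NoNewUnramified ℚ L)
    (h2 : Prime (2 : 𝓞 L)) (hu : UniqueAbove L p)
    (h3 : p % 8 = 3 → ¬ 3 ∣ Module.finrank ℚ L) :
    Sha2Trivial L (⟨0, 0, 0, -(N : L) ^ 2, 0⟩ : WeierstrassCurve L) ∧
      Finite (⟨0, 0, 0, -(N : L) ^ 2, 0⟩ : WeierstrassCurve L).toAffine.Point := by
  have hN0 : 0 < N := by
    rcases hN with ⟨rfl, -⟩ | ⟨-, hp, rfl⟩ | ⟨-, hp, rfl⟩ <;> omega
  have hNQ : (0 : ℚ) < N := by exact_mod_cast hN0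
  let V : WeierstrassCurve ℚ := ⟨0, 0, 0, -(N : ℚ) ^ 2, 0⟩
  have hc : IsCub V (-(N : ℚ)) 0 N :=
    { a₁ := rfl
      a₂ := by change (0 : ℚ) = _; ring
      a₃ := rfl
      a₄ := by change -(N : ℚ) ^ 2 = _; ring
      a₆ := by change (0 : ℚ) = _; ring
      h12 := by intro h; linarith
      h13 := by intro h; linarith
      h23 := hNQ.ne
      two := two_ne_zero }
  have hS : SelTors ℚ (-(N : ℚ)) 0 N := (selTors_rat hN).shift (N : ℚ) (by ring) (by ring) (by ring)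
  have H0 : Sha2Trivial ℚ V := sha2Trivial_of_hasse hc (hS.hasse hc)
  have hV : V.map (algebraMap ℚ L) = (⟨0, 0, 0, -(N : L) ^ 2, 0⟩ : WeierstrassCurve L) := by
    change (⟨algebraMap ℚ L 0, algebraMap ℚ L 0, algebraMap ℚ L 0, algebraMap ℚ L (-(N : ℚ) ^ 2),
      algebraMap ℚ L 0⟩ : WeierstrassCurve L) = _
    rw [map_zero, map_neg, map_pow, map_natCast]
  have hT : InertAtTwo ℚ L (N : 𝓞 ℚ) ((2 * N : ℕ) : 𝓞 ℚ) := by
    refine ⟨h2, hodd, N, (2 * N : ℕ), by simp, by simp, ?_, ?_⟩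
    · rcases hN with ⟨rfl, -⟩ | ⟨-, hp, rfl⟩ | ⟨-, hp, rfl⟩ <;> omega
    · intro h3'
      rcases hN with ⟨rfl, -⟩ | ⟨-, hp, rfl⟩ | ⟨-, hp, rfl⟩
      · omega
      · exact absurd h3' (h3 hp)
      · omega
  have H := newTrivial (K := ℚ) (L := L) hodd R1 R2
    (a := (N : 𝓞 ℚ)) (b := ((2 * N : ℕ) : 𝓞 ℚ)) (by
      intro φ
      have e1 : ((N : 𝓞 ℚ) : ℚ) = (N : ℚ) := map_natCast (algebraMap (𝓞 ℚ) ℚ) N
      have e2 : (((2 * N : ℕ) : 𝓞 ℚ) : ℚ) = ((2 * N : ℕ) : ℚ) :=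
        map_natCast (algebraMap (𝓞 ℚ) ℚ) (2 * N)
      rw [e1, e2, map_natCast, map_natCast]
      constructor
      · exact_mod_cast hN0
      · exact_mod_cast (by omega : 0 < 2 * N)) (by
      intro v hv2 hv
      have hpv : (p : 𝓞 ℚ) ∈ v.asIdeal := by
        by_contra hp
        have hNv := hN.notMem v.isPrime hv2 hp
        have e : (N : 𝓞 ℚ) * ((2 * N : ℕ) : 𝓞 ℚ) * (((2 * N : ℕ) : 𝓞 ℚ) - (N : 𝓞 ℚ)) =
            2 * (N * (N * N)) := by push_cast; ring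
        rw [e] at hv
        rcases v.isPrime.mem_or_mem hv with h | h
        · exact hv2 h
        · rcases v.isPrime.mem_or_mem h with h | h
          · exact hNv h
          · rcases v.isPrime.mem_or_mem h with h | h
            · exact hNv h
            · exact hNv h
      have hL : ∀ P : Ideal (𝓞 L), v.asIdeal.map (algebraMap (𝓞 ℚ) (𝓞 L)) ≤ P →
          (p : 𝓞 L) ∈ P := by
        intro P hP
        have := hP (Ideal.mem_map_of_mem (algebraMap (𝓞 ℚ) (𝓞 L)) hpv)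
        rwa [map_natCast] at this
      intro P Q hP hQ h5 h6
      exact hu P Q hP hQ (hL P h5) (hL Q h6)) (Or.inr hT)
  have e1 : ((N : 𝓞 ℚ) : ℚ) = (N : ℚ) := map_natCast (algebraMap (𝓞 ℚ) ℚ) N
  have e2 : (((2 * N : ℕ) : 𝓞 ℚ) : ℚ) = ((2 * N : ℕ) : ℚ) :=
    map_natCast (algebraMap (𝓞 ℚ) ℚ) (2 * N)
  rw [e1, e2] at H
  have H' := H.shift (f₁ := algebraMap ℚ L (-(N : ℚ))) (f₂ := algebraMap ℚ L 0)
    (f₃ := algebraMap ℚ L (N : ℚ)) (algebraMap ℚ L (N : ℚ)) (by rw [← map_add]; congr 1; ring)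
    (by rw [← map_add]; congr 1; ring) (by rw [← map_add]; congr 1; push_cast; ring)
  exact ⟨sha2Trivial_up hodd hc hV H' H0, finite_up hodd hc hV H' hS⟩



instance fact3 : Fact (Nat.Prime 3) := ⟨Nat.prime_three⟩

lemma finrank_three {L : Type} [Field L] [NumberField L] (hL : IsR 3 L) :
    ∃ i : ℕ, Module.finrank ℚ L = 3 ^ i := by
  obtain ⟨hreal, n, ⟨ι⟩⟩ := hL
  obtain ⟨F, _, _, hF⟩ := exists_F 3 n (by norm_num)
  obtain ⟨j⟩ := map_R (p := 3) (by norm_num) hreal ι hF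
  have h1 : Module.finrank ℚ F = 3 ^ n := by
    have h2 := hF.2.2
    rw [Nat.totient_prime_pow_succ Nat.prime_three] at h2
    omega
  letI := j.toAlgebra
  have h3 : Module.finrank ℚ L * Module.finrank L F = Module.finrank ℚ F :=
    Module.finrank_mul_finrank ℚ L F
  obtain ⟨i, -, hi⟩ := (Nat.dvd_prime_pow Nat.prime_three).mp
    (h1 ▸ (Dvd.intro _ h3 : Module.finrank ℚ L ∣ Module.finrank ℚ F))
  exact ⟨i, hi⟩

theorem three_facts {L : Type} [Field L] [NumberField L] (hL : IsR 3 L) :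
    (NoNewPositive ℚ L ∧ NoNewUnramified ℚ L) ∧ Odd (Module.finrank ℚ L) ∧ Prime (2 : 𝓞 L) ∧
      ∀ q : ℕ, q.Prime → ¬ 9 ∣ q ^ 2 - 1 → UniqueAbove L q := by
  obtain ⟨i, hi⟩ := finrank_three hL
  have h1 : padicValNat 3 (Module.finrank ℚ ℚ) = 0 := by
    rw [Module.finrank_self]; simp
  obtain ⟨n, M, F, _, _, _, _, _, _, _, ⟨Tw⟩⟩ := exists_tower (p := 3) (K := ℚ) (by norm_num) hL hi
  have hu : ∀ q : ℕ, q.Prime → ¬ 9 ∣ q ^ 2 - 1 → UniqueAbove L q := by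
    intro q hq h9
    apply uniqueAbove_of_over hq
    intro v hv
    exact unique_tower (t := 1) (by norm_num) Tw hq (fun _ => by norm_num; exact h9) (by omega) v hv
  refine ⟨noNew_of_tower (k0 := 1) (by norm_num) sinnott_three (by omega) Tw, ?_, ?_, hu⟩
  · rw [hi]
    exact (by decide : Odd 3).pow
  · exact prime_two_of (hu 2 Nat.prime_two (by norm_num)) (two_unramified (by norm_num) Tw)

/-- Congruent number curves over all layers of the cyclotomic `ℤ_3`-extension of the rationals. -/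
theorem three_cong {L : Type} [Field L] [NumberField L] (hL : IsR 3 L) {N q : ℕ}
    (hN : (N = 1 ∧ q = 1) ∨ (q.Prime ∧ q % 8 = 5 ∧ ¬ 9 ∣ q ^ 2 - 1 ∧ N = 2 * q)) :
    Sha2Trivial L (⟨0, 0, 0, -(N : L) ^ 2, 0⟩ : WeierstrassCurve L) ∧
      Finite (⟨0, 0, 0, -(N : L) ^ 2, 0⟩ : WeierstrassCurve L).toAffine.Point := by
  obtain ⟨⟨R1, R2⟩, hodd, h2, hu⟩ := three_facts hL
  rcases hN with ⟨rfl, rfl⟩ | ⟨hq, h8, h9, rfl⟩
  · refine cong_of_noNew (p := 1) (Or.inl ⟨rfl, rfl⟩) hodd R1 R2 h2 ?_ (by norm_num)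
    intro P Q hP _ h _
    exact absurd ((Ideal.eq_top_iff_one _).mpr (by simpa using h)) hP.ne_top
  · exact cong_of_noNew (Or.inr (Or.inr ⟨hq, h8, rfl⟩)) hodd R1 R2 h2 (hu q hq h9) (by omega)

/-- Stability from the rationals on, for `p = 3`. -/
theorem three_stable {L : Type} [Field L] [NumberField L] (hL : IsR 3 L) {a b : ℤ} (ha : 0 < a) (hb : 0 < b)
    (h4 : ¬ (4 : ℤ) ∣ b - a) (h23 : ¬ ((a % 4 = 2 ∧ b % 4 = 3) ∨ (a % 4 = 3 ∧ b % 4 = 2)))
    (hq : ∀ q : ℕ, q.Prime → (q : ℤ) ∣ a * b * (b - a) → ¬ 9 ∣ q ^ 2 - 1)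
    (E : WeierstrassCurve ℚ) (hE : E = ⟨0, -((a : ℚ) + b), 0, (a : ℚ) * b, 0⟩) :
    ShaTwoBijective ℚ E L ∧
      ∃ m : ℕ, Odd m ∧ ∀ P : (E.baseChange L).toAffine.Point,
        ∃ Q : (E.baseChange ℚ).toAffine.Point,
          m • P = WeierstrassCurve.Affine.Point.map (Algebra.ofId ℚ L) Q := by
  obtain ⟨⟨R1, R2⟩, hodd, h2, hu⟩ := three_facts hL
  have hab : a ≠ b := by
    rintro rfl
    exact h4 (by simp)
  have H := newTrivial_inert (K := ℚ) hodd R1 R2 h2 (a := a) (b := b) (by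
      intro φ
      rw [map_intCast, map_intCast]
      exact ⟨by exact_mod_cast ha, by exact_mod_cast hb⟩) (by
      rcases adm_cases h4 with h | h
      · exact Or.inl h
      · exact absurd h h23) (by
      intro v _ hv
      have hD : a * b * (b - a) ≠ 0 := mul_ne_zero (mul_ne_zero ha.ne' hb.ne') (sub_ne_zero.mpr hab.symm)
      obtain ⟨q, hqp, hqD, hqv⟩ : ∃ q : ℕ, q.Prime ∧ q ∣ (a * b * (b - a)).natAbs ∧ (q : 𝓞 ℚ) ∈ v.asIdeal :=
        exists_prime_mem hD v hv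
      have hu' := hu q hqp (hq q hqp (Int.natCast_dvd.mpr hqD))
      have hL' : ∀ P : Ideal (𝓞 L), v.asIdeal.map (algebraMap (𝓞 ℚ) (𝓞 L)) ≤ P → (q : 𝓞 L) ∈ P := by
        intro P hP
        have := hP (Ideal.mem_map_of_mem (algebraMap (𝓞 ℚ) (𝓞 L)) hqv)
        rwa [map_natCast] at this
      intro P Q hP hQ h5 h6
      exact hu' P Q hP hQ (hL' P h5) (hL' Q h6))
  exact stable_of ha hb hab hodd H E hE

end H5SW
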