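import Pool.Agent.H5.SW.Df

/-!
Basic API of `RC`.
-/

set_option autoImplicit false

namespace H5SW

open NumberField

variable {f : ℕ} {L : Type} [Field L] [NumberField L] (r : RC f L)

namespace RC

include r in
lemma neZero : NeZero f := ⟨by have := r.two_lt; omega⟩

lemma ext_φ {x y : 𝓞 L} (h : r.φ (x : L) = r.φ (y : L)) : x = y :=
  RingOfIntegers.coe_injective (r.φ.injective h)

/-- cosine as a function of the class -/
lemma cos_nat (hf : 0 < f) (n : ℕ) :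
    Real.cos (2 * Real.pi * (((n : ZMod f)).val : ℝ) / f) = Real.cos (2 * Real.pi * (n : ℝ) / f) := by
  have hf0 : (f : ℝ) ≠ 0 := by exact_mod_cast hf.ne'
  rw [ZMod.val_natCast]
  have h1 : (n : ℝ) = (n % f : ℕ) + (f : ℝ) * (n / f : ℕ) := by
    exact_mod_cast (Nat.mod_add_div n f).symm
  conv_rhs => rw [h1]
  have h2 : 2 * Real.pi * (((n % f : ℕ) : ℝ) + (f : ℝ) * (n / f : ℕ)) / f =
      2 * Real.pi * ((n % f : ℕ) : ℝ) / f + (n / f : ℕ) * (2 * Real.pi) := by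
    field_simp
  rw [h2, Real.cos_add_nat_mul_two_pi]

lemma φ_c_nat (n : ℕ) : r.φ (r.c (n : ZMod f) : L) = 2 * Real.cos (2 * Real.pi * (n : ℝ) / f) := by
  rw [r.hφ, cos_nat (by have := r.two_lt; omega)]

lemma c_zero : r.c 0 = 2 := by
  apply r.ext_φ
  have h := r.hφ 0
  rw [h]
  have h2 : ((2 : 𝓞 L) : L) = 2 := map_ofNat (algebraMap (𝓞 L) L) 2
  rw [h2, map_ofNat]
  simp

lemma c_neg (a : ZMod f) : r.c (-a) = r.c a := by
  haveI := r.neZero
  apply r.ext_φ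
  rw [r.hφ, r.hφ]
  by_cases h : a = 0
  · rw [h, neg_zero]
  · rw [ZMod.neg_val, if_neg h, Nat.cast_sub a.val_lt.le]
    have hf0 : (f : ℝ) ≠ 0 := by exact_mod_cast (NeZero.ne f)
    have h2 : 2 * Real.pi * ((f : ℝ) - (a.val : ℝ)) / f = 2 * Real.pi - 2 * Real.pi * (a.val : ℝ) / f := by
      field_simp
    rw [h2, Real.cos_two_pi_sub]

lemma c_mul (a b : ZMod f) : r.c a * r.c b = r.c (a + b) + r.c (a - b) := by
  haveI := r.neZero
  have hf0 : (f : ℝ) ≠ 0 := by exact_mod_cast (NeZero.ne f)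
  obtain ⟨x, rfl⟩ : ∃ x : ℕ, a = (x : ZMod f) := ⟨a.val, (ZMod.natCast_zmod_val a).symm⟩
  obtain ⟨y, hy, rfl⟩ : ∃ y : ℕ, y ≤ f ∧ b = (y : ZMod f) :=
    ⟨b.val, b.val_lt.le, (ZMod.natCast_zmod_val b).symm⟩
  apply r.ext_φ
  have e1 : ((r.c (x : ZMod f) * r.c (y : ZMod f) : 𝓞 L) : L) = (r.c (x : ZMod f) : L) * (r.c (y : ZMod f) : L) :=
    map_mul (algebraMap (𝓞 L) L) _ _
  have e2 : ((r.c ((x : ZMod f) + y) + r.c ((x : ZMod f) - y) : 𝓞 L) : L) =
      (r.c ((x : ZMod f) + y) : L) + (r.c ((x : ZMod f) - y) : L) := map_add (algebraMap (𝓞 L) L) _ _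
  have e3 : (x : ZMod f) - y = ((x + (f - y) : ℕ) : ZMod f) := by
    rw [Nat.cast_add, Nat.cast_sub hy, ZMod.natCast_self]; ring
  rw [e1, e2, e3, ← Nat.cast_add, map_mul, map_add, r.φ_c_nat, r.φ_c_nat, r.φ_c_nat, r.φ_c_nat,
    Nat.cast_add, Nat.cast_add, Nat.cast_sub hy]
  have h2 : 2 * Real.pi * ((x : ℝ) + ((f : ℝ) - (y : ℝ))) / f =
      (2 * Real.pi * (x : ℝ) / f - 2 * Real.pi * (y : ℝ) / f) + 2 * Real.pi := by
    field_simp
    ring
  have h3 : 2 * Real.pi * ((x : ℝ) + (y : ℝ)) / f = 2 * Real.pi * (x : ℝ) / f + 2 * Real.pi * (y : ℝ) / f := by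
    ring
  rw [h2, h3, Real.cos_add_two_pi, Real.cos_add, Real.cos_sub]
  ring

lemma c_sq (a : ZMod f) : r.c a ^ 2 = r.c (2 * a) + 2 := by
  rw [pow_two, r.c_mul, sub_self, r.c_zero, two_mul]

lemma c_inj {a b : ZMod f} (h : r.c a = r.c b) : a = b ∨ a = -b := by
  haveI := r.neZero
  have hf0 : (0 : ℝ) < f := by exact_mod_cast (NeZero.pos f)
  have h1 := congrArg (fun x : 𝓞 L => r.φ (x : L)) h
  simp only [r.hφ] at h1
  have h2 : Real.cos (2 * Real.pi * (a.val : ℝ) / f) = Real.cos (2 * Real.pi * (b.val : ℝ) / f) := by linarith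
  rw [Real.cos_eq_cos_iff] at h2
  obtain ⟨k, hk⟩ := h2
  have hpi := Real.pi_pos
  rcases hk with hk | hk
  · left
    have h3 : (b.val : ℝ) = k * f + a.val := by
      field_simp at hk
      linarith
    have h4 : (b.val : ℤ) = k * f + a.val := by exact_mod_cast h3
    have h5 := congrArg (fun z : ℤ => (z : ZMod f)) h4
    simp only [Int.cast_natCast, Int.cast_add, Int.cast_mul, ZMod.natCast_zmod_val, ZMod.natCast_self, mul_zero,
      zero_add] at h5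
    exact h5.symm
  · right
    have h3 : (b.val : ℝ) = k * f - a.val := by
      field_simp at hk
      linarith
    have h4 : (b.val : ℤ) = k * f - a.val := by exact_mod_cast h3
    have h5 := congrArg (fun z : ℤ => (z : ZMod f)) h4
    simp only [Int.cast_natCast, Int.cast_sub, Int.cast_mul, ZMod.natCast_zmod_val, ZMod.natCast_self, mul_zero,
      zero_sub] at h5
    rw [h5, neg_neg]

lemma e_σ (u : (ZMod f)ˣ) : (r.e (r.σ u) : 𝓞 L) = r.c u := by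
  rw [r.e_eq]
  have h1 : r.σ (r.u (r.σ u) * u⁻¹) = 1 := by rw [map_mul, r.σ_u, map_inv, mul_inv_cancel]
  rcases (r.ker _).mp h1 with h | h
  · rw [mul_inv_eq_one] at h; rw [h]
  · have h2 : r.u (r.σ u) = -u := by rw [mul_inv_eq_iff_eq_mul] at h; rw [h, neg_one_mul]
    rw [h2, Units.val_neg, r.c_neg]

lemma apply_c (g : L ≃ₐ[ℚ] L) (a : ZMod f) : g (r.c a : L) = (r.c (r.u g * a) : L) := by
  conv_lhs => rw [← r.σ_u g]
  exact r.hσ _ _

include r in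
lemma gal_comm (g h : L ≃ₐ[ℚ] L) : g * h = h * g := by
  rw [← r.σ_u g, ← r.σ_u h, ← map_mul, ← map_mul, mul_comm]

lemma apply_e (g h : L ≃ₐ[ℚ] L) : g ((r.e h : 𝓞 L) : L) = ((r.e (g * h) : 𝓞 L) : L) := by
  have h1 : g * h = r.σ (r.u g * r.u h) := by rw [map_mul, r.σ_u, r.σ_u]
  rw [h1, r.e_σ, r.e_eq, r.apply_c, Units.val_mul]

lemma apply_d (g h : L ≃ₐ[ℚ] L) : g (r.d h) = r.d (g * h) := by
  rw [RC.d, RC.d, map_sub, r.apply_e, map_ofNat]

lemma e_inj {g h : L ≃ₐ[ℚ] L} (H : r.e g = r.e h) : g = h := by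
  have h1 := congrArg (fun x : (𝓞 L)ˣ => (x : 𝓞 L)) H
  simp only [r.e_eq] at h1
  rcases r.c_inj h1 with h2 | h2
  · rw [← r.σ_u g, ← r.σ_u h, Units.ext h2]
  · rw [← Units.val_neg] at h2
    have h3 : r.u g = -r.u h := Units.ext h2
    have h4 : r.σ (-1) = 1 := (r.ker (-1)).mpr (Or.inr rfl)
    rw [← r.σ_u g, ← r.σ_u h, h3, ← neg_one_mul, map_mul, h4, one_mul]

lemma σ_neg (u : (ZMod f)ˣ) : r.σ (-u) = r.σ u := by
  have h4 : r.σ (-1) = 1 := (r.ker (-1)).mpr (Or.inr rfl)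
  rw [← neg_one_mul, map_mul, h4, one_mul]

end RC

end H5SW
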