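import Pool.Agent.H5.SW.Ap
import Pool.Agent.H86.CN.Xi

/-!
ROW C6 (bridge to the cyclotomic units of `Pool/Agent/H86/CN/Df.lean`).  PROOF.  `f = p^(n+1)`, `C = CyclotomicField f ℚ`, `L → C` by `RC.algC`; `[C : L] = φ(f)/([L:ℚ]) = 2`: `[L:ℚ]` is the order of `Gal(L/ℚ)`
(`r.gal`), i.e. `φ(f)/2` (`surj`, `ker`; `1 ≠ -1` in `(ZMod f)ˣ` as `f > 2`). Extend the real embedding `r.φ : L → ℝ ⊂ ℂ` to `Φ : C → ℂ` (algebraic extension, `ℂ` algebraically closed: `IsAlgClosed.lift` or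
`exists ring hom extending`). `exp(2πi/f)` is in the image of `Φ` (the image contains the `f`-th roots of unity): `Φ ζ = exp(2πi/f)`, `ζ` primitive. For a unit `u`: `Φ(ζ^u.val + ζ^(-u.val)) = 2 cos(2πu.val/f) = r.φ (c u) = Φ(algebraMap (c u))`, so
`algebraMap (c u) = ζ^u.val + ζ⁻¹^u.val`, and `algebraMap (r.d (r.σ u)) = 2 - ζ^u.val - ζ⁻¹^u.val = sq2 ζ u` (`RC.d_eq`, `RC.e_σ`).
`Cy` = the units whose square is in the closure of the `v ∈ (𝓞 L)ˣ` with `v * d(1) = d(σ u)`; an element of this closure is `∏_g (d g / d 1)^(θ g)` (in `L`), i.e. `∏_g (d g)^(θ' g)` with `∑ θ' = 0`; conversely such a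
product is a product of the `d g/d 1`, and `d g/d 1` is (the image of) a unit `v` of `𝓞 L`: for `r.Cyc ⊆ Cy` one needs that `d(σ u)/d(1)` is a unit of `𝓞 L`: `sq2 ζ u/sq2 ζ 1 = N`-like product `((1-ζ^u)/(1-ζ)) ((1-ζ^-u)/(1-ζ^-1))`, integral, with integral
inverse (`1 - ζ = 1 - (ζ^u)^(u')`, `u u' = 1`); or use `H86CN.xi` (Pool/Agent/H86/CN/Xi.lean, a unit `ξ` with `ξ^2 sq2 ζ 1 = sq2 ζ u`). Sums over `g ∈ Gal(L/ℚ)` are indexed by `σ u`.
-/

set_option autoImplicit false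

namespace H5SW

open NumberField

private theorem C6_zpow_sum {G ι : Type*} [CommGroup G] (s : Finset ι) (x : G) (θ : ι → ℤ) :
    ∏ g ∈ s, x ^ θ g = x ^ (∑ g ∈ s, θ g) := by
  classical
  induction s using Finset.induction_on with
  | empty => simp
  | insert a s ha ih => rw [Finset.prod_insert ha, Finset.sum_insert ha, zpow_add, ih]

private theorem C6_quad {f : ℕ} {L K : Type} [Field L] [NumberField L] [Field K] [NumberField K]
    [IsCyclotomicExtension {f} ℚ K] [Algebra L K] (r : RC f L) :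
    Algebra.IsQuadraticExtension L K := by
  have := r.neZero
  have : Fact (2 < f) := ⟨r.two_lt⟩
  have := r.gal
  have h1 : Module.finrank ℚ K = f.totient := IsCyclotomicExtension.Rat.finrank f K
  have h2 := Module.finrank_mul_finrank ℚ L K
  have hne : (1 : (ZMod f)ˣ) ≠ -1 := by
    intro h
    have h3 := congrArg (fun u : (ZMod f)ˣ => (u : ZMod f)) h
    simp only [Units.val_one, Units.val_neg] at h3
    exact ZMod.neg_one_ne_one h3.symm
  have hker : (r.σ.ker : Set (ZMod f)ˣ) = {1, -1} := by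
    ext u
    simp only [SetLike.mem_coe, MonoidHom.mem_ker, Set.mem_insert_iff, Set.mem_singleton_iff]
    exact r.ker u
  have hck : Nat.card r.σ.ker = 2 := by
    have e1 : Nat.card r.σ.ker = (r.σ.ker : Set (ZMod f)ˣ).ncard := rfl
    rw [e1, hker, Set.ncard_pair hne]
  have h3 := Subgroup.card_mul_index r.σ.ker
  rw [hck, Subgroup.index_ker, MonoidHom.range_eq_top.2 r.surj, Nat.card_congr
    (Subgroup.topEquiv (G := (L ≃ₐ[ℚ] L))).toEquiv, IsGalois.card_aut_eq_finrank,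
    Nat.card_eq_fintype_card, ZMod.card_units_eq_totient] at h3
  have h4 : 0 < Module.finrank ℚ L := Module.finrank_pos
  refine ⟨?_⟩
  rw [h1, ← h3, mul_comm] at h2
  exact Nat.eq_of_mul_eq_mul_right h4 h2

private theorem C6_root {f : ℕ} {L K : Type} [Field L] [NumberField L] [Field K] [NumberField K]
    [IsCyclotomicExtension {f} ℚ K] [Algebra L K] (r : RC f L) :
    ∃ ζ : K, IsPrimitiveRoot ζ f ∧ ∀ u : (ZMod f)ˣ,
      H86CN.sq2 ζ u = algebraMap L K (r.d (r.σ u)) := by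
  have := r.neZero
  have hf0 : (f : ℂ) ≠ 0 := by exact_mod_cast NeZero.ne f
  have : FiniteDimensional L K := FiniteDimensional.right ℚ L K
  let : Algebra L ℂ := (Complex.ofRealHom.comp r.φ).toAlgebra
  obtain ⟨Φ, hΦ⟩ : ∃ Φ : K →+* ℂ, ∀ x : L, Φ (algebraMap L K x) = ((r.φ x : ℝ) : ℂ) := by
    let Ψ : K →ₐ[L] ℂ := IsAlgClosed.lift
    exact ⟨Ψ.toRingHom, fun x => Ψ.commutes x⟩
  have hz := IsCyclotomicExtension.zeta_spec f ℚ K
  have hφ : IsPrimitiveRoot (Φ (IsCyclotomicExtension.zeta f ℚ K)) f :=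
    hz.map_of_injective Φ.injective
  have hexp := Complex.isPrimitiveRoot_exp f (NeZero.ne f)
  obtain ⟨j, -, hj⟩ := hφ.eq_pow_of_pow_eq_one hexp.pow_eq_one
  have hm : Φ ((IsCyclotomicExtension.zeta f ℚ K) ^ j) = Complex.exp (2 * Real.pi * Complex.I / f) := by
    rw [map_pow]
    exact hj
  have hζ : IsPrimitiveRoot ((IsCyclotomicExtension.zeta f ℚ K) ^ j) f := by
    refine IsPrimitiveRoot.of_map_of_injective (f := Φ) ?_ Φ.injective
    rw [hm]
    exact hexp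
  obtain ⟨ζ, hζd⟩ : ∃ ζ, ζ = (IsCyclotomicExtension.zeta f ℚ K) ^ j := ⟨_, rfl⟩
  rw [← hζd] at hm hζ
  refine ⟨ζ, hζ, fun u => ?_⟩
  have hζ0 : ζ ≠ 0 := hζ.ne_zero (NeZero.ne f)
  -- the value of `c`
  have hc : algebraMap L K (r.c (u : ZMod f) : L) =
      ζ ^ (u : ZMod f).val + (ζ⁻¹) ^ (u : ZMod f).val := by
    apply Φ.injective
    rw [hΦ, r.hφ, map_add, map_pow, map_pow, map_inv₀, hm, ← Complex.exp_neg,
      ← Complex.exp_nat_mul, ← Complex.exp_nat_mul]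
    push_cast
    rw [Complex.two_cos]
    congr 1
    · congr 1
      ring
    · congr 1
      ring
  have h1 : ζ ^ (u : ZMod f).val * (ζ⁻¹) ^ (u : ZMod f).val = 1 := by
    rw [← mul_pow, mul_inv_cancel₀ hζ0, one_pow]
  unfold H86CN.sq2 RC.d
  rw [r.e_σ, map_sub, hc, map_ofNat]
  linear_combination h1

private theorem C6_gen {f : ℕ} {L K : Type} [Field L] [NumberField L] [Field K] [NumberField K]
    [IsCyclotomicExtension {f} ℚ K] [Algebra L K] (r : RC f L) :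
    Algebra.IsQuadraticExtension L K ∧ ∃ ζ : K, IsPrimitiveRoot ζ f ∧
      r.Cyc = H86CN.Cy L K ζ f := by
  classical
  have := r.neZero
  have hq : Algebra.IsQuadraticExtension L K := C6_quad r
  have := r.real
  refine ⟨hq, ?_⟩
  obtain ⟨ζ, hζ, hsq⟩ := C6_root (K := K) r
  refine ⟨ζ, hζ, ?_⟩
  have hinj : Function.Injective (algebraMap L K) := (algebraMap L K).injective
  -- units of `L`
  obtain ⟨D, hD⟩ : ∃ D : (L ≃ₐ[ℚ] L) → Lˣ, ∀ g, (D g : L) = r.d g :=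
    ⟨fun g => Units.mk0 (r.d g) (r.d_ne_zero g), fun g => rfl⟩
  obtain ⟨ψ, hψ⟩ : ∃ ψ : (𝓞 L)ˣ →* Lˣ, ∀ v, (ψ v : L) = ((v : 𝓞 L) : L) :=
    ⟨Units.map (algebraMap (𝓞 L) L).toMonoidHom, fun v => rfl⟩
  have hψi : Function.Injective ψ := by
    intro v w h
    have h2 : ((v : 𝓞 L) : L) = ((w : 𝓞 L) : L) := by rw [← hψ, ← hψ, h]
    exact Units.ext (RingOfIntegers.coe_injective h2)
  have hprod : ∀ θ : (L ≃ₐ[ℚ] L) → ℤ, ((∏ g, D g ^ θ g : Lˣ) : L) = ∏ g, r.d g ^ θ g := by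
    intro θ
    rw [Units.coe_prod]
    refine Finset.prod_congr rfl fun g _ => ?_
    rw [Units.val_zpow_eq_zpow_val, hD]
  have hmem : ∀ ε : (𝓞 L)ˣ, ε ∈ r.Cyc ↔
      ∃ θ : (L ≃ₐ[ℚ] L) → ℤ, ∑ g, θ g = 0 ∧ ψ ε ^ 2 = ∏ g, D g ^ θ g := by
    intro ε
    rw [r.mem_Cyc]
    constructor
    · rintro ⟨θ, h1, h2⟩
      refine ⟨θ, h1, Units.ext ?_⟩
      rw [hprod, ← h2, Units.val_pow_eq_pow_val, hψ]
    · rintro ⟨θ, h1, h2⟩
      refine ⟨θ, h1, ?_⟩
      rw [← hprod, ← h2, Units.val_pow_eq_pow_val, hψ]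
  have hsq1 : H86CN.sq2 ζ (1 : (ZMod f)ˣ) = algebraMap L K (r.d 1) := by
    rw [hsq, map_one]
  -- the generators
  have hgen : ∀ v : (𝓞 L)ˣ, (∃ u : (ZMod f)ˣ, algebraMap L K ((v : 𝓞 L) : L) *
      H86CN.sq2 ζ (1 : (ZMod f)ˣ) = H86CN.sq2 ζ u) ↔ ∃ g, ψ v * D 1 = D g := by
    intro v
    constructor
    · rintro ⟨u, hu⟩
      refine ⟨r.σ u, Units.ext ?_⟩
      rw [hsq1, hsq, ← map_mul] at hu
      rw [Units.val_mul, hψ, hD, hD]
      exact hinj hu
    · rintro ⟨g, hg⟩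
      refine ⟨r.u g, ?_⟩
      rw [hsq1, hsq, ← map_mul, r.σ_u]
      have := congrArg (fun x : Lˣ => (x : L)) hg
      simp only [Units.val_mul, hψ, hD] at this
      rw [this]
  have hex : ∀ g, ∃ v : (𝓞 L)ˣ, ψ v * D 1 = D g := by
    intro g
    obtain ⟨ξ, hξ⟩ := H86CN.xi f r.two_lt r.odd K L ζ hζ (r.u g)
    refine ⟨ξ ^ 2, Units.ext ?_⟩
    rw [hsq1, hsq, ← map_pow, ← map_mul, r.σ_u] at hξ
    have h2 := hinj hξ
    rw [Units.val_mul, map_pow, Units.val_pow_eq_pow_val, hψ, hD, hD]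
    exact h2
  choose v hv using hex
  have hv' : ∀ g, ψ (v g) = D g * (D 1)⁻¹ := fun g => by rw [← hv g, mul_inv_cancel_right]
  ext ε
  unfold H86CN.Cy
  rw [Subgroup.mem_comap, powMonoidHom_apply, hmem]
  constructor
  · rintro ⟨θ, h1, h2⟩
    have h3 : ε ^ 2 = ∏ g, v g ^ θ g := by
      apply hψi
      rw [map_pow, h2, map_prod]
      simp only [map_zpow, hv', mul_zpow]
      rw [Finset.prod_mul_distrib, C6_zpow_sum, h1, zpow_zero, mul_one]
    rw [h3]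
    refine Subgroup.prod_mem _ fun g _ => Subgroup.zpow_mem _ (Subgroup.subset_closure ?_) _
    exact (hgen (v g)).2 ⟨g, hv g⟩
  · intro h
    have key : ∀ w : (𝓞 L)ˣ, w ∈ Subgroup.closure {v : (𝓞 L)ˣ | ∃ u : (ZMod f)ˣ,
        algebraMap L K ((v : 𝓞 L) : L) * H86CN.sq2 ζ (1 : (ZMod f)ˣ) = H86CN.sq2 ζ u} →
        ∃ θ : (L ≃ₐ[ℚ] L) → ℤ, ∑ g, θ g = 0 ∧ ψ w = ∏ g, D g ^ θ g := by
      have hsing : ∀ a : L ≃ₐ[ℚ] L,
          ∏ g, D g ^ ((Pi.single a (1 : ℤ) : (L ≃ₐ[ℚ] L) → ℤ) g) = D a := by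
        intro a
        rw [Finset.prod_eq_single a]
        · rw [Pi.single_eq_same, zpow_one]
        · intro b _ hb
          rw [Pi.single_eq_of_ne hb, zpow_zero]
        · intro ha
          exact absurd (Finset.mem_univ a) ha
      intro w hw
      induction hw using Subgroup.closure_induction with
      | mem x hx =>
        obtain ⟨g, hg⟩ := (hgen x).1 hx
        refine ⟨fun k => (Pi.single g (1 : ℤ) : (L ≃ₐ[ℚ] L) → ℤ) k -
          (Pi.single 1 (1 : ℤ) : (L ≃ₐ[ℚ] L) → ℤ) k, ?_, ?_⟩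
        · rw [Finset.sum_sub_distrib, Finset.sum_pi_single', Finset.sum_pi_single']
          simp
        · simp only [zpow_sub, Finset.prod_mul_distrib, Finset.prod_inv_distrib]
          rw [hsing, hsing, ← hg, mul_inv_cancel_right]
      | one => exact ⟨fun _ => 0, by simp, by simp⟩
      | mul x y _ _ hx hy =>
        obtain ⟨θ, h1, h2⟩ := hx
        obtain ⟨η, h3, h4⟩ := hy
        refine ⟨fun g => θ g + η g, by rw [Finset.sum_add_distrib, h1, h3, add_zero], ?_⟩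
        simp only [zpow_add, Finset.prod_mul_distrib]
        rw [← h2, ← h4, map_mul]
      | inv x _ hx =>
        obtain ⟨θ, h1, h2⟩ := hx
        refine ⟨fun g => - θ g, by rw [Finset.sum_neg_distrib, h1, neg_zero], ?_⟩
        simp only [zpow_neg, Finset.prod_inv_distrib]
        rw [← h2, map_inv]
    obtain ⟨θ, h1, h2⟩ := key _ h
    exact ⟨θ, h1, by rw [← h2, map_pow]⟩

private theorem C6_cyc (f : ℕ) :
    @IsCyclotomicExtension {f} ℚ (CyclotomicField f ℚ) _ _ DivisionRing.toRatAlgebra := by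
  have e : (CyclotomicField.algebra f ℚ : Algebra ℚ (CyclotomicField f ℚ)) =
      DivisionRing.toRatAlgebra := Subsingleton.elim _ _
  rw [← e]
  infer_instance

/-- the algebra structure given by the embedding -/
noncomputable abbrev RC.algC {f : ℕ} {L : Type} [Field L] [NumberField L] (r : RC f L) :
    Algebra L (CyclotomicField f ℚ) := r.emb.some.toAlgebra

theorem cyc_bridge {p n : ℕ} [Fact p.Prime] (hp2 : p ≠ 2) {L : Type} [Field L] [NumberField L]
    (r : RC (p ^ (n + 1)) L) :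
    letI := r.algC
    Algebra.IsQuadraticExtension L (CyclotomicField (p ^ (n + 1)) ℚ) ∧
      ∃ ζ : CyclotomicField (p ^ (n + 1)) ℚ, IsPrimitiveRoot ζ (p ^ (n + 1)) ∧
        r.Cyc = H86CN.Cy L (CyclotomicField (p ^ (n + 1)) ℚ) ζ (p ^ (n + 1)) := by
  let := r.algC
  have hcy := C6_cyc (p ^ (n + 1))
  exact C6_gen (K := CyclotomicField (p ^ (n + 1)) ℚ) r

end H5SW
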