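import Pool.Agent.H5.SW.Ps

/-!
ROW Ca (decomposition of a prime `q ≠ p`).  PROOF.  `f = p^(n+1)`, `G = Gal(L/ℚ)`, `P` a prime of `𝓞 L` above `q`, `k = 𝓞 L/P` finite, `κ` = algebraic closure of `k`, `ψ : 𝓞 L → κ`. By `psi` there is
`z ∈ κ` of exact order `f` with `ψ (c a) = z^a + z^(-a)`. KEY: if `ψ (c u) = ψ (c v)` for `u, v` units mod `f`, then `z^u = z^(±v)`, so `u = ± v`, `σ u = σ v`.
(1) `unramified`: if `g = σ u` is in the inertia group of `P` (`g x ≡ x mod P`), then `ψ(c u) = ψ(c 1)`, `g = 1`. So the ramification index is 1 (Mathlib: order of the inertia group = ramification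
    index, `Ideal.card_inertia_eq_ramificationIdxIn`; or via the discriminant: `q ∤ discr`).
(2) Frobenius: `G` acts transitively on the primes above `q`, `D_P → Gal(k/𝔽_q)` is surjective with kernel the inertia group, so there is `Fr ∈ D_P` with `Fr x ≡ x^q mod P` (Mathlib `IsArithFrobAt`,
    `exists_arithFrobAt`, or `Ideal.Quotient.stabilizerHom_surjective`). `Fr = σ u`, `ψ(c u) = ψ(c 1)^q = (z + z⁻¹)^q = z^q + z^(-q) = ψ(c q)`, so `Fr = σ q`. `D_P ≅ Gal(k/𝔽_q)` is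
    generated by `Fr`, so `[k : 𝔽_q] = orderOf (σ q)`: `absNorm P = q^(orderOf (σ q))`.
    [Elementary variant: `[k:𝔽_q] = |D_P| = orderOf Fr`.]
(3) `e f g = |G|` with `e = 1` (`Ideal.ncard_primesOver_mul_ramificationIdxIn_mul_inertiaDegIn`), so the number of primes above `q` is `|G| / orderOf (σ q)`.
-/

set_option autoImplicit false

namespace H5SW

open NumberField

private theorem ca_field {k : Type} [Field k] {X Y : k} (hX0 : X ≠ 0) (hY0 : Y ≠ 0) (h1 : X + X⁻¹ = Y + Y⁻¹) :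
    (X - Y) * (X * Y - 1) = 0 := by
  have h3 : (X + X⁻¹) * (X * Y) = (Y + Y⁻¹) * (X * Y) := by rw [h1]
  have h4 : (X + X⁻¹) * (X * Y) = X * X * Y + Y := by
    field_simp
  have h5 : (Y + Y⁻¹) * (X * Y) = X * Y * Y + X := by
    field_simp
  rw [h4, h5] at h3
  linear_combination h3

private theorem ca_key0 {p n : ℕ} [Fact p.Prime] (hp2 : p ≠ 2) {L : Type} [Field L] [NumberField L]
    (r : RC (p ^ (n + 1)) L) {q : ℕ} (hq : q.Prime) (hqp : q.Coprime (p ^ (n + 1))) (P : Ideal (𝓞 L))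
    {k : Type} [Field k] [IsAlgClosed k] (ψ : 𝓞 L →+* k) (hψ : ∀ x : 𝓞 L, ψ x = 0 ↔ x ∈ P)
    (hqP : (q : 𝓞 L) ∈ P) :
    (∀ a b : ZMod (p ^ (n + 1)), r.c a - r.c b ∈ P → a = b ∨ a = -b) ∧
    r.c 1 ^ q - r.c ((q : ℕ) : ZMod (p ^ (n + 1))) ∈ P := by
  have hf : NeZero (p ^ (n + 1)) := r.neZero
  have hq0 : (q : k) = 0 := by
    have := (hψ (q : 𝓞 L)).2 hqP
    rwa [map_natCast] at this
  have hqF : Fact q.Prime := ⟨hq⟩
  have hchar : CharP k q := by
    obtain ⟨c, hc⟩ := CharP.exists k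
    have h1 : c ∣ q := (CharP.cast_eq_zero_iff k c q).1 hq0
    rcases (Nat.dvd_prime hq).1 h1 with h2 | h2
    · subst h2
      have h3 := CharP.cast_eq_zero k 1
      rw [Nat.cast_one] at h3
      exact absurd h3 one_ne_zero
    · rwa [h2] at hc
  have hcop : q.Coprime p := Nat.Coprime.coprime_dvd_right (dvd_pow_self p (Nat.succ_ne_zero n)) hqp
  have hp0 : (p : k) ≠ 0 := by
    intro h
    have h1 : q ∣ p := (CharP.cast_eq_zero_iff k q p).1 h
    have h2 := Nat.Coprime.eq_one_of_dvd hcop h1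
    exact hq.one_lt.ne' h2
  obtain ⟨z, hz, hc⟩ := psi hp2 r hp0 ψ
  have hz0 : z ≠ 0 := hz.ne_zero hf.out
  have hz1 : z ^ (p ^ (n + 1)) = 1 := hz.pow_eq_one
  refine ⟨fun a b hab => ?_, ?_⟩
  · have h1 : ψ (r.c a) = ψ (r.c b) := by
      have := (hψ _).2 hab
      rw [map_sub, sub_eq_zero] at this
      exact this
    rw [hc, hc] at h1
    have h2 := ca_field (pow_ne_zero _ hz0) (pow_ne_zero _ hz0) h1
    rcases mul_eq_zero.1 h2 with h3 | h3
    · left
      have h4 : z ^ a.val = z ^ b.val := by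
        rw [sub_eq_zero] at h3
        exact h3
      have h5 := hz.pow_inj (ZMod.val_lt a) (ZMod.val_lt b) h4
      exact ZMod.val_injective _ h5
    · right
      have h4 : z ^ (a.val + b.val) = 1 := by
        rw [pow_add]
        rw [sub_eq_zero] at h3
        exact h3
      have h5 := (hz.pow_eq_one_iff_dvd _).1 h4
      have h6 : ((a.val + b.val : ℕ) : ZMod (p ^ (n + 1))) = 0 := (ZMod.natCast_eq_zero_iff _ _).2 h5
      rw [Nat.cast_add, ZMod.natCast_zmod_val, ZMod.natCast_zmod_val] at h6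
      exact eq_neg_of_add_eq_zero_left h6
  · rw [← hψ, map_sub, map_pow, hc, hc, sub_eq_zero]
    have hv1 : (1 : ZMod (p ^ (n + 1))).val = 1 := by
      have h2 := r.two_lt
      have : Fact (1 < p ^ (n + 1)) := ⟨by omega⟩
      exact ZMod.val_one _
    rw [hv1, pow_one, add_pow_char, ZMod.val_natCast, inv_pow]
    have h1 : z ^ (q % p ^ (n + 1)) = z ^ q := by
      conv_rhs => rw [← Nat.mod_add_div q (p ^ (n + 1)), pow_add, pow_mul, hz1, one_pow, mul_one]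
    rw [h1]

/-- the residue field embeds into an algebraically closed field of characteristic `q` -/
private theorem ca_key {p n : ℕ} [Fact p.Prime] (hp2 : p ≠ 2) {L : Type} [Field L] [NumberField L]
    (r : RC (p ^ (n + 1)) L) {q : ℕ} (hq : q.Prime) (hqp : q.Coprime (p ^ (n + 1))) (P : Ideal (𝓞 L)) (hP : P.IsPrime)
    (hqP : (q : 𝓞 L) ∈ P) :
    (∀ a b : ZMod (p ^ (n + 1)), r.c a - r.c b ∈ P → a = b ∨ a = -b) ∧
    r.c 1 ^ q - r.c ((q : ℕ) : ZMod (p ^ (n + 1))) ∈ P := by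
  refine ca_key0 hp2 r hq hqp P ((algebraMap (FractionRing (𝓞 L ⧸ P)) (AlgebraicClosure (FractionRing (𝓞 L ⧸ P)))).comp
    ((algebraMap (𝓞 L ⧸ P) (FractionRing (𝓞 L ⧸ P))).comp (Ideal.Quotient.mk P))) (fun x => ?_) hqP
  rw [RingHom.comp_apply, RingHom.comp_apply, map_eq_zero_iff _ (RingHom.injective _),
    map_eq_zero_iff _ (IsFractionRing.injective (𝓞 L ⧸ P) (FractionRing (𝓞 L ⧸ P))),
    Ideal.Quotient.eq_zero_iff_mem]

private theorem ca_smul {L : Type} [Field L] [NumberField L] (g : L ≃ₐ[ℚ] L) (x : 𝓞 L) :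
    ((g • x : 𝓞 L) : L) = g (x : L) := rfl

private theorem ca_act {f : ℕ} {L : Type} [Field L] [NumberField L] (r : RC f L) (u : (ZMod f)ˣ) (a : ZMod f) :
    r.σ u • r.c a = r.c (u * a) := by
  have h : ((r.σ u • r.c a : 𝓞 L) : L) = ((r.c (u * a) : 𝓞 L) : L) := (ca_smul _ _).trans (r.hσ u a)
  exact RingOfIntegers.coe_injective h

private theorem ca_over {L : Type} [Field L] [NumberField L] {q : ℕ} (hq : q.Prime) (P : Ideal (𝓞 L))
    (hP : P.IsPrime) : (q : 𝓞 L) ∈ P ↔ P.LiesOver (Ideal.span {(q : ℤ)}) := by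
  have hqF : Fact q.Prime := ⟨hq⟩
  have hmax := Int.ideal_span_isMaximal_of_prime q
  constructor
  · intro h
    refine ⟨?_⟩
    refine hmax.eq_of_le (Ideal.IsPrime.ne_top (Ideal.IsPrime.under ℤ P)) ?_
    rw [Ideal.span_le, Set.singleton_subset_iff]
    have h2 : algebraMap ℤ (𝓞 L) (q : ℤ) ∈ P := by simpa using h
    exact h2
  · intro h
    have h1 : (q : ℤ) ∈ P.under ℤ := by
      rw [← h.over]
      exact Ideal.mem_span_singleton_self _
    have h2 : algebraMap ℤ (𝓞 L) (q : ℤ) ∈ P := h1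
    simpa using h2

private theorem ca_bot {L : Type} [Field L] [NumberField L] {q : ℕ} (hq : q.Prime) (P : Ideal (𝓞 L))
    (hqP : (q : 𝓞 L) ∈ P) : P ≠ ⊥ := by
  rintro rfl
  rw [Ideal.mem_bot] at hqP
  exact hq.ne_zero (by exact_mod_cast hqP)

private theorem ca_card_under {q : ℕ} : Nat.card (ℤ ⧸ Ideal.span {(q : ℤ)}) = q := by
  rw [Nat.card_congr (Int.quotientSpanNatEquivZMod q).toEquiv, Nat.card_zmod]

private theorem ca_unit {p n : ℕ} {L : Type} [Field L] [NumberField L]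
    (r : RC (p ^ (n + 1)) L) {u v : (ZMod (p ^ (n + 1)))ˣ}
    (h : (u : ZMod (p ^ (n + 1))) = v ∨ (u : ZMod (p ^ (n + 1))) = -v) : r.σ u = r.σ v := by
  rcases h with h | h
  · rw [Units.ext h]
  · have h1 : u = -v := Units.ext (by rw [Units.val_neg]; exact h)
    rw [h1, r.σ_neg]

/-- `σ q` is a Frobenius element -/
private theorem ca_frob {p n : ℕ} [Fact p.Prime] (hp2 : p ≠ 2) {L : Type} [Field L] [NumberField L]
    (r : RC (p ^ (n + 1)) L) {q : ℕ} (hq : q.Prime) (hqp : q.Coprime (p ^ (n + 1))) (P : Ideal (𝓞 L)) (hP : P.IsPrime)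
    (hqP : (q : 𝓞 L) ∈ P) (x : 𝓞 L) : r.σ (ZMod.unitOfCoprime q hqp) • x - x ^ q ∈ P := by
  have hgal := r.gal
  have hfin : Finite (𝓞 L ⧸ P) := Ideal.finiteQuotientOfFreeOfNeBot P (ca_bot hq P hqP)
  obtain ⟨g, hg⟩ := IsArithFrobAt.exists_of_isInvariant ℤ (L ≃ₐ[ℚ] L) P
  have hover := (ca_over hq P hP).1 hqP
  have hg' : ∀ x : 𝓞 L, g • x - x ^ q ∈ P := by
    intro x
    have h1 := hg x
    rw [← hover.over, ca_card_under] at h1
    exact h1
  obtain ⟨hk1, hk2⟩ := ca_key hp2 r hq hqp P hP hqP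
  have h1 : r.c (r.u g) - r.c 1 ^ q ∈ P := by
    have h2 := hg' (r.c 1)
    have h3 : g • r.c 1 = r.c (r.u g) := by
      conv_lhs => rw [← r.σ_u g]
      rw [ca_act, mul_one]
    rwa [h3] at h2
  have h2 : r.c (r.u g) - r.c ((q : ℕ) : ZMod (p ^ (n + 1))) ∈ P := by
    have := P.add_mem h1 hk2
    rwa [sub_add_sub_cancel] at this
  have h3 : r.σ (r.u g) = r.σ (ZMod.unitOfCoprime q hqp) := by
    apply ca_unit
    rw [ZMod.coe_unitOfCoprime]
    exact hk1 _ _ h2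
  rw [r.σ_u] at h3
  rw [← h3]
  exact hg' x

private theorem ca_inertia {p n : ℕ} [Fact p.Prime] (hp2 : p ≠ 2) {L : Type} [Field L] [NumberField L]
    (r : RC (p ^ (n + 1)) L) {q : ℕ} (hq : q.Prime) (hqp : q.Coprime (p ^ (n + 1))) (P : Ideal (𝓞 L)) (hP : P.IsPrime)
    (hqP : (q : 𝓞 L) ∈ P) (g : L ≃ₐ[ℚ] L) (hg : ∀ x : 𝓞 L, g • x - x ∈ P) : g = 1 := by
  obtain ⟨hk1, _⟩ := ca_key hp2 r hq hqp P hP hqP
  have h3 : g • r.c 1 = r.c (r.u g) := by
    conv_lhs => rw [← r.σ_u g]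
    rw [ca_act, mul_one]
  have h4 := hg (r.c 1)
  rw [h3] at h4
  have h5 := ca_unit r (v := 1) (u := r.u g) (by rw [Units.val_one]; exact hk1 _ _ h4)
  rwa [r.σ_u, map_one] at h5

theorem norm_above {p n : ℕ} [Fact p.Prime] (hp2 : p ≠ 2) {L : Type} [Field L] [NumberField L]
    (r : RC (p ^ (n + 1)) L) {q : ℕ} (hq : q.Prime) (hqp : q.Coprime (p ^ (n + 1))) (P : Ideal (𝓞 L)) (hP : P.IsPrime)
    (hqP : (q : 𝓞 L) ∈ P) : Ideal.absNorm P = q ^ orderOf (r.σ (ZMod.unitOfCoprime q hqp)) := by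
  have hgal := r.gal
  have hfin : Finite (𝓞 L ⧸ P) := Ideal.finiteQuotientOfFreeOfNeBot P (ca_bot hq P hqP)
  have hover := (ca_over hq P hP).1 hqP
  have hmax : P.IsMaximal := hP.isMaximal (ca_bot hq P hqP)
  let _ : Field (𝓞 L ⧸ P) := Ideal.Quotient.field P
  have _ : Fintype (𝓞 L ⧸ P) := Fintype.ofFinite _
  set e := Ideal.inertiaDeg' (Ideal.span {(q : ℤ)}) P with he
  have hN : Ideal.absNorm P = q ^ e := Ideal.absNorm_eq_pow_inertiaDeg' P hq
  have hcard : Fintype.card (𝓞 L ⧸ P) = q ^ e := by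
    rw [← hN, ← Nat.card_eq_fintype_card]
    rfl
  set F := r.σ (ZMod.unitOfCoprime q hqp) with hF
  have hpow : ∀ (m : ℕ) (x : 𝓞 L), Ideal.Quotient.mk P (F ^ m • x) = Ideal.Quotient.mk P x ^ (q ^ m) := by
    intro m
    induction m with
    | zero => intro x; simp
    | succ m ih =>
      intro x
      rw [pow_succ', mul_smul]
      have h1 := ca_frob hp2 r hq hqp P hP hqP (F ^ m • x)
      have h2 := (Ideal.Quotient.eq).2 h1
      rw [← hF] at h2
      rw [h2, map_pow, ih x, ← pow_mul, pow_succ]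
  have h1 : F ^ e = 1 := by
    apply ca_inertia hp2 r hq hqp P hP hqP
    intro x
    rw [← Ideal.Quotient.eq, hpow, ← hcard, FiniteField.pow_card]
  have h2 : orderOf F ∣ e := orderOf_dvd_of_pow_eq_one h1
  have he0 : e ≠ 0 := by
    intro h0
    have h3 := Fintype.one_lt_card (α := 𝓞 L ⧸ P)
    rw [hcard, h0, pow_zero] at h3
    exact absurd h3 (lt_irrefl _)
  have h3 : orderOf F ≤ e := Nat.le_of_dvd (Nat.pos_of_ne_zero he0) h2
  have hm0 : 0 < orderOf F := Nat.pos_of_dvd_of_pos h2 (Nat.pos_of_ne_zero he0)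
  have h4 : ∀ x : (𝓞 L ⧸ P)ˣ, x ^ (q ^ orderOf F - 1) = 1 := by
    intro x
    obtain ⟨y, hy⟩ := Ideal.Quotient.mk_surjective (x : 𝓞 L ⧸ P)
    have h5 := hpow (orderOf F) y
    rw [pow_orderOf_eq_one, one_smul, hy] at h5
    have h6 : q ^ orderOf F = (q ^ orderOf F - 1) + 1 := by
      have := Nat.one_le_two_pow (n := 0)
      have h7 : 0 < q ^ orderOf F := pow_pos hq.pos _
      omega
    apply Units.ext
    rw [Units.val_pow_eq_pow_val, Units.val_one]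
    have h8 : (x : 𝓞 L ⧸ P) * (x : 𝓞 L ⧸ P) ^ (q ^ orderOf F - 1) = (x : 𝓞 L ⧸ P) * 1 := by
      rw [mul_one, ← pow_succ']
      conv_rhs => rw [h5]
      rw [← h6]
    exact mul_left_cancel₀ x.ne_zero h8
  have h5 := (FiniteField.forall_pow_eq_one_iff (𝓞 L ⧸ P) (q ^ orderOf F - 1)).1 h4
  rw [hcard] at h5
  have h6 : 1 < q ^ orderOf F := Nat.one_lt_pow hm0.ne' hq.one_lt
  have h7 : q ^ e - 1 ≤ q ^ orderOf F - 1 := Nat.le_of_dvd (by omega) h5
  have h8 : q ^ e ≤ q ^ orderOf F := by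
    have : 0 < q ^ e := pow_pos hq.pos _
    omega
  have h9 : e ≤ orderOf F := (Nat.pow_le_pow_iff_right hq.one_lt).1 h8
  rw [hN, le_antisymm h3 h9]

/-- `σ q` is a Frobenius element at every prime above `q` -/
theorem frob_above {p n : ℕ} [Fact p.Prime] (hp2 : p ≠ 2) {L : Type} [Field L] [NumberField L]
    (r : RC (p ^ (n + 1)) L) {q : ℕ} (hq : q.Prime) (hqp : q.Coprime (p ^ (n + 1))) (P : Ideal (𝓞 L)) (hP : P.IsPrime)
    (hqP : (q : 𝓞 L) ∈ P) (x : 𝓞 L) : ∃ y : 𝓞 L, (y : L) = r.σ (ZMod.unitOfCoprime q hqp) (x : L) ∧ y - x ^ q ∈ P := by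
  exact ⟨r.σ (ZMod.unitOfCoprime q hqp) • x, ca_smul _ _, ca_frob hp2 r hq hqp P hP hqP x⟩

theorem card_above {p n : ℕ} [Fact p.Prime] (hp2 : p ≠ 2) {L : Type} [Field L] [NumberField L]
    (r : RC (p ^ (n + 1)) L) {q : ℕ} (hq : q.Prime) (hqp : q.Coprime (p ^ (n + 1))) :
    Nat.card {P : Ideal (𝓞 L) // P.IsPrime ∧ (q : 𝓞 L) ∈ P} * orderOf (r.σ (ZMod.unitOfCoprime q hqp)) =
      Module.finrank ℚ L := by
  have hgal := r.gal
  have hqF : Fact q.Prime := ⟨hq⟩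
  have hmax := Int.ideal_span_isMaximal_of_prime q
  have hpr : (Ideal.span {(q : ℤ)}).IsPrime := hmax.isPrime
  obtain ⟨⟨P, hP, hPo⟩⟩ := Ideal.nonempty_primesOver (S := 𝓞 L) (Ideal.span {(q : ℤ)})
  have hqP : (q : 𝓞 L) ∈ P := (ca_over hq P hP).2 hPo
  have hmaxP : P.IsMaximal := hP.isMaximal (ca_bot hq P hqP)
  have h1 := Ideal.ncard_primesOver_mul_card_inertia_mul_finrank (G := L ≃ₐ[ℚ] L) (Ideal.span {(q : ℤ)}) P
  have h2 : Nat.card (Ideal.inertia (L ≃ₐ[ℚ] L) P) = 1 := by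
    have h3 : Ideal.inertia (L ≃ₐ[ℚ] L) P = ⊥ := by
      rw [eq_bot_iff]
      intro g hg
      rw [Subgroup.mem_bot]
      exact ca_inertia hp2 r hq hqp P hP hqP g fun x => hg x
    rw [h3]
    exact Subgroup.card_bot
  have h3 : P.inertiaDeg ℤ = orderOf (r.σ (ZMod.unitOfCoprime q hqp)) := by
    have h4 := Ideal.absNorm_eq_pow_inertiaDeg' P hq
    rw [Ideal.inertiaDeg'_eq_inertiaDeg, norm_above hp2 r hq hqp P hP hqP] at h4
    exact (Nat.pow_right_injective hq.two_le h4).symm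
  have h4 : Nat.card {P : Ideal (𝓞 L) // P.IsPrime ∧ (q : 𝓞 L) ∈ P}
      = ((Ideal.span {(q : ℤ)}).primesOver (𝓞 L)).ncard := by
    rw [← Nat.card_coe_set_eq]
    refine Nat.card_congr (Equiv.subtypeEquivRight fun Q => ?_)
    exact and_congr_right fun hQ => ca_over hq Q hQ
  rw [h2, mul_one, h3, ← h4, IsGalois.card_aut_eq_finrank] at h1
  exact h1

end H5SW
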