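import Mathlib

/-!
# Definitions for the characteristic two part (Sinnott type non-vanishing)
-/

set_option autoImplicit false

namespace H5SW

open Finset

/-- a half system of units modulo `f`: the `u` with `0 < u < f / 2` -/
def Hf (f : ℕ) [NeZero f] : Finset (ZMod f)ˣ := univ.filter (fun u => 2 * (u : ZMod f).val < f)

/-- `F(X) = X / (1 + X) ^ 2` -/
def Fr {Ω : Type*} [Field Ω] (x : Ω) : Ω := x / (1 + x) ^ 2

/-- sign bit of `cos (2 π a / f)` -/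
noncomputable def cs (f : ℕ) (a : ZMod f) : ℕ := open Classical in
  if Real.cos (2 * Real.pi * (a.val : ℝ) / f) < 0 then 1 else 0

/-- `T(χ) = ∑ χ(u) F(z ^ u)` over the half system -/
noncomputable def Tc {f : ℕ} [NeZero f] {Ω : Type*} [Field Ω] (χ : (ZMod f)ˣ →* Ωˣ) (z : Ω) : Ω :=
  ∑ u ∈ Hf f, (χ u : Ω) * Fr (z ^ (u : ZMod f).val)

/-- `S(χ) = ∑ χ(u) [cos (2 π u / f) < 0]` over the half system -/
noncomputable def Sc {f : ℕ} [NeZero f] {Ω : Type*} [Field Ω] (χ : (ZMod f)ˣ →* Ωˣ) : Ω :=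
  ∑ u ∈ Hf f, (χ u : Ω) * (cs f u : Ω)

/-- `χ` is non trivial on `1 + p ^ k` (so it is primitive modulo `p ^ (k + 1)`, as soon as `1 ≤ k` or `χ` is non trivial) -/
def Prim {p k : ℕ} {Ω : Type*} [Field Ω] (χ : (ZMod (p ^ (k + 1)))ˣ →* Ωˣ) : Prop :=
  ∃ u : (ZMod (p ^ (k + 1)))ˣ, (∃ t : ℕ, (u : ZMod (p ^ (k + 1))) = 1 + (p : ZMod (p ^ (k + 1))) ^ k * t) ∧ χ u ≠ 1

/-- parameters: `q = 2 ^ s` is `1` modulo `p ^ e` exactly and modulo the odd part of `p - 1` -/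
structure QD (p e s : ℕ) : Prop where
  e1 : 1 ≤ e
  s1 : 1 ≤ s
  dvd : p ^ e ∣ 2 ^ s - 1
  not_dvd : ¬ p ^ (e + 1) ∣ 2 ^ s - 1
  odd : ∀ r : ℕ, Odd r → r ∣ p - 1 → r ∣ 2 ^ s - 1

/-- half system of `(p-1)`-th roots of unity in the `p`-adic integers, containing `1` -/
structure EH (p : ℕ) [Fact p.Prime] (E : Finset ℤ_[p]ˣ) : Prop where
  one : 1 ∈ E
  root : ∀ x ∈ E, x ^ (p - 1) = 1
  neg : ∀ x ∈ E, -x ∉ E
  cov : ∀ x : ℤ_[p]ˣ, x ^ (p - 1) = 1 → x ∈ E ∨ -x ∈ E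

/-- reduction of a `p`-adic unit modulo `p ^ n` -/
noncomputable def red {p : ℕ} [Fact p.Prime] (n : ℕ) : ℤ_[p]ˣ →* (ZMod (p ^ n))ˣ :=
  Units.map (PadicInt.toZModPow n).toMonoidHom

lemma Fr_inv {Ω : Type*} [Field Ω] {x : Ω} (hx : x ≠ 0) : Fr x⁻¹ = Fr x := by
  unfold Fr
  by_cases h : 1 + x = 0
  · have h2 : 1 + x⁻¹ = 0 := by
      have : 1 + x⁻¹ = (1 + x) / x := by field_simp; ring
      rw [this, h, zero_div]
    rw [h, h2]; simp
  · have h2 : 1 + x⁻¹ = (1 + x) / x := by field_simp; ring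
    rw [h2]
    field_simp

/-- a set containing exactly one of `u`, `-u` for all units `u` -/
def IsHalf {f : ℕ} (A : Finset (ZMod f)ˣ) : Prop := ∀ u : (ZMod f)ˣ, (u ∈ A ↔ -u ∉ A)

lemma isHalf_Hf {f : ℕ} [NeZero f] (hf : Odd f) (h1 : 1 < f) : IsHalf (Hf f) := by
  intro u
  haveI : Fact (1 < f) := ⟨h1⟩
  have hu : (u : ZMod f) ≠ 0 := u.ne_zero
  have h2 : ((-u : (ZMod f)ˣ) : ZMod f).val = f - (u : ZMod f).val := by
    rw [Units.val_neg, ZMod.neg_val, if_neg hu]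
  have h3 := (u : ZMod f).val_lt
  obtain ⟨r, hr⟩ := hf
  simp only [Hf, mem_filter, mem_univ, true_and, h2]
  omega

/-- sums of even functions over half systems agree -/
lemma sum_half {f : ℕ} {M : Type*} [AddCommMonoid M] {A B : Finset (ZMod f)ˣ} (hA : IsHalf A)
    (hB : IsHalf B) (h : (ZMod f)ˣ → M) (hh : ∀ u, h (-u) = h u) : ∑ u ∈ A, h u = ∑ u ∈ B, h u := by
  classical
  apply Finset.sum_bij' (fun u _ => if u ∈ B then u else -u) (fun u _ => if u ∈ A then u else -u)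
  · intro u hu
    split_ifs with h1
    · exact h1
    · by_contra h2
      exact h1 ((hB u).mpr h2)
  · intro u hu
    split_ifs with h1
    · exact h1
    · by_contra h2
      exact h1 ((hA u).mpr h2)
  · intro u hu
    by_cases h1 : u ∈ B
    · simp [h1, hu]
    · have h2 : -u ∉ A := (hA u).mp hu
      simp [h1, h2]
  · intro u hu
    by_cases h1 : u ∈ A
    · simp [h1, hu]
    · have h2 : -u ∉ B := (hB u).mp hu
      simp [h1, h2]
  · intro u hu
    split_ifs with h1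
    · rfl
    · exact (hh u).symm

lemma isHalf_smul {f : ℕ} {A : Finset (ZMod f)ˣ} (hA : IsHalf A) (v : (ZMod f)ˣ) :
    IsHalf (A.image (fun u => v * u)) := by
  intro u
  have key : ∀ w : (ZMod f)ˣ, w ∈ A.image (fun u => v * u) ↔ v⁻¹ * w ∈ A := by
    intro w
    rw [mem_image]
    constructor
    · rintro ⟨a, ha, rfl⟩
      rwa [inv_mul_cancel_left]
    · intro h
      exact ⟨_, h, by rw [mul_inv_cancel_left]⟩
  rw [key, key, hA (v⁻¹ * u), mul_neg]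

end H5SW
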