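import Pool.Agent.H5.SW.Ap

/-!
ROW Ex (existence of the data, one field).  PROOF.  `f = p^(n+1)`, `C = CyclotomicField f ℚ`, `ζ ∈ C` a primitive `f`-th root of unity, `j : L →+* C`.
(1) `L' = j(L)` is totally real of degree `φ(f)/2`; a totally real subfield of the CM field `C` lies in the maximal real subfield `C⁺` (Mathlib
    `NumberField.maximalRealSubfield`, `IsCMField`; cyclotomic fields are CM), `[C⁺ : ℚ] = φ(f)/2`, so `L' = C⁺` = the elements fixed by complex conjugation. (Or: choose an embedding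
    `C → ℂ`, `ζ ↦ exp(2πi/f)`; elements of `L'` have real image, so `L' ⊆ C ∩ ℝ = {x : conj x = x}`, and `C / (C ∩ ℝ)` has degree 2.)
(2) `c'_a = ζ^a.val + ζ^(-a.val)` is integral, real, so `c'_a = j (c a)`, `c a ∈ 𝓞 L`. `φ` = restriction to `L` of the embedding `ζ ↦ exp(2πi/f)` (real valued on `L'`):
    `φ (c a) = 2 cos (2π a.val/f)`.
(3) `Gal(C/ℚ) ≃ (ZMod f)ˣ`, `u ↦ (ζ ↦ ζ^u.val)` (`IsCyclotomicExtension.autEquivPow`, cyclotomic polynomials irreducible over `ℚ`); abelian, so every subfield is Galois over `ℚ`; restrict to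
    `L' ≅ L` (`AlgEquiv.restrictNormalHom`, surjective); the kernel is `Gal(C/L')` of order 2, containing `-1`. `σ u (c a) = c (u a)`.
(4) `c u = ζ^(-u) (1 + ζ^(2u)) = ζ^(-u) (1 - ζ^(4u))/(1 - ζ^(2u))` and `(1 - ζ^(4u))/(1-ζ^(2u))` is a unit (`(1 - ζ^i)/(1-ζ^j)` for `i, j` prime to `f`); alternatively
    without cyclotomic units: `∏_{u} c u` (over all units `u`) `= ∏_u (1 + ζ^(2u)) = Φ_f(-1) = 1` for `f` an odd prime power (`Φ_f(-X)` at `1`: `Φ_f(-1) = Φ_{2f}(1) = 1`).
-/

set_option autoImplicit false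

namespace H5SW

open NumberField

private theorem Ex_alg {C : Type*} [Field C] {x : C} {m : ℕ} (hx : x ^ (2 * m + 1) = 1) (hy : x ^ 2 ≠ 1) :
    (x + x⁻¹) * (x * ∑ i ∈ Finset.range (m + 1), ((x ^ 2) ^ 2) ^ i) = 1 := by
  have hx0 : x ≠ 0 := by
    rintro rfl
    rw [zero_pow (by omega)] at hx
    exact zero_ne_one hx
  have e1 : (x + x⁻¹) * x = 1 + x ^ 2 := by
    rw [add_mul, inv_mul_cancel₀ hx0]
    ring
  have h1 : (1 - x ^ 2) ≠ 0 := sub_ne_zero.2 (Ne.symm hy)
  have h2 := geom_sum_mul ((x ^ 2) ^ 2) (m + 1)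
  have h3 : ((x ^ 2) ^ 2) ^ (m + 1) = x ^ 2 := by
    have : ((x ^ 2) ^ 2) ^ (m + 1) = (x ^ (2 * m + 1)) ^ 2 * x ^ 2 := by ring
    rw [this, hx]
    ring
  rw [h3] at h2
  rw [← mul_assoc, e1]
  apply mul_left_cancel₀ h1
  linear_combination -h2

private theorem Ex_main {f : ℕ} (hf : 2 < f) (ho : Odd f) {L : Type} [Field L] [NumberField L]
    (h : IsF f L) : Nonempty (RC f L) := by
  obtain ⟨hreal, ⟨j⟩, hfin⟩ := h
  have : NeZero f := ⟨by omega⟩
  have hF2 : Fact (2 < f) := ⟨hf⟩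
  have hF1 : Fact (1 < f) := ⟨by omega⟩
  have hcyc : IsCyclotomicExtension {f} ℚ (CyclotomicField f ℚ) := CyclotomicField.isCyclotomicExtension f ℚ
  obtain ⟨m, hm⟩ := ho
  -- the embedding
  obtain ⟨ι⟩ : Nonempty (CyclotomicField f ℚ →+* ℂ) := inferInstance
  have hζ0 := IsCyclotomicExtension.zeta_spec f ℚ (CyclotomicField f ℚ)
  have hω := Complex.isPrimitiveRoot_exp f (by omega)
  obtain ⟨i, -, hi⟩ := (hζ0.map_of_injective ι.injective).eq_pow_of_pow_eq_one hω.pow_eq_one
  obtain ⟨ζ, hιζ⟩ : ∃ ζ : CyclotomicField f ℚ, ι ζ = Complex.exp (2 * Real.pi * Complex.I / f) :=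
    ⟨_, (map_pow ι _ i).trans hi⟩
  have hζ : IsPrimitiveRoot ζ f := IsPrimitiveRoot.of_map_of_injective (f := ι) (by rw [hιζ]; exact hω) ι.injective
  have hζint : IsIntegral ℤ ζ := hζ.isIntegral (by omega)
  obtain ⟨χ, hχ⟩ : ∃ χ : AddChar (ZMod f) (CyclotomicField f ℚ), ∀ a, χ a = ζ ^ a.val :=
    ⟨AddChar.zmodChar f hζ.pow_eq_one, fun _ => rfl⟩
  have hχ1 : ∀ a, χ a = 1 → a = 0 := by
    intro a ha
    rw [hχ] at ha
    have h1 := hζ.dvd_of_pow_eq_one a.val ha
    have h2 := a.val_lt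
    exact (ZMod.val_eq_zero a).1 (Nat.eq_zero_of_dvd_of_lt h1 h2)
  have hχneg : ∀ a, χ (-a) = (χ a)⁻¹ := fun a => AddChar.map_neg_eq_inv χ a
  have hχ0 : ∀ a, χ a ≠ 0 := fun a => by
    rw [hχ]
    exact pow_ne_zero _ (hζ.ne_zero (by omega))
  have hχint : ∀ a, IsIntegral ℤ (χ a) := fun a => by
    rw [hχ]
    exact hζint.pow _
  have hχf : ∀ a, (χ a) ^ f = 1 := fun a => by
    rw [hχ, ← pow_mul, mul_comm, pow_mul, hζ.pow_eq_one, one_pow]
  -- the Galois group
  obtain ⟨g, hgs, hg⟩ : ∃ g : (ZMod f)ˣ →* ((CyclotomicField f ℚ) ≃ₐ[ℚ] (CyclotomicField f ℚ)),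
      Function.Surjective g ∧ ∀ (u : (ZMod f)ˣ) (a : ZMod f), g u (χ a) = χ (u * a) := by
    refine ⟨(IsCyclotomicExtension.Rat.galEquivZMod f (CyclotomicField f ℚ)).symm.toMonoidHom,
      (IsCyclotomicExtension.Rat.galEquivZMod f (CyclotomicField f ℚ)).symm.surjective, fun u a => ?_⟩
    have h1 := IsCyclotomicExtension.Rat.galEquivZMod_apply_of_pow_eq f (CyclotomicField f ℚ)
      ((IsCyclotomicExtension.Rat.galEquivZMod f (CyclotomicField f ℚ)).symm u) (hχf a)
    rw [MulEquiv.apply_symm_apply] at h1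
    refine h1.trans ?_
    rw [← AddChar.map_nsmul_eq_pow]
    congr 1
    rw [nsmul_eq_mul, ZMod.natCast_zmod_val]
  -- complex conjugation
  have hconj : ∀ x : CyclotomicField f ℚ, ι (g (-1) x) = (starRingEnd ℂ) (ι x) := by
    have hcz : ι (g (-1) ζ) = (starRingEnd ℂ) (ι ζ) := by
      have h1 : ζ = χ 1 := by
        rw [hχ, ZMod.val_one, pow_one]
      have h2 : g (-1) ζ = ζ⁻¹ := by
        rw [h1, hg, Units.val_neg, Units.val_one, neg_one_mul, hχneg]
      rw [h2, map_inv₀, hιζ, ← Complex.exp_neg, ← Complex.exp_conj]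
      congr 1
      rw [map_div₀, map_mul, map_mul, Complex.conj_I, Complex.conj_ofReal, Complex.conj_natCast, map_ofNat]
      ring
    have e : ((ι.toRatAlgHom).comp ((g (-1) : (CyclotomicField f ℚ) ≃ₐ[ℚ] (CyclotomicField f ℚ)) :
        CyclotomicField f ℚ →ₐ[ℚ] CyclotomicField f ℚ)) =
        (((starRingEnd ℂ).comp ι).toRatAlgHom) := by
      refine (hζ.powerBasis ℚ).algHom_ext ?_
      rw [IsPrimitiveRoot.powerBasis_gen]
      exact hcz
    intro x
    exact DFunLike.congr_fun e x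
  have hjr : ∀ x : L, (starRingEnd ℂ) (ι (j x)) = ι (j x) := fun x =>
    RingHom.congr_fun (ComplexEmbedding.isReal_iff.1
      (IsTotallyReal.complexEmbedding_isReal (K := L) (ι.comp j))) x
  have hjk : ∀ x : L, g (-1) (j x) = j x := fun x => ι.injective (by rw [hconj, hjr])
  -- `j` is onto the real elements
  have hsur : ∀ x : CyclotomicField f ℚ, g (-1) x = x → ∃ y : L, j y = x := by
    have hk1 : g (-1) ≠ 1 := by
      intro h1
      have h2 := hg (-1) 1
      rw [h1, AlgEquiv.one_apply, mul_one, Units.val_neg, Units.val_one, hχneg] at h2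
      have h3 : χ (1 + 1) = 1 := by
        rw [AddChar.map_add_eq_mul]
        nth_rw 1 [h2]
        exact inv_mul_cancel₀ (hχ0 1)
      exact ZMod.neg_one_ne_one (n := f) (neg_eq_of_add_eq_zero_left (hχ1 _ h3))
    have hk2 : orderOf (g (-1)) = 2 := by
      refine orderOf_eq_prime ?_ hk1
      rw [← map_pow, neg_one_sq, map_one]
    let F : IntermediateField ℚ (CyclotomicField f ℚ) :=
      IntermediateField.fixedField (Subgroup.zpowers (g (-1)))
    let E : IntermediateField ℚ (CyclotomicField f ℚ) := (j.toRatAlgHom).fieldRange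
    have hmem : ∀ x : CyclotomicField f ℚ, g (-1) x = x → x ∈ F := by
      intro x hx
      rw [IntermediateField.mem_fixedField_iff]
      intro s hs
      have h1 : Subgroup.zpowers (g (-1)) ≤
          MulAction.stabilizer ((CyclotomicField f ℚ) ≃ₐ[ℚ] (CyclotomicField f ℚ)) x :=
        Subgroup.zpowers_le.2 hx
      exact h1 hs
    have hle : E ≤ F := by
      rintro x ⟨y, rfl⟩
      exact hmem _ (hjk y)
    have hC : Module.finrank ℚ (CyclotomicField f ℚ) = f.totient :=
      IsCyclotomicExtension.finrank (CyclotomicField f ℚ) (Polynomial.cyclotomic.irreducible_rat (by omega))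
    have hE : Module.finrank ℚ E = Module.finrank ℚ L :=
      (AlgEquiv.ofInjectiveField j.toRatAlgHom).symm.toLinearEquiv.finrank_eq
    have hF : Module.finrank F (CyclotomicField f ℚ) = 2 := by
      rw [IntermediateField.finrank_fixedField_eq_card, Nat.card_zpowers, hk2]
    have hmul := Module.finrank_mul_finrank ℚ F (CyclotomicField f ℚ)
    have hEF : E = F := IntermediateField.eq_of_le_of_finrank_eq hle (by
      rw [hF, hC] at hmul
      rw [hE]
      omega)
    intro x hx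
    have h1 : x ∈ E := by
      rw [hEF]
      exact hmem x hx
    obtain ⟨y, hy⟩ := h1
    exact ⟨y, hy⟩
  -- the elements `c a`
  have hy0 : ∀ a : ZMod f, ∃ y : L, j y = χ a + χ (-a) := by
    intro a
    refine hsur _ ?_
    rw [map_add, hg, hg, Units.val_neg, Units.val_one, neg_one_mul, neg_one_mul, neg_neg, add_comm]
  choose y hy using hy0
  have hyint : ∀ a, IsIntegral ℤ (y a) := by
    intro a
    have h1 : IsIntegral ℤ (j.toIntAlgHom (y a)) := by
      show IsIntegral ℤ (j (y a))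
      rw [hy]
      exact (hχint a).add (hχint _)
    exact (isIntegral_algHom_iff j.toIntAlgHom j.injective).1 h1
  obtain ⟨c, hc⟩ : ∃ c : ZMod f → 𝓞 L, ∀ a, (c a : L) = y a := ⟨fun a => ⟨y a, hyint a⟩, fun _ => rfl⟩
  have hjc : ∀ a, j (c a : L) = χ a + χ (-a) := fun a => by rw [hc, hy]
  -- the real embedding
  have hrι : ComplexEmbedding.IsReal (ι.comp j) := IsTotallyReal.complexEmbedding_isReal (K := L) (ι.comp j)
  have hcos : ∀ a : ZMod f, ι (χ a + χ (-a)) = ((2 * Real.cos (2 * Real.pi * (a.val : ℝ) / f) : ℝ) : ℂ) := by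
    intro a
    rw [map_add, hχneg, map_inv₀, hχ, map_pow, hιζ, ← Complex.exp_nat_mul, ← Complex.exp_neg, Complex.ofReal_mul,
      Complex.ofReal_cos, Complex.cos]
    push_cast
    have e1 : (a.val : ℂ) * (2 * Real.pi * Complex.I / f) = 2 * Real.pi * (a.val : ℂ) / f * Complex.I := by ring
    rw [e1]
    have e2 : -(2 * (Real.pi : ℂ) * (a.val : ℂ) / f * Complex.I) = -(2 * Real.pi * (a.val : ℂ) / f) * Complex.I := by
      ring
    rw [e2]
    ring
  -- the Galois group of `L`
  let _ : Algebra L (CyclotomicField f ℚ) := j.toAlgebra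
  have : IsScalarTower ℚ L (CyclotomicField f ℚ) := IsScalarTower.of_algebraMap_eq' (Subsingleton.elim _ _)
  have hab : IsAbelianGalois ℚ (CyclotomicField f ℚ) :=
    IsCyclotomicExtension.isAbelianGalois {f} ℚ (CyclotomicField f ℚ)
  have habL : IsAbelianGalois ℚ L := IsAbelianGalois.tower_bot ℚ L (CyclotomicField f ℚ)
  obtain ⟨σ, hσs, hσ⟩ : ∃ σ : (ZMod f)ˣ →* (L ≃ₐ[ℚ] L), Function.Surjective σ ∧
      ∀ (u : (ZMod f)ˣ) (x : L), j (σ u x) = g u (j x) := by
    refine ⟨(AlgEquiv.restrictNormalHom L).comp g, ?_, ?_⟩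
    · rw [MonoidHom.coe_comp]
      exact (AlgEquiv.restrictNormalHom_surjective (CyclotomicField f ℚ)).comp hgs
    · intro u x
      exact AlgEquiv.restrictNormal_commutes (g u) L x
  refine ⟨⟨c, hrι.embedding, ?_, σ, ?_, hσs, ?_, ?_, ⟨j⟩, hreal, inferInstance, hf, ⟨m, hm⟩⟩⟩
  · intro a
    apply Complex.ofReal_injective
    rw [ComplexEmbedding.IsReal.coe_embedding_apply, ← hcos, ← hjc]
    rfl
  · intro u a
    apply j.injective
    rw [hσ, hjc, hjc, map_add, hg, hg, mul_neg]
  · intro u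
    constructor
    · intro h1
      have h2 := hσ u (c 1 : L)
      rw [h1, AlgEquiv.one_apply, hjc, map_add, hg, hg, mul_neg, mul_one, hχneg, hχneg] at h2
      have z1 := hχ0 1
      have z2 := hχ0 u
      have h3 : (χ u - χ 1) * (χ u * χ 1 - 1) = 0 := by
        field_simp at h2
        linear_combination -h2
      rcases mul_eq_zero.1 h3 with h4 | h4
      · left
        have h5 : χ (u - 1) = 1 := by
          rw [sub_eq_add_neg, AddChar.map_add_eq_mul, hχneg, sub_eq_zero.1 h4]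
          exact mul_inv_cancel₀ z1
        exact Units.ext (sub_eq_zero.1 (hχ1 _ h5))
      · right
        have h5 : χ (u + 1) = 1 := by
          rw [AddChar.map_add_eq_mul]
          exact sub_eq_zero.1 h4
        apply Units.ext
        rw [Units.val_neg, Units.val_one]
        exact eq_neg_of_add_eq_zero_left (hχ1 _ h5)
    · rintro (rfl | rfl)
      · exact map_one σ
      · apply AlgEquiv.ext
        intro x
        apply j.injective
        rw [hσ, hjk, AlgEquiv.one_apply]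
  · intro u
    have z2 := hχ0 u
    have hx1 : (χ u) ^ (2 * m + 1) = 1 := by
      rw [← hm]
      exact hχf _
    have hx2 : (χ u) ^ 2 ≠ 1 := by
      intro h1
      rw [pow_succ, pow_mul, h1, one_pow, one_mul] at hx1
      exact u.ne_zero (hχ1 _ hx1)
    have hb := Ex_alg hx1 hx2
    set b := χ u * ∑ i ∈ Finset.range (m + 1), (((χ u : CyclotomicField f ℚ) ^ 2) ^ 2) ^ i with hbd
    have hbint : IsIntegral ℤ b := by
      refine (hχint _).mul (IsIntegral.sum _ fun i _ => ?_)
      exact (((hχint _).pow _).pow _).pow _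
    have hjinv : j ((c u : L)⁻¹) = b := by
      rw [map_inv₀, hjc, hχneg]
      exact inv_eq_of_mul_eq_one_right hb
    have hint : IsIntegral ℤ ((c u : L)⁻¹) := by
      have h1 : IsIntegral ℤ (j.toIntAlgHom ((c u : L)⁻¹)) := by
        show IsIntegral ℤ (j ((c u : L)⁻¹))
        rw [hjinv]
        exact hbint
      exact (isIntegral_algHom_iff j.toIntAlgHom j.injective).1 h1
    have hne : (c u : L) ≠ 0 := by
      intro h0
      have h1 : j (c u : L) = 0 := by rw [h0, map_zero]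
      rw [hjc, hχneg] at h1
      rw [h1, zero_mul] at hb
      exact zero_ne_one hb
    refine IsUnit.of_mul_eq_one ⟨(c u : L)⁻¹, hint⟩ ?_
    apply RingOfIntegers.coe_injective
    show (c u : L) * (c u : L)⁻¹ = 1
    exact mul_inv_cancel₀ hne

theorem exists_RC {p n : ℕ} [Fact p.Prime] (hp2 : p ≠ 2) {L : Type} [Field L] [NumberField L]
    (h : IsF (p ^ (n + 1)) L) : Nonempty (RC (p ^ (n + 1)) L) := by
  have hp : p.Prime := Fact.out
  have h2 := hp.two_le
  have h3 : 3 ≤ p := by omega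
  have h4 : p ≤ p ^ (n + 1) := Nat.le_self_pow (by omega) p
  exact Ex_main (by omega) ((hp.odd_of_ne_two hp2).pow) h

end H5SW
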