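import Pool.Agent.H5.SW.Ex

/-!
ROW Ex2 (compatible data for a pair).  PROOF.  `rL` from `exists_RC`. `f = p^(n+1)`, `P = p^(n-m)`. Let `j : L →+* C = CyclotomicField f ℚ`. `K` embeds in
`CyclotomicField (p^(m+1)) ℚ`, which embeds in `C` (`ζ_{p^(m+1)} ↦ ζ^P`); as `K/ℚ` is Galois (`(exists_RC ..).gal`) all embeddings `K → C` have the same image, which is the
maximal real subfield of `ℚ(ζ^P)`; in particular (by `exists_RC` for `K`, the elements `rK0.c a` generate `K` over `ℚ` and are conjugates of `ζ^(Pa) + ζ^(-Pa)`) there is a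
data `rK0` for `K`; `φ' = rL.φ ∘ algebraMap K L` is another real embedding of `K`, so `φ' = rK0.φ ∘ g` for some `g ∈ Gal(K/ℚ)` (any two embeddings of a Galois extension differ by an
automorphism), `g = rK0.σ w`. Define `rK = rK0` with `φ := φ'` and `c a := g⁻¹ (rK0.c a)`: then `φ' (c a) = rK0.φ (rK0.c a) = 2 cos (2π a.val/p^(m+1))`, the other fields are
unchanged (`Gal` is abelian, `c u` is still a unit). Compatibility: both sides are in `L` and `rL.φ` of both is `2 cos (2π a/p^(m+1)) = 2 cos (2π P a/p^(n+1))` (`RC.φ_c_nat`),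
`rL.φ` is injective. (So no field theory beyond `exists_RC` for `K` and for `L` is needed.)
-/

set_option autoImplicit false

namespace H5SW

open NumberField

theorem exists_RP {p m n : ℕ} [Fact p.Prime] (hp2 : p ≠ 2) (hmn : m ≤ n) {K L : Type} [Field K] [NumberField K]
    [Field L] [NumberField L] [Algebra K L] (hK : IsF (p ^ (m + 1)) K) (hL : IsF (p ^ (n + 1)) L) :
    Nonempty (RP p m n K L) := by
  obtain ⟨rL⟩ := exists_RC hp2 hL
  obtain ⟨r0⟩ := exists_RC hp2 hK
  have hg : ∃ g : K ≃ₐ[ℚ] K, ∀ x : K, rL.φ (algebraMap K L x) = r0.φ (g x) := by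
    letI : Algebra K ℝ := r0.φ.toAlgebra
    haveI : IsScalarTower ℚ K ℝ := IsScalarTower.of_algebraMap_eq fun q => by
      rw [eq_ratCast, eq_ratCast, map_ratCast]
    haveI : IsGalois ℚ K := r0.gal
    let ψ : K →ₐ[ℚ] ℝ := (rL.φ.comp (algebraMap K L)).toRatAlgHom
    refine ⟨Normal.algHomEquivAut ℚ ℝ K ψ, fun x => ?_⟩
    have h1 : (Normal.algHomEquivAut ℚ ℝ K).symm (Normal.algHomEquivAut ℚ ℝ K ψ) = ψ :=
      Equiv.symm_apply_apply _ _
    have h2 := congrArg (fun f : K →ₐ[ℚ] ℝ => f x) h1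
    exact h2.symm
  obtain ⟨g, hg⟩ := hg
  have hc : ∀ a : ZMod (p ^ (m + 1)), g (r0.c (r0.u g⁻¹ * a) : K) = (r0.c a : K) := by
    intro a
    rw [← r0.apply_c g⁻¹ a]
    exact AlgEquiv.apply_symm_apply g _
  let rK : RC (p ^ (m + 1)) K :=
    { c := fun a => r0.c (r0.u g⁻¹ * a)
      φ := rL.φ.comp (algebraMap K L)
      hφ := fun a => by
        change rL.φ (algebraMap K L _) = _
        rw [hg, hc, r0.hφ]
      σ := r0.σ
      hσ := fun u a => by
        rw [r0.hσ, mul_left_comm]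
      surj := r0.surj
      ker := r0.ker
      unit := fun u => by
        have h := r0.unit (r0.u g⁻¹ * u)
        rwa [Units.val_mul] at h
      emb := r0.emb
      real := r0.real
      gal := r0.gal
      two_lt := r0.two_lt
      odd := r0.odd }
  refine ⟨⟨rL, rK, hmn, fun a => ?_⟩⟩
  apply rL.φ.injective
  have h1 : rL.φ (algebraMap K L (rK.c (a : ZMod (p ^ (m + 1))) : K)) =
      2 * Real.cos (2 * Real.pi * (a : ℝ) / (p ^ (m + 1) : ℕ)) := rK.φ_c_nat a
  rw [h1, rL.φ_c_nat]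
  have hp : (0 : ℝ) < p := by exact_mod_cast (Fact.out : p.Prime).pos
  have h3 : (p : ℝ) ^ (n + 1) = p ^ (n - m) * p ^ (m + 1) := by
    rw [← pow_add]
    congr 1
    omega
  have h2 : 2 * Real.pi * (a : ℝ) / (p ^ (m + 1) : ℕ) =
      2 * Real.pi * ((p ^ (n - m) * a : ℕ) : ℝ) / (p ^ (n + 1) : ℕ) := by
    push_cast
    rw [h3]
    field_simp
  rw [h2]

end H5SW
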