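import Pool.Agent.H5.SW.Ex2

/-!
ROW Ex3 (existence of the fields and of maps between them).  PROOF.
(a) `exists_F`: the maximal real subfield of `CyclotomicField f ℚ`, `f = p^(n+1)` odd prime power (Mathlib: `IsCMField` instance for cyclotomic fields, `NumberField.maximalRealSubfield`), of degree `φ(f)/2`,
    or the subfield `ℚ(ζ + ζ⁻¹)`, or the fixed field of complex conjugation.
(b) `map_F`: `K → CyclotomicField (p^(m+1)) ℚ → CyclotomicField (p^(n+1)) ℚ =: C` (`ζ_{p^(m+1)} ↦ ζ^(p^(n-m))`); the image is totally real, and the image of `L` in `C` is the set of all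
    elements fixed by complex conjugation (see Ex (1)), so the image of `K` lies in the image of `L`.
-/

set_option autoImplicit false

namespace H5SW

open NumberField

theorem Ex3_two_lt (p n : ℕ) [Fact p.Prime] (hp2 : p ≠ 2) : 2 < p ^ (n + 1) := by
  have h1 : 2 ≤ p := (Fact.out : p.Prime).two_le
  have h2 : 3 ≤ p := by omega
  have h3 : p ^ 1 ≤ p ^ (n + 1) := Nat.pow_le_pow_right (by omega) (by omega)
  rw [pow_one] at h3
  omega

theorem Ex3_inst (f : ℕ) [NeZero f] : IsCyclotomicExtension {f} ℚ (CyclotomicField f ℚ) :=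
  haveI : NeZero ((f : ℕ) : ℚ) := ⟨by exact_mod_cast (NeZero.ne f)⟩
  CyclotomicField.isCyclotomicExtension f ℚ

theorem Ex3_cm (f : ℕ) [NeZero f] (hf : 2 < f) : IsCMField (CyclotomicField f ℚ) :=
  haveI := Ex3_inst f
  IsCyclotomicExtension.Rat.isCMField (CyclotomicField f ℚ) (S := {f}) ⟨f, rfl, hf⟩

theorem Ex3_deg (f : ℕ) [NeZero f] (hf : 2 < f) :
    2 * Module.finrank ℚ (maximalRealSubfield (CyclotomicField f ℚ)) = f.totient := by
  have := Ex3_cm f hf
  have := Ex3_inst f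
  have h1 := Module.finrank_mul_finrank ℚ (maximalRealSubfield (CyclotomicField f ℚ))
    (CyclotomicField f ℚ)
  have h2 := Algebra.IsQuadraticExtension.finrank_eq_two
    (maximalRealSubfield (CyclotomicField f ℚ)) (CyclotomicField f ℚ)
  rw [h2, IsCyclotomicExtension.Rat.finrank f (CyclotomicField f ℚ)] at h1
  rw [← h1, mul_comm]

theorem exists_F (p n : ℕ) [Fact p.Prime] (hp2 : p ≠ 2) :
    ∃ (F : Type) (_ : Field F) (_ : NumberField F), IsF (p ^ (n + 1)) F := by
  have hf := Ex3_two_lt p n hp2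
  have : NeZero (p ^ (n + 1)) := ⟨by omega⟩
  exact ⟨maximalRealSubfield (CyclotomicField (p ^ (n + 1)) ℚ), inferInstance, inferInstance,
    inferInstance, ⟨(maximalRealSubfield (CyclotomicField (p ^ (n + 1)) ℚ)).subtype⟩,
    Ex3_deg _ hf⟩

/-- a totally real field embedded in a cyclotomic field embeds in the maximal real subfield -/
theorem Ex3_real {K C : Type} [Field K] [Field C] [CharZero C] [Algebra.IsIntegral ℚ C]
    (hK : IsTotallyReal K) (i : K →+* C) : Nonempty (K →+* maximalRealSubfield C) := by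
  have h1 : IsTotallyReal i.fieldRange := IsTotallyReal.ofRingEquiv i.rangeRestrictFieldEquiv
  have h2 : i.fieldRange ≤ maximalRealSubfield C := IsTotallyReal.le_maximalRealSubfield _
  exact ⟨(Subfield.inclusion h2).comp i.rangeRestrictFieldEquiv.toRingHom⟩

theorem Ex3_R {p n : ℕ} [Fact p.Prime] (hp2 : p ≠ 2) {K L : Type} [Field K] [NumberField K]
    [Field L] [NumberField L] (hK : IsTotallyReal K) (i : K →+* CyclotomicField (p ^ (n + 1)) ℚ)
    (hL : IsF (p ^ (n + 1)) L) : Nonempty (K →+* L) := by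
  have hf := Ex3_two_lt p n hp2
  have : NeZero (p ^ (n + 1)) := ⟨by omega⟩
  obtain ⟨a⟩ := Ex3_real hK i
  obtain ⟨hL1, ⟨j⟩, hL3⟩ := hL
  obtain ⟨b⟩ := Ex3_real hL1 j
  have hdeg : Module.finrank ℚ L =
      Module.finrank ℚ (maximalRealSubfield (CyclotomicField (p ^ (n + 1)) ℚ)) := by
    have := Ex3_deg _ hf
    omega
  have hinj : Function.Injective b.toRatAlgHom.toLinearMap := b.injective
  have hsurj : Function.Surjective b :=
    (LinearMap.injective_iff_surjective_of_finrank_eq_finrank hdeg).1 hinj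
  exact ⟨(RingEquiv.ofBijective b ⟨b.injective, hsurj⟩).symm.toRingHom.comp a⟩

theorem Ex3_cyc {p m n : ℕ} [Fact p.Prime] (hmn : m ≤ n) :
    Nonempty (CyclotomicField (p ^ (m + 1)) ℚ →+* CyclotomicField (p ^ (n + 1)) ℚ) := by
  have hp : 0 < p := (Fact.out : p.Prime).pos
  have h1 : NeZero (p ^ (m + 1)) := ⟨(pow_pos hp _).ne'⟩
  have h2 : NeZero (p ^ (n + 1)) := ⟨(pow_pos hp _).ne'⟩
  have h3 := Ex3_inst (p ^ (m + 1))
  have h4 := Ex3_inst (p ^ (n + 1))
  have hz := IsCyclotomicExtension.zeta_spec (p ^ (m + 1)) ℚ (CyclotomicField (p ^ (m + 1)) ℚ)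
  have hw := IsCyclotomicExtension.zeta_spec (p ^ (n + 1)) ℚ (CyclotomicField (p ^ (n + 1)) ℚ)
  have hw2 : IsPrimitiveRoot
      (IsCyclotomicExtension.zeta (p ^ (n + 1)) ℚ (CyclotomicField (p ^ (n + 1)) ℚ) ^ p ^ (n - m))
      (p ^ (m + 1)) := by
    refine hw.pow (pow_pos hp _) ?_
    rw [← pow_add]
    congr 1
    omega
  have hirr := Polynomial.cyclotomic.irreducible_rat (pow_pos hp (m + 1))
  have hmin := hz.minpoly_eq_cyclotomic_of_irreducible hirr
  refine ⟨((hz.powerBasis ℚ).lift _ (?_ : Polynomial.aeval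
    (IsCyclotomicExtension.zeta (p ^ (n + 1)) ℚ (CyclotomicField (p ^ (n + 1)) ℚ) ^ p ^ (n - m))
    (minpoly ℚ (hz.powerBasis ℚ).gen) = 0)).toRingHom⟩
  rw [IsPrimitiveRoot.powerBasis_gen, ← hmin, Polynomial.aeval_def, Polynomial.eval₂_eq_eval_map,
    Polynomial.map_cyclotomic]
  exact hw2.isRoot_cyclotomic (pow_pos hp _)

theorem map_F {p m n : ℕ} [Fact p.Prime] (hp2 : p ≠ 2) (hmn : m ≤ n) {K L : Type} [Field K] [NumberField K]
    [Field L] [NumberField L] (hK : IsF (p ^ (m + 1)) K) (hL : IsF (p ^ (n + 1)) L) : Nonempty (K →+* L) := by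
  obtain ⟨c⟩ := Ex3_cyc (p := p) hmn
  obtain ⟨hK1, ⟨i⟩, -⟩ := hK
  exact Ex3_R hp2 hK1 (c.comp i) hL

/-- a totally real field embedded in a cyclotomic field embeds in the maximal real subfield -/
theorem map_R {p n : ℕ} [Fact p.Prime] (hp2 : p ≠ 2) {K L : Type} [Field K] [NumberField K]
    [Field L] [NumberField L] (hK : IsTotallyReal K) (i : K →+* CyclotomicField (p ^ (n + 1)) ℚ)
    (hL : IsF (p ^ (n + 1)) L) : Nonempty (K →+* L) :=
  Ex3_R hp2 hK i hL

end H5SW
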