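import Mathlib

/-!
ROW G1 (a group ring lemma in characteristic two).  PROOF.  `R = MonoidAlgebra Ω Γ`, `A = ∑_x θ(x) [x⁻¹]`, `S = ∑_y s(y) [y]`, `e = ∑_{h ∈ N} [h]` (`e^2 = |N| e = e`, `N` odd,
characteristic 2).
(1) `A * S = 0`: the coefficient of `g` is `∑_x θ(x) s(g x)` (`y x⁻¹ = g`), zero by `h2`. `A * e = 0`: the coefficient of `g` is `∑_{h ∈ N} θ(h g⁻¹) = 0` by `h1`.
(2) `U = (1 - e) S + e` is a unit of `R`: otherwise it lies in a maximal ideal `M`; `R/M` is a field, a finite dimensional `Ω`-algebra, so `= Ω` (`IsAlgClosed`), i.e. there is an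
    `Ω`-algebra map `Φ : R → Ω` with `Φ U = 0`; `χ(g) = Φ [g]` is a character `Γ →* Ωˣ`, `Φ(S) = ∑ χ(y) s(y)`, `Φ(e) = ∑_{h ∈ N} χ(h)`, which is `|N| = 1` if `χ` is trivial on `N` and `0`
    otherwise. In the first case `Φ U = 1`, in the second `Φ U = ∑ χ(y) s(y) ≠ 0` by `hs`. Contradiction.
(3) `A * U = A * S - (A * e) * S + A * e = 0`, so `A = 0`, `θ = 0`.
-/

set_option autoImplicit false

namespace H5SW

open Finset in
theorem G1_char {Γ : Type} [CommGroup Γ] (N : Subgroup Γ) [Fintype N] {Ω : Type} [Field Ω]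
    (χ : Γ →* Ω) (h0 : Γ) (hN : h0 ∈ N) (hne : χ h0 ≠ 1) : ∑ h : N, χ (h : Γ) = 0 := by
  have h1 : ∑ h : N, χ (h : Γ) = χ h0 * ∑ h : N, χ (h : Γ) := by
    rw [Finset.mul_sum, ← Equiv.sum_comp (Equiv.mulLeft (⟨h0, hN⟩ : N))]
    refine Finset.sum_congr rfl fun h _ => ?_
    show χ (h0 * (h : Γ)) = χ h0 * χ (h : Γ)
    rw [map_mul]
  have h2 : (1 - χ h0) * ∑ h : N, χ (h : Γ) = 0 := by
    linear_combination h1
  rcases mul_eq_zero.mp h2 with h3 | h3
  · exact absurd (sub_eq_zero.mp h3).symm hne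
  · exact h3

theorem G1_unit {Γ : Type} [CommGroup Γ] [Finite Γ] {Ω : Type} [Field Ω] [IsAlgClosed Ω]
    (U : MonoidAlgebra Ω Γ) (hU : ∀ Φ : MonoidAlgebra Ω Γ →ₐ[Ω] Ω, Φ U ≠ 0) : IsUnit U := by
  by_contra hnu
  obtain ⟨M, hM, hUM⟩ := exists_max_ideal_of_mem_nonunits hnu
  haveI := hM
  letI : Field (MonoidAlgebra Ω Γ ⧸ M) := Ideal.Quotient.field M
  have hb : Function.Bijective (algebraMap Ω (MonoidAlgebra Ω Γ ⧸ M)) :=
    IsAlgClosed.algebraMap_bijective_of_isIntegral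
  let E : Ω ≃ₐ[Ω] (MonoidAlgebra Ω Γ ⧸ M) :=
    AlgEquiv.ofBijective (Algebra.ofId Ω (MonoidAlgebra Ω Γ ⧸ M)) hb
  refine hU (E.symm.toAlgHom.comp (Ideal.Quotient.mkₐ Ω M)) ?_
  show E.symm (Ideal.Quotient.mkₐ Ω M U) = 0
  have : Ideal.Quotient.mkₐ Ω M U = 0 := by
    rw [Ideal.Quotient.mkₐ_eq_mk]
    exact Ideal.Quotient.eq_zero_iff_mem.mpr hUM
  rw [this, map_zero]

theorem group_ring {Γ : Type} [CommGroup Γ] [Fintype Γ] (N : Subgroup Γ) [Fintype N] (hN : Odd (Fintype.card N))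
    {Ω : Type} [Field Ω] [IsAlgClosed Ω] [CharP Ω 2] (s θ : Γ → Ω)
    (hs : ∀ χ : Γ →* Ωˣ, (∃ h ∈ N, χ h ≠ 1) → ∑ g, (χ g : Ω) * s g ≠ 0)
    (h1 : ∀ g, ∑ h : N, θ (g * h) = 0) (h2 : ∀ g, ∑ x, θ x * s (g * x) = 0) : θ = 0 := by
  classical
  let A : MonoidAlgebra Ω Γ := ∑ x, MonoidAlgebra.single x⁻¹ (θ x)
  let S : MonoidAlgebra Ω Γ := ∑ y, MonoidAlgebra.single y (s y)
  let e : MonoidAlgebra Ω Γ := ∑ h : N, MonoidAlgebra.single (h : Γ) 1
  have hAS : A * S = 0 := by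
    show (∑ x, MonoidAlgebra.single x⁻¹ (θ x)) * (∑ y, MonoidAlgebra.single y (s y)) = 0
    rw [Finset.sum_mul_sum]
    have h3 : ∀ x : Γ, ∑ y, (MonoidAlgebra.single x⁻¹ (θ x) : MonoidAlgebra Ω Γ) *
        MonoidAlgebra.single y (s y) = ∑ g, MonoidAlgebra.single g (θ x * s (g * x)) := by
      intro x
      rw [← Equiv.sum_comp (Equiv.mulRight x)]
      refine Finset.sum_congr rfl fun g _ => ?_
      show MonoidAlgebra.single x⁻¹ (θ x) * MonoidAlgebra.single (g * x) (s (g * x)) = _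
      rw [MonoidAlgebra.single_mul_single]
      congr 1
      rw [mul_comm g x, inv_mul_cancel_left]
    rw [Finset.sum_congr rfl fun x _ => h3 x, Finset.sum_comm]
    refine Finset.sum_eq_zero fun g _ => ?_
    have h4 : ∑ x, (MonoidAlgebra.single g (θ x * s (g * x)) : MonoidAlgebra Ω Γ) =
        MonoidAlgebra.single g (∑ x, θ x * s (g * x)) := by
      exact (map_sum (MonoidAlgebra.singleAddHom g) _ _).symm
    rw [h4, h2, MonoidAlgebra.single_zero]
  have hAe : A * e = 0 := by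
    show (∑ x, MonoidAlgebra.single x⁻¹ (θ x)) * (∑ h : N, MonoidAlgebra.single (h : Γ) 1) = 0
    rw [Finset.sum_mul_sum, Finset.sum_comm]
    have h3 : ∀ h : N, ∑ x, (MonoidAlgebra.single x⁻¹ (θ x) : MonoidAlgebra Ω Γ) *
        MonoidAlgebra.single (h : Γ) 1 = ∑ g, MonoidAlgebra.single g (θ (g⁻¹ * h)) := by
      intro h
      rw [← Equiv.sum_comp (Equiv.divRight (h : Γ)).symm, ← Equiv.sum_comp (Equiv.inv Γ)]
      refine Finset.sum_congr rfl fun g _ => ?_
      show MonoidAlgebra.single (g⁻¹ * (h : Γ))⁻¹ (θ (g⁻¹ * (h : Γ))) * MonoidAlgebra.single (h : Γ) 1 = _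
      rw [MonoidAlgebra.single_mul_single, mul_one]
      congr 1
      rw [mul_inv, inv_inv, inv_mul_cancel_right]
    rw [Finset.sum_congr rfl fun x _ => h3 x, Finset.sum_comm]
    refine Finset.sum_eq_zero fun g _ => ?_
    have h4 : ∑ h : N, (MonoidAlgebra.single g (θ (g⁻¹ * h)) : MonoidAlgebra Ω Γ) =
        MonoidAlgebra.single g (∑ h : N, θ (g⁻¹ * h)) := by
      exact (map_sum (MonoidAlgebra.singleAddHom g) _ _).symm
    rw [h4, h1, MonoidAlgebra.single_zero]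
  have hU : IsUnit ((1 - e) * S + e) := by
    refine G1_unit _ fun Φ => ?_
    let χ0 : Γ →* Ω := (Φ : MonoidAlgebra Ω Γ →* Ω).comp (MonoidAlgebra.of Ω Γ)
    have hχ0 : ∀ g, χ0 g = Φ (MonoidAlgebra.single g 1) := fun g => rfl
    have hS : Φ S = ∑ y, χ0 y * s y := by
      show Φ (∑ y, MonoidAlgebra.single y (s y)) = _
      rw [map_sum]
      refine Finset.sum_congr rfl fun y _ => ?_
      have : (MonoidAlgebra.single y (s y) : MonoidAlgebra Ω Γ) = s y • MonoidAlgebra.single y 1 := by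
        rw [MonoidAlgebra.smul_single, smul_eq_mul, mul_one]
      rw [this, map_smul, smul_eq_mul, hχ0, mul_comm]
    have he : Φ e = ∑ h : N, χ0 (h : Γ) := by
      show Φ (∑ h : N, MonoidAlgebra.single (h : Γ) 1) = _
      rw [map_sum]
      rfl
    rw [map_add, map_mul, map_sub, map_one]
    by_cases hc : ∃ h ∈ N, χ0 h ≠ 1
    · obtain ⟨h0, hh0, hne⟩ := hc
      rw [he, G1_char N χ0 h0 hh0 hne, sub_zero, one_mul, add_zero, hS]
      have := hs χ0.toHomUnits ⟨h0, hh0, fun h3 => hne ?_⟩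
      · simpa using this
      · rw [← MonoidHom.coe_toHomUnits χ0 h0, h3, Units.val_one]
    · push Not at hc
      have he1 : Φ e = 1 := by
        rw [he]
        have h3 : ∑ h : N, χ0 (h : Γ) = ∑ _h : N, (1 : Ω) :=
          Finset.sum_congr rfl fun h _ => hc h h.2
        rw [h3, Finset.sum_const, Finset.card_univ, nsmul_eq_mul, mul_one]
        obtain ⟨k, hk⟩ := hN
        rw [hk]
        push_cast
        have h2' : (2 : Ω) = 0 := by
          have := CharP.cast_eq_zero Ω 2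
          exact_mod_cast this
        rw [h2', zero_mul, zero_add]
      rw [he1, sub_self, zero_mul, zero_add]
      exact one_ne_zero
  have hA : A = 0 := by
    have h3 : A * ((1 - e) * S + e) = 0 := by
      have : A * ((1 - e) * S + e) = A * S - (A * e) * S + A * e := by ring
      rw [this, hAS, hAe, zero_mul, sub_zero, add_zero]
    exact (hU.mul_left_eq_zero).mp h3
  funext x
  have h3 := congrArg (fun w : MonoidAlgebra Ω Γ => w.coeff x⁻¹) hA
  have h4 : A.coeff x⁻¹ = θ x := by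
    show (∑ x, MonoidAlgebra.single x⁻¹ (θ x) : MonoidAlgebra Ω Γ).coeff x⁻¹ = θ x
    rw [MonoidAlgebra.coeff_sum, Finsupp.finsetSum_apply, Finset.sum_eq_single x]
    · rw [MonoidAlgebra.coeff_single, Finsupp.single_eq_same]
    · intro y _ hy
      rw [MonoidAlgebra.coeff_single, Finsupp.single_eq_of_ne]
      intro h5
      exact hy (inv_injective h5).symm
    · intro h5
      exact absurd (Finset.mem_univ x) h5
  rw [← h4]
  exact h3

end H5SW
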