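import Pool.Agent.H5.SW.G1
import Pool.Agent.H5.SW.T5

/-!
ROW K1 (from non vanishing to evenness).  PROOF.
Let `Ω = AlgebraicClosure (ZMod 2)`, `Γ = L ≃ₐ[ℚ] L` (commutative by `RC.gal_comm`), `N` = the subgroup of the `h.restrictScalars ℚ`, `h ∈ Gal(L/K)`, of odd order `p^(n-m)` (`RP.finrank`,
`RP.isGalois`). `θ` mod 2 as a function `Γ → Ω`; `Rel` gives `h1` of `group_ring`.
(a) `even_of_signs`: `s g = sg g` in `Ω`; `h2` holds since `∑_x θ x sg (g x)` is even; `hs` is `nonvanish` (first part). So `θ = 0` in `Ω`, i.e. all `θ g` are even.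
-/

set_option autoImplicit false

namespace H5SW

open NumberField

variable {p k0 : ℕ} [Fact p.Prime] {m n : ℕ} {K L : Type} [Field K] [NumberField K] [Field L] [NumberField L] [Algebra K L]

theorem even_of_signs (hp2 : p ≠ 2) (hS : NV p k0) (hm : k0 ≤ m + 1) (r : RP p m n K L) (θ : (L ≃ₐ[ℚ] L) → ℤ)
    (hR : Rel K L θ) (h : ∀ g, Even (∑ x : L ≃ₐ[ℚ] L, θ x * r.rL.sg (g * x))) : ∀ g, Even (θ g) := by
  classical
  letI : CommGroup (L ≃ₐ[ℚ] L) := { (inferInstance : Group (L ≃ₐ[ℚ] L)) with mul_comm := r.rL.gal_comm }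
  haveI := r.isGalois
  let ρ : (L ≃ₐ[K] L) →* (L ≃ₐ[ℚ] L) :=
    { toFun := fun h => h.restrictScalars ℚ
      map_one' := by ext x; rfl
      map_mul' := by intro a b; ext x; rfl }
  have hρ : Function.Injective ρ := by
    intro a b hab
    ext x
    exact congrArg (fun g : L ≃ₐ[ℚ] L => g x) hab
  let N : Subgroup (L ≃ₐ[ℚ] L) := ρ.range
  have eN : (L ≃ₐ[K] L) ≃ N := (MonoidHom.ofInjective hρ).toEquiv
  let Ω := AlgebraicClosure (ZMod 2)
  haveI : CharP Ω 2 := inferInstance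
  have cardN : Fintype.card N = p ^ (n - m) := by
    rw [← r.finrank hp2, ← IsGalois.card_aut_eq_finrank, Nat.card_eq_fintype_card]
    exact (Fintype.card_congr eN).symm
  have hodd : Odd (Fintype.card N) := by
    rw [cardN]
    exact ((Fact.out : p.Prime).odd_of_ne_two hp2).pow
  have key := group_ring (Γ := L ≃ₐ[ℚ] L) N hodd (Ω := Ω) (fun g => (r.rL.sg g : Ω)) (fun g => (θ g : Ω))
    (by
      rintro χ ⟨h0, hh0, hχ⟩
      obtain ⟨h1, rfl⟩ := hh0
      exact (nonvanish hp2 hS hm r χ ⟨h1, hχ⟩).1)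
    (by
      intro g
      have e1 : ∑ h : N, ((θ (g * h) : ℤ) : Ω) = ∑ h : L ≃ₐ[K] L, ((θ (g * h.restrictScalars ℚ) : ℤ) : Ω) := by
        symm
        refine Fintype.sum_equiv (MonoidHom.ofInjective hρ).toEquiv _ _ ?_
        intro x
        rfl
      have e2 := hR g
      rw [e1, ← Int.cast_sum, e2, Int.cast_zero])
    (by
      intro g
      obtain ⟨k, hk⟩ := h g
      have e1 : ∑ x, (θ x : Ω) * ((r.rL.sg (g * x) : ℤ) : Ω)
          = ((∑ x : L ≃ₐ[ℚ] L, θ x * r.rL.sg (g * x) : ℤ) : Ω) := by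
        push_cast; rfl
      rw [e1, hk, ← two_mul, Int.cast_mul]
      have e2 : ((2 : ℤ) : Ω) = 0 := by
        have := CharP.cast_eq_zero Ω 2
        exact_mod_cast this
      rw [e2, zero_mul])
  intro g
  have h1 : ((θ g : ℤ) : Ω) = 0 := congrFun key g
  rw [CharP.intCast_eq_zero_iff Ω 2] at h1
  exact (even_iff_two_dvd).mpr (by exact_mod_cast h1)

end H5SW
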