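import Pool.Agent.H5.SW.G1
import Pool.Agent.H5.SW.T5

/-!
ROW K2 (from non vanishing to evenness, modulo four).  PROOF.
Let `Ω = AlgebraicClosure (ZMod 2)`, `Γ = L ≃ₐ[ℚ] L` (commutative by `RC.gal_comm`), `N` = the subgroup of the `h.restrictScalars ℚ`, `h ∈ Gal(L/K)`, of odd order `p^(n-m)` (`RP.finrank`,
`RP.isGalois`). `θ` mod 2 as a function `Γ → Ω`; `Rel` gives `h1` of `group_ring`.
`𝓞 L / 2` is reduced (`hred`). For `a = u/2` in `ZMod f` (`f` odd): `c u = c(u/2)^2 - 2` (`c_sq`). So with `b_g = rL.c (u_g / 2)` (a unit of `𝓞 L`): `e g = b_g^2 (1 - 2 b_g^(-2))`,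
and modulo `4` (as units of `𝓞 L / 4`): `pw θ = B^2 (1 - 2 ∑ θ(g) b_g^(-2))`, `B = ∏ b_g^(θ g)` [`(1 - 2x)^(-1) ≡ 1 + 2 x mod 4`]. With `s1 = s B⁻¹`: `4 ∣ 1 - 2 κ - s1^2`,
`κ = ∑ θ(g) b_g^(-2)`. So `2 ∣ 1 - s1^2`, `2 ∣ (1 - s1)^2`, `2 ∣ 1 - s1` (`hred`), `4 ∣ 1 - s1^2 = (1-s1)(1+s1)`, so `4 ∣ 2 κ`, `2 ∣ κ`. Modulo 2, `b_g^2 ≡ e g` (`c_sq`), so
`∑ θ(g) (e g)⁻¹ ≡ 0 mod 2` in `𝓞 L`. Take any ring hom `ψ : 𝓞 L → Ω` (exists: `𝓞 L / P` for a prime `P ∋ 2` is a finite field of characteristic 2) and compose with Galois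
automorphisms `g` of `𝓞 L` (`RC.apply_e`): `∑_x θ(x) ψ(e (g x))⁻¹ = 0` for all `g`, which is `h2` for `s y = ψ(e y)⁻¹`; `hs` is `nonvanish` (second part). So `θ = 0` in `Ω`.
-/

set_option autoImplicit false

namespace H5SW

open NumberField

variable {p k0 : ℕ} [Fact p.Prime] {m n : ℕ} {K L : Type} [Field K] [NumberField K] [Field L] [NumberField L] [Algebra K L]

private lemma k2_group_ring {Γ : Type} [Group Γ] (hcomm : ∀ a b : Γ, a * b = b * a) [Fintype Γ]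
    (N : Subgroup Γ) [Fintype N] (hN : Odd (Fintype.card N))
    {Ω : Type} [Field Ω] [IsAlgClosed Ω] [CharP Ω 2] (s θ : Γ → Ω)
    (hs : ∀ χ : Γ →* Ωˣ, (∃ h ∈ N, χ h ≠ 1) → ∑ g, (χ g : Ω) * s g ≠ 0)
    (h1 : ∀ g, ∑ h : N, θ (g * h) = 0) (h2 : ∀ g, ∑ x, θ x * s (g * x) = 0) : θ = 0 := by
  let _ : CommGroup Γ := { ‹Group Γ› with mul_comm := hcomm }
  exact group_ring N hN s θ hs h1 h2

/-- a ring hom from the integers of `L` to the algebraic closure of `ZMod 2` -/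
private lemma k2_exists_hom (L : Type) [Field L] [NumberField L] :
    Nonempty (𝓞 L →+* AlgebraicClosure (ZMod 2)) := by
  have h2z : Prime (2 : ℤ) := Int.prime_two
  have hpr : (Ideal.span {(2 : ℤ)}).IsPrime := (Ideal.span_singleton_prime h2z.ne_zero).mpr h2z
  obtain ⟨P, hP⟩ := (Ideal.span {(2 : ℤ)}).nonempty_primesOver (S := 𝓞 L)
  have hP1 : P.IsPrime := hP.1
  have hP2 : P.LiesOver (Ideal.span {(2 : ℤ)}) := hP.2
  have h2P : (2 : 𝓞 L) ∈ P := by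
    have h3 : (2 : ℤ) ∈ P.under ℤ := by
      rw [← hP2.over]
      exact Ideal.mem_span_singleton_self 2
    rw [Ideal.under_def, Ideal.mem_comap] at h3
    simpa using h3
  have hPb : P ≠ ⊥ := by
    intro h
    rw [h, Ideal.mem_bot] at h2P
    exact two_ne_zero h2P
  have hmax : P.IsMaximal := hP1.isMaximal hPb
  let _ : Field (𝓞 L ⧸ P) := Ideal.Quotient.field P
  have hfin : Finite (𝓞 L ⧸ P) := Ideal.finiteQuotientOfFreeOfNeBot P hPb
  have hchar : CharP (𝓞 L ⧸ P) 2 := by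
    apply CharTwo.of_one_ne_zero_of_two_eq_zero one_ne_zero
    have h4 : Ideal.Quotient.mk P (2 : 𝓞 L) = 0 := Ideal.Quotient.eq_zero_iff_mem.mpr h2P
    rwa [map_ofNat] at h4
  let _ : Algebra (ZMod 2) (𝓞 L ⧸ P) := ZMod.algebra _ 2
  have halg : Algebra.IsAlgebraic (ZMod 2) (𝓞 L ⧸ P) := inferInstance
  let F : (𝓞 L ⧸ P) →ₐ[ZMod 2] AlgebraicClosure (ZMod 2) := IsAlgClosed.lift
  exact ⟨(F : (𝓞 L ⧸ P) →+* AlgebraicClosure (ZMod 2)).comp (Ideal.Quotient.mk P)⟩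

private lemma k2_prod {A ι : Type} [CommRing A] (T : Finset ι) (x : ι → A) :
    ∃ y, ∏ g ∈ T, (1 - 2 * x g) = 1 - 2 * ∑ g ∈ T, x g + 4 * y := by
  classical
  induction T using Finset.induction_on with
  | empty => exact ⟨0, by simp⟩
  | insert a T ha ih =>
    obtain ⟨y, hy⟩ := ih
    refine ⟨x a * ∑ g ∈ T, x g + (1 - 2 * x a) * y, ?_⟩
    rw [Finset.prod_insert ha, Finset.sum_insert ha, hy]
    ring

/-- the main congruence -/
private lemma k2_kappa {A G : Type} [CommRing A] [IsDomain A] [CharZero A] [Fintype G]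
    (hred : ∀ x : A, (2 : A) ∣ x ^ 2 → (2 : A) ∣ x) (e b : G → Aˣ)
    (hb : ∀ g, (e g : A) = (b g : A) ^ 2 - 2) (θ : G → ℤ) (s : A)
    (h : (4 : A) ∣ ((∏ g, (e g) ^ (θ g) : Aˣ) : A) - s ^ 2) (T : Finset G)
    (hT : ∀ g, g ∈ T ↔ ¬ Even (θ g)) :
    (2 : A) ∣ ∑ g ∈ T, (((b g)⁻¹ : Aˣ) : A) ^ 2 := by
  classical
  obtain ⟨x, hx⟩ : ∃ x : G → A, ∀ g, x g = (((b g)⁻¹ : Aˣ) : A) ^ 2 := ⟨_, fun g => rfl⟩
  have hbx : ∀ g, (b g : A) ^ 2 * x g = 1 := by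
    intro g
    rw [hx, ← mul_pow, Units.mul_inv, one_pow]
  have hex : ∀ g, (e g : A) = (b g : A) ^ 2 * (1 - 2 * x g) := by
    intro g
    have h1 := hbx g
    rw [hb g]
    linear_combination 2 * h1
  obtain ⟨y, hy⟩ := k2_prod T x
  -- the square part
  have hunit : ∀ g, (e g) ^ (θ g) = ((e g) ^ (θ g / 2)) ^ 2 * (if g ∈ T then e g else 1) := by
    intro g
    by_cases hg : g ∈ T
    · rw [if_pos hg]
      have h1 : θ g = θ g / 2 * 2 + 1 := by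
        have h2 := (hT g).mp hg
        rw [Int.not_even_iff] at h2
        omega
      conv_lhs => rw [h1]
      rw [zpow_add, zpow_one, zpow_mul]
      rfl
    · rw [if_neg hg, mul_one]
      have h1 : θ g = θ g / 2 * 2 := by
        have h2 := (hT g).not.mp hg
        rw [not_not, Int.even_iff] at h2
        omega
      conv_lhs => rw [h1]
      rw [zpow_mul]
      rfl
  obtain ⟨W, hW⟩ : ∃ W : Aˣ, W = ∏ g, (e g) ^ (θ g / 2) := ⟨_, rfl⟩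
  have hprod : (∏ g, (e g) ^ (θ g) : Aˣ) = W ^ 2 * ∏ g ∈ T, e g := by
    rw [Finset.prod_congr rfl (fun g _ => hunit g), Finset.prod_mul_distrib, Finset.prod_pow, ← hW]
    congr 1
    rw [Finset.prod_ite_mem, Finset.univ_inter]
  obtain ⟨B, hB⟩ : ∃ B : Aˣ, B = ∏ g ∈ T, b g := ⟨_, rfl⟩
  have hpt : ((∏ g ∈ T, e g : Aˣ) : A) = (B : A) ^ 2 * (1 - 2 * ∑ g ∈ T, x g + 4 * y) := by
    rw [← hy, hB, Units.coe_prod, Units.coe_prod, ← Finset.prod_pow, ← Finset.prod_mul_distrib]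
    exact Finset.prod_congr rfl (fun g _ => hex g)
  obtain ⟨V, hV⟩ : ∃ V : Aˣ, V = W * B := ⟨_, rfl⟩
  obtain ⟨κ, hκ⟩ : ∃ κ : A, κ = ∑ g ∈ T, x g := ⟨_, rfl⟩
  have hκ' : ∑ g ∈ T, (((b g)⁻¹ : Aˣ) : A) ^ 2 = κ := by
    rw [hκ]
    exact Finset.sum_congr rfl (fun g _ => (hx g).symm)
  rw [hκ']
  rw [← hκ] at hpt
  obtain ⟨z, hz⟩ := h
  rw [hprod, Units.val_mul, hpt, Units.val_pow_eq_pow_val] at hz
  -- divide by V ^ 2
  obtain ⟨v, hv⟩ : ∃ v : A, v = ((V⁻¹ : Aˣ) : A) := ⟨_, rfl⟩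
  have hVv : (W : A) * B * v = 1 := by
    rw [hv, ← Units.val_mul, ← hV, Units.mul_inv]
  have hs1 : (1 - 2 * κ + 4 * y) - (s * v) ^ 2 = 4 * (z * v ^ 2) := by
    have h5 : ((W : A) * B * v) ^ 2 = 1 := by rw [hVv, one_pow]
    linear_combination v ^ 2 * hz - (1 - 2 * κ + 4 * y) * h5
  have hd1 : (2 : A) ∣ (1 - s * v) ^ 2 := by
    refine ⟨κ - 2 * y + 2 * (z * v ^ 2) + (s * v) ^ 2 - s * v, ?_⟩
    linear_combination hs1
  obtain ⟨w, hw⟩ := hred _ hd1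
  have h4 : 2 * κ = 4 * (w * (1 - w) + y - z * v ^ 2) := by
    have h6 : s * v = 1 - 2 * w := by linear_combination -hw
    rw [h6] at hs1
    linear_combination -hs1
  refine ⟨w * (1 - w) + y - z * v ^ 2, ?_⟩
  have h7 : (2 : A) ≠ 0 := two_ne_zero
  apply mul_left_cancel₀ h7
  rw [h4]
  ring

theorem even_of_sq (hp2 : p ≠ 2) (hS : NV p k0) (hm : k0 ≤ m + 1) (r : RP p m n K L)
    (hred : ∀ x : 𝓞 L, (2 : 𝓞 L) ∣ x ^ 2 → (2 : 𝓞 L) ∣ x) (θ : (L ≃ₐ[ℚ] L) → ℤ)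
    (hR : Rel K L θ) {s : 𝓞 L} (h : (4 : 𝓞 L) ∣ (r.rL.pw θ : 𝓞 L) - s ^ 2) : ∀ g, Even (θ g) := by
  classical
  have hp : p.Prime := Fact.out
  obtain ⟨v2, hv2⟩ : ∃ v : (ZMod (p ^ (n + 1)))ˣ, (v : ZMod (p ^ (n + 1))) = 2 := by
    refine ⟨ZMod.unitOfCoprime 2 ((Nat.coprime_two_left).mpr r.rL.odd), ?_⟩
    rw [ZMod.coe_unitOfCoprime]
    norm_num
  have hb : ∀ g : L ≃ₐ[ℚ] L, ∃ b : (𝓞 L)ˣ, (r.rL.e g : 𝓞 L) = (b : 𝓞 L) ^ 2 - 2 := by
    intro g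
    refine ⟨(r.rL.unit (v2⁻¹ * r.rL.u g)).unit, ?_⟩
    rw [IsUnit.unit_spec, r.rL.c_sq, r.rL.e_eq]
    have h1 : 2 * ((v2⁻¹ * r.rL.u g : (ZMod (p ^ (n + 1)))ˣ) : ZMod (p ^ (n + 1))) = r.rL.u g := by
      rw [← hv2, ← Units.val_mul, mul_inv_cancel_left]
    rw [h1]
    ring
  choose b hb using hb
  obtain ⟨T, hT⟩ : ∃ T : Finset (L ≃ₐ[ℚ] L), ∀ g, g ∈ T ↔ ¬ Even (θ g) :=
    ⟨Finset.univ.filter (fun g => ¬ Even (θ g)), fun g => by simp⟩
  have hκ := k2_kappa hred r.rL.e b hb θ s h T hT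
  -- reduction
  obtain ⟨ψ⟩ := k2_exists_hom L
  have hΩ2 : (2 : AlgebraicClosure (ZMod 2)) = 0 := CharTwo.two_eq_zero
  have hsum : ∀ φ : 𝓞 L →+* AlgebraicClosure (ZMod 2), ∑ g ∈ T, (φ (r.rL.e g : 𝓞 L))⁻¹ = 0 := by
    intro φ
    obtain ⟨y, hy⟩ := hκ
    have h1 := congrArg φ hy
    rw [map_mul, map_ofNat, hΩ2, zero_mul, map_sum] at h1
    rw [← h1]
    apply Finset.sum_congr rfl
    intro g _
    have h2 : φ (((b g)⁻¹ : (𝓞 L)ˣ) : 𝓞 L) * φ (b g : 𝓞 L) = 1 := by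
      rw [← map_mul, Units.inv_mul, map_one]
    rw [hb g, map_sub, map_pow, map_ofNat, hΩ2, sub_zero, map_pow, eq_inv_of_mul_eq_one_left h2,
      inv_pow]
  have hact : ∀ g x : L ≃ₐ[ℚ] L,
      RingOfIntegers.mapRingHom ((g : L →ₐ[ℚ] L) : L →+* L) (r.rL.e x : 𝓞 L) =
        (r.rL.e (g * x) : 𝓞 L) := by
    intro g x
    apply RingOfIntegers.coe_injective
    exact r.rL.apply_e g x
  -- the subgroup
  let ι : (L ≃ₐ[K] L) →* (L ≃ₐ[ℚ] L) :=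
    { toFun := fun h => h.restrictScalars ℚ
      map_one' := rfl
      map_mul' := fun _ _ => rfl }
  have hι : Function.Injective ι := by
    intro g1 g2 hg
    ext z
    exact congrArg (fun t : L ≃ₐ[ℚ] L => t z) hg
  let _ : Fintype ι.range := Fintype.ofEquiv _ (MonoidHom.ofInjective hι).toEquiv
  have hgal : IsGalois K L := r.isGalois
  have hcard : Odd (Fintype.card ι.range) := by
    have h1 : Fintype.card ι.range = Fintype.card (L ≃ₐ[K] L) :=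
      (Fintype.card_congr (MonoidHom.ofInjective hι).toEquiv).symm
    have h2 : Fintype.card (L ≃ₐ[K] L) = Module.finrank K L := by
      rw [← IsGalois.card_aut_eq_finrank, Nat.card_eq_fintype_card]
    rw [h1, h2, r.finrank hp2]
    exact (hp.odd_of_ne_two hp2).pow
  have hθ0 : (fun g : L ≃ₐ[ℚ] L => ((θ g : ℤ) : AlgebraicClosure (ZMod 2))) = 0 := by
    refine k2_group_ring r.rL.gal_comm ι.range hcard
      (fun g => (ψ (r.rL.e g : 𝓞 L))⁻¹) _ ?_ ?_ ?_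
    · rintro χ ⟨g, ⟨g', rfl⟩, hg⟩
      exact (nonvanish hp2 hS hm r χ ⟨g', hg⟩).2 ψ
    · intro g
      have h1 : ∑ h : L ≃ₐ[K] L, ((θ (g * ι h) : ℤ) : AlgebraicClosure (ZMod 2)) = 0 := by
        rw [← Int.cast_sum]
        have h2 := hR g
        have h3 : ∑ h : L ≃ₐ[K] L, θ (g * ι h) = 0 := h2
        rw [h3, Int.cast_zero]
      rw [← h1]
      symm
      exact Fintype.sum_equiv (MonoidHom.ofInjective hι).toEquiv _ _ (fun x => rfl)
    · intro g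
      have h1 := hsum (ψ.comp (RingOfIntegers.mapRingHom ((g : L →ₐ[ℚ] L) : L →+* L)))
      rw [← h1, ← Finset.sum_subset (Finset.subset_univ T)]
      · apply Finset.sum_congr rfl
        intro x hx
        obtain ⟨k, hk⟩ := Int.not_even_iff_odd.mp ((hT x).mp hx)
        have h2 : ((θ x : ℤ) : AlgebraicClosure (ZMod 2)) = 1 := by
          rw [hk]
          push_cast
          rw [hΩ2, zero_mul, zero_add]
        rw [h2, one_mul, RingHom.comp_apply, hact]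
      · intro x _ hx
        have h3 : Even (θ x) := by
          by_contra hne
          exact hx ((hT x).mpr hne)
        obtain ⟨k, hk⟩ := h3
        have h2 : ((θ x : ℤ) : AlgebraicClosure (ZMod 2)) = 0 := by
          rw [hk]
          push_cast
          rw [← two_mul, hΩ2, zero_mul]
        rw [h2, zero_mul]
  intro g
  have h1 := congrFun hθ0 g
  simp only [Pi.zero_apply] at h1
  rw [CharP.intCast_eq_zero_iff (AlgebraicClosure (ZMod 2)) 2] at h1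
  exact even_iff_two_dvd.mpr (by exact_mod_cast h1)

end H5SW
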