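import Pool.Agent.H5.SW.Ex3
import Pool.Agent.H5.SW.Gn

/-!
ROW L1 (level of a subfield).  PROOF.  `G = Gal(F/ℚ)` is cyclic of order `p^n (p-1)/2` (a quotient of the cyclic group `(ZMod (p^(n+1)))ˣ` by `rF.σ`). For a subfield `K' = i(K)` of `F` let `H_K ⊆ G` be the group of
automorphisms trivial on `K'`, `|H_K| = |G| / [K:ℚ]`; so `p^(n-m) ∣ |H_K|` when `v_p([K:ℚ]) ≤ m`. `H_M` = the automorphisms trivial on `M`, of order `[F:M] = p^(n-m)` (`RP.finrank`). In a cyclic group
there is exactly one subgroup of each order, so `H_M ⊆ H_K` (the subgroup of order `p^(n-m)` of `H_K` is `H_M`), and by Galois theory `K' ⊆` image of `M`. Hence `j`.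
-/

set_option autoImplicit false

namespace H5SW

open NumberField

private lemma cyc_le {G : Type} [Group G] [Finite G] [IsCyclic G] (H1 H2 : Subgroup G)
    (h : Nat.card H1 ∣ Nat.card H2) : H1 ≤ H2 := by
  classical
  haveI : Fintype G := Fintype.ofFinite G
  intro x hx
  have hx1 : x ^ (Nat.card H1) = 1 := by
    have h0 := pow_card_eq_one' (G := H1) (x := ⟨x, hx⟩)
    have h00 := congrArg Subtype.val h0
    rw [SubmonoidClass.coe_pow, OneMemClass.coe_one] at h00
    exact h00
  have hx2 : x ^ (Nat.card H2) = 1 := by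
    obtain ⟨c, hc⟩ := h
    rw [hc, pow_mul, hx1, one_pow]
  by_contra hxn
  have hpos : 0 < Nat.card H2 := Nat.card_pos
  have hle := IsCyclic.card_pow_eq_one_le (α := G) hpos
  have hsub : insert x (Finset.univ.filter (fun y : G => y ∈ H2)) ⊆
      Finset.univ.filter (fun a : G => a ^ (Nat.card H2) = 1) := by
    intro y hy
    rw [Finset.mem_insert] at hy
    simp only [Finset.mem_filter, Finset.mem_univ, true_and]
    rcases hy with rfl | hy
    · exact hx2
    · simp only [Finset.mem_filter, Finset.mem_univ, true_and] at hy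
      have h0 := pow_card_eq_one' (G := H2) (x := ⟨y, hy⟩)
      have h00 := congrArg Subtype.val h0
      rw [SubmonoidClass.coe_pow, OneMemClass.coe_one] at h00
      exact h00
  have hcard := Finset.card_le_card hsub
  rw [Finset.card_insert_of_notMem (by simp [hxn])] at hcard
  have hc2 : (Finset.univ.filter (fun y : G => y ∈ H2)).card = Nat.card H2 := by
    rw [Nat.card_eq_fintype_card, Fintype.card_subtype]
  omega

private lemma pn_dvd {p n : ℕ} [Fact p.Prime] (hp2 : p ≠ 2) {F : Type} [Field F] [NumberField F]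
    (r : RC (p ^ (n + 1)) F) : p ^ n ∣ Nat.card (F ≃ₐ[ℚ] F) := by
  classical
  have hp : p.Prime := Fact.out
  haveI : NeZero (p ^ (n + 1)) := ⟨pow_ne_zero _ hp.ne_zero⟩
  have h1 : Nat.card (ZMod (p ^ (n + 1)))ˣ = Nat.card r.σ.ker * Nat.card (F ≃ₐ[ℚ] F) := by
    have := Subgroup.card_eq_card_quotient_mul_card_subgroup r.σ.ker
    rw [this, mul_comm]
    congr 1
    exact Nat.card_congr (QuotientGroup.quotientKerEquivOfSurjective r.σ r.surj).toEquiv
  have h2 : Nat.card (ZMod (p ^ (n + 1)))ˣ = p ^ n * (p - 1) := by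
    rw [Nat.card_eq_fintype_card, ZMod.card_units_eq_totient, Nat.totient_prime_pow_succ hp]
  have h3 : Nat.card r.σ.ker ≤ 2 := by
    have hs : (r.σ.ker : Set (ZMod (p ^ (n + 1)))ˣ) ⊆ (({1, -1} : Finset (ZMod (p ^ (n + 1)))ˣ) : Set _) := by
      intro u hu
      rcases (r.ker u).1 hu with h | h <;> simp [h]
    calc Nat.card r.σ.ker ≤ Nat.card (({1, -1} : Finset (ZMod (p ^ (n + 1)))ˣ) : Set (ZMod (p ^ (n + 1)))ˣ) :=
          Nat.card_mono (Finset.finite_toSet _) hs
      _ = ({1, -1} : Finset (ZMod (p ^ (n + 1)))ˣ).card := by simp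
      _ ≤ 2 := Finset.card_le_two
  have h4 : 0 < Nat.card r.σ.ker := Nat.card_pos
  have hcop : Nat.Coprime (p ^ n) (Nat.card r.σ.ker) := by
    apply Nat.Coprime.pow_left
    rw [hp.coprime_iff_not_dvd]
    intro hd
    have := Nat.le_of_dvd h4 hd
    have := hp.two_le
    omega
  apply hcop.dvd_of_dvd_mul_left
  rw [← h1, h2]
  exact Dvd.intro _ rfl

theorem lift_level {p m n : ℕ} [Fact p.Prime] (hp2 : p ≠ 2) {M F : Type} [Field M] [NumberField M] [Field F]
    [NumberField F] [Algebra M F] (r : RP p m n M F) {K : Type} [Field K] [NumberField K] (i : K →+* F)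
    (h : padicValNat p (Module.finrank ℚ K) ≤ m) : ∃ j : K →+* M, ∀ x, algebraMap M F (j x) = i x := by
  classical
  have hp : p.Prime := Fact.out
  haveI := r.rL.gal
  haveI : IsCyclic (ZMod (p ^ (n + 1)))ˣ := ZMod.isCyclic_units_of_prime_pow p hp hp2 (n + 1)
  haveI : IsCyclic (F ≃ₐ[ℚ] F) := isCyclic_of_surjective r.rL.σ r.rL.surj
  let iA : K →ₐ[ℚ] F := i.toRatAlgHom
  let K' : IntermediateField ℚ F := iA.fieldRange
  let mA : M →ₐ[ℚ] F := (algebraMap M F).toRatAlgHom
  let N : IntermediateField ℚ F := mA.fieldRange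
  have hK' : Module.finrank ℚ K' = Module.finrank ℚ K :=
    (LinearEquiv.finrank_eq (AlgEquiv.ofInjectiveField iA).toLinearEquiv).symm
  have hN : Module.finrank ℚ N = Module.finrank ℚ M :=
    (LinearEquiv.finrank_eq (AlgEquiv.ofInjectiveField mA).toLinearEquiv).symm
  have hG : Nat.card (F ≃ₐ[ℚ] F) = Module.finrank ℚ F := IsGalois.card_aut_eq_finrank ℚ F
  have hcK : Nat.card K'.fixingSubgroup = Module.finrank K' F := IsGalois.card_fixingSubgroup_eq_finrank K'
  have hcN : Nat.card N.fixingSubgroup = Module.finrank N F := IsGalois.card_fixingSubgroup_eq_finrank N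
  have hmK : Module.finrank ℚ K' * Module.finrank K' F = Module.finrank ℚ F := Module.finrank_mul_finrank ℚ K' F
  have hmN : Module.finrank ℚ N * Module.finrank N F = Module.finrank ℚ F := Module.finrank_mul_finrank ℚ N F
  have hmM : Module.finrank ℚ M * Module.finrank M F = Module.finrank ℚ F := Module.finrank_mul_finrank ℚ M F
  have hfN : Module.finrank N F = p ^ (n - m) := by
    have h0 : 0 < Module.finrank ℚ M := Module.finrank_pos
    rw [← r.finrank hp2]
    rw [hN] at hmN
    exact Nat.eq_of_mul_eq_mul_left h0 (hmN.trans hmM.symm)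
  have hpn := pn_dvd hp2 r.rL
  rw [hG, ← hmK, hK'] at hpn
  have hdK : p ^ (n - m) ∣ Module.finrank K' F := by
    have h0 : Module.finrank ℚ K ≠ 0 := (Module.finrank_pos).ne'
    have h1 : Module.finrank K' F ≠ 0 := by
      intro h1
      rw [h1, mul_zero] at hmK
      exact (Module.finrank_pos (R := ℚ) (M := F)).ne hmK
    rw [padicValNat_dvd_iff_le h1]
    have h2 := (padicValNat_dvd_iff_le (p := p) (mul_ne_zero h0 h1)).1 hpn
    rw [padicValNat.mul h0 h1] at h2
    omega
  have hle : N.fixingSubgroup ≤ K'.fixingSubgroup := by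
    apply cyc_le
    rw [hcK, hcN, hfN]
    exact hdK
  have hKN : K' ≤ N := by
    have h1 := IsGalois.fixedField_fixingSubgroup K'
    have h2 := IsGalois.fixedField_fixingSubgroup N
    rw [← h1, ← h2]
    exact IntermediateField.fixedField_antitone hle
  have hmem : ∀ x : K, ∃ y : M, algebraMap M F y = i x := by
    intro x
    have hx : i x ∈ K' := ⟨x, rfl⟩
    obtain ⟨y, hy⟩ := hKN hx
    exact ⟨y, hy⟩
  choose j hj using hmem
  have hinj : Function.Injective (algebraMap M F) := (algebraMap M F).injective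
  refine ⟨{ toFun := j, map_one' := hinj ?_, map_mul' := fun x y => hinj ?_, map_zero' := hinj ?_, map_add' := fun x y => hinj ?_ }, fun x => hj x⟩
  · rw [hj, map_one, map_one]
  · rw [hj, map_mul, map_mul, hj, hj]
  · rw [hj, map_zero, map_zero]
  · rw [hj, map_add, map_add, hj, hj]

end H5SW
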