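import Pool.Agent.H5.SW.Ds

/-!
ROW S1 (averaging over Frobenius powers).  PROOF.
Put `q = 2^s = 1 + p^e w`, `p ∤ w` (`QD`), `J = p^(k+1-e)`.
(0) `p - 1 = 2^a r`, `r` odd. `(y^(r p^k))^(2^a) = 1` and characteristic 2 give `y^(r p^k) = 1` (Frobenius is injective, `x^(2^a) = 1 → x = 1`).
(1) If `y^q = y`: by induction `y^(q^j) = y`, so the sum is `J • y = y` (`J` odd, characteristic 2).
(2) Otherwise `y ≠ 0` and `η := y^(q-1) ≠ 1`. As `r` and `p^e` divide `q - 1` and are coprime, `r p^k ∣ (q-1) p^(k-e)`, so `η^(p^(k-e)) = 1`.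
    `q^j - 1 = (q - 1) [j]`, `[j] = ∑_{i<j} q^i`, so `y^(q^j) = y η^[j]`.
(3) `j ↦ [j] mod J` is injective on `j < J`, hence a bijection onto `Z/J`: for `i < j`, `[j] - [i] = q^i [j-i]`, `p ∤ q`, and
    `v_p([l]) = v_p(l)` for `q ≡ 1 mod p`, `p` odd (lifting the exponent: `v_p(q^l - 1) = v_p(q-1) + v_p(l)`, Mathlib `Nat.emultiplicity_pow_sub_pow`
    / `padicValNat.pow_sub_pow`), and `p^(k+1-e) ∤ l` for `0 < l < J`.
(4) `η^J = 1` (as `k-e ≤ k+1-e`), so `∑_{j<J} η^[j] = ∑_{t<J} η^t = (η^J - 1)/(η - 1) = 0`.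
-/

set_option autoImplicit false

namespace H5SW

open Finset

private lemma s1_geom (Q j : ℕ) : (Q + 1) ^ j = Q * (∑ i ∈ range j, (Q + 1) ^ i) + 1 := by
  induction j with
  | zero => simp
  | succ j ih =>
    rw [sum_range_succ]
    have h1 : (Q + 1) ^ (j + 1) = Q * (Q + 1) ^ j + (Q + 1) ^ j := by ring
    have h2 : Q * ((∑ x ∈ range j, (Q + 1) ^ x) + (Q + 1) ^ j) =
        Q * (∑ x ∈ range j, (Q + 1) ^ x) + Q * (Q + 1) ^ j := by ring
    rw [h1, h2]
    linarith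

private lemma s1_val {p q l : ℕ} [Fact p.Prime] (hp2 : p ≠ 2) (hq : 1 < q) (hd : p ∣ q - 1) (hl : l ≠ 0) :
    padicValNat p (∑ i ∈ range l, q ^ i) = padicValNat p l := by
  have hp : p.Prime := Fact.out
  have hodd : Odd p := hp.odd_of_ne_two hp2
  have hnd : ¬ p ∣ q := by
    intro h
    have h1 : p ∣ q - (q - 1) := Nat.dvd_sub h hd
    have h2 : q - (q - 1) = 1 := by omega
    rw [h2] at h1
    exact hp.one_lt.ne' (Nat.dvd_one.1 h1)
  have h1 := padicValNat.pow_sub_pow (p := p) (x := q) (y := 1) hodd hq hd hnd hl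
  rw [one_pow] at h1
  obtain ⟨Q, rfl⟩ : ∃ Q, q = Q + 1 := ⟨q - 1, by omega⟩
  have h2 := s1_geom Q l
  have h3 : (Q + 1) ^ l - 1 = Q * (∑ i ∈ range l, (Q + 1) ^ i) := by omega
  have h4 : Q + 1 - 1 = Q := by omega
  have hQ0 : Q ≠ 0 := by omega
  have hS0 : (∑ i ∈ range l, (Q + 1) ^ i) ≠ 0 := by
    intro h0
    rw [h0] at h2
    have h5 : 1 < (Q + 1) ^ l := Nat.one_lt_pow hl hq
    omega
  rw [h3, h4, padicValNat.mul hQ0 hS0] at h1
  omega

private lemma s1_inj {p q m : ℕ} [Fact p.Prime] (hp2 : p ≠ 2) (hq : 1 < q) (hd : p ∣ q - 1) {i j : ℕ} (hij : i < j)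
    (hj : j < p ^ m) (h : (∑ t ∈ range i, q ^ t) % p ^ m = (∑ t ∈ range j, q ^ t) % p ^ m) : False := by
  have hp : p.Prime := Fact.out
  have hnd : ¬ p ∣ q := by
    intro h
    have h1 : p ∣ q - (q - 1) := Nat.dvd_sub h hd
    have h2 : q - (q - 1) = 1 := by omega
    rw [h2] at h1
    exact hp.one_lt.ne' (Nat.dvd_one.1 h1)
  obtain ⟨l, rfl⟩ : ∃ l, j = i + l := ⟨j - i, by omega⟩
  have hl : l ≠ 0 := by omega
  have e1 : (∑ t ∈ range (i + l), q ^ t) = (∑ t ∈ range i, q ^ t) + q ^ i * ∑ t ∈ range l, q ^ t := by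
    rw [sum_range_add, mul_sum]
    congr 1
    refine sum_congr rfl fun t _ => ?_
    rw [pow_add]
  have h1 : p ^ m ∣ q ^ i * ∑ t ∈ range l, q ^ t := by
    have h2 : p ^ m ∣ (∑ t ∈ range (i + l), q ^ t) - (∑ t ∈ range i, q ^ t) :=
      (Nat.modEq_iff_dvd' (by rw [e1]; exact Nat.le_add_right _ _)).1 h
    rw [e1, Nat.add_sub_cancel_left] at h2
    exact h2
  have h2 : p ^ m ∣ ∑ t ∈ range l, q ^ t := by
    refine Nat.Coprime.dvd_of_dvd_mul_left ?_ h1
    exact Nat.Coprime.pow _ _ ((Nat.Prime.coprime_iff_not_dvd hp).2 hnd)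
  have hS0 : (∑ t ∈ range l, q ^ t) ≠ 0 := by
    intro h0
    have := Finset.sum_eq_zero_iff.1 h0 0 (mem_range.2 (by omega))
    simp at this
  have h3 := (padicValNat_dvd_iff_le hS0).1 h2
  rw [s1_val hp2 hq hd hl] at h3
  have h4 := (padicValNat_dvd_iff_le hl).2 h3
  have := Nat.le_of_dvd (Nat.pos_of_ne_zero hl) h4
  omega

open Classical in
theorem av1 {Ω : Type*} [Field Ω] [CharP Ω 2] {p k e s : ℕ} [Fact p.Prime] (hp2 : p ≠ 2) (hQ : QD p e s)
    (hek : e ≤ k) {y : Ω} (hy : y ^ ((p - 1) * p ^ k) = 1) :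
    ∑ j ∈ range (p ^ (k + 1 - e)), y ^ ((2 ^ s) ^ j) = if y ^ (2 ^ s) = y then y else 0 := by
  have hp : p.Prime := Fact.out
  have hodd : Odd p := hp.odd_of_ne_two hp2
  have hq : 1 < 2 ^ s := Nat.one_lt_pow (by have := hQ.s1; omega) (by norm_num)
  split_ifs with h
  · have h1 : ∀ j : ℕ, y ^ ((2 ^ s) ^ j) = y := by
      intro j
      induction j with
      | zero => simp
      | succ j ih => rw [pow_succ, pow_mul, ih, h]
    have h2 : ((p ^ (k + 1 - e) : ℕ) : Ω) = 1 := by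
      obtain ⟨t, ht⟩ := hodd.pow (n := k + 1 - e)
      rw [ht]
      push_cast
      rw [show (2 : Ω) = 0 from by exact_mod_cast CharP.cast_eq_zero Ω 2, zero_mul, zero_add]
    rw [sum_congr rfl fun j _ => h1 j, sum_const, card_range, nsmul_eq_mul, h2, one_mul]
  · -- the other case
    have hy0 : y ≠ 0 := by
      rintro rfl
      have h1 : (p - 1) * p ^ k ≠ 0 :=
        Nat.mul_ne_zero (by have := hp.one_lt; omega) (pow_ne_zero _ hp.ne_zero)
      rw [zero_pow h1] at hy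
      exact zero_ne_one hy
    obtain ⟨η, hη⟩ : ∃ η : Ω, η = y ^ (2 ^ s - 1) := ⟨_, rfl⟩
    have hη1 : η ≠ 1 := by
      intro h1
      apply h
      have h2 : 2 ^ s = (2 ^ s - 1) + 1 := by omega
      rw [h2, pow_succ, ← hη, h1, one_mul]
    -- the order of `η`
    obtain ⟨a, r, hr, har⟩ := Nat.exists_eq_two_pow_mul_odd (n := p - 1) (by have := hp.one_lt; omega)
    have hyr : y ^ (r * p ^ k) = 1 := by
      rw [har, mul_assoc] at hy
      have : ExpChar Ω 2 := ExpChar.prime Nat.prime_two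
      exact (ExpChar.pow_prime_pow_mul_eq_one_iff 2 a (r * p ^ k) y).1 hy
    have hrd : r ∣ 2 ^ s - 1 := hQ.odd r hr ⟨2 ^ a, by rw [har, mul_comm]⟩
    have hcop : Nat.Coprime r (p ^ e) := by
      refine Nat.Coprime.pow_right _ ?_
      rw [Nat.coprime_comm, Nat.Prime.coprime_iff_not_dvd hp]
      intro h1
      have h2 : r ≤ p - 1 := Nat.le_of_dvd (by have := hp.one_lt; omega) ⟨2 ^ a, by rw [har, mul_comm]⟩
      have h3 := Nat.le_of_dvd hr.pos h1
      have := hp.one_lt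
      omega
    have hdv : r * p ^ e ∣ 2 ^ s - 1 := Nat.Coprime.mul_dvd_of_dvd_of_dvd hcop hrd hQ.dvd
    have hdv2 : r * p ^ k ∣ (2 ^ s - 1) * p ^ (k + 1 - e) := by
      have h1 : p ^ k ∣ p ^ e * p ^ (k + 1 - e) := by
        rw [← pow_add]
        exact pow_dvd_pow p (by omega)
      calc r * p ^ k ∣ r * (p ^ e * p ^ (k + 1 - e)) := Nat.mul_dvd_mul_left r h1
        _ = (r * p ^ e) * p ^ (k + 1 - e) := by ring
        _ ∣ (2 ^ s - 1) * p ^ (k + 1 - e) := Nat.mul_dvd_mul_right hdv _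
    have hηJ : η ^ (p ^ (k + 1 - e)) = 1 := by
      rw [hη, ← pow_mul]
      obtain ⟨c, hc⟩ := hdv2
      rw [hc, pow_mul, hyr, one_pow]
    have hpd : p ∣ 2 ^ s - 1 := (dvd_pow_self p (by have := hQ.e1; omega)).trans hQ.dvd
    -- rewrite the sum
    obtain ⟨J, hJ⟩ : ∃ J, J = p ^ (k + 1 - e) := ⟨_, rfl⟩
    rw [← hJ] at hηJ ⊢
    have hJpos : 0 < J := by rw [hJ]; exact pow_pos hp.pos _
    obtain ⟨g, hg⟩ : ∃ g : ℕ → ℕ, g = fun j => (∑ t ∈ range j, (2 ^ s) ^ t) % J := ⟨_, rfl⟩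
    have h1 : ∀ j : ℕ, y ^ ((2 ^ s) ^ j) = y * η ^ g j := by
      intro j
      obtain ⟨Q, hQ'⟩ : ∃ Q, 2 ^ s = Q + 1 := ⟨2 ^ s - 1, by omega⟩
      have e1 := s1_geom Q j
      have e2 : 2 ^ s - 1 = Q := by omega
      have e3 : η ^ g j = η ^ (∑ t ∈ range j, (2 ^ s) ^ t) := by
        rw [hg]
        conv_rhs => rw [← Nat.mod_add_div (∑ t ∈ range j, (2 ^ s) ^ t) J]
        rw [pow_add, pow_mul, hηJ, one_pow, mul_one]
      rw [e3, hη, e2, hQ', ← pow_mul y Q]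
      conv_lhs => rw [e1]
      rw [pow_succ, mul_comm]
    rw [sum_congr rfl fun j _ => h1 j, ← mul_sum]
    have hinj : Set.InjOn g (range J : Set ℕ) := by
      intro i hi j hj hij
      rw [mem_coe, mem_range] at hi hj
      rw [hg, hJ] at hij
      rcases lt_trichotomy i j with h2 | h2 | h2
      · exact (s1_inj hp2 hq hpd h2 (hJ ▸ hj) hij).elim
      · exact h2
      · exact (s1_inj hp2 hq hpd h2 (hJ ▸ hi) hij.symm).elim
    have himg : image g (range J) = range J := by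
      apply eq_of_subset_of_card_le
      · intro t ht
        obtain ⟨j, -, rfl⟩ := mem_image.1 ht
        rw [mem_range, hg]
        exact Nat.mod_lt _ hJpos
      · rw [card_image_of_injOn hinj]
    have hs : ∑ j ∈ range J, η ^ g j = ∑ t ∈ range J, η ^ t := by
      conv_rhs => rw [← himg]
      rw [sum_image hinj]
    have hz : (∑ t ∈ range J, η ^ t) * (η - 1) = 0 := by
      rw [geom_sum_mul, hηJ, sub_self]
    rw [hs, (mul_eq_zero.1 hz).resolve_right (sub_ne_zero.2 hη1), mul_zero]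

end H5SW
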