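import Pool.Agent.H5.SW.S1

/-!
ROW S2 (from `T(χ) = 0` to a restricted sum).  PROOF.  `f = p^(k+1)`, `q = 2^s`, `Z u = z ^ (u : ZMod f).val` (so `Z` is multiplicative in the additive
variable because `z^f = 1`: `z ^ N = z ^ (N : ZMod f).val`; `Fr (Z (-u)) = Fr (Z u)` by `Fr_inv`).
(1) For every `j`: raise `Tc χ z = 0` to the power `q^j` (`sum_pow_char_pow`, `q^j = 2^(s j)`): since `Fr x ^ (2^i) = Fr (x^(2^i))` in characteristic 2,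
    `∑_{u ∈ Hf} χ(u)^(q^j) Fr (Z (Q^j u)) = 0`, `Q` the unit `2^s` of `ZMod f` (`f` odd).
(2) Substitute `u = Q^(-j) v`: `v` runs over the half system `Q^j • Hf` (`isHalf_smul`), `h(v) = χ(Q^(-j) v)^(q^j) Fr (Z v)` is even (`χ (-1) = 1`), so by
    `sum_half`, `∑_{v ∈ Hf} χ(Q^(-j))^(q^j) χ(v)^(q^j) Fr (Z v) = 0`; cancel the non zero constant, multiply by `χ(a⁻¹)^(q^j)`:
    `∑_{v ∈ Hf} χ(v a⁻¹)^(q^j) Fr (Z v) = 0`.
(3) Sum over `j < p^(k+1-e)`, exchange, use `av1` with `y = χ(v a⁻¹)` (`y^((p-1)p^k) = 1`: the group of units has order `(p-1) p^k`), and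
    `Finset.sum_filter`.
-/

set_option autoImplicit false

namespace H5SW

open Finset

theorem S2_Fr_pow {Ω : Type*} [Field Ω] [CharP Ω 2] (x : Ω) (i : ℕ) : Fr x ^ (2 ^ i) = Fr (x ^ (2 ^ i)) := by
  have : Fact (Nat.Prime 2) := ⟨Nat.prime_two⟩
  have h1 : (1 + x) ^ (2 ^ i) = 1 + x ^ (2 ^ i) := by
    rw [add_pow_char_pow, one_pow]
  unfold Fr
  rw [div_pow, ← pow_mul, mul_comm 2, pow_mul, h1]

theorem S2_pow_mod {Ω : Type*} [Field Ω] {f : ℕ} {z : Ω} (hz : z ^ f = 1) (N : ℕ) : z ^ (N % f) = z ^ N := by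
  conv_rhs => rw [← Nat.div_add_mod N f, pow_add, pow_mul, hz, one_pow, one_mul]

theorem S2_Z_nat {Ω : Type*} [Field Ω] {f : ℕ} {z : Ω} (hz : z ^ f = 1) (N : ℕ) :
    z ^ ((N : ZMod f)).val = z ^ N := by
  rw [ZMod.val_natCast]
  exact S2_pow_mod hz N

theorem S2_Z_mul {Ω : Type*} [Field Ω] {f : ℕ} [NeZero f] {z : Ω} (hz : z ^ f = 1) (c : ℕ) (u : ZMod f) :
    z ^ ((c : ZMod f) * u).val = (z ^ u.val) ^ c := by
  have h1 : (c : ZMod f) * u = ((c * u.val : ℕ) : ZMod f) := by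
    push_cast
    rw [ZMod.natCast_zmod_val]
  rw [h1, S2_Z_nat hz, mul_comm, pow_mul]

theorem S2_Z_neg {Ω : Type*} [Field Ω] {f : ℕ} [NeZero f] {z : Ω} (hz : z ^ f = 1) (u : ZMod f) :
    Fr (z ^ (-u).val) = Fr (z ^ u.val) := by
  have hf0 : f ≠ 0 := NeZero.ne f
  have hz0 : z ≠ 0 := by
    rintro rfl
    rw [zero_pow hf0] at hz
    exact zero_ne_one hz
  by_cases hu : u = 0
  · subst hu
    rw [neg_zero]
  · have h1 : z ^ (-u).val = (z ^ u.val)⁻¹ := by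
      rw [ZMod.neg_val, if_neg hu]
      have h2 := u.val_lt
      apply eq_inv_of_mul_eq_one_left
      rw [← pow_add, Nat.sub_add_cancel h2.le, hz]
    rw [h1]
    exact Fr_inv (pow_ne_zero _ hz0)

theorem S2_step {Ω : Type*} [Field Ω] [CharP Ω 2] {f s : ℕ} [NeZero f] (hf : Odd f) (h1f : 1 < f)
    {z : Ω} (hz : z ^ f = 1) (χ : (ZMod f)ˣ →* Ωˣ) (hev : χ (-1) = 1)
    (h0 : Tc χ z = 0) (j : ℕ) :
    ∑ v ∈ Hf f, (χ v : Ω) ^ ((2 ^ s) ^ j) * Fr (z ^ (v : ZMod f).val) = 0 := by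
  classical
  have : Fact (Nat.Prime 2) := ⟨Nat.prime_two⟩
  have hcop : Nat.Coprime (2 ^ (s * j)) f := Nat.Coprime.pow_left _ ((Nat.coprime_two_left).2 hf)
  obtain ⟨Q, hQ⟩ : ∃ Q : (ZMod f)ˣ, (Q : ZMod f) = ((2 ^ (s * j) : ℕ) : ZMod f) :=
    ⟨ZMod.unitOfCoprime _ hcop, rfl⟩
  have hA := isHalf_Hf hf h1f
  have hB := isHalf_smul hA Q
  have hev2 : ∀ v : (ZMod f)ˣ, χ (-v) = χ v := by
    intro v
    rw [show -v = (-1) * v by rw [neg_one_mul], map_mul, hev, one_mul]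
  have hsum := sum_half hA hB (fun v => (χ (Q⁻¹ * v) : Ω) ^ (2 ^ (s * j)) * Fr (z ^ (v : ZMod f).val))
    (by
      intro v
      rw [mul_neg, hev2, Units.val_neg, S2_Z_neg hz])
  rw [sum_image (by
    intro a _ b _ hab
    exact mul_left_cancel hab)] at hsum
  have hpow : (∑ u ∈ Hf f, (χ u : Ω) * Fr (z ^ (u : ZMod f).val)) ^ (2 ^ (s * j)) = 0 := by
    have h2 : (∑ u ∈ Hf f, (χ u : Ω) * Fr (z ^ (u : ZMod f).val)) = 0 := h0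
    rw [h2]
    exact zero_pow (by positivity)
  rw [sum_pow_char_pow] at hpow
  have hr : ∑ u ∈ Hf f, (χ (Q⁻¹ * (Q * u)) : Ω) ^ (2 ^ (s * j)) *
      Fr (z ^ ((Q * u : (ZMod f)ˣ) : ZMod f).val) = 0 := by
    rw [← hpow]
    refine sum_congr rfl (fun u _ => ?_)
    rw [inv_mul_cancel_left, mul_pow, S2_Fr_pow, Units.val_mul, hQ, S2_Z_mul hz]
  rw [hr] at hsum
  have hfac : ∑ v ∈ Hf f, (χ (Q⁻¹ * v) : Ω) ^ (2 ^ (s * j)) * Fr (z ^ (v : ZMod f).val)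
      = (χ Q⁻¹ : Ω) ^ (2 ^ (s * j)) *
        ∑ v ∈ Hf f, (χ v : Ω) ^ ((2 ^ s) ^ j) * Fr (z ^ (v : ZMod f).val) := by
    rw [mul_sum]
    refine sum_congr rfl (fun v _ => ?_)
    rw [map_mul, Units.val_mul, mul_pow, ← pow_mul 2 s j]
    ring
  rw [hfac] at hsum
  rcases mul_eq_zero.1 hsum with h | h
  · exact absurd h (pow_ne_zero _ (Units.ne_zero _))
  · exact h

open Classical in
theorem av2 {Ω : Type*} [Field Ω] [CharP Ω 2] {p k e s : ℕ} [Fact p.Prime] (hp2 : p ≠ 2) (hQ : QD p e s)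
    (hek : e ≤ k) {z : Ω} (hz : z ^ (p ^ (k + 1)) = 1) (χ : (ZMod (p ^ (k + 1)))ˣ →* Ωˣ) (hev : χ (-1) = 1)
    (h0 : Tc χ z = 0) (a : (ZMod (p ^ (k + 1)))ˣ) :
    ∑ u ∈ (Hf (p ^ (k + 1))).filter (fun u => χ (u * a⁻¹) ^ (2 ^ s) = χ (u * a⁻¹)),
      (χ (u * a⁻¹) : Ω) * Fr (z ^ (u : ZMod (p ^ (k + 1))).val) = 0 := by
  have hp : p.Prime := Fact.out
  have hodd : Odd (p ^ (k + 1)) := (hp.odd_of_ne_two hp2).pow
  have h1f : 1 < p ^ (k + 1) := Nat.one_lt_pow (by omega) hp.one_lt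
  have hstep : ∀ j : ℕ, ∑ v ∈ Hf (p ^ (k + 1)), (χ (v * a⁻¹) : Ω) ^ ((2 ^ s) ^ j) *
      Fr (z ^ (v : ZMod (p ^ (k + 1))).val) = 0 := by
    intro j
    have h2 : ∑ v ∈ Hf (p ^ (k + 1)), (χ (v * a⁻¹) : Ω) ^ ((2 ^ s) ^ j) *
        Fr (z ^ (v : ZMod (p ^ (k + 1))).val) = (χ a⁻¹ : Ω) ^ ((2 ^ s) ^ j) *
        ∑ v ∈ Hf (p ^ (k + 1)), (χ v : Ω) ^ ((2 ^ s) ^ j) * Fr (z ^ (v : ZMod (p ^ (k + 1))).val) := by
      rw [mul_sum]
      refine sum_congr rfl (fun v _ => ?_)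
      rw [map_mul, Units.val_mul, mul_pow]
      ring
    rw [h2, S2_step hodd h1f hz χ hev h0 j, mul_zero]
  have hsum : ∑ j ∈ range (p ^ (k + 1 - e)), ∑ v ∈ Hf (p ^ (k + 1)), (χ (v * a⁻¹) : Ω) ^ ((2 ^ s) ^ j) *
      Fr (z ^ (v : ZMod (p ^ (k + 1))).val) = 0 := sum_eq_zero (fun j _ => hstep j)
  rw [sum_comm] at hsum
  rw [sum_filter]
  refine Eq.trans ?_ hsum
  refine sum_congr rfl (fun v _ => ?_)
  have hy : ((χ (v * a⁻¹) : Ωˣ) : Ω) ^ ((p - 1) * p ^ k) = 1 := by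
    have h3 : (v * a⁻¹) ^ ((p - 1) * p ^ k) = 1 := by
      have h4 : Fintype.card (ZMod (p ^ (k + 1)))ˣ = (p - 1) * p ^ k := by
        rw [ZMod.card_units_eq_totient, Nat.totient_prime_pow hp (Nat.succ_pos k), Nat.succ_sub_one]
        ring
      rw [← h4]
      exact pow_card_eq_one
    rw [← Units.val_pow_eq_pow_val, ← map_pow, h3, map_one, Units.val_one]
  rw [← sum_mul, av1 hp2 hQ hek hy]
  by_cases h5 : χ (v * a⁻¹) ^ (2 ^ s) = χ (v * a⁻¹)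
  · have h6 : ((χ (v * a⁻¹) : Ωˣ) : Ω) ^ (2 ^ s) = χ (v * a⁻¹) := by
      rw [← Units.val_pow_eq_pow_val, h5]
    rw [if_pos h5, if_pos h6]
  · have h6 : ¬ ((χ (v * a⁻¹) : Ωˣ) : Ω) ^ (2 ^ s) = χ (v * a⁻¹) := by
      intro h7
      apply h5
      apply Units.ext
      rw [Units.val_pow_eq_pow_val, h7]
    rw [if_neg h5, if_neg h6, zero_mul]

end H5SW
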