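import Pool.Agent.H5.SW.Ds

/-!
ROW S4 (the inner sum is a monomial over `(1 + X^P)^2`).  PROOF.  Characteristic 2, `P` odd.
`1 + X^P = (1 + Y) ∑_{j<P} Y^j` for `Y = ω^t X` (`Y^P = X^P`; geometric sum, characteristic 2), so `Fr (ω^t X) = Y (∑_{j<P} Y^j)^2 / (1 + X^P)^2 =
(∑_{j<P} Y^(2j+1)) / (1 + X^P)^2`. Hence the sum is `∑_{j<P} X^(2j+1) ∑_{t<P} (ρ ω^(2j+1))^t / (1 + X^P)^2`. `ρ = ω^c` for some `c` (`ρ^P = 1`, `ω` primitive:
`IsPrimitiveRoot.eq_pow_of_pow_eq_one`). `∑_{t<P} (ω^(c+2j+1))^t = P = 1` if `P ∣ c + 2j + 1`, and `0` otherwise (`(ω^i)^P = 1`, `ω^i ≠ 1`). There is exactly one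
`j < P` with `P ∣ c + 2j + 1` (`P` odd); `r = 2j + 1`. The number `r` depends only on `c`, `P` — not on `X`.
-/

set_option autoImplicit false

namespace H5SW

open Finset

theorem S4_geo {Ω : Type*} [Field Ω] [CharP Ω 2] {P : ℕ} {Y : Ω} (h : Y ^ P ≠ 1) :
    Fr Y = (∑ j ∈ range P, Y ^ (2 * j + 1)) / (1 + Y ^ P) ^ 2 := by
  have h1 : (∑ j ∈ range P, Y ^ j) * (1 + Y) = 1 + Y ^ P := by
    have := geom_sum_mul Y P
    rw [CharTwo.sub_eq_add, CharTwo.sub_eq_add] at this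
    rw [add_comm 1 Y, this, add_comm]
  have hY : (1 + Y) ≠ 0 := by
    intro h0
    have h2 : (1 : Ω) = Y := CharTwo.add_eq_zero.1 h0
    rw [← h2, one_pow] at h
    exact h rfl
  have hP : 1 + Y ^ P ≠ 0 := by
    intro h0
    exact h (CharTwo.add_eq_zero.1 h0).symm
  have h2 : ∑ j ∈ range P, Y ^ (2 * j + 1) = Y * (∑ j ∈ range P, Y ^ j) ^ 2 := by
    rw [CharTwo.sum_sq, mul_sum]
    refine sum_congr rfl fun j _ => ?_
    ring
  rw [h2, ← h1]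
  have hs : (∑ j ∈ range P, Y ^ j) ≠ 0 := by
    intro h0
    rw [h0, zero_mul] at h1
    exact hP h1.symm
  unfold Fr
  field_simp

theorem S4_sum {Ω : Type*} [Field Ω] [CharP Ω 2] {P : ℕ} (hP : Odd P) {ω : Ω} (hω : IsPrimitiveRoot ω P) (i : ℕ) :
    ∑ t ∈ range P, (ω ^ i) ^ t = if P ∣ i then 1 else 0 := by
  split_ifs with h
  · have h1 : ω ^ i = 1 := (hω.pow_eq_one_iff_dvd i).2 h
    simp only [h1, one_pow, sum_const, card_range, nsmul_eq_mul, mul_one]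
    obtain ⟨r, rfl⟩ := hP
    push_cast
    have : (2 : Ω) = 0 := CharTwo.two_eq_zero
    rw [this]
    ring
  · have h1 : ω ^ i ≠ 1 := fun h2 => h ((hω.pow_eq_one_iff_dvd i).1 h2)
    have h2 := geom_sum_mul (ω ^ i) P
    rw [← pow_mul, mul_comm i P, pow_mul, hω.pow_eq_one, one_pow, sub_self] at h2
    exact (mul_eq_zero.1 h2).resolve_right (sub_ne_zero.2 h1)

theorem S4_idx {P c : ℕ} (hP : Odd P) (hc : c < P) : ∃ j0, j0 < P ∧ P ∣ c + 2 * j0 + 1 ∧ ∀ j, j < P → P ∣ c + 2 * j + 1 → j = j0 := by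
  have hex : ∃ j0, j0 < P ∧ P ∣ c + 2 * j0 + 1 := by
    obtain ⟨r, hr⟩ := hP
    rcases Nat.even_or_odd' c with ⟨d, hd | hd⟩
    · refine ⟨(P - (c + 1)) / 2, by omega, ⟨1, by omega⟩⟩
    · refine ⟨(2 * P - (c + 1)) / 2, by omega, ⟨2, by omega⟩⟩
  obtain ⟨j0, hj0, hd0⟩ := hex
  refine ⟨j0, hj0, hd0, fun j hj hd => ?_⟩
  have hcop : Nat.Coprime P 2 := hP.coprime_two_right
  rcases le_total j j0 with h | h
  · have h1 : P ∣ (c + 2 * j0 + 1) - (c + 2 * j + 1) := Nat.dvd_sub hd0 hd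
    have h2 : (c + 2 * j0 + 1) - (c + 2 * j + 1) = 2 * (j0 - j) := by omega
    rw [h2] at h1
    have h3 := hcop.dvd_of_dvd_mul_left h1
    have h4 := Nat.eq_zero_of_dvd_of_lt h3 (by omega)
    omega
  · have h1 : P ∣ (c + 2 * j + 1) - (c + 2 * j0 + 1) := Nat.dvd_sub hd hd0
    have h2 : (c + 2 * j + 1) - (c + 2 * j0 + 1) = 2 * (j - j0) := by omega
    rw [h2] at h1
    have h3 := hcop.dvd_of_dvd_mul_left h1
    have h4 := Nat.eq_zero_of_dvd_of_lt h3 (by omega)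
    omega

theorem mono_sum {Ω : Type*} [Field Ω] [CharP Ω 2] {P : ℕ} (hP : Odd P) {ω ρ : Ω} (hω : IsPrimitiveRoot ω P)
    (hρ : ρ ^ P = 1) : ∃ r : ℕ, 1 ≤ r ∧ r < 2 * P ∧ ∀ X : Ω, X ^ P ≠ 1 →
      ∑ t ∈ range P, ρ ^ t * Fr (ω ^ t * X) = X ^ r / (1 + X ^ P) ^ 2 := by
  have hP0 : P ≠ 0 := by
    obtain ⟨r, hr⟩ := hP
    omega
  have : NeZero P := ⟨hP0⟩
  obtain ⟨c, hc, hρc⟩ := hω.eq_pow_of_pow_eq_one hρ
  obtain ⟨j0, hj0, hd0, huniq⟩ := S4_idx hP hc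
  refine ⟨2 * j0 + 1, by omega, by omega, fun X hX => ?_⟩
  have h1 : ∀ t ∈ range P, ρ ^ t * Fr (ω ^ t * X) =
      (∑ j ∈ range P, X ^ (2 * j + 1) * (ω ^ (c + 2 * j + 1)) ^ t) / (1 + X ^ P) ^ 2 := by
    intro t _
    have hYP : (ω ^ t * X) ^ P = X ^ P := by
      rw [mul_pow, ← pow_mul, mul_comm t P, pow_mul, hω.pow_eq_one, one_pow, one_mul]
    rw [S4_geo (by rw [hYP]; exact hX), hYP, ← mul_div_assoc, mul_sum]
    congr 1
    refine sum_congr rfl fun j _ => ?_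
    rw [← hρc]
    ring
  rw [sum_congr rfl h1, ← sum_div, sum_comm]
  congr 1
  have h2 : ∀ j ∈ range P, ∑ t ∈ range P, X ^ (2 * j + 1) * (ω ^ (c + 2 * j + 1)) ^ t =
      if j = j0 then X ^ (2 * j0 + 1) else 0 := by
    intro j hj
    rw [← mul_sum, S4_sum hP hω]
    by_cases h : j = j0
    · subst h
      rw [if_pos hd0, if_pos rfl, mul_one]
    · rw [if_neg h, if_neg, mul_zero]
      intro hd
      exact h (huniq j (mem_range.1 hj) hd)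
  rw [sum_congr rfl h2, sum_ite_eq' (range P) j0, if_pos (mem_range.2 hj0)]

end H5SW
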