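import Pool.Agent.H5.SW.S2
import Pool.Agent.H5.SW.S3
import Pool.Agent.H5.SW.SB

/-!
ROW SA (Sinnott's non vanishing theorem in characteristic two).  PROOF.
`QD p e s` and `EH p E` exist (E0). Let `k0` be given by SB (`2 e ≤ k0`), `k ≥ k0`, `T(χ) = 0`. Let `u1` be the unit `1 + p^(k+1-e)` of `ZMod f`, `f = p^(k+1)` (unit since
`k + 1 - e ≥ 1`), `ρ = χ(u1)` (`ρ^(p^e) = 1` as `u1^(p^e) = 1`, because `u1^t = 1 + p^(k+1-e) t`, `2 (k+1-e) ≥ k+1`). For `b : ℕ` let `a` be the unit `1 + p^e b`. S2 with this `a` and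
S3 with `h u = χ(u a⁻¹) Fr (z^(u.val))` (even) give `∑_{x ∈ E} ∑_{t < p^e} χ(red x) ρ^t Fr (z^((a * red x * u1^t).val)) = 0`, and
`z^((a * red x * u1^t).val) = z^((1+p^e b)(1+p^(k+1-e) t) (toZModPow (k+1) x).val)` (`z^f = 1`). This contradicts SB with `c x = χ(red (k+1) x)`, `c 1 = 1`.
For `p = 3`: `e = 1, s = 2`, `E = {1}` (`QD_three`, `EH_three`), `k ≥ 1` (so `2e ≤ k+1`, `e ≤ k`): the relation with `b = 0` reads `∑_{t<3} ρ^t Fr (z^(1 + 3^k t)) = 0`,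
but by S4 (`mono_sum` with `P = 3`, `ω = z^(3^k)`, `X = z`, `X^3 ≠ 1` as `z` has order `3^(k+1) ≥ 9`) it is `z^r / (1+z^3)^2 ≠ 0`.
-/

set_option autoImplicit false

namespace H5SW

open Finset

private lemma SA_pow {p k e : ℕ} (hek : 2 * e ≤ k + 1) (u1 : (ZMod (p ^ (k + 1)))ˣ)
    (hu1 : (u1 : ZMod (p ^ (k + 1))) = 1 + (p : ZMod (p ^ (k + 1))) ^ (k + 1 - e)) (t : ℕ) :
    ((u1 ^ t : (ZMod (p ^ (k + 1)))ˣ) : ZMod (p ^ (k + 1))) =
      1 + (p : ZMod (p ^ (k + 1))) ^ (k + 1 - e) * t := by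
  have hz : (p : ZMod (p ^ (k + 1))) ^ (k + 1) = 0 := by
    have := ZMod.natCast_self (p ^ (k + 1))
    rwa [Nat.cast_pow] at this
  have hsq : (p : ZMod (p ^ (k + 1))) ^ (k + 1 - e) * (p : ZMod (p ^ (k + 1))) ^ (k + 1 - e) = 0 := by
    rw [← pow_add, show k + 1 - e + (k + 1 - e) = (k + 1) + (k + 1 - 2 * e) by omega,
      pow_add (p : ZMod (p ^ (k + 1))) (k + 1) (k + 1 - 2 * e), hz, zero_mul]
  induction t with
  | zero => simp
  | succ t ih =>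
    rw [pow_succ u1 t, Units.val_mul, ih, hu1]
    push_cast
    linear_combination (t : ZMod (p ^ (k + 1))) * hsq

private lemma SA_unit {p k m : ℕ} (hm : p ∣ m) :
    ∃ u : (ZMod (p ^ (k + 1)))ˣ, (u : ZMod (p ^ (k + 1))) = ((1 + m : ℕ) : ZMod (p ^ (k + 1))) := by
  refine ⟨ZMod.unitOfCoprime (1 + m) ?_, ZMod.coe_unitOfCoprime _ _⟩
  apply Nat.Coprime.pow_right
  obtain ⟨c, rfl⟩ := hm
  simp

private lemma SA_val {Ω : Type} [Field Ω] {z : Ω} {f : ℕ} (hz : z ^ f = 1) (N : ℕ) (a : ZMod f)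
    (h : a = (N : ZMod f)) : z ^ a.val = z ^ N := by
  rw [h, ZMod.val_natCast, ← pow_eq_pow_mod N hz]

private lemma SA_rel {p k e s : ℕ} [Fact p.Prime] (hp2 : p ≠ 2) (hQ : QD p e s) (hek : 2 * e ≤ k + 1)
    (hek' : e ≤ k) {E : Finset ℤ_[p]ˣ} (hE : EH p E) {Ω : Type} [Field Ω] [CharP Ω 2] {z : Ω}
    (hz : IsPrimitiveRoot z (p ^ (k + 1))) (χ : (ZMod (p ^ (k + 1)))ˣ →* Ωˣ) (hev : χ (-1) = 1)
    (hprim : Prim χ) (h0 : Tc χ z = 0) : ∃ ρ : Ω, ρ ^ (p ^ e) = 1 ∧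
      ∀ b : ℕ, ∑ x ∈ E, (χ (red (k + 1) x) : Ω) * ∑ t ∈ range (p ^ e),
          ρ ^ t * Fr (z ^ ((1 + p ^ e * b) * (1 + p ^ (k + 1 - e) * t) *
            (PadicInt.toZModPow (k + 1) (x : ℤ_[p])).val)) = 0 := by
  classical
  have he1 := hQ.e1
  have hz1 : z ^ (p ^ (k + 1)) = 1 := hz.pow_eq_one
  have hzne : z ≠ 0 := by
    rintro rfl
    rw [zero_pow (pow_ne_zero _ (Nat.Prime.ne_zero Fact.out))] at hz1
    exact zero_ne_one hz1
  have hzf : (p : ZMod (p ^ (k + 1))) ^ (k + 1) = 0 := by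
    have := ZMod.natCast_self (p ^ (k + 1))
    rwa [Nat.cast_pow] at this
  obtain ⟨u1, hu1⟩ := SA_unit (p := p) (k := k) (m := p ^ (k + 1 - e)) (dvd_pow_self p (by omega))
  have hu1' : (u1 : ZMod (p ^ (k + 1))) = 1 + (p : ZMod (p ^ (k + 1))) ^ (k + 1 - e) := by
    rw [hu1]
    push_cast
    ring
  have hpow := SA_pow hek u1 hu1'
  have hone : u1 ^ (p ^ e) = 1 := by
    apply Units.ext
    rw [hpow, Nat.cast_pow, ← pow_add, show k + 1 - e + e = k + 1 by omega, hzf, add_zero,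
      Units.val_one]
  refine ⟨(χ u1 : Ω), ?_, fun b => ?_⟩
  · rw [← Units.val_pow_eq_pow_val, ← map_pow, hone, map_one, Units.val_one]
  · obtain ⟨a, ha⟩ := SA_unit (p := p) (k := k) (m := p ^ e * b)
      ((dvd_pow_self p (by omega)).trans (dvd_mul_right _ _))
    have h1 := av2 hp2 hQ hek' hz1 χ hev h0 a
    have hneg : ∀ u : (ZMod (p ^ (k + 1)))ˣ,
        (χ (-u * a⁻¹) : Ω) * Fr (z ^ ((-u : (ZMod (p ^ (k + 1)))ˣ) : ZMod (p ^ (k + 1))).val) =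
          (χ (u * a⁻¹) : Ω) * Fr (z ^ (u : ZMod (p ^ (k + 1))).val) := by
      intro u
      have e1 : χ (-u * a⁻¹) = χ (u * a⁻¹) := by
        rw [show -u * a⁻¹ = (-1) * (u * a⁻¹) by simp, map_mul, hev, one_mul]
      have e2 : z ^ ((-u : (ZMod (p ^ (k + 1)))ˣ) : ZMod (p ^ (k + 1))).val =
          (z ^ (u : ZMod (p ^ (k + 1))).val)⁻¹ := by
        apply eq_inv_of_mul_eq_one_left
        rw [← pow_add, ← SA_val hz1 _ (((-u : (ZMod (p ^ (k + 1)))ˣ) : ZMod (p ^ (k + 1))) +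
          (u : ZMod (p ^ (k + 1)))) (by push_cast; rw [ZMod.natCast_zmod_val, ZMod.natCast_zmod_val])]
        rw [Units.val_neg, neg_add_cancel, ZMod.val_zero, pow_zero]
      rw [e1, e2, Fr_inv (pow_ne_zero _ hzne)]
    have h2 := cosets hp2 hQ hek hE χ hev hprim a u1 hu1'
      (fun u => (χ (u * a⁻¹) : Ω) * Fr (z ^ (u : ZMod (p ^ (k + 1))).val)) hneg
    rw [h1] at h2
    rw [h2]
    refine Finset.sum_congr rfl fun x _ => ?_
    rw [Finset.mul_sum]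
    refine Finset.sum_congr rfl fun t _ => ?_
    have e3 : χ (a * red (k + 1) x * u1 ^ t * a⁻¹) = χ (red (k + 1) x) * χ u1 ^ t := by
      rw [show a * red (k + 1) x * u1 ^ t * a⁻¹ = red (k + 1) x * u1 ^ t by
        rw [mul_assoc a, mul_inv_cancel_comm], map_mul, map_pow]
    have e4 : z ^ ((a * red (k + 1) x * u1 ^ t : (ZMod (p ^ (k + 1)))ˣ) : ZMod (p ^ (k + 1))).val =
        z ^ ((1 + p ^ e * b) * (1 + p ^ (k + 1 - e) * t) *
            (PadicInt.toZModPow (k + 1) (x : ℤ_[p])).val) := by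
      apply SA_val hz1
      rw [Units.val_mul, Units.val_mul, hpow, ha]
      push_cast
      rw [ZMod.natCast_zmod_val]
      show _ * PadicInt.toZModPow (k + 1) (x : ℤ_[p]) * _ = _
      ring
    rw [e3, e4, Units.val_mul, Units.val_pow_eq_pow_val]
    ring

theorem sinnott {p : ℕ} [Fact p.Prime] (hp2 : p ≠ 2) :
    ∃ k0 : ℕ, ∀ k ≥ k0, ∀ (Ω : Type) [Field Ω] [CharP Ω 2] (z : Ω), IsPrimitiveRoot z (p ^ (k + 1)) →
      ∀ χ : (ZMod (p ^ (k + 1)))ˣ →* Ωˣ, χ (-1) = 1 → Prim χ → Tc χ z ≠ 0 := by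
  obtain ⟨e, s, hQ⟩ := exists_QD hp2
  obtain ⟨E, hE⟩ := exists_EH hp2
  obtain ⟨k0, hk0, H⟩ := no_relation hp2 hQ.e1 hE
  refine ⟨k0, ?_⟩
  intro k hk Ω _ _ z hz χ hev hprim h0
  obtain ⟨ρ, hρ, hrel⟩ := SA_rel hp2 hQ (by omega) (by omega) hE hz χ hev hprim h0
  exact H k hk Ω z hz (fun x => (χ (red (k + 1) x) : Ω)) ρ (Units.ne_zero _) hρ hrel

theorem sinnott_three [Fact (Nat.Prime 3)] : ∀ k ≥ 1, ∀ (Ω : Type) [Field Ω] [CharP Ω 2] (z : Ω),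
    IsPrimitiveRoot z (3 ^ (k + 1)) → ∀ χ : (ZMod (3 ^ (k + 1)))ˣ →* Ωˣ, χ (-1) = 1 → Prim χ → Tc χ z ≠ 0 := by
  intro k hk Ω _ _ z hz χ hev hprim h0
  obtain ⟨ρ, hρ, hrel⟩ := SA_rel (by norm_num) QD_three (by omega) (by omega) EH_three hz χ hev hprim h0
  have h1 := hrel 0
  rw [pow_one] at hρ
  have h9 : 3 ^ 2 ≤ 3 ^ (k + 1) := Nat.pow_le_pow_right (by norm_num) (by omega)
  have : Fact (1 < 3 ^ (k + 1)) := ⟨by omega⟩
  rw [Finset.sum_singleton, map_one, map_one χ, Units.val_one, one_mul, Units.val_one, map_one,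
    ZMod.val_one] at h1
  have hω : IsPrimitiveRoot (z ^ 3 ^ k) 3 := by
    refine hz.pow (by positivity) ?_
    rw [pow_succ]
  obtain ⟨r, -, -, hr⟩ := mono_sum (by decide : Odd 3) hω hρ
  have hz3 : z ^ 3 ≠ 1 := hz.pow_ne_one_of_pos_of_lt (by norm_num) (by omega)
  have h2 := hr z hz3
  have h3 : ∑ t ∈ range 3, ρ ^ t * Fr ((z ^ 3 ^ k) ^ t * z) = 0 := by
    rw [← h1, pow_one]
    refine Finset.sum_congr rfl fun t _ => ?_
    rw [mul_zero, add_zero, one_mul, mul_one, Nat.add_sub_cancel, pow_add, pow_one, pow_mul,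
      mul_comm z]
  rw [h3] at h2
  have hzne : z ≠ 0 := hz.ne_zero (by positivity)
  have h4 : (1 + z ^ 3 : Ω) ≠ 0 := by
    intro h5
    apply hz3
    have h6 : z ^ 3 = -1 := by linear_combination h5
    rw [h6, CharTwo.neg_eq]
  exact (div_ne_zero (pow_ne_zero r hzne) (pow_ne_zero 2 h4)) h2.symm

end H5SW
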