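import Pool.Agent.H5.SW.Ds

/-!
ROW T1 (a characteristic two identity).  PROOF.  `f` odd, `w^f = 1`, `w ≠ 1`, so `1 + w ≠ 0`, `w ≠ 0`. Put `W = w^4` (`W ≠ 1`: `f` odd and `w ≠ 1`). The pairs `a, f - a` with
`f < 4a`, `2a < f` together run over the integers `A ≤ b ≤ f - A`, where `A = (f+3)/4` if `f ≡ 1 mod 4`, `A = (f+1)/4` if `f ≡ 3 mod 4` (`A = ⌊f/4⌋ + 1`).
So the right side is `∑_{b=A}^{f-A} W^b = (W^A + W^(f-A+1)) / (1 + W)` (geometric sum in characteristic 2), `W^f = 1`.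
If `f ≡ 1 mod 4`: `W^A = w^(f+3) = w^3`, `W^(f-A+1) = W^(1-A) = w^(4-f-3) = w`. If `f ≡ 3 mod 4`: `W^A = w^(f+1) = w`, `W^(f-A+1) = w^(4-f-1) = w^3`.
In both cases the sum is `(w + w^3)/(1+w^4) = w (1+w)^2/(1+w)^4 = w/(1+w)^2 = Fr w`.
-/

set_option autoImplicit false

namespace H5SW

open Finset

theorem t1 {Ω : Type*} [Field Ω] [CharP Ω 2] {f : ℕ} (hf : Odd f) {w : Ω} (h : w ^ f = 1) (h1 : w ≠ 1) :
    Fr w = ∑ a ∈ (range f).filter (fun a => f < 4 * a ∧ 2 * a < f), (w ^ (4 * a) + w ^ (4 * (f - a))) := by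
  have h4 : (1 + w) ^ 4 = 1 + w ^ 4 := by
    have h2 : (1 + w) ^ 2 = 1 + w ^ 2 := by
      have := CharTwo.add_sq (1 : Ω) w
      rw [one_pow] at this
      exact this
    calc (1 + w) ^ 4 = ((1 + w) ^ 2) ^ 2 := by ring
      _ = (1 + w ^ 2) ^ 2 := by rw [h2]
      _ = 1 ^ 2 + (w ^ 2) ^ 2 := CharTwo.add_sq (1 : Ω) (w ^ 2)
      _ = 1 + w ^ 4 := by ring
  have hw1 : 1 + w ≠ 0 := by
    intro h0
    apply h1
    have := CharTwo.add_eq_zero.1 h0
    exact this.symm
  obtain ⟨k, hk⟩ : ∃ k, f = 4 * k + 1 ∨ f = 4 * k + 3 := by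
    obtain ⟨r, hr⟩ := hf
    rcases Nat.even_or_odd' r with ⟨k, hk | hk⟩
    · exact ⟨k, Or.inl (by omega)⟩
    · exact ⟨k, Or.inr (by omega)⟩
  have key : ∀ W : Ω, ∑ a ∈ (range f).filter (fun a => f < 4 * a ∧ 2 * a < f), (W ^ a + W ^ (f - a)) =
      ∑ b ∈ Ico (k + 1) (f - k), W ^ b := by
    intro W
    rw [sum_add_distrib]
    have e2 : ∑ a ∈ (range f).filter (fun a => f < 4 * a ∧ 2 * a < f), W ^ (f - a) =
        ∑ b ∈ (range f).filter (fun b => f < 2 * b ∧ 4 * b < 3 * f), W ^ b := by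
      refine sum_nbij' (fun a => f - a) (fun a => f - a) ?_ ?_ ?_ ?_ ?_
      · intro a ha
        simp only [mem_filter, mem_range] at ha ⊢
        omega
      · intro a ha
        simp only [mem_filter, mem_range] at ha ⊢
        omega
      · intro a ha
        simp only [mem_filter, mem_range] at ha ⊢
        omega
      · intro a ha
        simp only [mem_filter, mem_range] at ha ⊢
        omega
      · intro a ha
        rfl
    rw [e2, ← sum_union]
    · congr 1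
      ext b
      simp only [mem_union, mem_filter, mem_range, mem_Ico]
      omega
    · rw [disjoint_left]
      intro b hb hb2
      simp only [mem_filter, mem_range] at hb hb2
      omega
  have e3 : ∑ a ∈ (range f).filter (fun a => f < 4 * a ∧ 2 * a < f), (w ^ (4 * a) + w ^ (4 * (f - a))) =
      ∑ b ∈ Ico (k + 1) (f - k), (w ^ 4) ^ b := by
    rw [← key]
    refine sum_congr rfl fun a _ => ?_
    rw [pow_mul, pow_mul]
  rw [e3]
  have hle : k + 1 ≤ f - k := by omega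
  have hg : (∑ b ∈ Ico (k + 1) (f - k), (w ^ 4) ^ b) * (w ^ 4 - 1) = (w ^ 4) ^ (f - k) - (w ^ 4) ^ (k + 1) :=
    geom_sum_Ico_mul (w ^ 4) hle
  have hs : (w ^ 4) ^ (f - k) - (w ^ 4) ^ (k + 1) = w + w ^ 3 := by
    rcases hk with hk | hk
    · have a1 : (w ^ 4) ^ (f - k) = w := by
        rw [← pow_mul]
        have : 4 * (f - k) = f * 3 + 1 := by omega
        rw [this, pow_succ, pow_mul, h, one_pow, one_mul]
      have a2 : (w ^ 4) ^ (k + 1) = w ^ 3 := by
        rw [← pow_mul]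
        have : 4 * (k + 1) = f + 3 := by omega
        rw [this, pow_add, h, one_mul]
      rw [a1, a2, CharTwo.sub_eq_add]
    · have a1 : (w ^ 4) ^ (f - k) = w ^ 3 := by
        rw [← pow_mul]
        have : 4 * (f - k) = f * 3 + 3 := by omega
        rw [this, pow_add, pow_mul, h, one_pow, one_mul]
      have a2 : (w ^ 4) ^ (k + 1) = w := by
        rw [← pow_mul]
        have : 4 * (k + 1) = f + 1 := by omega
        rw [this, pow_add, h, one_mul, pow_one]
      rw [a1, a2, CharTwo.sub_eq_add, add_comm]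
  rw [hs, CharTwo.sub_eq_add, add_comm (w ^ 4) 1, ← h4] at hg
  have h3 : w + w ^ 3 = w * (1 + w) ^ 2 := by
    have h2 : (1 + w) ^ 2 = 1 + w ^ 2 := by
      have := CharTwo.add_sq (1 : Ω) w
      rw [one_pow] at this
      exact this
    rw [h2]
    ring
  rw [h3] at hg
  unfold Fr
  rw [div_eq_iff (pow_ne_zero 2 hw1)]
  have h5 : (1 + w) ^ 2 ≠ 0 := pow_ne_zero 2 hw1
  apply mul_right_cancel₀ h5
  rw [← hg]
  ring

end H5SW
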