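import Pool.Agent.H5.SW.U1
import Pool.Agent.H5.SW.K1
import Pool.Agent.H5.SW.K2
import Pool.Agent.H5.SW.Rd

/-!
ROW U2 (units that are squares).  PROOF.  `D = [L:K] = p^(n-m)` odd. Let `ε` be a unit with `N_{L/K} ε = η^2`, `η ∈ K` (then `η` is a unit of `𝓞 K`). Put
`ε' = ε^D / N_{L/K} ε` (in `L`), a unit with `N_{L/K} ε' = 1`. `unit_odd_power`: `ε'^j = pw θ`, `j` odd, `Rel θ`. In `L*` modulo squares `ε' ~ ε` (`D` odd, `N ε` a square), so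
`ε ~ pw θ`: `ε = pw θ * δ^2` for a unit `δ` (a square of an element of `L`, which is then a unit).
(a) If `ε` is totally positive, so is `pw θ`; `signs_of_pos` and `even_of_signs` give `θ = 2 θ'`, `ε = (pw θ' δ)^2`.
(b) If `4 ∣ ε - s^2`, then `4 ∣ pw θ - (s δ⁻¹)^2`; `even_of_sq` gives `θ` even.
-/

set_option autoImplicit false

namespace H5SW

open NumberField

variable {p k0 : ℕ} [Fact p.Prime] {m n : ℕ} {K L : Type} [Field K] [NumberField K] [Field L] [NumberField L] [Algebra K L]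

private lemma u2_pw_even {f : ℕ} {L : Type} [Field L] [NumberField L] (r : RC f L) (θ : (L ≃ₐ[ℚ] L) → ℤ)
    (h : ∀ g, Even (θ g)) : ∃ γ : (𝓞 L)ˣ, r.pw θ = γ ^ 2 := by
  choose θ' hθ' using h
  refine ⟨r.pw θ', ?_⟩
  unfold RC.pw
  rw [← Finset.prod_pow]
  refine Finset.prod_congr rfl fun g _ => ?_
  rw [hθ' g, zpow_add, pow_two]

private lemma u2_dec (hp2 : p ≠ 2) (hS : NV p k0) (hm : k0 ≤ m + 1) (r : RP p m n K L) (ε : (𝓞 L)ˣ)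
    (hN : IsSquare (Algebra.norm K ((ε : 𝓞 L) : L))) :
    ∃ θ : (L ≃ₐ[ℚ] L) → ℤ, Rel K L θ ∧ ∃ δ : (𝓞 L)ˣ, ε = r.rL.pw θ * δ ^ 2 := by
  have : Module.Finite K L := Module.Finite.of_restrictScalars_finite ℚ K L
  obtain ⟨η, hη⟩ := hN
  -- the norm as a unit of `𝓞 K`
  have hint : IsIntegral ℤ (Algebra.norm K ((ε : 𝓞 L) : L)) :=
    Algebra.isIntegral_norm K (RingOfIntegers.isIntegral_coe (ε : 𝓞 L))
  have hηint : IsIntegral ℤ η := by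
    refine IsIntegral.of_pow (n := 2) (by norm_num) ?_
    rw [pow_two, ← hη]; exact hint
  have hint' : IsIntegral ℤ (Algebra.norm K (((ε⁻¹ : (𝓞 L)ˣ) : 𝓞 L) : L)) :=
    Algebra.isIntegral_norm K (RingOfIntegers.isIntegral_coe _)
  have hmul : Algebra.norm K ((ε : 𝓞 L) : L) * Algebra.norm K (((ε⁻¹ : (𝓞 L)ˣ) : 𝓞 L) : L) = 1 := by
    rw [← map_mul, ← map_mul, Units.mul_inv, map_one, map_one]
  let η0 : 𝓞 K := ⟨η, hηint⟩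
  let ν' : 𝓞 K := ⟨_, hint'⟩
  have h1 : η0 * (η0 * ν') = 1 := by
    apply RingOfIntegers.coe_injective
    show (algebraMap (𝓞 K) K) (η0 * (η0 * ν')) = algebraMap (𝓞 K) K 1
    rw [map_mul, map_mul, map_one]
    show η * (η * Algebra.norm K (((ε⁻¹ : (𝓞 L)ˣ) : 𝓞 L) : L)) = 1
    rw [← mul_assoc, ← hη, hmul]
  let ηu : (𝓞 K)ˣ := ⟨η0, η0 * ν', h1, by rw [mul_comm]; exact h1⟩
  let hu : (𝓞 L)ˣ := Units.map (algebraMap (𝓞 K) (𝓞 L)).toMonoidHom ηu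
  have hhu : ((hu : 𝓞 L) : L) = algebraMap K L η := by
    show algebraMap (𝓞 L) L (algebraMap (𝓞 K) (𝓞 L) η0) = algebraMap K L η
    rw [← IsScalarTower.algebraMap_apply (𝓞 K) (𝓞 L) L, IsScalarTower.algebraMap_apply (𝓞 K) K L]
    rfl
  set D := Module.finrank K L with hD
  have hDodd : Odd D := by
    rw [hD, r.finrank hp2]
    exact ((Nat.Prime.odd_of_ne_two (Fact.out) hp2)).pow
  let ε' : (𝓞 L)ˣ := ε ^ D * (hu ^ 2)⁻¹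
  have hε' : Algebra.norm K ((ε' : 𝓞 L) : L) = 1 := by
    have h2 : ((ε' : 𝓞 L) : L) * ((hu : 𝓞 L) : L) ^ 2 = ((ε : 𝓞 L) : L) ^ D := by
      rw [← map_pow, ← map_pow, ← map_mul, ← Units.val_pow_eq_pow_val, ← Units.val_pow_eq_pow_val, ← Units.val_mul]
      congr 2
      simp only [ε', inv_mul_cancel_right]
    have h3 := congrArg (Algebra.norm K) h2
    rw [map_mul, map_pow, map_pow, hhu, Algebra.norm_algebraMap, ← hD, hη, ← pow_mul, mul_comm D 2, pow_mul,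
      ← pow_two] at h3
    have hη0 : η ≠ 0 := by
      intro h0
      rw [h0, zero_mul] at hη
      rw [hη, zero_mul] at hmul
      exact zero_ne_one hmul
    have h4 : (η ^ 2) ^ D ≠ 0 := pow_ne_zero _ (pow_ne_zero _ hη0)
    exact mul_right_cancel₀ h4 (by rw [h3, one_mul])
  obtain ⟨j, hj, θ, hθ, hpw⟩ := unit_odd_power hp2 r (fun θ hR h => even_of_signs hp2 hS hm r θ hR h) ε' hε'
  refine ⟨θ, hθ, ?_⟩
  obtain ⟨k, hk⟩ := hDodd.mul hj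
  refine ⟨hu ^ j * (ε ^ k)⁻¹, ?_⟩
  rw [← hpw]
  show ε = (ε ^ D * (hu ^ 2)⁻¹) ^ j * (hu ^ j * (ε ^ k)⁻¹) ^ 2
  have h5 : (ε ^ D) ^ j = ε ^ k * ε ^ k * ε := by
    rw [← pow_mul, hk, ← pow_add, ← pow_succ]
    congr 1; omega
  rw [mul_pow, mul_pow, h5, inv_pow, inv_pow, ← pow_mul, ← pow_mul, mul_comm j 2]
  rw [show ε ^ k * ε ^ k * ε * (hu ^ (2 * j))⁻¹ * (hu ^ (2 * j) * ((ε ^ k) ^ 2)⁻¹) =
    ε ^ k * ε ^ k * ε * ((hu ^ (2 * j))⁻¹ * hu ^ (2 * j)) * ((ε ^ k) ^ 2)⁻¹ by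
      simp only [mul_assoc]]
  rw [inv_mul_cancel, mul_one, pow_two (ε ^ k), mul_comm (ε ^ k * ε ^ k) ε, mul_assoc, mul_inv_cancel, mul_one]

theorem unit_sq_of_pos (hp2 : p ≠ 2) (hS : NV p k0) (hm : k0 ≤ m + 1) (r : RP p m n K L) (ε : (𝓞 L)ˣ)
    (hN : IsSquare (Algebra.norm K ((ε : 𝓞 L) : L))) (h : ∀ φ : L →+* ℝ, 0 < φ ((ε : 𝓞 L) : L)) : IsSquare ε := by
  obtain ⟨θ, hθ, δ, hδ⟩ := u2_dec hp2 hS hm r ε hN
  have hpos : ∀ φ : L →+* ℝ, 0 < φ ((r.rL.pw θ : 𝓞 L) : L) := by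
    intro φ
    have h1 := h φ
    have h2 : ((ε : 𝓞 L) : L) = ((r.rL.pw θ : 𝓞 L) : L) * ((δ : 𝓞 L) : L) ^ 2 := by
      conv_lhs => rw [hδ]
      rw [Units.val_mul, Units.val_pow_eq_pow_val]
      exact (map_mul (algebraMap (𝓞 L) L) _ _).trans (by rw [map_pow])
    rw [h2, map_mul, map_pow] at h1
    exact pos_of_mul_pos_left h1 (sq_nonneg _)
  have hev := even_of_signs hp2 hS hm r θ hθ (signs_of_pos r θ hpos)
  obtain ⟨γ, hγ⟩ := u2_pw_even r.rL θ hev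
  refine ⟨γ * δ, ?_⟩
  rw [hδ, hγ, pow_two, pow_two]
  exact mul_mul_mul_comm _ _ _ _

theorem unit_sq_of_four (hp2 : p ≠ 2) (hS : NV p k0) (hm : k0 ≤ m + 1) (r : RP p m n K L) (ε : (𝓞 L)ˣ)
    (hN : IsSquare (Algebra.norm K ((ε : 𝓞 L) : L))) {s : 𝓞 L} (h : (4 : 𝓞 L) ∣ (ε : 𝓞 L) - s ^ 2) : IsSquare ε := by
  obtain ⟨θ, hθ, δ, hδ⟩ := u2_dec hp2 hS hm r ε hN
  have h4 : (4 : 𝓞 L) ∣ (r.rL.pw θ : 𝓞 L) - (s * ((δ⁻¹ : (𝓞 L)ˣ) : 𝓞 L)) ^ 2 := by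
    have h5 : (r.rL.pw θ : 𝓞 L) - (s * ((δ⁻¹ : (𝓞 L)ˣ) : 𝓞 L)) ^ 2 =
        ((ε : 𝓞 L) - s ^ 2) * ((δ⁻¹ : (𝓞 L)ˣ) : 𝓞 L) ^ 2 := by
      have h6 : (ε : 𝓞 L) * ((δ⁻¹ : (𝓞 L)ˣ) : 𝓞 L) ^ 2 = (r.rL.pw θ : 𝓞 L) := by
        rw [← Units.val_pow_eq_pow_val, ← Units.val_mul, hδ, inv_pow, mul_inv_cancel_right]
      rw [sub_mul, h6, mul_pow]
    rw [h5]
    exact Dvd.dvd.mul_right h _
  have hev := even_of_sq hp2 hS hm r (two_red hp2 r.rL) θ hθ h4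
  obtain ⟨γ, hγ⟩ := u2_pw_even r.rL θ hev
  refine ⟨γ * δ, ?_⟩
  rw [hδ, hγ, pow_two, pow_two]
  exact mul_mul_mul_comm _ _ _ _

end H5SW
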